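import Pool.Agent.L0h21.SN.FE2

/-! Functional equations and automorphisms of the polynomial ring. -/

set_option autoImplicit false
set_option linter.unusedSectionVars false

namespace Pool.Agent.L0h21.SN

open MvPolynomial Pool.Agent.H628R4.TP

variable {σ : Type} [Fintype σ]

theorem mulLeft_mem (g : MvPolynomial σ ℂ) : LinearMap.mulLeft ℂ g ∈ weylS σ := by
  induction g using MvPolynomial.induction_on with
  | C a =>
    have : LinearMap.mulLeft ℂ (C a : MvPolynomial σ ℂ) = algebraMap ℂ _ a := by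
      apply LinearMap.ext
      intro q
      simp [Module.algebraMap_end_apply, MvPolynomial.smul_eq_C_mul]
    rw [this]
    exact Subalgebra.algebraMap_mem _ _
  | add p q hp hq =>
    have : LinearMap.mulLeft ℂ (p + q) = LinearMap.mulLeft ℂ p + LinearMap.mulLeft ℂ q := by
      apply LinearMap.ext
      intro r
      simp [add_mul]
    rw [this]
    exact Subalgebra.add_mem _ hp hq
  | mul_X p i hp =>
    have : LinearMap.mulLeft ℂ (p * X i) = LinearMap.mulLeft ℂ p * LinearMap.mulLeft ℂ (X i) := by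
      apply LinearMap.ext
      intro r
      simp
    rw [this]
    exact Subalgebra.mul_mem _ hp (Algebra.subset_adjoin (Or.inl ⟨i, rfl⟩))

theorem der_eq (D : Derivation ℂ (MvPolynomial σ ℂ) (MvPolynomial σ ℂ))
    (q : MvPolynomial σ ℂ) : D q = ∑ j, D (X j) * pderiv j q := by
  classical
  induction q using MvPolynomial.induction_on with
  | C a => simp
  | add p q hp hq => rw [map_add, hp, hq]; simp [mul_add, Finset.sum_add_distrib]
  | mul_X p i hp =>
    rw [Derivation.leibniz, hp]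
    simp only [Derivation.leibniz, smul_eq_mul, mul_add, Finset.sum_add_distrib, pderiv_X,
      Pi.single_apply, mul_ite, mul_one, mul_zero, Finset.sum_ite_eq, Finset.mem_univ, if_true,
      Finset.mul_sum]
    congr 1
    · ring
    · exact Finset.sum_congr rfl fun j _ => by ring

/-- The conjugation of operators with an automorphism. -/
noncomputable def conj (φ : MvPolynomial σ ℂ ≃ₐ[ℂ] MvPolynomial σ ℂ) :
    Module.End ℂ (MvPolynomial σ ℂ) ≃ₐ[ℂ] Module.End ℂ (MvPolynomial σ ℂ) :=
  φ.toLinearEquiv.conjAlgEquiv ℂ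

theorem conj_apply (φ : MvPolynomial σ ℂ ≃ₐ[ℂ] MvPolynomial σ ℂ)
    (Q : Module.End ℂ (MvPolynomial σ ℂ)) (q : MvPolynomial σ ℂ) :
    conj φ Q q = φ (Q (φ.symm q)) := rfl

theorem conj_mem (φ : MvPolynomial σ ℂ ≃ₐ[ℂ] MvPolynomial σ ℂ)
    (Q : Module.End ℂ (MvPolynomial σ ℂ)) (hQ : Q ∈ weylS σ) : conj φ Q ∈ weylS σ := by
  classical
  induction hQ using Algebra.adjoin_induction with
  | mem Q hQ =>
    rcases hQ with ⟨i, rfl⟩ | ⟨i, rfl⟩
    · have : conj φ (LinearMap.mulLeft ℂ (X i : MvPolynomial σ ℂ)) =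
          LinearMap.mulLeft ℂ (φ (X i)) := by
        apply LinearMap.ext
        intro q
        rw [conj_apply]
        simp
      rw [this]
      exact mulLeft_mem _
    · let D : Derivation ℂ (MvPolynomial σ ℂ) (MvPolynomial σ ℂ) :=
        Derivation.mk' (conj φ ((pderiv i : Derivation ℂ (MvPolynomial σ ℂ)
          (MvPolynomial σ ℂ)) : MvPolynomial σ ℂ →ₗ[ℂ] MvPolynomial σ ℂ)) (by
          intro a b
          rw [conj_apply, conj_apply, conj_apply]
          simp only [map_mul, Derivation.coeFn_coe, Derivation.leibniz, smul_eq_mul, map_add,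
            AlgEquiv.apply_symm_apply])
      have h1 : conj φ ((pderiv i : Derivation ℂ (MvPolynomial σ ℂ)
          (MvPolynomial σ ℂ)) : MvPolynomial σ ℂ →ₗ[ℂ] MvPolynomial σ ℂ) =
          ∑ j, LinearMap.mulLeft ℂ (D (X j)) * ((pderiv j : Derivation ℂ (MvPolynomial σ ℂ)
          (MvPolynomial σ ℂ)) : MvPolynomial σ ℂ →ₗ[ℂ] MvPolynomial σ ℂ) := by
        apply LinearMap.ext
        intro q
        have h3 : conj φ ((pderiv i : Derivation ℂ (MvPolynomial σ ℂ)
          (MvPolynomial σ ℂ)) : MvPolynomial σ ℂ →ₗ[ℂ] MvPolynomial σ ℂ) q = D q := rfl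
        rw [h3, der_eq D q, LinearMap.sum_apply]
        rfl
      rw [h1]
      exact Subalgebra.sum_mem _ fun j _ => Subalgebra.mul_mem _ (mulLeft_mem _)
        (Algebra.subset_adjoin (Or.inr ⟨j, rfl⟩))
  | algebraMap c =>
    rw [AlgEquiv.commutes]
    exact Subalgebra.algebraMap_mem _ _
  | add Q R _ _ hQ hR =>
    rw [map_add]
    exact Subalgebra.add_mem _ hQ hR
  | mul Q R _ _ hQ hR =>
    rw [map_mul]
    exact Subalgebra.mul_mem _ hQ hR

/-- A functional equation of `f` gives one of `φ f`. -/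
theorem isB_aut (φ : MvPolynomial σ ℂ ≃ₐ[ℂ] MvPolynomial σ ℂ) (f : MvPolynomial σ ℂ)
    (b : Polynomial ℂ) (hb : IsBFunction f b) : IsBFunction (φ f) b := by
  obtain ⟨P, hP⟩ := hb
  refine ⟨P.mapRange (fun Q => ⟨conj φ Q.1, conj_mem φ Q.1 Q.2⟩)
    (by ext; simp), fun s => ?_⟩
  have h1 := congrArg φ (hP s)
  rw [map_mul, map_pow, Finsupp.sum, map_sum] at h1
  have h2 : φ (C (b.eval (s : ℂ))) = C (b.eval (s : ℂ)) := φ.commutes _
  rw [h2] at h1
  rw [h1, Finsupp.sum_mapRange_index (by simp), Finsupp.sum]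
  refine Finset.sum_congr rfl fun m _ => ?_
  rw [map_smul, conj_apply, ← map_pow φ, φ.symm_apply_apply]

end Pool.Agent.L0h21.SN
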