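import Pool.Agent.L0h21.SN.Homog

/-! The lowest weighted homogeneous component of a polynomial. -/

set_option autoImplicit false
set_option linter.unusedSectionVars false

namespace Pool.Agent.L0h21.SN

open MvPolynomial

section

variable {σ K : Type} [CommRing K] (w : σ → ℕ)

/-- The components of degree less than `a` vanish. -/
def OrdGE (a : ℕ) (p : MvPolynomial σ K) : Prop :=
  ∀ e < a, weightedHomogeneousComponent w e p = 0

theorem ordGE_iff (a : ℕ) (p : MvPolynomial σ K) :
    OrdGE w a p ↔ ∀ m, coeff m p ≠ 0 → a ≤ Finsupp.weight w m := by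
  constructor
  · intro h m hm
    by_contra hlt
    have h1 := congrArg (coeff m) (h (Finsupp.weight w m) (by omega))
    rw [coeff_weightedHomogeneousComponent, if_pos rfl, coeff_zero] at h1
    exact hm h1
  · intro h e he
    ext m
    rw [coeff_weightedHomogeneousComponent, coeff_zero]
    split_ifs with hm
    · by_contra h1
      have := h m h1
      omega
    · rfl

variable {w}

theorem OrdGE.zero (a : ℕ) : OrdGE w a (0 : MvPolynomial σ K) := fun _ _ => map_zero _

theorem OrdGE.mono {a b : ℕ} {p : MvPolynomial σ K} (h : OrdGE w a p) (hb : b ≤ a) :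
    OrdGE w b p := fun e he => h e (by omega)

theorem OrdGE.of_zero (p : MvPolynomial σ K) : OrdGE w 0 p := fun e he => by omega

theorem OrdGE.add {a : ℕ} {p q : MvPolynomial σ K} (h : OrdGE w a p) (h' : OrdGE w a q) :
    OrdGE w a (p + q) := fun e he => by rw [map_add, h e he, h' e he, add_zero]

theorem OrdGE.neg {a : ℕ} {p : MvPolynomial σ K} (h : OrdGE w a p) : OrdGE w a (-p) :=
  fun e he => by rw [map_neg, h e he, neg_zero]

theorem OrdGE.sub {a : ℕ} {p q : MvPolynomial σ K} (h : OrdGE w a p) (h' : OrdGE w a q) :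
    OrdGE w a (p - q) := by rw [sub_eq_add_neg]; exact h.add h'.neg

theorem OrdGE.mul {a b : ℕ} {p q : MvPolynomial σ K} (h : OrdGE w a p) (h' : OrdGE w b q) :
    OrdGE w (a + b) (p * q) := by
  classical
  rw [ordGE_iff] at h h' ⊢
  intro m hm
  rw [coeff_mul] at hm
  obtain ⟨x, hx, hx'⟩ := Finset.exists_ne_zero_of_sum_ne_zero hm
  have h2 : x.1 + x.2 = m := Finset.HasAntidiagonal.mem_antidiagonal.mp hx
  have h3 := h x.1 (left_ne_zero_of_mul hx')
  have h4 := h' x.2 (right_ne_zero_of_mul hx')
  rw [← h2, map_add]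
  omega

theorem OrdGE.C_mul {a : ℕ} {p : MvPolynomial σ K} (h : OrdGE w a p) (c : K) :
    OrdGE w a (C c * p) := by
  have := (OrdGE.of_zero (w := w) (C c : MvPolynomial σ K)).mul h
  rwa [zero_add] at this

theorem OrdGE.of_hom {a : ℕ} {p : MvPolynomial σ K} (h : IsWeightedHomogeneous w p a) :
    OrdGE w a p := by
  rw [ordGE_iff]
  intro m hm
  exact (h hm).ge

theorem OrdGE.sum {ι : Type} (s : Finset ι) {a : ℕ} {p : ι → MvPolynomial σ K}
    (h : ∀ i ∈ s, OrdGE w a (p i)) : OrdGE w a (∑ i ∈ s, p i) := by
  intro e he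
  rw [map_sum]
  exact Finset.sum_eq_zero fun i hi => h i hi e he

theorem ord_succ {a : ℕ} {p : MvPolynomial σ K} (h : OrdGE w a p) :
    OrdGE w (a + 1) (p - weightedHomogeneousComponent w a p) := by
  intro e he
  rw [map_sub]
  rcases Nat.lt_succ_iff_lt_or_eq.mp he with h1 | rfl
  · rw [h e h1, (weightedHomogeneousComponent_isWeightedHomogeneous a p).weightedHomogeneousComponent_ne
      e (by omega), sub_zero]
  · rw [(weightedHomogeneousComponent_isWeightedHomogeneous e p).weightedHomogeneousComponent_same,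
      sub_self]

theorem low_mul {a b : ℕ} {p q : MvPolynomial σ K} (h : OrdGE w a p) (h' : OrdGE w b q) :
    weightedHomogeneousComponent w (a + b) (p * q) =
      weightedHomogeneousComponent w a p * weightedHomogeneousComponent w b q := by
  set p' := weightedHomogeneousComponent w a p with hp
  set q' := weightedHomogeneousComponent w b q with hq
  have h1 : p * q = p' * q' + ((p - p') * q + p' * (q - q')) := by ring
  have h2 : OrdGE w (a + b + 1) ((p - p') * q + p' * (q - q')) := by
    refine OrdGE.add ?_ ?_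
    · have := (ord_succ h).mul h'
      rwa [add_right_comm] at this
    · have := (OrdGE.of_hom (weightedHomogeneousComponent_isWeightedHomogeneous a p)).mul
        (ord_succ h')
      rwa [← add_assoc] at this
  rw [h1, map_add, h2 _ (Nat.lt_succ_self _), add_zero]
  exact ((weightedHomogeneousComponent_isWeightedHomogeneous a p).mul
    (weightedHomogeneousComponent_isWeightedHomogeneous b q)).weightedHomogeneousComponent_same

variable (w)

/-- The component of degree `e` of `p` is `q`, and the components of smaller degrees vanish. -/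
def LowC (e : ℕ) (p q : MvPolynomial σ K) : Prop :=
  OrdGE w e p ∧ weightedHomogeneousComponent w e p = q

variable {w}

theorem LowC.hom {e : ℕ} {p q : MvPolynomial σ K} (h : LowC w e p q) :
    IsWeightedHomogeneous w q e := by
  rw [← h.2]; exact weightedHomogeneousComponent_isWeightedHomogeneous e p

theorem LowC.mul {e e' : ℕ} {p q p' q' : MvPolynomial σ K} (h : LowC w e p q)
    (h' : LowC w e' p' q') : LowC w (e + e') (p * p') (q * q') :=
  ⟨h.1.mul h'.1, by rw [low_mul h.1 h'.1, h.2, h'.2]⟩

theorem LowC.C (c : K) : LowC w 0 (MvPolynomial.C c) (MvPolynomial.C c) :=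
  ⟨OrdGE.of_zero _, (isWeightedHomogeneous_C w c).weightedHomogeneousComponent_same⟩

theorem LowC.one : LowC w 0 (1 : MvPolynomial σ K) 1 := by
  have := LowC.C (w := w) (1 : K)
  rwa [map_one] at this

theorem LowC.pow {e : ℕ} {p q : MvPolynomial σ K} (h : LowC w e p q) (n : ℕ) :
    LowC w (n * e) (p ^ n) (q ^ n) := by
  induction n with
  | zero => simpa using LowC.one
  | succ n ih =>
    rw [pow_succ, pow_succ, Nat.succ_mul]
    exact ih.mul h

theorem LowC.prod {ι : Type} (s : Finset ι) {e : ι → ℕ} {p q : ι → MvPolynomial σ K}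
    (h : ∀ i ∈ s, LowC w (e i) (p i) (q i)) :
    LowC w (∑ i ∈ s, e i) (∏ i ∈ s, p i) (∏ i ∈ s, q i) := by
  classical
  induction s using Finset.induction_on with
  | empty => simpa using LowC.one
  | insert a s ha ih =>
    rw [Finset.sum_insert ha, Finset.prod_insert ha, Finset.prod_insert ha]
    exact (h a (Finset.mem_insert_self _ _)).mul
      (ih fun i hi => h i (Finset.mem_insert_of_mem hi))

theorem exists_low (w : σ → ℕ) (p : MvPolynomial σ K) (hp : p ≠ 0) :
    ∃ e q, LowC w e p q ∧ q ≠ 0 := by
  classical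
  have h1 : ∃ e, weightedHomogeneousComponent w e p ≠ 0 := by
    obtain ⟨m, hm⟩ := ne_zero_iff.mp hp
    refine ⟨Finsupp.weight w m, fun h => hm ?_⟩
    have := congrArg (coeff m) h
    rwa [coeff_weightedHomogeneousComponent, if_pos rfl, coeff_zero] at this
  refine ⟨Nat.find h1, _, ⟨fun e he => ?_, rfl⟩, Nat.find_spec h1⟩
  exact not_not.mp (Nat.find_min h1 he)

end

section

variable {σ K : Type} [Fintype σ] [Field K] [CharZero K] {w : σ → ℕ}

theorem OrdGE.pderiv {a : ℕ} {p : MvPolynomial σ K} (v : σ)
    (h : OrdGE w (a + w v) p) : OrdGE w a (MvPolynomial.pderiv v p) := by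
  intro e he
  rw [whc_pderiv, h _ (by omega), map_zero]

end

end Pool.Agent.L0h21.SN
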