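import Pool.Agent.L0h21.SN.FE

/-! Two consequences of functional equations. -/

set_option autoImplicit false
set_option linter.unusedSectionVars false

namespace Pool.Agent.L0h21.SN

open MvPolynomial Pool.Agent.H628R4.TP

variable {σ : Type} [Fintype σ] {f : MvPolynomial σ ℂ}

/-- The root `-1/m` for a component of multiplicity `m`. -/
theorem strict_root (g h : MvPolynomial σ ℂ) (m : ℕ) (hm : 0 < m) (hgh : ∀ k : ℕ, ¬ g ∣ h ^ k)
    (hg0 : g ≠ 0) (hh0 : h ≠ 0) (b : Polynomial ℂ) (hb : IsBFunction (g ^ m * h) b) :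
    b.eval (-1 / (m : ℂ)) = 0 := by
  set f := g ^ m * h with hf
  have hf0 : f ≠ 0 := mul_ne_zero (pow_ne_zero _ hg0) hh0
  set s₀ : ℂ := -1 / (m : ℂ) with hs₀
  have hm' : (m : ℂ) ≠ 0 := by exact_mod_cast hm.ne'
  have hms : s₀ * m = -1 := by rw [hs₀]; field_simp
  let p : ℕ → (ℂ → MvPolynomial σ ℂ) → Prop := fun k Γ => g ^ (k * m + 1) ∣ Γ s₀
  have hp : Good f p Set.univ := by
    refine ⟨fun k Γ Δ h1 h2 => dvd_add h1 h2, fun k Γ Δ h1 => h1.mul_left _, ?_, ?_⟩
    · intro k Γ ⟨A, hA⟩
      refine ⟨h * A, ?_⟩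
      show f * Γ s₀ = _
      rw [hA, hf]
      ring
    · intro k Γ v _ _ ⟨A, hA⟩
      refine ⟨h * pderiv v A + MvPolynomial.C (s₀ - k) * A * pderiv v h, ?_⟩
      show f * pderiv v (Γ s₀) + C (s₀ - k) * Γ s₀ * pderiv v f = _
      have h1 : pderiv v (g ^ (k * m + 1)) = (C ((k : ℂ) * m + 1)) * g ^ (k * m) * pderiv v g := by
        rw [Derivation.leibniz_pow, Nat.add_sub_cancel]
        simp only [smul_eq_mul, nsmul_eq_mul]
        push_cast
        simp only [map_add, map_mul, map_natCast, map_one]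
        ring
      have h2 : g * pderiv v (g ^ m) = C (m : ℂ) * g ^ m * pderiv v g := by
        rw [Derivation.leibniz_pow]
        simp only [smul_eq_mul, nsmul_eq_mul, map_natCast]
        obtain ⟨m, rfl⟩ : ∃ n, m = n + 1 := ⟨m - 1, by omega⟩
        rw [Nat.add_sub_cancel, pow_succ]
        ring
      have h3 : (C (s₀ - k) * C (m : ℂ) : MvPolynomial σ ℂ) = - C ((k : ℂ) * m + 1) := by
        rw [← map_mul, ← map_neg]
        congr 1
        linear_combination hms
      rw [hA, hf, Derivation.leibniz, Derivation.leibniz, h1]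
      simp only [smul_eq_mul]
      have h4 : g ^ (k * m + 1) = g ^ (k * m) * g := pow_succ _ _
      have h5 : g ^ ((k + 1) * m + 1) = g ^ (k * m) * g * g ^ m := by ring
      rw [h5, h4]
      linear_combination (C (s₀ - k) * (g ^ (k * m)) * A * h) * h2 +
        (g ^ (k * m) * g ^ m * A * h * pderiv v g) * h3
  obtain ⟨P, hP⟩ := hb
  have h1 : MF f p fun s => f ^ (s + 1) := by
    refine ⟨0, fun _ => f, PF.const f, ?_, fun s => by ring⟩
    show g ^ (0 * m + 1) ∣ f
    rw [zero_mul, zero_add, pow_one, hf]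
    exact (dvd_pow_self g hm.ne').mul_right _
  let P' : ℕ →₀ Module.End ℂ (MvPolynomial σ ℂ) := P.mapRange Subtype.val rfl
  have h2 := MF.total hp (by show g ^ (0 * m + 1) ∣ 0; exact dvd_zero _) P' (fun m => by
    rw [weylV_univ]; exact (P m).2) h1
  obtain ⟨k, Γ, h3, h4, h5⟩ := h2
  have h6 : ∀ s : ℕ, (P'.sum fun m Q => ((s : ℂ) ^ m) • Q (f ^ (s + 1))) =
      C (b.eval (s : ℂ)) * f ^ s := by
    intro s
    rw [hP s]
    exact Finsupp.sum_mapRange_index (by simp)
  have h7 : ∀ s : ℂ, C (b.eval s) * f ^ k - Γ s = 0 := by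
    have h8 : PF fun s : ℂ => C (b.eval s) * f ^ k - Γ s := by
      have := ((PF.C b).mul (PF.const (f ^ k))).add ((PF.const (-1)).mul h3)
      simpa [sub_eq_add_neg] using this
    refine h8.eq_zero fun n => ?_
    have h9 := h5 n
    simp only [h6] at h9
    have h10 : (C (b.eval (n : ℂ)) * f ^ k - Γ n) * f ^ n = 0 := by
      rw [sub_mul, ← h9]; ring
    exact (mul_eq_zero.mp h10).resolve_right (pow_ne_zero _ hf0)
  by_contra hne
  have h8 : g ^ (k * m + 1) ∣ C (b.eval s₀) * f ^ k := by
    rw [sub_eq_zero.mp (h7 s₀)]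
    exact h4
  have h9 : g ^ (k * m + 1) ∣ f ^ k := by
    have := h8.mul_left (C ((b.eval s₀)⁻¹))
    rwa [← mul_assoc, ← map_mul, inv_mul_cancel₀ hne, map_one, one_mul] at this
  rw [hf, mul_pow, ← pow_mul, mul_comm m k, pow_succ] at h9
  exact hgh k ((mul_dvd_mul_iff_left (pow_ne_zero _ hg0)).mp h9)

/-- A partial derivative as an operator. -/
noncomputable def pd (v : σ) : Module.End ℂ (MvPolynomial σ ℂ) :=
  ((pderiv v : Derivation ℂ (MvPolynomial σ ℂ) (MvPolynomial σ ℂ)) :
    MvPolynomial σ ℂ →ₗ[ℂ] MvPolynomial σ ℂ)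

theorem weylV_le (V : Set σ) : weylV V ≤ weylS σ := by
  rw [← weylV_univ]
  exact Algebra.adjoin_mono (Set.union_subset_union_right _ (Set.image_mono (Set.subset_univ _)))

theorem pd_mem (v : σ) : pd v ∈ weylS σ :=
  Algebra.subset_adjoin (Or.inr ⟨v, rfl⟩)

theorem comm_mem (V : Set σ) (v : σ) (R : Module.End ℂ (MvPolynomial σ ℂ)) (hR : R ∈ weylV V) :
    pd v * R - R * pd v ∈ weylV V := by
  classical
  induction hR using Algebra.adjoin_induction with
  | mem Q hQ =>
    rcases hQ with ⟨i, rfl⟩ | ⟨i, hi, rfl⟩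
    · have : pd v * LinearMap.mulLeft ℂ (X i : MvPolynomial σ ℂ) -
          LinearMap.mulLeft ℂ (X i : MvPolynomial σ ℂ) * pd v =
          algebraMap ℂ _ (if i = v then 1 else 0) := by
        apply LinearMap.ext
        intro q
        simp only [LinearMap.sub_apply, Module.End.mul_apply, LinearMap.mulLeft_apply, pd,
          Derivation.coeFn_coe, Derivation.leibniz, pderiv_X, Module.algebraMap_end_apply]
        by_cases h : i = v
        · subst h; simp
        · simp [h, Pi.single_apply, Ne.symm h]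
      rw [this]
      exact Subalgebra.algebraMap_mem _ _
    · have : pd v * pd i - pd i * pd v = 0 := by
        apply LinearMap.ext
        intro q
        simp [pd, pderiv_comm' v i q]
      show pd v * pd i - pd i * pd v ∈ _
      rw [this]
      exact Subalgebra.zero_mem _
  | algebraMap c =>
    rw [← Algebra.commutes c (pd v), sub_self]
    exact Subalgebra.zero_mem _
  | add Q R _ _ hQ hR =>
    have : pd v * (Q + R) - (Q + R) * pd v = (pd v * Q - Q * pd v) + (pd v * R - R * pd v) := by
      noncomm_ring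
    rw [this]
    exact Subalgebra.add_mem _ hQ hR
  | mul Q R hQ' hR' hQ hR =>
    have : pd v * (Q * R) - (Q * R) * pd v = (pd v * Q - Q * pd v) * R +
        Q * (pd v * R - R * pd v) := by
      simp only [sub_mul, mul_sub, mul_assoc]
      abel
    rw [this]
    exact Subalgebra.add_mem _ (Subalgebra.mul_mem _ hQ hR') (Subalgebra.mul_mem _ hQ' hR)

theorem decomp (V : Set σ) (Q : Module.End ℂ (MvPolynomial σ ℂ)) (hQ : Q ∈ weylS σ)
    (R : Module.End ℂ (MvPolynomial σ ℂ)) (hR : R ∈ weylV V) :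
    ∃ R' ∈ weylV V, ∃ q : σ → Module.End ℂ (MvPolynomial σ ℂ), (∀ v, q v ∈ weylS σ) ∧
      (∀ v ∈ V, q v = 0) ∧ R * Q = R' + ∑ v, pd v * q v := by
  classical
  induction hQ using Algebra.adjoin_induction generalizing R with
  | mem Q hQ =>
    rcases hQ with ⟨i, rfl⟩ | ⟨i, rfl⟩
    · exact ⟨_, Subalgebra.mul_mem _ hR (Algebra.subset_adjoin (Or.inl ⟨i, rfl⟩)), 0,
        fun v => Subalgebra.zero_mem _, fun v _ => rfl, by simp⟩
    · by_cases hi : i ∈ V
      · exact ⟨_, Subalgebra.mul_mem _ hR (Algebra.subset_adjoin (Or.inr ⟨i, hi, rfl⟩)), 0,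
          fun v => Subalgebra.zero_mem _, fun v _ => rfl, by simp⟩
      · refine ⟨-(pd i * R - R * pd i), Subalgebra.neg_mem _ (comm_mem V i R hR),
          Pi.single i R, fun v => ?_, fun v hv => ?_, ?_⟩
        · by_cases h : v = i
          · subst h; rw [Pi.single_eq_same]; exact weylV_le V hR
          · rw [Pi.single_eq_of_ne h]; exact Subalgebra.zero_mem _
        · have h : v ≠ i := fun h => hi (h ▸ hv)
          rw [Pi.single_eq_of_ne h]
        · rw [Finset.sum_eq_single i, Pi.single_eq_same]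
          · show R * pd i = _
            abel
          · intro v _ hv
            rw [Pi.single_eq_of_ne hv, mul_zero]
          · simp
  | algebraMap c =>
    exact ⟨_, Subalgebra.mul_mem _ hR (Subalgebra.algebraMap_mem _ c), 0,
      fun v => Subalgebra.zero_mem _, fun v _ => rfl, by simp⟩
  | add Q1 Q2 _ _ h1 h2 =>
    obtain ⟨R1, hR1, q1, h3, h4, h5⟩ := h1 R hR
    obtain ⟨R2, hR2, q2, h6, h7, h8⟩ := h2 R hR
    refine ⟨R1 + R2, Subalgebra.add_mem _ hR1 hR2, fun v => q1 v + q2 v,
      fun v => Subalgebra.add_mem _ (h3 v) (h6 v), fun v hv => by show q1 v + q2 v = 0; rw [h4 v hv, h7 v hv, add_zero],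
      ?_⟩
    rw [mul_add, h5, h8]
    simp only [mul_add, Finset.sum_add_distrib]
    abel
  | mul Q1 Q2 hQ1 hQ2 h1 h2 =>
    obtain ⟨R1, hR1, q1, h3, h4, h5⟩ := h1 R hR
    obtain ⟨R2, hR2, q2, h6, h7, h8⟩ := h2 R1 hR1
    refine ⟨R2, hR2, fun v => q2 v + q1 v * Q2, fun v => Subalgebra.add_mem _ (h6 v)
      (Subalgebra.mul_mem _ (h3 v) hQ2), fun v hv => by
        show q2 v + q1 v * Q2 = 0
        rw [h4 v hv, h7 v hv, zero_mul, add_zero],
      ?_⟩
    rw [← mul_assoc, h5, add_mul, h8, Finset.sum_mul]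
    simp only [mul_add, Finset.sum_add_distrib, mul_assoc]
    abel

theorem whc_lt {w : σ → ℕ} {d : ℕ} (hf : IsWeightedHomogeneous w f d) {q : MvPolynomial σ ℂ}
    {c : ℕ} (hq : ∀ e < c, weightedHomogeneousComponent w e q = 0) :
    ∀ e < c + d, weightedHomogeneousComponent w e (q * f) = 0 := by
  intro e he
  by_cases h : d ≤ e
  · obtain ⟨e', rfl⟩ : ∃ e', e = e' + d := ⟨e - d, by omega⟩
    rw [whc_mul w hf, hq e' (by omega), zero_mul]
  · classical
    ext m
    rw [coeff_weightedHomogeneousComponent, coeff_zero]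
    split_ifs with hm
    · rw [coeff_mul]
      refine Finset.sum_eq_zero fun x hx => ?_
      by_cases h0 : coeff x.2 f = 0
      · rw [h0, mul_zero]
      · exfalso
        have h1 := hf h0
        have h2 : x.1 + x.2 = m := Finset.HasAntidiagonal.mem_antidiagonal.mp hx
        have h3 : Finsupp.weight w x.1 + Finsupp.weight w x.2 = e := by rw [← map_add, h2, hm]
        omega
    · rfl

/-- The functional equation at `s₀`: only the divergence part of the operator matters. -/
theorem fe_div (w : σ → ℕ) (f : MvPolynomial σ ℂ) (d : ℕ) (hd : 0 < d)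
    (hf : IsWeightedHomogeneous w f d) (hf0 : f ≠ 0) (b : Polynomial ℂ) (hb : IsBFunction f b)
    (s₀ : ℂ) :
    ∃ (k : ℕ) (g : σ → MvPolynomial σ ℂ), (∀ v, w v = 0 → g v = 0) ∧
      C (b.eval s₀) * f ^ (k + 1) = f * dvg g + C (s₀ - k) * act g f := by
  classical
  set V : Set σ := {v | w v = 0} with hV
  obtain ⟨P, hP⟩ := hb
  have hdec := fun m => decomp V (P m : Module.End ℂ (MvPolynomial σ ℂ)) (P m).2 1
    (Subalgebra.one_mem _)
  choose R hR q hq hq0 hRq using hdec
  -- the part without derivatives with respect to the variables of positive weight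
  let p : ℕ → (ℂ → MvPolynomial σ ℂ) → Prop := fun k Γ =>
    ∀ s, ∀ e < d * (k + 1), weightedHomogeneousComponent w e (Γ s) = 0
  have hp : Good f p V := by
    refine ⟨fun k Γ Δ h1 h2 s e he => by
        show weightedHomogeneousComponent w e (Γ s + Δ s) = 0
        rw [map_add, h1 s e he, h2 s e he, add_zero], ?_, ?_, ?_⟩
    · intro k Γ Δ h1 s e he
      show weightedHomogeneousComponent w e (Δ s * Γ s) = 0
      ext m
      rw [coeff_weightedHomogeneousComponent, coeff_zero]
      split_ifs with hm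
      · rw [coeff_mul]
        refine Finset.sum_eq_zero fun x hx => ?_
        have h2 : x.1 + x.2 = m := Finset.HasAntidiagonal.mem_antidiagonal.mp hx
        have h3 : Finsupp.weight w x.1 + Finsupp.weight w x.2 = e := by rw [← map_add, h2, hm]
        have h4 := congrArg (coeff x.2) (h1 s (Finsupp.weight w x.2) (by omega))
        rw [coeff_weightedHomogeneousComponent, if_pos rfl, coeff_zero] at h4
        rw [h4, mul_zero]
      · rfl
    · intro k Γ h1 s e he
      show weightedHomogeneousComponent w e (f * Γ s) = 0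
      rw [mul_comm]
      exact whc_lt hf (h1 s) e (by rw [mul_add, mul_one] at he; exact he)
    · intro k Γ v hv _ h1 s e he
      have hwv : w v = 0 := hv
      show weightedHomogeneousComponent w e
        (f * pderiv v (Γ s) + C (s - k) * Γ s * pderiv v f) = 0
      have h2 : IsWeightedHomogeneous w (pderiv v f) d := hf.pderiv (by rw [hwv, add_zero])
      have h3 : ∀ e < d * (k + 1), weightedHomogeneousComponent w e (pderiv v (Γ s)) = 0 := by
        intro e he
        rw [whc_pderiv, hwv, add_zero, h1 s e he, map_zero]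
      have h4 : ∀ e < d * (k + 1), weightedHomogeneousComponent w e (C (s - k) * Γ s) = 0 := by
        intro e he
        rw [weightedHomogeneousComponent_C_mul, h1 s e he, mul_zero]
      rw [map_add, mul_comm f, whc_lt hf h3 e (by rw [mul_add, mul_one] at he; exact he),
        whc_lt h2 h4 e (by rw [mul_add, mul_one] at he; exact he), add_zero]
  have h1 : MF f p fun s => f ^ (s + 1) := by
    refine ⟨0, fun _ => f, PF.const f, ?_, fun s => by ring⟩
    intro s e he
    exact hf.weightedHomogeneousComponent_ne e (by omega)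
  let pR : ℕ →₀ Module.End ℂ (MvPolynomial σ ℂ) :=
    Finsupp.onFinset P.support (fun m => if m ∈ P.support then R m else 0) (by
      intro m hm
      by_contra h
      simp [h] at hm)
  have h2 := MF.total hp (by intro s e _; simp) pR (fun m => by
    show (if m ∈ P.support then R m else 0) ∈ _
    split_ifs
    · exact hR m
    · exact Subalgebra.zero_mem _) h1
  -- the other parts
  have hp' : Good f (fun _ _ => True) (Set.univ : Set σ) :=
    ⟨fun _ _ _ _ _ => trivial, fun _ _ _ _ => trivial, fun _ _ _ => trivial,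
      fun _ _ _ _ _ _ => trivial⟩
  have h1' : MF f (fun _ _ => True) fun s => f ^ (s + 1) :=
    ⟨0, fun _ => f, PF.const f, trivial, fun s => by ring⟩
  let pq : σ → ℕ →₀ Module.End ℂ (MvPolynomial σ ℂ) := fun v =>
    Finsupp.onFinset P.support (fun m => if m ∈ P.support then q m v else 0) (by
      intro m hm
      by_contra h
      simp [h] at hm)
  have h3 := fun v => MF.total hp' trivial (pq v) (fun m => by
    show (if m ∈ P.support then q m v else 0) ∈ _
    rw [weylV_univ]
    split_ifs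
    · exact hq m v
    · exact Subalgebra.zero_mem _) h1'
  obtain ⟨k₀, Γ₀, hΓ₀, hpΓ₀, hΓ₀'⟩ := h2
  choose k Γ hΓ _ hΓ' using h3
  set K := k₀ + ∑ v, k v with hK
  obtain ⟨Δ₀, hΔ₀, hpΔ₀, hΔ₀'⟩ := MF.raise hp hΓ₀ hpΓ₀ hΓ₀' (∑ v, k v)
  have h4 : ∀ v, ∃ Δ : ℂ → MvPolynomial σ ℂ, PF Δ ∧ ∀ s : ℕ,
      f ^ K * ((pq v).sum fun m Q => ((s : ℂ) ^ m) • Q (f ^ (s + 1))) = Δ s * f ^ s := by
    intro v
    have hle : k v ≤ ∑ v, k v := Finset.single_le_sum (fun _ _ => Nat.zero_le _)
      (Finset.mem_univ v)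
    obtain ⟨Δ, h5, -, h6⟩ := MF.raise hp' (hΓ v) trivial (hΓ' v) (K - k v)
    have h7 : k v + (K - k v) = K := by omega
    rw [h7] at h6
    exact ⟨Δ, h5, h6⟩
  choose Δ hΔ hΔ' using h4
  have hdecomp : ∀ s : ℕ, C (b.eval (s : ℂ)) * f ^ s =
      (pR.sum fun m Q => ((s : ℂ) ^ m) • Q (f ^ (s + 1))) +
        ∑ v, pderiv v ((pq v).sum fun m Q => ((s : ℂ) ^ m) • Q (f ^ (s + 1))) := by
    intro s
    rw [hP s, Finsupp.sum, Finsupp.onFinset_sum _ (by simp)]
    have h5 : ∀ v, ((pq v).sum fun m Q => ((s : ℂ) ^ m) • Q (f ^ (s + 1))) =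
        ∑ m ∈ P.support, ((s : ℂ) ^ m) • (q m v) (f ^ (s + 1)) := by
      intro v
      rw [Finsupp.onFinset_sum _ (by simp)]
      exact Finset.sum_congr rfl fun m hm => by rw [if_pos hm]
    simp only [h5]
    have h6 : ∀ v, pderiv v (∑ m ∈ P.support, ((s : ℂ) ^ m) • (q m v) (f ^ (s + 1))) =
        ∑ m ∈ P.support, ((s : ℂ) ^ m) • pderiv v ((q m v) (f ^ (s + 1))) := by
      intro v
      rw [map_sum]
      exact Finset.sum_congr rfl fun m _ => by rw [Derivation.map_smul]
    simp only [h6]
    rw [Finset.sum_comm, ← Finset.sum_add_distrib]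
    refine Finset.sum_congr rfl fun m hm => ?_
    rw [if_pos hm, ← Finset.smul_sum, ← smul_add]
    congr 1
    have h7 := hRq m
    rw [one_mul] at h7
    rw [h7]
    simp [pd, LinearMap.sum_apply]
  have hfin : ∀ s : ℂ, C (b.eval s) * f ^ (K + 1) - (f * Δ₀ s + ∑ v, (f * pderiv v (Δ v s) +
      C (s - K) * Δ v s * pderiv v f)) = 0 := by
    have h8 : PF fun s : ℂ => C (b.eval s) * f ^ (K + 1) - (f * Δ₀ s +
        ∑ v, (f * pderiv v (Δ v s) + C (s - K) * Δ v s * pderiv v f)) := by
      have h9 : PF fun s : ℂ => (C (s - K) : MvPolynomial σ ℂ) := by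
        have := PF.C (σ := σ) (Polynomial.X - Polynomial.C (K : ℂ))
        simpa using this
      have h10 := PF.sum Finset.univ (fun v s => f * pderiv v (Δ v s) +
        C (s - K) * Δ v s * pderiv v f) fun v _ =>
          ((PF.const f).mul ((hΔ v).pderiv v)).add ((h9.mul (hΔ v)).mul (PF.const (pderiv v f)))
      have h11 := ((PF.C b).mul (PF.const (f ^ (K + 1)))).add ((PF.const (-1)).mul
        (((PF.const f).mul hΔ₀).add h10))
      simpa [sub_eq_add_neg] using h11
    refine h8.eq_zero fun s => ?_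
    refine (mul_eq_zero.mp ?_).resolve_right (pow_ne_zero s hf0)
    have h12 := hdecomp s
    have h13 := hΔ₀' s
    rw [← hK] at h13
    have h14 : ∀ v, f ^ (K + 1) * pderiv v
        ((pq v).sum fun m Q => ((s : ℂ) ^ m) • Q (f ^ (s + 1))) =
        (f * pderiv v (Δ v s) + C ((s : ℂ) - K) * Δ v s * pderiv v f) * f ^ s := by
      intro v
      have h15 := congrArg (pderiv v) (hΔ' v s)
      rw [Derivation.leibniz, Derivation.leibniz, Derivation.leibniz_pow,
        Derivation.leibniz_pow] at h15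
      simp only [smul_eq_mul, nsmul_eq_mul] at h15
      have h5 : f * ((s : MvPolynomial σ ℂ) * (f ^ (s - 1) * pderiv v f)) =
          (s : MvPolynomial σ ℂ) * f ^ s * pderiv v f := by
        rcases s with _ | s
        · simp
        · rw [Nat.add_sub_cancel, pow_succ]; ring
      have h6 : f * ((K : MvPolynomial σ ℂ) * (f ^ (K - 1) * pderiv v f)) =
          (K : MvPolynomial σ ℂ) * f ^ K * pderiv v f := by
        rcases K with _ | K
        · simp
        · rw [Nat.add_sub_cancel, pow_succ]; ring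
      have h7 : (C ((s : ℂ) - K) : MvPolynomial σ ℂ) = s - K := by
        rw [map_sub, map_natCast, map_natCast]
      rw [h7]
      linear_combination f * h15 + (Δ v s) * h5 -
        ((pq v).sum fun m Q => ((s : ℂ) ^ m) • Q (f ^ (s + 1))) * h6 -
        (K : MvPolynomial σ ℂ) * pderiv v f * hΔ' v s
    have h16 := congrArg (fun z => f ^ (K + 1) * z) h12
    simp only [mul_add, Finset.mul_sum, h14] at h16
    have h17 : f ^ (K + 1) * (pR.sum fun m Q => ((s : ℂ) ^ m) • Q (f ^ (s + 1))) =
        f * Δ₀ s * f ^ s := by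
      rw [pow_succ, mul_comm (f ^ K) f, mul_assoc, h13]
      ring
    rw [h17, ← Finset.sum_mul] at h16
    rw [sub_mul, add_mul, ← h16]
    ring
  -- the component of degree `d (K + 1)`
  have h18 := hfin s₀
  rw [sub_eq_zero] at h18
  have h19 := congrArg (weightedHomogeneousComponent w (d * (K + 1))) h18
  refine ⟨K, fun v => if w v = 0 then 0 else
    weightedHomogeneousComponent w (d * K + w v) (Δ v s₀), fun v hv => if_pos hv, ?_⟩
  have hg : (fun v => if w v = 0 then 0 else
      weightedHomogeneousComponent w (d * K + w v) (Δ v s₀)) =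
      fun v => weightedHomogeneousComponent w (d * K + w v) (Δ v s₀) := by
    funext v
    split_ifs with hv
    · have h20 : Δ v s₀ = 0 := by
        refine (hΔ v).eq_zero (fun s => ?_) s₀
        have h21 := hΔ' v s
        have h22 : (pq v).sum (fun m Q => ((s : ℂ) ^ m) • Q (f ^ (s + 1))) = 0 := by
          rw [Finsupp.onFinset_sum _ (by simp)]
          refine Finset.sum_eq_zero fun m _ => ?_
          rw [hq0 m v hv]
          simp
        rw [h22, mul_zero] at h21
        exact (mul_eq_zero.mp h21.symm).resolve_right (pow_ne_zero s hf0)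
      rw [h20, map_zero]
    · rfl
  rw [hg, dvg_whc w (d * K) (fun v => Δ v s₀), act_whc w hf (d * K) (fun v => Δ v s₀)]
  have hdK : d * (K + 1) = d * K + d := by ring
  have h23 : weightedHomogeneousComponent w (d * (K + 1)) (C (b.eval s₀) * f ^ (K + 1)) =
      C (b.eval s₀) * f ^ (K + 1) := by
    rw [weightedHomogeneousComponent_C_mul]
    congr 1
    apply IsWeightedHomogeneous.weightedHomogeneousComponent_same
    have := hf.pow (K + 1)
    simpa [mul_comm] using this
  have h24 : weightedHomogeneousComponent w (d * (K + 1)) (f * Δ₀ s₀) = 0 := by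
    rw [mul_comm f]
    exact whc_lt hf (c := d * (K + 1)) (fun e he => hpΔ₀ s₀ e he) _ (by omega)
  have h25 : ∑ v, (f * pderiv v (Δ v s₀) + C (s₀ - K) * Δ v s₀ * pderiv v f) =
      (dvg fun v => Δ v s₀) * f + C (s₀ - K) * act (fun v => Δ v s₀) f := by
    simp only [dvg, act, Finset.sum_add_distrib, Finset.mul_sum, Finset.sum_mul]
    congr 1
    · exact Finset.sum_congr rfl fun v _ => by ring
    · exact Finset.sum_congr rfl fun v _ => by ring
  rw [h23, map_add, h24, zero_add, h25, map_add, hdK, whc_mul w hf,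
    weightedHomogeneousComponent_C_mul] at h19
  rw [h19]
  ring

end Pool.Agent.L0h21.SN
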