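import Pool.Agent.L0h21.SN.Block
import Pool.Agent.L0h21.SN.FE2

/-! The roots of the Bernstein-Sato polynomial which belong to the components. -/

set_option autoImplicit false
set_option linter.unusedSectionVars false

namespace Pool.Agent.L0h21.SN

open MvPolynomial Pool.Agent.H628R4.TP

variable {V J ι : Type} [Fintype V] [DecidableEq V] [Fintype J] [DecidableEq J] [Fintype ι]

/-- An irreducible polynomial has a zero with nonzero blocks of coordinates. -/
theorem exists_point (w : ι → V → ℕ) (hdisj : ∀ v i i', 0 < w i v → 0 < w i' v → i = i')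
    (hcard : ∀ i, 2 ≤ Fintype.card (Pos (w i))) (q : MvPolynomial V ℂ) (hq : Irreducible q) :
    ∃ P : V → ℂ, (∀ i, ∃ v, 0 < w i v ∧ P v ≠ 0) ∧ aeval P q = 0 := by
  classical
  by_contra hcon
  push Not at hcon
  have hprime : Prime q := hq.prime
  -- for every choice of variables in the blocks
  have key : ∀ v : ι → V, (∀ i, 0 < w i (v i)) → ∃ i, q ∣ X (v i) := by
    intro v hv
    have h1 : (∏ i, (X (v i) : MvPolynomial V ℂ)) ∈
        vanishingIdeal ℂ (zeroLocus ℂ (Ideal.span {q})) := by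
      rw [mem_vanishingIdeal_iff]
      intro P hP
      rw [mem_zeroLocus_iff] at hP
      by_contra hne
      rw [map_prod] at hne
      simp only [aeval_X] at hne
      exact hcon P (fun i => ⟨v i, hv i, fun h => hne (Finset.prod_eq_zero (Finset.mem_univ i) h)⟩)
        (hP q (Ideal.mem_span_singleton_self q))
    rw [vanishingIdeal_zeroLocus_eq_radical] at h1
    obtain ⟨M, hM⟩ := h1
    rw [Ideal.mem_span_singleton] at hM
    have h2 := hprime.dvd_of_dvd_pow hM
    obtain ⟨i, -, hi⟩ := (Prime.dvd_finsetProd_iff hprime _).mp h2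
    exact ⟨i, hi⟩
  have hne : ∀ i, ∃ v, 0 < w i v := by
    intro i
    have : 0 < Fintype.card (Pos (w i)) := by have := hcard i; omega
    obtain ⟨v⟩ := Fintype.card_pos_iff.mp this
    exact ⟨v.1, v.2⟩
  choose v hv using hne
  obtain ⟨i₁, h1⟩ := key v hv
  -- another choice avoids this variable
  have h2 : ∀ i, ∃ u, 0 < w i u ∧ u ≠ v i₁ := by
    intro i
    have h3 : 1 < Fintype.card (Pos (w i)) := by have := hcard i; omega
    obtain ⟨a, b, hab⟩ := Fintype.one_lt_card_iff.mp h3
    by_cases ha : a.1 = v i₁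
    · refine ⟨b.1, b.2, fun hb => hab (Subtype.ext (ha.trans hb.symm))⟩
    · exact ⟨a.1, a.2, ha⟩
  choose u hu hu2 using h2
  obtain ⟨i₂, h4⟩ := key u hu
  -- `q` is associated to two different variables
  have h5 : Associated q (X (v i₁)) := (hprime.irreducible.associated_of_dvd
    (X_prime (R := ℂ) (i := v i₁)).irreducible h1)
  have h6 : (X (v i₁) : MvPolynomial V ℂ) ∣ X (u i₂) := h5.symm.dvd.trans h4
  rw [X_dvd_X] at h6
  exact hu2 i₂ h6.symm

/-- The reduced components are independent. -/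
theorem not_dvd (w : ι → V → ℕ) (hdisj : ∀ v i i', 0 < w i v → 0 < w i' v → i = i')
    (hcard : ∀ i, 2 ≤ Fintype.card (Pos (w i))) (f : J → MvPolynomial V ℂ) (m : J → ℕ)
    (c : ℂ) (hc : c ≠ 0)
    (hsnc : ∀ P : V → ℂ, (∀ i, ∃ v, 0 < w i v ∧ P v ≠ 0) → SNCAt' f P)
    (j : J) (hj : (f j).totalDegree ≠ 0) (k : ℕ) :
    ¬ f j ∣ (C c * ∏ i ∈ Finset.univ.erase j, f i ^ m i) ^ k := by
  intro hdvd
  have hj0 : f j ≠ 0 := by
    intro h
    exact hj (by rw [h, totalDegree_zero])
  have hju : ¬ IsUnit (f j) := by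
    intro h
    apply hj
    rw [MvPolynomial.isUnit_iff_eq_C_of_isReduced] at h
    obtain ⟨r, -, hr⟩ := h
    rw [hr, totalDegree_C]
  obtain ⟨q, hq, hqj⟩ := WfDvdMonoid.exists_irreducible_factor hju hj0
  have hprime : Prime q := hq.prime
  have h1 := hprime.dvd_of_dvd_pow (hqj.trans hdvd)
  have h2 : ¬ q ∣ C c := by
    intro h
    exact hprime.not_isUnit (isUnit_of_dvd_unit h ((isUnit_iff_ne_zero.mpr hc).map C))
  have h3 := (hprime.dvd_or_dvd h1).resolve_left h2
  obtain ⟨i, hi, hqi⟩ := (Prime.dvd_finsetProd_iff hprime _).mp h3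
  have hqi := hprime.dvd_of_dvd_pow hqi
  have hij : i ≠ j := (Finset.mem_erase.mp hi).1
  obtain ⟨P, hP, hPq⟩ := exists_point w hdisj hcard q hq
  have hs := hsnc P hP
  obtain ⟨a, ha⟩ := hqj
  obtain ⟨b, hb⟩ := hqi
  have ha0 : aeval P (f j) = 0 := by rw [ha, map_mul, hPq, zero_mul]
  have hb0 : aeval P (f i) = 0 := by rw [hb, map_mul, hPq, zero_mul]
  have hga : ∀ v, aeval P (pderiv v (f j)) = aeval P a * aeval P (pderiv v q) := by
    intro v
    rw [ha, pderiv_mul, map_add, map_mul, map_mul, hPq]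
    ring
  have hgb : ∀ v, aeval P (pderiv v (f i)) = aeval P b * aeval P (pderiv v q) := by
    intro v
    rw [hb, pderiv_mul, map_add, map_mul, map_mul, hPq]
    ring
  unfold SNCAt' at hs
  have h4 := hs.ne_zero ⟨j, ha0⟩
  have h5 : aeval P a = 0 := by
    rw [Fintype.linearIndependent_iff] at hs
    have h6 := hs (fun s => if s.1 = j then aeval P b else if s.1 = i then -aeval P a else 0) (by
      funext v
      rw [Finset.sum_apply]
      simp only [Pi.smul_apply, smul_eq_mul, Pi.zero_apply]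
      have h7 : ∀ s : {j // aeval P (f j) = 0},
          (if s.1 = j then aeval P b else if s.1 = i then -aeval P a else 0) *
            aeval P (pderiv v (f s.1)) =
          (if s = ⟨j, ha0⟩ then aeval P b * aeval P (pderiv v (f j)) else 0) +
          (if s = ⟨i, hb0⟩ then -aeval P a * aeval P (pderiv v (f i)) else 0) := by
        intro s
        by_cases h8 : s.1 = j
        · have h9 : s = ⟨j, ha0⟩ := Subtype.ext h8
          have h10 : ¬ s = ⟨i, hb0⟩ := fun h => hij ((congrArg Subtype.val h).symm.trans h8)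
          rw [if_pos h8, if_pos h9, if_neg h10, add_zero, h8]
        · have h9 : ¬ s = ⟨j, ha0⟩ := fun h => h8 (congrArg Subtype.val h)
          rw [if_neg h8, if_neg h9, zero_add]
          by_cases h10 : s.1 = i
          · rw [if_pos h10, if_pos (Subtype.ext h10), h10]
          · rw [if_neg h10, if_neg (fun h => h10 (congrArg Subtype.val h)), zero_mul]
      rw [Finset.sum_congr rfl fun s _ => h7 s, Finset.sum_add_distrib,
        Finset.sum_ite_eq' Finset.univ _, Finset.sum_ite_eq' Finset.univ _,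
        if_pos (Finset.mem_univ _), if_pos (Finset.mem_univ _), hga, hgb]
      ring) ⟨i, hb0⟩
    simp only [if_neg hij, if_true] at h6
    exact neg_eq_zero.mp h6
  apply h4
  funext v
  show aeval P (pderiv v (f j)) = 0
  rw [hga, h5, zero_mul]

/-- The root of the Bernstein-Sato polynomial which belongs to a component. -/
theorem root_comp (w : ι → V → ℕ) (hdisj : ∀ v i i', 0 < w i v → 0 < w i' v → i = i')
    (hcard : ∀ i, 2 ≤ Fintype.card (Pos (w i))) (f : J → MvPolynomial V ℂ) (m : J → ℕ)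
    (hm : ∀ j, 0 < m j) (c : ℂ) (hc : c ≠ 0)
    (hsnc : ∀ P : V → ℂ, (∀ i, ∃ v, 0 < w i v ∧ P v ≠ 0) → SNCAt' f P)
    (b : Polynomial ℂ) (hb : IsBFunction (C c * ∏ j, f j ^ m j) b)
    (j : J) (hj : (f j).totalDegree ≠ 0) : b.eval (-1 / (m j : ℂ)) = 0 := by
  have hne : ∀ i, ∃ v, 0 < w i v := by
    intro i
    have : 0 < Fintype.card (Pos (w i)) := by have := hcard i; omega
    obtain ⟨v⟩ := Fintype.card_pos_iff.mp this
    exact ⟨v.1, v.2⟩
  have hf0 : ∀ i, f i ≠ 0 := by
    intro i h0
    have h1 := hsnc (fun _ => 1) (fun i => by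
      obtain ⟨v, hv⟩ := hne i
      exact ⟨v, hv, one_ne_zero⟩)
    have h2 := h1.ne_zero ⟨i, by rw [h0, map_zero]⟩
    apply h2
    funext v
    simp [h0]
  have e1 : C c * ∏ j, f j ^ m j = f j ^ m j * (C c * ∏ i ∈ Finset.univ.erase j, f i ^ m i) := by
    rw [← Finset.mul_prod_erase Finset.univ _ (Finset.mem_univ j)]
    ring
  rw [e1] at hb
  refine strict_root (f j) _ (m j) (hm j)
    (not_dvd w hdisj hcard f m c hc hsnc j hj) (hf0 j) ?_ b hb
  exact mul_ne_zero (by simpa using hc) (Finset.prod_ne_zero_iff.mpr fun i _ => pow_ne_zero _ (hf0 i))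

end Pool.Agent.L0h21.SN
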