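import Pool.Agent.L0h21.SN.Geom

/-! Certificates for normal crossings outside of coordinate subspaces. -/

set_option autoImplicit false
set_option linter.unusedSectionVars false

namespace Pool.Agent.L0h21.SN

open MvPolynomial

theorem exists_minor {T V K : Type} [Fintype T] [DecidableEq T] [Fintype V] [DecidableEq V]
    [Field K] (a : T → V → K) (h : LinearIndependent K a) :
    ∃ u : T → V, (Matrix.of fun s t => a t (u s)).det ≠ 0 := by
  obtain ⟨g, hg⟩ := LinearMap.exists_leftInverse_of_injective (Fintype.linearCombination K a)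
    (LinearMap.ker_eq_bot.mpr h.fintypeLinearCombination_injective)
  have hdual : ∃ c : T → V → K, ∀ s t, ∑ v, c s v * a t v = if s = t then 1 else 0 := by
    refine ⟨fun s v => g (Pi.single v 1) s, fun s t => ?_⟩
    have h1 : g (a t) = Pi.single t 1 := by
      have := LinearMap.congr_fun hg (Pi.single t 1)
      simpa [Fintype.linearCombination_apply] using this
    have h2 : a t = ∑ v, a t v • (Pi.single v 1 : V → K) := by
      ext u
      simp [Finset.sum_apply, Pi.single_apply]
    have h3 : g (a t) s = ∑ v, a t v * g (Pi.single v 1) s := by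
      conv_lhs => rw [h2]
      simp [map_sum, Finset.sum_apply]
    rw [h1] at h3
    rw [Finset.sum_congr rfl fun v _ => mul_comm _ _, ← h3]
    simp [Pi.single_apply]
  obtain ⟨c, hc⟩ := hdual
  by_contra hne
  push Not at hne
  have h1 : (1 : Matrix T T K) = fun s => ∑ v, c s v • fun t => a t v := by
    ext s t
    rw [Matrix.one_apply, ← hc s t]
    simp [Finset.sum_apply]
  have h2 : Matrix.detRowAlternating (1 : Matrix T T K) = 0 := by
    rw [h1]
    have h3 := (Matrix.detRowAlternating (n := T) (R := K)).toMultilinearMap.map_sum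
      (fun s v => c s v • fun t => a t v)
    rw [AlternatingMap.coe_multilinearMap] at h3
    rw [h3]
    refine Finset.sum_eq_zero fun u _ => ?_
    have h4 := (Matrix.detRowAlternating (n := T) (R := K)).toMultilinearMap.map_smul_univ
      (fun s => c s (u s)) (fun s t => a t (u s))
    rw [AlternatingMap.coe_multilinearMap] at h4
    rw [h4]
    have h5 := hne u
    have h6 : (Matrix.detRowAlternating (n := T) (R := K)) (fun s t => a t (u s)) = 0 := h5
    rw [h6, smul_zero]
  have h7 : Matrix.detRowAlternating (1 : Matrix T T K) = 1 := Matrix.det_one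
  rw [h7] at h2
  exact one_ne_zero h2

theorem indep_of_minor {T V K : Type} [Fintype T] [DecidableEq T] [Fintype V]
    [Field K] (a : T → V → K) (u : T → V) (h : (Matrix.of fun s t => a t (u s)).det ≠ 0) :
    LinearIndependent K a := by
  rw [Fintype.linearIndependent_iff]
  intro l hl
  have h1 : Matrix.mulVec (Matrix.of fun s t => a t (u s)) l = 0 := by
    funext s
    have := congrFun hl (u s)
    simp only [Finset.sum_apply, Pi.smul_apply, smul_eq_mul, Pi.zero_apply] at this
    simp only [Matrix.mulVec, dotProduct, Matrix.of_apply, Pi.zero_apply]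
    rw [← this]
    exact Finset.sum_congr rfl fun t _ => mul_comm _ _
  exact congrFun (Matrix.eq_zero_of_mulVec_eq_zero h h1)

section

variable {V J k K : Type} [Fintype V] [DecidableEq V] [DecidableEq J] [CommRing k]

/-- A minor of the Jacobian matrix of the `f j`, `j ∈ I`. -/
noncomputable def minor (f : J → MvPolynomial V k) (I : Finset J) (u : I → V) :
    MvPolynomial V k :=
  (Matrix.of fun s t : I => pderiv (u s) (f t.1)).det

/-- The ideal generated by the `f j`, `j ∈ I`, and the maximal minors of their Jacobian matrix. -/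
noncomputable def certIdeal (f : J → MvPolynomial V k) (I : Finset J) :
    Ideal (MvPolynomial V k) :=
  Ideal.span ({g | ∃ j ∈ I, f j = g} ∪ Set.range (minor f I))

theorem map_minor {k' : Type} [CommRing k'] (φ : k →+* k') (f : J → MvPolynomial V k)
    (I : Finset J) (u : I → V) :
    map φ (minor f I u) = minor (fun j => map φ (f j)) I u := by
  rw [minor, minor, RingHom.map_det]
  congr 1
  ext s t
  simp [RingHom.mapMatrix_apply, pderiv_map]

theorem aeval_minor {K : Type} [Field K] [Algebra k K] (f : J → MvPolynomial V k)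
    (I : Finset J) (u : I → V) (P : V → K) :
    aeval P (minor f I u) = (Matrix.of fun s t : I => aeval P (pderiv (u s) (f t.1))).det := by
  rw [minor, AlgHom.map_det]
  congr 1

end

section

variable {V J k K ι : Type} [Fintype V] [DecidableEq V] [Fintype J] [DecidableEq J] [Field k]
  [Field K] [Algebra k K] [Fintype ι]

/-- Normal crossings at a point with coordinates in an extension field. -/
def SNCAt' (f : J → MvPolynomial V k) (P : V → K) : Prop :=
  LinearIndependent K (fun (j : {j // aeval P (f j) = 0}) (v : V) => aeval P (pderiv v (f j)))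

theorem cert [IsAlgClosed K] (w : ι → V → ℕ) (f : J → MvPolynomial V k)
    (hsnc : ∀ P : V → K, (∀ i, ∃ v, 0 < w i v ∧ P v ≠ 0) → SNCAt' f P) (I : Finset J)
    (v : ι → V) (hv : ∀ i, 0 < w i (v i)) :
    ∃ M : ℕ, (∏ i, (X (v i) : MvPolynomial V k)) ^ M ∈ certIdeal f I := by
  have h1 : (∏ i, (X (v i) : MvPolynomial V k)) ∈ vanishingIdeal k (zeroLocus K (certIdeal f I)) := by
    rw [mem_vanishingIdeal_iff]
    intro P hP
    rw [mem_zeroLocus_iff] at hP
    by_contra hne
    rw [map_prod] at hne
    simp only [aeval_X] at hne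
    have h2 := hsnc P (fun i => ⟨v i, hv i, fun h => hne (Finset.prod_eq_zero (Finset.mem_univ i) h)⟩)
    have h3 : ∀ j ∈ I, aeval P (f j) = 0 := fun j hj =>
      hP _ (Ideal.subset_span (Or.inl ⟨j, hj, rfl⟩))
    have h4 : LinearIndependent K (fun (j : I) (v : V) => aeval P (pderiv v (f j.1))) := by
      have := LinearIndependent.comp h2 (fun t : I => (⟨t.1, h3 t.1 t.2⟩ : {j // aeval P (f j) = 0}))
        (fun s t h => Subtype.ext (by simpa using congrArg Subtype.val h))
      exact this
    obtain ⟨u, hu⟩ := exists_minor _ h4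
    apply hu
    have := hP _ (Ideal.subset_span (Or.inr ⟨u, rfl⟩))
    rw [aeval_minor] at this
    exact this
  rw [vanishingIdeal_zeroLocus_eq_radical] at h1
  exact h1

theorem snc_of_cert {K' : Type} [Field K'] [Algebra k K'] (w : ι → V → ℕ)
    (f : J → MvPolynomial V k)
    (hcert : ∀ (I : Finset J) (v : ι → V), (∀ i, 0 < w i (v i)) →
      ∃ M : ℕ, (∏ i, (X (v i) : MvPolynomial V k)) ^ M ∈ certIdeal f I)
    (P : V → K') (hP : ∀ i, ∃ v, 0 < w i v ∧ P v ≠ 0) : SNCAt' f P := by
  classical
  choose v hv hPv using hP
  set I : Finset J := Finset.univ.filter fun j => aeval P (f j) = 0 with hI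
  obtain ⟨M, hM⟩ := hcert I v hv
  have h1 : ∃ u : I → V, aeval P (minor f I u) ≠ 0 := by
    by_contra hne
    push Not at hne
    have h2 : certIdeal f I ≤ RingHom.ker (aeval P : MvPolynomial V k →ₐ[k] K') := by
      rw [certIdeal, Ideal.span_le]
      rintro g (⟨j, hj, rfl⟩ | ⟨u, rfl⟩)
      · exact (Finset.mem_filter.mp hj).2
      · exact hne u
    have h3 := h2 hM
    rw [RingHom.mem_ker, map_pow, map_prod] at h3
    simp only [aeval_X] at h3
    exact pow_ne_zero _ (Finset.prod_ne_zero_iff.mpr fun i _ => hPv i) h3
  obtain ⟨u, hu⟩ := h1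
  rw [aeval_minor] at hu
  have h2 := indep_of_minor (fun (t : I) (v : V) => aeval P (pderiv v (f t.1))) u hu
  have h3 := LinearIndependent.comp h2 (fun j : {j // aeval P (f j) = 0} =>
    (⟨j.1, by simp [hI, j.2]⟩ : I)) (fun s t h => Subtype.ext (by simpa using congrArg Subtype.val h))
  exact h3

end

end Pool.Agent.L0h21.SN
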