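import Pool.Agent.L0h21.SN.Low
import Pool.Agent.L0h21.SN.Cert
import Pool.Agent.L0h21.SN.FE2

/-! The roots of the Bernstein-Sato polynomial which belong to the components, for components
which meet the locus of normal crossings. -/

set_option autoImplicit false
set_option linter.unusedSectionVars false

namespace Pool.Agent.L0h21.SN

open MvPolynomial Pool.Agent.H628R4.TP

section

variable {V K : Type} [Fintype V] [DecidableEq V] [CommRing K]

/-- The translation by `x`. -/
noncomputable def trl (x : V → K) : MvPolynomial V K →ₐ[K] MvPolynomial V K :=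
  aeval fun v => X v + C (x v)

theorem trl_X (x : V → K) (v : V) : trl x (X v) = X v + C (x v) := by rw [trl, aeval_X]

theorem eval_trl (x y : V → K) (p : MvPolynomial V K) :
    eval y (trl x p) = eval (fun v => y v + x v) p := by
  induction p using MvPolynomial.induction_on with
  | C a => rw [trl, aeval_C, algebraMap_eq, eval_C, eval_C]
  | add p q hp hq => rw [map_add, map_add, map_add, hp, hq]
  | mul_X p i hp => rw [map_mul, map_mul, map_mul, hp, trl_X, map_add, eval_X, eval_C, eval_X]

theorem pderiv_trl (x : V → K) (v : V) (p : MvPolynomial V K) :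
    pderiv v (trl x p) = trl x (pderiv v p) := by
  induction p using MvPolynomial.induction_on with
  | C a => simp [trl]
  | add p q hp hq => rw [map_add, map_add, map_add, map_add, hp, hq]
  | mul_X p i hp =>
    have h1 : pderiv v (trl x (X i)) = trl x (pderiv v (X i)) := by
      rw [trl_X, map_add, pderiv_C, add_zero, pderiv_X]
      by_cases h : v = i
      · subst h; simp
      · simp [Pi.single_apply, Ne.symm h]
    rw [map_mul, Derivation.leibniz, Derivation.leibniz, map_add, h1, hp]
    simp only [smul_eq_mul, map_mul]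

theorem trl_neg (x : V → K) (p : MvPolynomial V K) : trl (fun v => -x v) (trl x p) = p := by
  induction p using MvPolynomial.induction_on with
  | C a => simp [trl]
  | add p q hp hq => rw [map_add, map_add, hp, hq]
  | mul_X p i hp =>
    rw [map_mul, map_mul, hp, trl_X, map_add, trl_X]
    simp [trl]

/-- The translation as an automorphism. -/
noncomputable def trlE (x : V → K) : MvPolynomial V K ≃ₐ[K] MvPolynomial V K :=
  AlgEquiv.ofAlgHom (trl x) (trl fun v => -x v)
    (by
      apply AlgHom.ext
      intro p
      have := trl_neg (fun v => -x v) p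
      simpa using this)
    (by
      apply AlgHom.ext
      intro p
      exact trl_neg x p)

theorem trlE_apply (x : V → K) (p : MvPolynomial V K) : trlE x p = trl x p := rfl

theorem trl_ne (x : V → K) {p : MvPolynomial V K} (hp : p ≠ 0) : trl x p ≠ 0 := fun h =>
  hp (by rw [← trl_neg x p, h, map_zero])

theorem LowC.unique {w : V → ℕ} {e e' : ℕ} {p q q' : MvPolynomial V K} (h : LowC w e p q)
    (h' : LowC w e' p q') (hq : q ≠ 0) (hq' : q' ≠ 0) : e = e' ∧ q = q' := by
  have h1 : e = e' := by
    rcases lt_trichotomy e e' with h1 | h1 | h1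
    · exact absurd (h.2.symm.trans (h'.1 e h1)) hq
    · exact h1
    · exact absurd (h'.2.symm.trans (h.1 e' h1)) hq'
  subst h1
  exact ⟨rfl, h.2.symm.trans h'.2⟩

theorem low_zero (x : V → K) (p : MvPolynomial V K) :
    LowC (fun _ : V => 1) 0 (trl x p) (C (eval x p)) := by
  refine ⟨OrdGE.of_zero _, ?_⟩
  have h1 := weightedHomogeneousComponent_zero (w := fun _ : V => 1) (φ := trl x p)
    (fun _ => one_ne_zero)
  rw [h1]
  congr 1
  have h2 : coeff 0 (trl x p) = eval 0 (trl x p) := by
    rw [← constantCoeff_eq, ← eval_zero]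
  rw [h2, eval_trl]
  congr 1
  congr 1
  funext v
  simp

end

section

variable {V K : Type} [Fintype V] [DecidableEq V] [Field K] [CharZero K]

/-- The linear part of a polynomial at a zero. -/
theorem low_one (x : V → K) (p : MvPolynomial V K) (hp : eval x p = 0) :
    LowC (fun _ : V => 1) 1 (trl x p) (∑ v, C (eval x (pderiv v p)) * X v) := by
  have h0 := low_zero x p
  refine ⟨fun e he => ?_, ?_⟩
  · have : e = 0 := by omega
    subst this
    rw [h0.2, hp, map_zero]
  · have h1 := weightedHomogeneousComponent_isWeightedHomogeneous (w := fun _ : V => 1) 1 (trl x p)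
    have h2 := h1.sum_weight_X_mul_pderiv
    rw [one_nsmul] at h2
    rw [← h2]
    refine Finset.sum_congr rfl fun v _ => ?_
    rw [one_nsmul]
    have h3 := whc_pderiv (fun _ : V => 1) v 0 (trl x p)
    rw [zero_add, pderiv_trl, (low_zero x (pderiv v p)).2] at h3
    rw [← h3, mul_comm]

end

section

variable {V J : Type} [Fintype V] [DecidableEq V] [Fintype J] [DecidableEq J]

/-- A component through a point of normal crossings is not contained in the other ones. -/
theorem not_dvd_at (f : J → MvPolynomial V ℂ) (m : J → ℕ)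
    (c : ℂ) (hc : c ≠ 0) (x : V → ℂ) (hx : SNCAt' f x) (j : J) (hj : aeval x (f j) = 0) (k : ℕ) :
    ¬ f j ∣ (C c * ∏ i ∈ Finset.univ.erase j, f i ^ m i) ^ k := by
  classical
  have hae : ∀ p : MvPolynomial V ℂ, aeval x p = eval x p := fun p => by
    rw [aeval_eq_eval]
  have hx' : LinearIndependent ℂ (fun (j : {j // eval x (f j) = 0}) (v : V) =>
      eval x (pderiv v (f j.1))) := by
    unfold SNCAt' at hx
    simp only [hae] at hx
    exact hx
  rw [hae] at hj
  obtain ⟨cd, hcd⟩ := exists_dual _ hx'
  -- a direction which is tangent to the component `j` only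
  set u : V → ℂ := fun v => ∑ s : {j // eval x (f j) = 0}, if s.1 = j then 0 else cd s v with hu
  have hu1 : ∀ t : {j // eval x (f j) = 0}, ∑ v, u v * eval x (pderiv v (f t.1)) =
      if t.1 = j then 0 else 1 := by
    intro t
    have h1 : ∑ v, u v * eval x (pderiv v (f t.1)) =
        ∑ s : {j // eval x (f j) = 0}, ∑ v,
          (if s.1 = j then 0 else cd s v) * eval x (pderiv v (f t.1)) := by
      simp only [hu, Finset.sum_mul]
      exact Finset.sum_comm
    have h2 : ∀ s : {j // eval x (f j) = 0}, ∑ v,
        (if s.1 = j then 0 else cd s v) * eval x (pderiv v (f t.1)) =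
        if s = t then (if t.1 = j then 0 else 1) else 0 := by
      intro s
      by_cases hs : s.1 = j
      · simp only [if_pos hs, zero_mul, Finset.sum_const_zero]
        by_cases hst : s = t
        · rw [if_pos hst, if_pos (hst ▸ hs)]
        · rw [if_neg hst]
      · simp only [if_neg hs]
        rw [hcd s t]
        by_cases hst : s = t
        · rw [if_pos hst, if_pos hst, if_neg (hst ▸ hs)]
        · rw [if_neg hst, if_neg hst]
    rw [h1, Finset.sum_congr rfl fun s _ => h2 s]
    simp
  -- the lowest components
  let e : J → ℕ := fun i => if eval x (f i) = 0 then 1 else 0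
  let q : J → MvPolynomial V ℂ := fun i => if eval x (f i) = 0 then
    ∑ v, C (eval x (pderiv v (f i))) * X v else C (eval x (f i))
  have hlow : ∀ i, LowC (fun _ : V => 1) (e i) (trl x (f i)) (q i) := by
    intro i
    by_cases hi : eval x (f i) = 0
    · have h1 : e i = 1 := if_pos hi
      have h2 : q i = _ := if_pos hi
      rw [h1, h2]
      exact low_one x (f i) hi
    · have h1 : e i = 0 := if_neg hi
      have h2 : q i = _ := if_neg hi
      rw [h1, h2]
      exact low_zero x (f i)
  have hqu : ∀ i, i ≠ j → eval u (q i) ≠ 0 := by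
    intro i hij
    by_cases hi : eval x (f i) = 0
    · have h2 : q i = _ := if_pos hi
      rw [h2, map_sum]
      have h3 := hu1 ⟨i, hi⟩
      rw [if_neg hij] at h3
      have h4 : ∑ v, eval u (C (eval x (pderiv v (f i))) * X v) =
          ∑ v, u v * eval x (pderiv v (f i)) := by
        refine Finset.sum_congr rfl fun v _ => ?_
        rw [map_mul, eval_C, eval_X, mul_comm]
      rw [h4, h3]
      exact one_ne_zero
    · have h2 : q i = _ := if_neg hi
      rw [h2, eval_C]
      exact hi
  have hqj : eval u (q j) = 0 := by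
    have h2 : q j = _ := if_pos hj
    rw [h2, map_sum]
    have h3 := hu1 ⟨j, hj⟩
    rw [if_pos rfl] at h3
    rw [← h3]
    refine Finset.sum_congr rfl fun v _ => ?_
    rw [map_mul, eval_C, eval_X, mul_comm]
  have hqj0 : q j ≠ 0 := by
    intro h0
    have h2 : q j = ∑ v, C (eval x (pderiv v (f j))) * X v := if_pos hj
    have h3 := hx'.ne_zero ⟨j, hj⟩
    apply h3
    funext v
    have h4 := congrArg (pderiv v) (h2.symm.trans h0)
    rw [map_sum, map_zero] at h4
    simp only [pderiv_C_mul, pderiv_X, Pi.single_apply] at h4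
    have h5 : ∑ w, C (eval x (pderiv w (f j))) * (if w = v then (1 : MvPolynomial V ℂ) else 0) =
        C (eval x (pderiv v (f j))) := by simp
    have h6 : ∑ w, C (eval x (pderiv w (f j))) * (if v = w then (1 : MvPolynomial V ℂ) else 0) =
        C (eval x (pderiv v (f j))) := by simp
    have h7 : C (eval x (pderiv v (f j))) = (0 : MvPolynomial V ℂ) := by
      first
        | exact h5.symm.trans h4
        | exact h6.symm.trans h4
    exact C_injective V ℂ (h7.trans (map_zero _).symm)
  rintro ⟨r, hr⟩
  have h1 := congrArg (trl x) hr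
  rw [map_mul, map_pow, map_mul, map_prod] at h1
  have hCc : trl x (C c : MvPolynomial V ℂ) = C c := by simp [trl]
  simp only [map_pow, hCc] at h1
  have h2 := ((LowC.C (w := fun _ : V => 1) c).mul (LowC.prod (Finset.univ.erase j)
    fun i _ => (hlow i).pow (m i))).pow k
  set Q := (C c * ∏ i ∈ Finset.univ.erase j, q i ^ m i) ^ k with hQ
  have hQu : eval u Q ≠ 0 := by
    rw [hQ, map_pow, map_mul, map_prod, eval_C]
    refine pow_ne_zero _ (mul_ne_zero hc (Finset.prod_ne_zero_iff.mpr fun i hi => ?_))
    rw [map_pow]
    exact pow_ne_zero _ (hqu i (Finset.mem_erase.mp hi).1)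
  have hQ0 : Q ≠ 0 := fun h => hQu (by rw [h, map_zero])
  have hr0 : trl x r ≠ 0 := by
    intro h
    rw [h, mul_zero] at h1
    rw [h1] at h2
    exact hQ0 (by rw [← h2.2, map_zero])
  obtain ⟨a, r', hr', hr'0⟩ := exists_low (fun _ : V => 1) (trl x r) hr0
  have h3 := (hlow j).mul hr'
  rw [← h1] at h3
  have h4 := (h3.unique h2 (mul_ne_zero hqj0 hr'0) hQ0).2
  apply hQu
  rw [← h4, map_mul, hqj, zero_mul]

/-- The root of the Bernstein-Sato polynomial which belongs to a component which meets the locus of
normal crossings. -/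
theorem root_comp_at (f : J → MvPolynomial V ℂ) (m : J → ℕ)
    (hm : ∀ j, 0 < m j) (c : ℂ) (hc : c ≠ 0) (hf0 : ∀ i, f i ≠ 0)
    (b : Polynomial ℂ) (hb : IsBFunction (C c * ∏ j, f j ^ m j) b)
    (j : J) (x : V → ℂ) (hx : SNCAt' f x) (hj : aeval x (f j) = 0) :
    b.eval (-1 / (m j : ℂ)) = 0 := by
  have e1 : C c * ∏ j, f j ^ m j = f j ^ m j * (C c * ∏ i ∈ Finset.univ.erase j, f i ^ m i) := by
    rw [← Finset.mul_prod_erase Finset.univ _ (Finset.mem_univ j)]
    ring
  rw [e1] at hb
  refine strict_root (f j) _ (m j) (hm j)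
    (not_dvd_at f m c hc x hx j hj) (hf0 j) ?_ b hb
  exact mul_ne_zero (by simpa using hc) (Finset.prod_ne_zero_iff.mpr fun i _ => pow_ne_zero _ (hf0 i))

end

end Pool.Agent.L0h21.SN
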