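import Pool.Agent.L0h21.SN.Centre
import Pool.Agent.L0h21.SN.Strict
import Pool.Agent.L0h21.SN.Strict2
import Pool.Agent.L0h21.SN.AutB

/-! Points where a divisor has weighted homogeneous initial forms with normal crossings outside of
a coordinate subspace. -/

set_option autoImplicit false
set_option linter.unusedSectionVars false

namespace Pool.Agent.L0h21.SN

open MvPolynomial Pool.Agent.H628R4.TP

variable {V J : Type} [Fintype V] [DecidableEq V] [Fintype J] [DecidableEq J]

theorem aeval_ev (y : V → ℂ) (q : MvPolynomial V ℂ) : aeval y q = eval y q := by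
  rw [aeval_eq_eval]

/-- The values at the points of the centre. -/
theorem ord_eval (w : V → ℕ) (y : V → ℂ) (hy : ∀ v, 0 < w v → y v = 0) (q : MvPolynomial V ℂ)
    (hq : OrdGE w 1 q) : eval y q = 0 := by
  rw [ordGE_iff] at hq
  rw [q.as_sum, map_sum]
  refine Finset.sum_eq_zero fun m hm => ?_
  have h1 := hq m (mem_support_iff.mp hm)
  rw [Finsupp.weight_apply, Finsupp.sum_fintype _ _ (by simp)] at h1
  obtain ⟨v, -, hv⟩ := Finset.exists_ne_zero_of_sum_ne_zero (by omega : ∑ i, m i • w i ≠ 0)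
  simp only [smul_eq_mul, ne_eq, mul_eq_zero, not_or] at hv
  rw [eval_monomial, Finsupp.prod_fintype _ _ (by simp)]
  rw [Finset.prod_eq_zero (Finset.mem_univ v) (by rw [hy v (Nat.pos_of_ne_zero hv.2),
    zero_pow hv.1]), mul_zero]

theorem low_eval (w : V → ℕ) (y : V → ℂ) (hy : ∀ v, 0 < w v → y v = 0) (e : ℕ)
    (F g : MvPolynomial V ℂ) (h : LowC w e F g) : eval y F = eval y g := by
  rcases Nat.eq_zero_or_pos e with rfl | he
  · have h1 := ord_succ h.1
    rw [h.2, zero_add] at h1
    have h2 := ord_eval w y hy _ h1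
    rw [map_sub, sub_eq_zero] at h2
    exact h2
  · rw [ord_eval w y hy _ (h.1.mono he), ord_eval w y hy _ ((OrdGE.of_hom h.hom).mono he)]

theorem low_pderiv_lt (w : V → ℕ) (y : V → ℂ) (hy : ∀ v, 0 < w v → y v = 0) (e : ℕ)
    (F g : MvPolynomial V ℂ) (h : LowC w e F g) (v : V) (hv : w v < e) :
    eval y (pderiv v F) = 0 := by
  refine ord_eval w y hy _ (OrdGE.pderiv v (h.1.mono ?_))
  omega

theorem low_pderiv_eq (w : V → ℕ) (y : V → ℂ) (hy : ∀ v, 0 < w v → y v = 0) (e : ℕ)
    (F g : MvPolynomial V ℂ) (h : LowC w e F g) (v : V) (hv : w v = e) :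
    eval y (pderiv v F) = eval y (pderiv v g) := by
  have h1 := ord_succ h.1
  rw [h.2] at h1
  have h2 := ord_eval w y hy _ (OrdGE.pderiv (a := 1) v (h1.mono (by omega)))
  rw [map_sub, map_sub, sub_eq_zero] at h2
  exact h2

theorem hom_pderiv_ne (w : V → ℕ) (y : V → ℂ) (hy : ∀ v, 0 < w v → y v = 0) (e : ℕ)
    (F g : MvPolynomial V ℂ) (h : LowC w e F g) (v : V) (hv : w v ≠ e) :
    eval y (pderiv v g) = 0 := by
  rcases lt_or_gt_of_ne hv with h1 | h1
  · exact ord_eval w y hy _ (OrdGE.pderiv v ((OrdGE.of_hom h.hom).mono (by omega)))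
  · rw [pderiv_zero_of_lt w h.hom v h1, map_zero]

/-- If the initial forms have normal crossings at a point of the centre, so does the divisor. -/
theorem snc_low (w : V → ℕ) (e : J → ℕ) (F g : J → MvPolynomial V ℂ)
    (hlow : ∀ j, LowC w (e j) (F j) (g j)) (y : V → ℂ) (hy : ∀ v, 0 < w v → y v = 0)
    (h : SNCAt' g y) : SNCAt' F y := by
  unfold SNCAt' at h ⊢
  rw [Fintype.linearIndependent_iff] at h ⊢
  intro l hl
  have hz : ∀ j, aeval y (F j) = 0 ↔ aeval y (g j) = 0 := by
    intro j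
    rw [aeval_ev, aeval_ev, low_eval w y hy (e j) _ _ (hlow j)]
  have key : ∀ n, ∀ j : {j // aeval y (F j) = 0}, e j.1 = n → l j = 0 := by
    intro n
    induction n using Nat.strong_induction_on with
    | _ n ih =>
    have h1 := h (fun j => if e j.1 = n then l ⟨j.1, (hz j.1).mpr j.2⟩ else 0) (by
      funext v
      rw [Finset.sum_apply]
      simp only [Pi.smul_apply, smul_eq_mul, Pi.zero_apply]
      by_cases hv : w v = n
      · have h2 := congrFun hl v
        rw [Finset.sum_apply] at h2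
        simp only [Pi.smul_apply, smul_eq_mul, Pi.zero_apply] at h2
        refine Eq.trans ?_ h2
        refine Fintype.sum_equiv (Equiv.subtypeEquivRight fun j => (hz j).symm) _ _ fun j => ?_
        have hj : (Equiv.subtypeEquivRight (fun j => (hz j).symm)) j =
            (⟨j.1, (hz j.1).mpr j.2⟩ : {j // aeval y (F j) = 0}) := rfl
        rw [hj]
        simp only [aeval_ev]
        rcases lt_trichotomy (e j.1) n with h3 | h3 | h3
        · rw [if_neg h3.ne, zero_mul]
          have h4 := ih (e j.1) h3 ⟨j.1, (hz j.1).mpr j.2⟩ rfl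
          rw [h4, zero_mul]
        · rw [if_pos h3, low_pderiv_eq w y hy (e j.1) _ _ (hlow j.1) v (hv.trans h3.symm)]
        · rw [if_neg h3.ne', zero_mul,
            low_pderiv_lt w y hy (e j.1) _ _ (hlow j.1) v (by omega), mul_zero]
      · refine Finset.sum_eq_zero fun j _ => ?_
        split_ifs with h3
        · refine mul_eq_zero_of_right _ ?_
          rw [aeval_ev, hom_pderiv_ne w y hy (e j.1) _ _ (hlow j.1) v
            (fun h4 => hv (h4.trans h3))]
        · rw [zero_mul])
    intro j hj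
    have h2 := h1 ⟨j.1, (hz j.1).mp j.2⟩
    rw [if_pos hj] at h2
    exact h2
  exact fun j => key _ j rfl

theorem snc_trl (f : J → MvPolynomial V ℂ) (P y : V → ℂ) :
    SNCAt' (fun j => trl P (f j)) y ↔ SNCAt' f (fun v => y v + P v) := by
  have h1 : ∀ q : MvPolynomial V ℂ, aeval y (trl P q) = aeval (fun v => y v + P v) q := by
    intro q
    rw [aeval_ev, aeval_ev, eval_trl]
  unfold SNCAt'
  constructor
  · intro h
    have h2 := LinearIndependent.comp h
      (fun j : {j // aeval (fun v => y v + P v) (f j) = 0} =>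
        (⟨j.1, by rw [h1]; exact j.2⟩ : {j // aeval y (trl P (f j)) = 0}))
      (fun s t h => Subtype.ext (by simpa using congrArg Subtype.val h))
    convert h2 using 1
    funext j v
    show aeval (fun v => y v + P v) (pderiv v (f j.1)) = aeval y (pderiv v (trl P (f j.1)))
    rw [pderiv_trl, h1]
  · intro h
    have h2 := LinearIndependent.comp h
      (fun j : {j // aeval y (trl P (f j)) = 0} =>
        (⟨j.1, by rw [← h1]; exact j.2⟩ : {j // aeval (fun v => y v + P v) (f j) = 0}))
      (fun s t h => Subtype.ext (by simpa using congrArg Subtype.val h))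
    convert h2 using 1
    funext j v
    show aeval y (pderiv v (trl P (f j.1))) = aeval (fun v => y v + P v) (pderiv v (f j.1))
    rw [pderiv_trl, h1]

/-- The data of a centre at a point `P`. -/
structure CentreAt (f : J → MvPolynomial V ℂ) (P : V → ℂ) (w : V → ℕ) (e : J → ℕ)
    (g : J → MvPolynomial V ℂ) (h : MvPolynomial V ℂ) : Prop where
  card : 2 ≤ Fintype.card (Pos w)
  low : ∀ j, LowC w (e j) (trl P (f j)) (g j)
  hom : IsWeightedHomogeneous w h 0
  ne : eval 0 h ≠ 0
  snc : ∀ y : V → ℂ, aeval y h ≠ 0 → (∃ v, 0 < w v ∧ y v ≠ 0) → SNCAt' g y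
  bad : ∀ y : V → ℂ, aeval y h ≠ 0 → (∀ v, 0 < w v → y v = 0) → ¬ SNCAt' f (fun v => y v + P v)

variable {f : J → MvPolynomial V ℂ} {P : V → ℂ} {w : V → ℕ} {e : J → ℕ}
    {g : J → MvPolynomial V ℂ} {h : MvPolynomial V ℂ}

theorem CentreAt.iff (H : CentreAt f P w e g h) (y : V → ℂ) (hy : aeval y h ≠ 0) :
    SNCAt' g y ↔ ∃ v, 0 < w v ∧ y v ≠ 0 := by
  refine ⟨fun h1 => ?_, H.snc y hy⟩
  by_contra hcon
  push Not at hcon
  exact H.bad y hy hcon ((snc_trl f P y).mp (snc_low w e _ g H.low y hcon h1))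

theorem CentreAt.h_ne (H : CentreAt f P w e g h) : h ≠ 0 := fun h0 => H.ne (by rw [h0, map_zero])

/-- The root of the Bernstein-Sato polynomial which belongs to the centre. -/
theorem CentreAt.root (H : CentreAt f P w e g h) (m : J → ℕ) (hm : ∀ j, 0 < m j) (c : ℂ)
    (hc : c ≠ 0) : 0 < ∑ j, m j * e j ∧ ∀ b : Polynomial ℂ, IsBFunction (C c * ∏ j, f j ^ m j) b →
      b.eval (-((∑ v, w v : ℕ) : ℂ) / (∑ j, m j * e j : ℕ)) = 0 := by
  have h1 : ∀ b : Polynomial ℂ, IsBFunction (C c * ∏ j, f j ^ m j) b →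
      IsBFunction (C c * ∏ j, (trl P (f j)) ^ m j) b := by
    intro b hb
    have h2 := isB_aut (trlE P) (C c * ∏ j, f j ^ m j) b hb
    have h3 : trlE P (C c * ∏ j, f j ^ m j) = C c * ∏ j, (trl P (f j)) ^ m j := by
      rw [trlE_apply, map_mul, map_prod]
      congr 1
      · simp [trl]
      · exact Finset.prod_congr rfl fun j _ => by rw [map_pow]
    rw [h3] at h2
    exact h2
  have h2 := fun b hb => root_centre w H.card (fun j => trl P (f j)) g e H.low m hm c hc h H.h_ne
    H.hom H.iff b hb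
  refine ⟨(h2 0 ?_).1, fun b hb => (h2 b (h1 b hb)).2⟩
  exact ⟨0, fun s => by simp⟩

/-- A zero of an initial form with normal crossings. -/
theorem CentreAt.zero (H : CentreAt f P w e g h) (j : J) (hj : eval P (f j) = 0) :
    ∃ Q : V → ℂ, SNCAt' g Q ∧ aeval Q (g j) = 0 := by
  classical
  have hne : ∃ v, 0 < w v := by
    have : 0 < Fintype.card (Pos w) := by have := H.card; omega
    obtain ⟨v⟩ := Fintype.card_pos_iff.mp this
    exact ⟨v.1, v.2⟩
  -- points with trivial parameters
  have hpar : ∀ Q : V → ℂ, (∀ v, w v = 0 → Q v = 0) → aeval Q h ≠ 0 := by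
    intro Q hQ
    rw [aeval_ev]
    have h3 : eval Q h = eval 0 h := by
      refine eval₂Hom_congr' rfl (fun i hi _ => ?_) rfl
      obtain ⟨d, hd, hid⟩ := (mem_vars_iff_mem_support i).mp hi
      have h4 := H.hom (mem_support_iff.mp hd)
      rw [Finsupp.weight_apply, Finsupp.sum_fintype _ _ (by simp)] at h4
      have h5 := (Finset.sum_eq_zero_iff.mp h4) i (Finset.mem_univ i)
      rw [smul_eq_mul, mul_eq_zero] at h5
      exact hQ i (h5.resolve_left (Finsupp.mem_support_iff.mp hid))
    rw [h3]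
    exact H.ne
  suffices hs : ∃ Q : V → ℂ, (∃ v, 0 < w v ∧ Q v ≠ 0) ∧
      eval (fun v => if 0 < w v then Q v else 0) (g j) = 0 by
    obtain ⟨Q, ⟨v, hv, hQv⟩, hQ⟩ := hs
    refine ⟨fun v => if 0 < w v then Q v else 0, H.snc _ (hpar _ fun v hv => ?_) ⟨v, hv, ?_⟩, ?_⟩
    · simp [hv]
    · simp only [if_pos hv]
      exact hQv
    · rw [aeval_ev]
      exact hQ
  set r : MvPolynomial V ℂ := aeval (fun v => if 0 < w v then (X v : MvPolynomial V ℂ) else 0)
    (g j) with hr
  have hreval : ∀ Q : V → ℂ, eval Q r = eval (fun v => if 0 < w v then Q v else 0) (g j) := by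
    intro Q
    have h2 : ∀ q : MvPolynomial V ℂ,
        eval Q (aeval (fun v => if 0 < w v then (X v : MvPolynomial V ℂ) else 0) q) =
        eval (fun v => if 0 < w v then Q v else 0) q := by
      intro q
      induction q using MvPolynomial.induction_on with
      | C a => simp
      | add f g hf hg => rw [map_add, map_add, map_add, hf, hg]
      | mul_X f i hf =>
        rw [map_mul, map_mul, map_mul, hf, aeval_X, eval_X]
        by_cases hi : 0 < w i
        · rw [if_pos hi, if_pos hi, eval_X]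
        · rw [if_neg hi, if_neg hi, map_zero]
    exact h2 (g j)
  have hzero : eval 0 r = 0 := by
    rw [hreval]
    have h2 : (fun v => if 0 < w v then (0 : V → ℂ) v else 0) = 0 := by
      funext v; simp
    rw [h2, ← low_eval w 0 (fun v _ => rfl) (e j) _ _ (H.low j), eval_trl]
    have h3 : (fun v => (0 : V → ℂ) v + P v) = P := by funext v; simp
    rw [h3, hj]
  by_cases hr0 : r = 0
  · obtain ⟨v, hv⟩ := hne
    refine ⟨fun _ => 1, ⟨v, hv, one_ne_zero⟩, ?_⟩
    rw [← hreval, hr0, map_zero]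
  have hru : ¬ IsUnit r := by
    intro hu
    rw [MvPolynomial.isUnit_iff_eq_C_of_isReduced] at hu
    obtain ⟨a, ha, ha2⟩ := hu
    rw [ha2, eval_C] at hzero
    rw [hzero] at ha
    exact not_isUnit_zero ha
  obtain ⟨q, hq, a, ha⟩ := WfDvdMonoid.exists_irreducible_factor hru hr0
  obtain ⟨Q, hQ, hQ2⟩ := exists_point (fun _ : Unit => w)
    (fun v i i' _ _ => rfl) (fun _ => H.card) q hq
  refine ⟨Q, hQ (), ?_⟩
  rw [← hreval, ha, map_mul]
  rw [aeval_ev] at hQ2
  rw [hQ2, zero_mul]

theorem CentreAt.g_ne (H : CentreAt f P w e g h) (j : J) : g j ≠ 0 := by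
  intro h0
  have hne : ∃ v, 0 < w v := by
    have : 0 < Fintype.card (Pos w) := by have := H.card; omega
    obtain ⟨v⟩ := Fintype.card_pos_iff.mp this
    exact ⟨v.1, v.2⟩
  obtain ⟨v, hv⟩ := hne
  obtain ⟨y, hy⟩ : ∃ y : V → ℂ, eval y (h * X v) ≠ 0 := by
    by_contra hcon
    push Not at hcon
    exact mul_ne_zero H.h_ne (X_ne_zero v)
      (MvPolynomial.funext fun y => by rw [hcon y, map_zero])
  rw [map_mul, eval_X] at hy
  have h2 : SNCAt' g y := H.snc y (by
    rw [aeval_ev]; exact left_ne_zero_of_mul hy) ⟨v, hv, right_ne_zero_of_mul hy⟩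
  refine h2.ne_zero ⟨j, by rw [h0, map_zero]⟩ ?_
  funext v
  simp [h0]

theorem CentreAt.f_ne (H : CentreAt f P w e g h) (j : J) : f j ≠ 0 := by
  intro h0
  apply H.g_ne j
  rw [← (H.low j).2, h0, map_zero, map_zero]

/-- The root of the Bernstein-Sato polynomial which belongs to a component through the centre. -/
theorem CentreAt.comp (H : CentreAt f P w e g h) (m : J → ℕ) (hm : ∀ j, 0 < m j) (c : ℂ)
    (hc : c ≠ 0) (j : J) (hj : eval P (f j) = 0) (b : Polynomial ℂ)
    (hb : IsBFunction (C c * ∏ j, f j ^ m j) b) : b.eval (-1 / (m j : ℂ)) = 0 := by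
  classical
  obtain ⟨Q, hQ, hQj⟩ := H.zero j hj
  have e1 : C c * ∏ j, f j ^ m j = f j ^ m j * (C c * ∏ i ∈ Finset.univ.erase j, f i ^ m i) := by
    rw [← Finset.mul_prod_erase Finset.univ _ (Finset.mem_univ j)]
    ring
  rw [e1] at hb
  refine strict_root (f j) _ (m j) (hm j) ?_ (H.f_ne j) ?_ b hb
  · intro k hk
    refine not_dvd_at g m c hc Q hQ j hQj k ?_
    obtain ⟨r, hr⟩ := hk
    have h1 := congrArg (trl P) hr
    rw [map_mul, map_pow, map_mul, map_prod] at h1
    have hCc : trl P (C c : MvPolynomial V ℂ) = C c := by simp [trl]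
    simp only [map_pow, hCc] at h1
    have h2 := ((LowC.C (w := w) c).mul (LowC.prod (Finset.univ.erase j)
      fun i _ => (H.low i).pow (m i))).pow k
    set Q' := (C c * ∏ i ∈ Finset.univ.erase j, g i ^ m i) ^ k with hQ'
    have hQ0 : Q' ≠ 0 := by
      refine pow_ne_zero _ (mul_ne_zero (by simpa using hc)
        (Finset.prod_ne_zero_iff.mpr fun i _ => pow_ne_zero _ (H.g_ne i)))
    have hr0 : trl P r ≠ 0 := by
      intro h
      rw [h, mul_zero] at h1
      rw [h1] at h2
      exact hQ0 (by rw [← h2.2, map_zero])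
    obtain ⟨a, r', hr', hr'0⟩ := exists_low w (trl P r) hr0
    have h3 := (H.low j).mul hr'
    rw [← h1] at h3
    have h4 := (h3.unique h2 (mul_ne_zero (H.g_ne j) hr'0) hQ0).2
    exact ⟨r', h4.symm⟩
  · exact mul_ne_zero (by simpa using hc)
      (Finset.prod_ne_zero_iff.mpr fun i _ => pow_ne_zero _ (H.f_ne i))

end Pool.Agent.L0h21.SN
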