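import Pool.Agent.W427.SMC.Pa3

/-! Isometries of `ℤ_p ^ I` preserve the Haar measure. -/

set_option autoImplicit false
set_option linter.unusedSectionVars false

namespace Pool.Agent.L0h21.SN

open MeasureTheory Set
open Pool.Agent.W427.SMC
open scoped ENNReal

variable (p : ℕ) [Fact p.Prime]

attribute [local instance] msZ bsZ

variable {I : Type} [Fintype I]

/-- The Haar measure on `ℤ_p ^ I`. -/
noncomputable abbrev muV (I : Type) [Fintype I] : Measure (I → ℤ_[p]) :=
  Measure.pi fun _ : I => mu p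

theorem muV_ball (x : I → ℤ_[p]) (r : ℝ) :
    muV p I (Metric.ball x r) = muV p I (Metric.ball 0 r) := by
  have h : Metric.ball (0 : I → ℤ_[p]) r = (fun z => x + z) ⁻¹' Metric.ball x r := by
    ext z
    simp
  rw [h, measure_preimage_add]

theorem isom_mp (ψ : (I → ℤ_[p]) → (I → ℤ_[p])) (hψ : Isometry ψ) :
    MeasurePreserving ψ (muV p I) (muV p I) := by
  have hm : Measurable ψ := hψ.continuous.measurable
  refine ⟨hm, ?_⟩
  set B : Set (Set (I → ℤ_[p])) := {s | ∃ x : I → ℤ_[p], ∃ r : ℝ, 0 < r ∧ s = Metric.ball x r} with hB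
  have hbasis : TopologicalSpace.IsTopologicalBasis B := by
    refine TopologicalSpace.isTopologicalBasis_of_isOpen_of_nhds ?_ ?_
    · rintro _ ⟨x, r, -, rfl⟩
      exact Metric.isOpen_ball
    · intro x u hx hu
      obtain ⟨r, hr, hb⟩ := Metric.isOpen_iff.mp hu x hx
      exact ⟨_, ⟨x, r, hr, rfl⟩, Metric.mem_ball_self hr, hb⟩
  have hgen : (MeasurableSpace.pi : MeasurableSpace (I → ℤ_[p])) =
      MeasurableSpace.generateFrom B := by
    rw [← hbasis.borel_eq_generateFrom]
    exact BorelSpace.measurable_eq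
  have hpi : IsPiSystem B := by
    rintro _ ⟨x, r, hr, rfl⟩ _ ⟨y, s, hs, rfl⟩ hne
    rcases IsUltrametricDist.ball_subset_trichotomy x y r s with h | h | h
    · rw [Set.inter_eq_left.mpr h]
      exact ⟨x, r, hr, rfl⟩
    · rw [Set.inter_eq_right.mpr h]
      exact ⟨y, s, hs, rfl⟩
    · exact absurd hne (Set.not_nonempty_iff_eq_empty.mpr (Set.disjoint_iff_inter_eq_empty.mp h))
  have hfin : IsFiniteMeasure ((muV p I).map ψ) := by
    infer_instance
  refine ext_of_generate_finite B hgen hpi ?_ ?_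
  · rintro _ ⟨y, r, hr, rfl⟩
    obtain ⟨x, hx⟩ := isom_surj ψ hψ y
    rw [Measure.map_apply hm measurableSet_ball, ← hx, hψ.preimage_ball, muV_ball, ← muV_ball p (ψ x)]
  · rw [Measure.map_apply hm MeasurableSet.univ, Set.preimage_univ]

end Pool.Agent.L0h21.SN
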