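import Pool.Agent.L0h21.SN.PadR1

/-! The integral over a ball around a point with normal crossings: a formula, and its invariance
under small perturbations. -/

set_option autoImplicit false
set_option linter.unusedSectionVars false

namespace Pool.Agent.L0h21.SN

open MeasureTheory MvPolynomial
open Pool.Agent.W427.SMC
open scoped ENNReal

variable {p : ℕ} [Fact p.Prime]

attribute [local instance] msZ bsZ

theorem tau_dvd_eq (s : ℝ) (a b : ℤ_[p]) (h1 : a ∣ b) (h2 : b ∣ a) : tau p s a = tau p s b :=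
  tau_norm p s _ _ (le_antisymm (norm_le_of_dvd p _ _ h2) (norm_le_of_dvd p _ _ h1))

/-- The norm does not change under small perturbations. -/
theorem tau_close (s : ℝ) (L : ℕ) (a b : ℤ_[p]) (h : (p : ℤ_[p]) ^ L ∣ a - b)
    (hb : ¬ (p : ℤ_[p]) ^ L ∣ b) : tau p s a = tau p s b := by
  refine tau_norm p s _ _ (norm_eq_of_sub_lt p _ _ ?_)
  have h2 : ‖(p : ℤ_[p]) ^ L‖ < ‖b‖ := by
    by_contra hc
    exact hb (dvd_of_norm_le p _ _ (not_lt.mp hc))
  exact (norm_le_of_dvd p _ _ h).trans_lt h2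

theorem psi_congr2 (N N' u u' : ℤ_[p]) (h1 : N ∣ N') (h2 : N' ∣ N) (h : N ∣ u - u') (m : ℕ)
    (s : ℝ) : psi N u m s = psi N' u' m s := by
  by_cases hu : N ∣ u
  · have hu' : N' ∣ u' := by
      refine h2.trans ?_
      have := dvd_sub hu h
      rwa [sub_sub_cancel] at this
    rw [psi_dvd N u m s hu, psi_dvd N' u' m s hu', tau_dvd_eq s N N' h1 h2]
  · have hu' : ¬ N' ∣ u' := by
      intro h3
      apply hu
      have := dvd_add h (h1.trans h3)
      rwa [sub_add_cancel] at this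
    rw [psi_not_dvd N u m s hu, psi_not_dvd N' u' m s hu']
    congr 1
    refine tau_norm p s _ _ ?_
    have h3 : ‖N‖ < ‖u‖ := by
      by_contra hc
      exact hu (dvd_of_norm_le p _ _ (not_lt.mp hc))
    have h4 : ‖u' - u‖ < ‖u‖ := by
      rw [norm_sub_rev]
      exact (norm_le_of_dvd p _ _ h).trans_lt h3
    exact (norm_eq_of_sub_lt p _ _ h4).symm

variable {V J : Type} [Fintype V] [DecidableEq V] [Fintype J] [DecidableEq J]

theorem eval_minor' {R : Type} [CommRing R] (f : J → MvPolynomial V R) (I : Finset J) (u : I → V)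
    (P : V → R) :
    eval P (minor f I u) = (Matrix.of fun s t : I => eval P (pderiv (u s) (f t.1))).det := by
  rw [minor, RingHom.map_det]
  congr 1

theorem tau_F' (f : J → MvPolynomial V ℤ_[p]) (m : J → ℕ) (c : ℤ_[p]) (s : ℝ) (x : V → ℤ_[p]) :
    tau p s (eval x (C c * ∏ j, f j ^ m j)) =
      tau p s c * ∏ j, tau p s (eval x (f j)) ^ m j := by
  rw [map_mul, tau_mul, map_prod, tau_prod, eval_C]
  congr 1
  exact Finset.prod_congr rfl fun j _ => by rw [map_pow, tau_pow]

theorem meas_F' (g : MvPolynomial V ℤ_[p]) (s : ℝ) :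
    Measurable fun x : V → ℤ_[p] => tau p s (eval x g) :=
  (tau_meas p s).comp (MvPolynomial.continuous_eval g).measurable

/-- The factors which do not vanish. -/
noncomputable def kap (f : J → MvPolynomial V ℤ_[p]) (m : J → ℕ) (c : ℤ_[p]) (x₀ : V → ℤ_[p])
    (I : Finset J) (s : ℝ) : ℝ≥0∞ :=
  tau p s c * ∏ j ∈ Finset.univ.filter (fun j => j ∉ I), tau p s (eval x₀ (f j)) ^ m j

open Classical in
/-- The function which is integrated. -/
noncomputable def Hf (f : J → MvPolynomial V ℤ_[p]) (m : J → ℕ) (c : ℤ_[p]) (x₀ : V → ℤ_[p])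
    (L : ℕ) (I : Finset J) (δ : ℤ_[p]) (r : V → ZMod (p ^ (2 * L))) (s : ℝ) : ℝ≥0∞ :=
  if rep (2 * L) r ∈ bal L x₀ then kap f m c x₀ I s *
    ∏ t : I, psi ((p : ℤ_[p]) ^ L * δ) (eval (rep (2 * L) r) (f t.1)) (m t.1) s else 0

theorem local_formula (f : J → MvPolynomial V ℤ_[p]) (m : J → ℕ) (c : ℤ_[p])
    (x₀ : V → ℤ_[p]) (L : ℕ) (I : Finset J) (hI : ∀ j, j ∈ I ↔ (p : ℤ_[p]) ^ L ∣ eval x₀ (f j))
    (u : I → V) (hu : ¬ (p : ℤ_[p]) ^ L ∣ eval x₀ (minor f I u)) (s : ℝ) :
    ∫⁻ x, (bal L x₀).indicator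
      (fun x => tau p s (eval x (C c * ∏ j, f j ^ m j))) x ∂(muV p V) =
    ∫⁻ x, Hf f m c x₀ L I (eval x₀ (minor f I u)) (rho (2 * L) x) s ∂(muV p V) := by
  classical
  have hp0 : (p : ℤ_[p]) ≠ 0 := by exact_mod_cast (Fact.out : p.Prime).ne_zero
  obtain ⟨q, hq⟩ := exists_dir u (fun (t : I) v => eval x₀ (pderiv v (f t.1)))
  rw [← eval_minor'] at hq
  set δ : ℤ_[p] := eval x₀ (minor f I u) with hδ
  have hδ0 : δ ≠ 0 := fun h => hu (h ▸ dvd_zero _)
  set N : ℤ_[p] := (p : ℤ_[p]) ^ L * δ with hN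
  have hNd : N ∣ (p : ℤ_[p]) ^ (2 * L) := by
    rw [two_mul, pow_add]
    refine mul_dvd_mul_left _ (dvd_of_norm_le p _ _ ?_)
    by_contra h
    exact hu (dvd_of_norm_le p _ _ (not_le.mp h).le)
  set φ : (I → ℤ_[p]) → (V → ℤ_[p]) := fun a v => (p : ℤ_[p]) ^ L * ∑ s, a s * q s v with hφ
  have hφm : Measurable φ := by
    refine Continuous.measurable ?_
    refine continuous_pi fun v => continuous_const.mul ?_
    exact continuous_finsetSum _ fun s _ => (continuous_apply s).mul continuous_const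
  -- norms of the other factors
  have hout : ∀ x ∈ bal L x₀, ∀ j, j ∉ I → tau p s (eval x (f j)) =
      tau p s (eval x₀ (f j)) := by
    intro x hx j hj
    exact tau_close s L _ _ (eval_lip (f j) x x₀ _ hx) (fun h => hj ((hI j).mpr h))
  -- the average
  have hin : ∀ x ∈ bal L x₀, ∫⁻ a, tau p s (eval (x + φ a) (C c * ∏ j, f j ^ m j))
      ∂(muV p I) = kap f m c x₀ I s * ∏ t : I, psi N (eval x (f t.1)) (m t.1) s := by
    intro x hx
    obtain ⟨ψ, hψ, hψ2⟩ := exists_isom' p (fun t : I => f t.1) x₀ x L δ hu q hq hx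
    have hmem : ∀ a, x + φ a ∈ bal L x₀ := by
      intro a v
      have : (x + φ a) v - x₀ v = (x v - x₀ v) + φ a v := by
        rw [Pi.add_apply]; ring
      rw [this]
      exact dvd_add (hx v) (dvd_mul_right _ _)
    have h1 : ∀ a, tau p s (eval (x + φ a) (C c * ∏ j, f j ^ m j)) =
        kap f m c x₀ I s * ∏ t : I, tau p s (eval x (f t.1) + N * ψ a t) ^ m t.1 := by
      intro a
      rw [tau_F', kap, mul_assoc]
      congr 1
      rw [← Finset.prod_filter_mul_prod_filter_not Finset.univ (fun j => j ∉ I)]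
      congr 1
      · refine Finset.prod_congr rfl fun j hj => ?_
        rw [hout _ (hmem a) j (Finset.mem_filter.mp hj).2]
      · have h2 : (Finset.univ.filter fun j => ¬ j ∉ I) = I := by
          ext j; simp
        rw [h2, ← Finset.prod_coe_sort]
        refine Finset.prod_congr rfl fun t _ => ?_
        congr 2
        exact hψ2 a t
    simp only [h1]
    have h3 : Measurable fun b : I → ℤ_[p] =>
        ∏ t : I, tau p s (eval x (f t.1) + N * b t) ^ m t.1 := by
      refine Finset.measurable_prod _ fun t _ => Measurable.pow_const ?_ _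
      refine (tau_meas p s).comp ?_
      exact (continuous_const.add (continuous_const.mul (continuous_apply t))).measurable
    have hmp := isom_mp p ψ hψ
    refine (lintegral_const_mul _ (h3.comp hmp.measurable)).trans ?_
    congr 1
    refine (hmp.lintegral_comp h3).trans ?_
    refine pi_prod (fun (t : I) z => tau p s (eval x (f t.1) + N * z) ^ m t.1) fun t => ?_
    refine Measurable.pow_const ?_ _
    refine (tau_meas p s).comp ?_
    exact (continuous_const.add (continuous_const.mul continuous_id)).measurable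
  have hg : Measurable ((bal L x₀).indicator
      (fun x => tau p s (eval x (C c * ∏ j, f j ^ m j)))) :=
    (meas_F' _ s).indicator (bal_meas L x₀)
  rw [avg _ hg φ hφm]
  refine lintegral_congr fun x => ?_
  have hmem : ∀ a, x + φ a ∈ bal L x₀ ↔ x ∈ bal L x₀ := by
    intro a
    refine forall_congr' fun v => ?_
    have : (x + φ a) v - x₀ v = (x v - x₀ v) + φ a v := by
      rw [Pi.add_apply]; ring
    rw [this]
    exact (dvd_add_left (dvd_mul_right _ _))
  have hle : (p : ℤ_[p]) ^ L ∣ (p : ℤ_[p]) ^ (2 * L) := pow_dvd_pow _ (by omega)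
  have hB2 : rep (2 * L) (rho (2 * L) x) ∈ bal L x₀ ↔ x ∈ bal L x₀ := by
    refine forall_congr' fun v => ?_
    have h1 := hle.trans (dvd_rep (2 * L) x v)
    have h2 : x v - x₀ v = (x v - rep (2 * L) (rho (2 * L) x) v) +
      (rep (2 * L) (rho (2 * L) x) v - x₀ v) := by ring
    rw [h2]
    exact (dvd_add_right h1).symm
  by_cases hx : x ∈ bal L x₀
  · rw [Hf, if_pos (hB2.mpr hx)]
    have h1 : ∀ a, (bal L x₀).indicator (fun x => tau p s (eval x (C c * ∏ j, f j ^ m j)))
        (x + φ a) = tau p s (eval (x + φ a) (C c * ∏ j, f j ^ m j)) := fun a =>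
      Set.indicator_of_mem ((hmem a).mpr hx) _
    simp only [h1]
    rw [hin x hx]
    congr 1
    refine Finset.prod_congr rfl fun t _ => ?_
    refine psi_congr _ _ _ _ s ?_
    exact hNd.trans (eval_lip _ _ _ _ (dvd_rep (2 * L) x))
  · rw [Hf, if_neg (fun h => hx (hB2.mp h))]
    have h1 : ∀ a, (bal L x₀).indicator (fun x => tau p s (eval x (C c * ∏ j, f j ^ m j)))
        (x + φ a) = 0 := fun a => Set.indicator_of_notMem (fun h => hx ((hmem a).mp h)) _
    simp only [h1]
    simp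

theorem local_nice' (f : J → MvPolynomial V ℤ_[p]) (m : J → ℕ) (c : ℤ_[p]) (hc : c ≠ 0)
    (x₀ : V → ℤ_[p]) (L : ℕ) (I : Finset J) (hI : ∀ j, j ∈ I ↔ (p : ℤ_[p]) ^ L ∣ eval x₀ (f j))
    (u : I → V) (hu : ¬ (p : ℤ_[p]) ^ L ∣ eval x₀ (minor f I u)) :
    Nice p (∏ j, Dm p (m j)) (fun s => ∫⁻ x, (bal L x₀).indicator
      (fun x => tau p s (eval x (C c * ∏ j, f j ^ m j))) x ∂(muV p V)) := by
  classical
  have hp0 : (p : ℤ_[p]) ≠ 0 := by exact_mod_cast (Fact.out : p.Prime).ne_zero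
  set δ : ℤ_[p] := eval x₀ (minor f I u) with hδ
  have hδ0 : δ ≠ 0 := fun h => hu (h ▸ dvd_zero _)
  have hN0 : (p : ℤ_[p]) ^ L * δ ≠ 0 := mul_ne_zero (pow_ne_zero _ hp0) hδ0
  have hD : (∏ j, Dm p (m j)) = (∏ t : I, Dm p (m t.1)) *
      ∏ j ∈ Finset.univ.filter (fun j => j ∉ I), Dm p (m j) := by
    rw [← Finset.prod_filter_mul_prod_filter_not Finset.univ (fun j => j ∉ I)]
    have h2 : (Finset.univ.filter fun j => ¬ j ∉ I) = I := by
      ext j; simp
    rw [h2, mul_comm, ← Finset.prod_coe_sort]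
  refine (nice_fin _ (2 * L) (Hf f m c x₀ L I δ) fun r => ?_).congr fun s _ =>
    (local_formula f m c x₀ L I hI u hu s).symm
  by_cases hr : rep (2 * L) r ∈ bal L x₀
  · have h1 : Nice p (∏ j, Dm p (m j)) (fun s => (∏ t : I, psi ((p : ℤ_[p]) ^ L * δ)
        (eval (rep (2 * L) r) (f t.1)) (m t.1) s) * kap f m c x₀ I s) := by
      rw [hD]
      refine Nice.mul (Nice.prod _ _ _ fun t _ => nice_psi _ _ hN0 _) ?_
      refine Nice.weaken ?_
      have h2 := (nice_tau (p := p) c hc).mul (Nice.prod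
        (Finset.univ.filter fun j => j ∉ I) (fun _ => 1)
        (fun j s => tau p s (eval x₀ (f j)) ^ m j) fun j hj => nice_tau_pow _ (fun h => ?_) _)
      · have h3 : kap f m c x₀ I = fun s => tau p s c *
            ∏ j ∈ Finset.univ.filter (fun j => j ∉ I), tau p s (eval x₀ (f j)) ^ m j := rfl
        rw [h3]
        simpa using h2
      · exact (Finset.mem_filter.mp hj).2 ((hI j).mpr (h ▸ dvd_zero _))
    refine h1.congr fun s _ => ?_
    rw [Hf, if_pos hr, mul_comm]
  · exact (Nice.zero _).congr fun s _ => by rw [Hf, if_neg hr]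

/-- Congruent families have congruent minors. -/
theorem minor_congr (f f' : J → MvPolynomial V ℤ_[p]) (k : ℕ)
    (r : J → MvPolynomial V ℤ_[p]) (hf : ∀ j, f' j = f j + C ((p : ℤ_[p]) ^ k) * r j)
    (I : Finset J) (u : I → V) (x : V → ℤ_[p]) :
    (p : ℤ_[p]) ^ k ∣ eval x (minor f' I u) - eval x (minor f I u) := by
  set φ := Ideal.Quotient.mk (Ideal.span {(p : ℤ_[p]) ^ k}) with hφ
  have h1 : ∀ j v, φ (eval x (pderiv v (f' j))) = φ (eval x (pderiv v (f j))) := by
    intro j v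
    rw [hf j, map_add, pderiv_C_mul, map_add, map_mul, eval_C, map_add, map_mul]
    have : φ ((p : ℤ_[p]) ^ k) = 0 :=
      Ideal.Quotient.eq_zero_iff_mem.mpr (Ideal.mem_span_singleton_self _)
    rw [this, zero_mul, add_zero]
  have h2 : φ (eval x (minor f' I u)) = φ (eval x (minor f I u)) := by
    rw [eval_minor', eval_minor', RingHom.map_det, RingHom.map_det]
    congr 1
    ext s t
    rw [RingHom.mapMatrix_apply, RingHom.mapMatrix_apply, Matrix.map_apply, Matrix.map_apply,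
      Matrix.of_apply, Matrix.of_apply, h1]
  rw [← Ideal.mem_span_singleton, ← Ideal.Quotient.eq_zero_iff_mem, map_sub, ← hφ, h2, sub_self]

/-- The integral does not change under small perturbations. -/
theorem local_stable (f : J → MvPolynomial V ℤ_[p]) (m : J → ℕ) (c : ℤ_[p])
    (x₀ : V → ℤ_[p]) (L : ℕ) (I : Finset J) (hI : ∀ j, j ∈ I ↔ (p : ℤ_[p]) ^ L ∣ eval x₀ (f j))
    (u : I → V) (hu : ¬ (p : ℤ_[p]) ^ L ∣ eval x₀ (minor f I u)) (k : ℕ) (hk : 2 * L ≤ k)
    (f' r : J → MvPolynomial V ℤ_[p]) (hf : ∀ j, f' j = f j + C ((p : ℤ_[p]) ^ k) * r j)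
    (s : ℝ) :
    ∫⁻ x, (bal L x₀).indicator
      (fun x => tau p s (eval x (C c * ∏ j, f' j ^ m j))) x ∂(muV p V) =
    ∫⁻ x, (bal L x₀).indicator
      (fun x => tau p s (eval x (C c * ∏ j, f j ^ m j))) x ∂(muV p V) := by
  classical
  have hev : ∀ x j, (p : ℤ_[p]) ^ k ∣ eval x (f' j) - eval x (f j) := by
    intro x j
    rw [hf j, map_add, map_mul, eval_C, add_sub_cancel_left]
    exact dvd_mul_right _ _
  have hkL : (p : ℤ_[p]) ^ L ∣ (p : ℤ_[p]) ^ k := pow_dvd_pow _ (by omega)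
  have hk2L : (p : ℤ_[p]) ^ (2 * L) ∣ (p : ℤ_[p]) ^ k := pow_dvd_pow _ hk
  have hI' : ∀ j, j ∈ I ↔ (p : ℤ_[p]) ^ L ∣ eval x₀ (f' j) := by
    intro j
    rw [hI j]
    have h1 := hkL.trans (hev x₀ j)
    constructor
    · intro h2
      have := dvd_add h1 h2
      rwa [sub_add_cancel] at this
    · intro h2
      have := dvd_sub h2 h1
      rwa [sub_sub_cancel] at this
  have hm := minor_congr f f' k r hf I u x₀
  have hu' : ¬ (p : ℤ_[p]) ^ L ∣ eval x₀ (minor f' I u) := by
    intro h2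
    apply hu
    have := dvd_sub h2 (hkL.trans hm)
    rwa [sub_sub_cancel] at this
  -- the divisors `N` and `N'`
  have hδL : eval x₀ (minor f I u) ∣ (p : ℤ_[p]) ^ L := by
    refine dvd_of_norm_le p _ _ ?_
    by_contra h
    exact hu (dvd_of_norm_le p _ _ (not_le.mp h).le)
  have hδL' : eval x₀ (minor f' I u) ∣ (p : ℤ_[p]) ^ L := by
    refine dvd_of_norm_le p _ _ ?_
    by_contra h
    exact hu' (dvd_of_norm_le p _ _ (not_le.mp h).le)
  have h1 : eval x₀ (minor f I u) ∣ eval x₀ (minor f' I u) := by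
    have := dvd_add ((hδL.trans hkL).trans hm) (dvd_refl (eval x₀ (minor f I u)))
    rwa [sub_add_cancel] at this
  have h2 : eval x₀ (minor f' I u) ∣ eval x₀ (minor f I u) := by
    have := dvd_sub (dvd_refl (eval x₀ (minor f' I u))) ((hδL'.trans hkL).trans hm)
    rwa [sub_sub_cancel] at this
  have hN1 : (p : ℤ_[p]) ^ L * eval x₀ (minor f' I u) ∣ (p : ℤ_[p]) ^ L * eval x₀ (minor f I u) :=
    mul_dvd_mul_left _ h2
  have hN2 : (p : ℤ_[p]) ^ L * eval x₀ (minor f I u) ∣ (p : ℤ_[p]) ^ L * eval x₀ (minor f' I u) :=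
    mul_dvd_mul_left _ h1
  have hNd : (p : ℤ_[p]) ^ L * eval x₀ (minor f' I u) ∣ (p : ℤ_[p]) ^ k := by
    refine dvd_trans ?_ hk2L
    rw [two_mul, pow_add]
    exact mul_dvd_mul_left _ hδL'
  have hκ : kap f' m c x₀ I s = kap f m c x₀ I s := by
    rw [kap, kap]
    congr 1
    refine Finset.prod_congr rfl fun j hj => ?_
    rw [tau_close s L _ _ (hkL.trans (hev x₀ j))
      (fun h => (Finset.mem_filter.mp hj).2 ((hI j).mpr h))]
  have hprod : ∀ y : V → ℤ_[p], ∏ t : I, psi ((p : ℤ_[p]) ^ L * eval x₀ (minor f' I u))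
      (eval y (f' t.1)) (m t.1) s = ∏ t : I, psi ((p : ℤ_[p]) ^ L * eval x₀ (minor f I u))
      (eval y (f t.1)) (m t.1) s := fun y => Finset.prod_congr rfl fun t _ =>
    psi_congr2 _ _ _ _ hN1 hN2 (hNd.trans (hev _ t.1)) _ s
  rw [local_formula f m c x₀ L I hI u hu s, local_formula f' m c x₀ L I hI' u hu' s]
  refine lintegral_congr fun x => ?_
  unfold Hf
  rw [hκ, hprod]

end Pool.Agent.L0h21.SN
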