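import Pool.Agent.L0h21.SN.Pad5

/-! The integral of a product with normal crossings outside of coordinate subspaces. -/

set_option autoImplicit false
set_option linter.unusedSectionVars false

namespace Pool.Agent.L0h21.SN

open MeasureTheory MvPolynomial
open Pool.Agent.W427.SMC
open scoped ENNReal

variable {p : ℕ} [Fact p.Prime]

attribute [local instance] msZ bsZ

variable {V J ι : Type} [Fintype V] [DecidableEq V] [Fintype J] [DecidableEq J] [Fintype ι]
  [DecidableEq ι]

theorem aeval_rat (g : MvPolynomial V ℤ) (x : V → ℤ_[p]) :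
    aeval (fun v => (x v : ℚ_[p])) (map (Int.castRingHom ℚ) g) = ((aeval x g : ℤ_[p]) : ℚ_[p]) := by
  induction g using MvPolynomial.induction_on with
  | C a => simp
  | add f g hf hg => rw [map_add, map_add, map_add, hf, hg, PadicInt.coe_add]
  | mul_X f i hf => rw [map_mul, map_mul, map_mul, hf, map_X, aeval_X, aeval_X, PadicInt.coe_mul]

theorem minor_ne (f : J → MvPolynomial V ℤ) (x : V → ℤ_[p])
    (hs : SNCAt' (fun j => map (Int.castRingHom ℚ) (f j)) (fun v => (x v : ℚ_[p])))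
    (I : Finset J) (hI : ∀ j ∈ I, aeval x (f j) = 0) :
    ∃ u : I → V, aeval x (minor f I u) ≠ 0 := by
  have h1 : ∀ j ∈ I, aeval (fun v => (x v : ℚ_[p])) (map (Int.castRingHom ℚ) (f j)) = 0 := by
    intro j hj
    rw [aeval_rat, hI j hj]
    rfl
  have h2 := LinearIndependent.comp hs
    (fun t : I => (⟨t.1, h1 t.1 t.2⟩ : {j // aeval (fun v => (x v : ℚ_[p]))
      (map (Int.castRingHom ℚ) (f j)) = 0}))
    (fun s t h => Subtype.ext (by simpa using congrArg Subtype.val h))
  obtain ⟨u, hu⟩ := exists_minor _ h2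
  refine ⟨u, fun h0 => hu ?_⟩
  have h3 := aeval_rat (minor f I u) x
  rw [h0, map_minor, aeval_minor, PadicInt.coe_zero] at h3
  exact h3

theorem Om_compact (w : ι → V → ℕ) (A : Finset ι) : IsCompact (Om p w A) := by
  refine IsClosed.isCompact ?_
  rw [Om_eq]
  refine isClosed_biInter fun i _ => ?_
  rw [isClosed_compl_iff, As_pi]
  refine isOpen_set_pi Set.finite_univ fun v _ => ?_
  have h1 : {z : ℤ_[p] | (p : ℤ_[p]) ^ w i v ∣ z} =
      (fun z : ℤ_[p] => z) ⁻¹' Metric.ball 0 (‖(p : ℤ_[p]) ^ w i v‖ * p) := by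
    ext z
    rw [Set.mem_ofPred_eq, Set.mem_preimage, mem_ball_zero_iff, dvd_iff_norm]
    have hp1 : (1 : ℝ) < p := by exact_mod_cast (Fact.out : p.Prime).one_lt
    rw [PadicInt.norm_p_pow]
    constructor
    · intro h
      have hpos : (0 : ℝ) < (p : ℝ) ^ (-(w i v : ℤ)) := by positivity
      nlinarith
    · intro h
      rw [PadicInt.norm_le_pow_iff_norm_lt_pow_add_one, zpow_add₀ (by positivity), zpow_one]
      exact h
  rw [h1]
  exact Metric.isOpen_ball

/-- A uniform bound for the minors. -/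
theorem unif (w : ι → V → ℕ) (f : J → MvPolynomial V ℤ)
    (hsnc : ∀ P : V → ℚ_[p], (∀ i, ∃ v, 0 < w i v ∧ P v ≠ 0) →
      SNCAt' (fun j => map (Int.castRingHom ℚ) (f j)) P) (I : Finset J) :
    ∃ L : ℕ, ∀ x ∈ Om p w Finset.univ, (∀ j ∈ I, (p : ℤ_[p]) ^ L ∣ aeval x (f j)) →
      ∃ u : I → V, ¬ (p : ℤ_[p]) ^ L ∣ aeval x (minor f I u) := by
  have hp1 : (1 : ℝ) < p := by exact_mod_cast (Fact.out : p.Prime).one_lt
  have hinv : (p : ℝ)⁻¹ < 1 := inv_lt_one_of_one_lt₀ hp1
  set h : (V → ℤ_[p]) → ℝ := fun x =>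
    ∑ j ∈ I, ‖aeval x (f j)‖ + ∑ u : I → V, ‖aeval x (minor f I u)‖ with hh
  have hcont : Continuous h := by
    refine Continuous.add ?_ ?_
    · exact continuous_finsetSum _ fun j _ => (aeval_cont p (f j)).norm
    · exact continuous_finsetSum _ fun u _ => (aeval_cont p (minor f I u)).norm
  rcases (Om p w Finset.univ).eq_empty_or_nonempty with h0 | h0
  · refine ⟨0, fun x hx => ?_⟩
    rw [h0] at hx
    exact absurd hx (Set.notMem_empty x)
  obtain ⟨x₀, hx₀, hmin⟩ := (Om_compact (p := p) w Finset.univ).exists_isMinOn h0 hcont.continuousOn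
  have hpos : 0 < h x₀ := by
    by_contra hle
    have hnn1 : 0 ≤ ∑ j ∈ I, ‖aeval x₀ (f j)‖ := Finset.sum_nonneg fun _ _ => norm_nonneg _
    have hnn2 : 0 ≤ ∑ u : I → V, ‖aeval x₀ (minor f I u)‖ :=
      Finset.sum_nonneg fun _ _ => norm_nonneg _
    have h1 : ∑ j ∈ I, ‖aeval x₀ (f j)‖ = 0 := by
      have := not_lt.mp hle
      simp only [hh] at this
      linarith
    have h2 : ∑ u : I → V, ‖aeval x₀ (minor f I u)‖ = 0 := by
      have := not_lt.mp hle
      simp only [hh] at this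
      linarith
    rw [Finset.sum_eq_zero_iff_of_nonneg fun _ _ => norm_nonneg _] at h1 h2
    have h3 := hsnc (fun v => (x₀ v : ℚ_[p])) (fun i => by
      obtain ⟨v, hv⟩ := hx₀ i (Finset.mem_univ i)
      refine ⟨v, ?_, ?_⟩
      · rcases Nat.eq_zero_or_pos (w i v) with h4 | h4
        · rw [h4, pow_zero] at hv
          exact absurd (one_dvd _) hv
        · exact h4
      · intro h4
        apply hv
        have h5 : x₀ v = 0 := Subtype.ext h4
        rw [h5]
        exact dvd_zero _)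
    obtain ⟨u, hu⟩ := minor_ne f x₀ h3 I (fun j hj => norm_eq_zero.mp (h1 j hj))
    exact hu (norm_eq_zero.mp (h2 u (Finset.mem_univ u)))
  set n : ℝ := (I.card : ℝ) + (Fintype.card (I → V) : ℝ) + 1 with hn
  have hn0 : 0 < n := by positivity
  obtain ⟨L, hL⟩ := exists_pow_lt_of_lt_one (show 0 < h x₀ / n by positivity) hinv
  refine ⟨L, fun x hx hI => ?_⟩
  by_contra hno
  push Not at hno
  have h1 : h x₀ ≤ h x := hmin hx
  have hnorm : ∀ y : ℤ_[p], (p : ℤ_[p]) ^ L ∣ y → ‖y‖ ≤ ((p : ℝ)⁻¹) ^ L := by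
    intro y hy
    rw [dvd_iff_norm, PadicInt.norm_p_pow] at hy
    rwa [inv_pow, ← zpow_natCast, ← zpow_neg]
  have h2 : h x ≤ n * ((p : ℝ)⁻¹) ^ L := by
    have h3 : ∑ j ∈ I, ‖aeval x (f j)‖ ≤ (I.card : ℝ) * ((p : ℝ)⁻¹) ^ L := by
      refine (Finset.sum_le_sum fun j hj => hnorm _ (hI j hj)).trans ?_
      rw [Finset.sum_const, nsmul_eq_mul]
    have h4 : ∑ u : I → V, ‖aeval x (minor f I u)‖ ≤
        (Fintype.card (I → V) : ℝ) * ((p : ℝ)⁻¹) ^ L := by
      refine (Finset.sum_le_sum fun u _ => hnorm _ (hno u)).trans ?_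
      rw [Finset.sum_const, nsmul_eq_mul, Finset.card_univ]
    have h5 : (0 : ℝ) < ((p : ℝ)⁻¹) ^ L := by positivity
    calc h x ≤ (I.card : ℝ) * ((p : ℝ)⁻¹) ^ L + (Fintype.card (I → V) : ℝ) * ((p : ℝ)⁻¹) ^ L :=
          add_le_add h3 h4
      _ ≤ n * ((p : ℝ)⁻¹) ^ L := by rw [hn]; nlinarith
  rw [lt_div_iff₀ hn0] at hL
  nlinarith

/-- The integral over the primitive points. -/
theorem nice_prim (w : ι → V → ℕ) (f : J → MvPolynomial V ℤ) (m : J → ℕ) (c : ℤ) (hc : c ≠ 0)
    (hsnc : ∀ P : V → ℚ_[p], (∀ i, ∃ v, 0 < w i v ∧ P v ≠ 0) →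
      SNCAt' (fun j => map (Int.castRingHom ℚ) (f j)) P) :
    Nice p (∏ j, Dm p (m j)) (fun s => ∫⁻ x, (Om p w Finset.univ).indicator
      (fun x => tau p s (aeval x (C c * ∏ j, f j ^ m j))) x ∂(muV p V)) := by
  classical
  choose Lf hLf using fun I => unif (p := p) w f hsnc I
  set L : ℕ := ∑ I, Lf I + ∑ i, ∑ v, w i v with hL
  have hL1 : ∀ I, Lf I ≤ L := by
    intro I
    have := Finset.single_le_sum (f := Lf) (fun _ _ => Nat.zero_le _) (Finset.mem_univ I)
    omega
  have hL2 : ∀ i v, w i v ≤ L := by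
    intro i v
    have h1 := Finset.single_le_sum (f := fun i => ∑ v, w i v) (fun _ _ => Nat.zero_le _)
      (Finset.mem_univ i)
    have h2 := Finset.single_le_sum (f := fun v => w i v) (fun _ _ => Nat.zero_le _)
      (Finset.mem_univ v)
    exact h2.trans (h1.trans (by omega))
  have hinv : ∀ x y : V → ℤ_[p], x ∈ bal L y → (x ∈ Om p w Finset.univ ↔
      y ∈ Om p w Finset.univ) := by
    intro x y hxy
    refine forall_congr' fun i => forall_congr' fun _ => exists_congr fun v => not_congr ?_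
    have h1 : (p : ℤ_[p]) ^ w i v ∣ x v - y v := (pow_dvd_pow _ (hL2 i v)).trans (hxy v)
    have h2 : x v = (x v - y v) + y v := by ring
    rw [h2]
    exact dvd_add_right h1
  set G : ℝ → (V → ℤ_[p]) → ℝ≥0∞ := fun s x => tau p s (aeval x (C c * ∏ j, f j ^ m j)) with hG
  have hsplit : ∀ s x, (Om p w Finset.univ).indicator (G s) x =
      ∑ r : V → ZMod (p ^ L), if rep L r ∈ Om p w Finset.univ then
        (bal L (rep L r)).indicator (G s) x else 0 := by
    intro s x
    have hx : x ∈ bal L (rep L (rho L x)) := dvd_rep L x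
    rw [Finset.sum_eq_single (rho L x)]
    · by_cases h1 : x ∈ Om p w Finset.univ
      · rw [if_pos ((hinv _ _ hx).mp h1), Set.indicator_of_mem h1, Set.indicator_of_mem hx]
      · rw [if_neg (fun h => h1 ((hinv _ _ hx).mpr h)), Set.indicator_of_notMem h1]
    · intro r _ hr
      split_ifs
      · refine Set.indicator_of_notMem (fun h => hr ?_) _
        rw [bal_eq, Set.mem_preimage, Set.mem_singleton_iff, rho_rep] at h
        exact h.symm
      · rfl
    · intro h
      exact absurd (Finset.mem_univ _) h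
  have hN : Nice p (∏ j, Dm p (m j)) (fun s => ∑ r : V → ZMod (p ^ L), ∫⁻ x,
      (if rep L r ∈ Om p w Finset.univ then (bal L (rep L r)).indicator (G s) x else 0)
        ∂(muV p V)) := by
    refine Nice.sum _ _ fun r _ => ?_
    by_cases hr : rep L r ∈ Om p w Finset.univ
    · simp only [if_pos hr]
      set I : Finset J := Finset.univ.filter fun j => (p : ℤ_[p]) ^ L ∣ aeval (rep L r) (f j)
        with hI
      obtain ⟨u, hu⟩ := hLf I (rep L r) hr (fun j hj =>
        (pow_dvd_pow _ (hL1 I)).trans (Finset.mem_filter.mp hj).2)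
      exact local_nice f m c hc (rep L r) L I (fun j => by simp [hI]) u
        (fun h => hu ((pow_dvd_pow _ (hL1 I)).trans h))
    · simp only [if_neg hr]
      simpa using Nice.zero _
  refine hN.congr fun s _ => ?_
  rw [← lintegral_finsetSum]
  · exact lintegral_congr fun x => (hsplit s x).symm
  · intro r _
    by_cases hr : rep L r ∈ Om p w Finset.univ
    · simp only [if_pos hr]
      exact (meas_F _ s).indicator (bal_meas L _)
    · simp only [if_neg hr]
      exact measurable_const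

end Pool.Agent.L0h21.SN
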