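import Pool.Agent.L0h21.SN.PadR7
import Pool.Agent.L0h21.SN.CentreB
import Pool.Agent.Y447.CL.Small

/-! The poles of the Poincare series of a divisor with normal crossings outside of weighted
centres. -/

set_option autoImplicit false
set_option linter.unusedSectionVars false

namespace Pool.Agent.L0h21.SN

open MeasureTheory MvPolynomial
open Pool.Agent.W427.SMC Pool.Agent.H628R4.TP
open scoped ENNReal

attribute [local instance] msZ bsZ

variable {V J : Type} [Fintype V] [DecidableEq V] [Fintype J] [DecidableEq J]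

theorem map_trl {R S : Type} [CommRing R] [CommRing S] (φ : R →+* S) (x : V → R)
    (q : MvPolynomial V R) : map φ (trl x q) = trl (fun v => φ (x v)) (map φ q) := by
  induction q using MvPolynomial.induction_on with
  | C a => simp [trl]
  | add f g hf hg => simp only [map_add, hf, hg]
  | mul_X f i hf => rw [map_mul, map_mul, map_mul, map_mul, hf, map_X, trl_X, trl_X, map_add,
      map_X, map_C]

theorem map_whc {R S : Type} [CommRing R] [CommRing S] (φ : R →+* S) (w : V → ℕ) (e : ℕ)
    (q : MvPolynomial V R) : map φ (weightedHomogeneousComponent w e q) =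
      weightedHomogeneousComponent w e (map φ q) := by
  ext d
  rw [coeff_map, coeff_weightedHomogeneousComponent, coeff_weightedHomogeneousComponent,
    coeff_map]
  split_ifs
  · rfl
  · exact map_zero φ

/-- A polynomial which is not constant has a zero. -/
theorem exists_zero_nc (q : MvPolynomial V ℂ) (hq : q.totalDegree ≠ 0) :
    ∃ P : V → ℂ, eval P q = 0 := by
  by_contra hcon
  push Not at hcon
  have h1 : (1 : MvPolynomial V ℂ) ∈ vanishingIdeal ℂ (zeroLocus ℂ (Ideal.span {q})) := by
    rw [mem_vanishingIdeal_iff]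
    intro P hP
    rw [mem_zeroLocus_iff] at hP
    have h2 := hP q (Ideal.mem_span_singleton_self q)
    rw [aeval_ev] at h2
    exact absurd h2 (hcon P)
  rw [vanishingIdeal_zeroLocus_eq_radical] at h1
  obtain ⟨M, hM⟩ := h1
  rw [one_pow, Ideal.mem_span_singleton] at hM
  have h3 := isUnit_of_dvd_one hM
  apply hq
  rw [MvPolynomial.isUnit_iff_eq_C_of_isReduced] at h3
  obtain ⟨r, -, hr⟩ := h3
  rw [hr, totalDegree_C]

variable (p : ℕ) [Fact p.Prime]

/-- Every pole of the Poincare series gives a root of the Bernstein-Sato polynomial. -/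
theorem padic_centres (f : J → MvPolynomial V ℤ) (hf : ∀ j, (f j).totalDegree ≠ 0)
    (m : J → ℕ) (hm : ∀ j, 0 < m j) (c : ℤ) (hc : c ≠ 0)
    (hcent : ∀ P : V → ℂ, SNCAt' (fun j => map (Int.castRingHom ℂ) (f j)) P ∨
      ∃ w e g h, CentreAt (fun j => map (Int.castRingHom ℂ) (f j)) P w e g h) :
    ∃ Φ : RatFunc ℂ,
      ((Φ.denom : Polynomial ℂ) : PowerSeries ℂ) * poincare p (C c * ∏ j, f j ^ m j) =
        ((Φ.num : Polynomial ℂ) : PowerSeries ℂ) ∧
      ∀ T : ℂ, Φ.denom.IsRoot T → ∀ b : Polynomial ℂ,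
        IsBFunction (map (Int.castRingHom ℂ) (C c * ∏ j, f j ^ m j)) b →
          b.eval ((-Real.log ‖T‖ / Real.log p : ℝ) : ℂ) = 0 := by
  classical
  obtain ⟨σ⟩ := Pool.Agent.Y447.CL.emb p
  have hcast : Function.Injective (Int.castRingHom ℂ) := Int.cast_injective (α := ℂ)
  have hmap : map (Int.castRingHom ℂ) (C c * ∏ j, f j ^ m j) =
      C ((Int.castRingHom ℂ) c) * ∏ j, (map (Int.castRingHom ℂ) (f j)) ^ m j := by
    rw [map_mul, map_C, map_prod]
    simp only [map_pow]
  have hc' : (Int.castRingHom ℂ) c ≠ 0 := fun h => hc (hcast (h.trans (map_zero _).symm))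
  set fC : J → MvPolynomial V ℂ := fun j => map (Int.castRingHom ℂ) (f j) with hfC
  have hdeg : ∀ j, (fC j).totalDegree ≠ 0 := by
    intro j
    rw [hfC]
    show (map (Int.castRingHom ℂ) (f j)).totalDegree ≠ 0
    rw [totalDegree, support_map_of_injective _ hcast]
    exact hf j
  have hfC0 : ∀ j, fC j ≠ 0 := fun j h => hdeg j (by rw [h, totalDegree_zero])
  set Good : Polynomial ℂ → Prop := fun D => D ≠ 0 ∧ ∀ T : ℂ, D.IsRoot T →
    ∀ b : Polynomial ℂ, IsBFunction (map (Int.castRingHom ℂ) (C c * ∏ j, f j ^ m j)) b →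
      b.eval ((-Real.log ‖T‖ / Real.log p : ℝ) : ℂ) = 0 with hGood
  have hone : Good 1 := ⟨one_ne_zero, fun T hT => by
    rw [Polynomial.IsRoot.def, Polynomial.eval_one] at hT
    exact absurd hT one_ne_zero⟩
  have hmul : ∀ D E, Good D → Good E → Good (D * E) := by
    rintro D E ⟨hD1, hD2⟩ ⟨hE1, hE2⟩
    refine ⟨mul_ne_zero hD1 hE1, fun T hT b hb => ?_⟩
    rw [Polynomial.IsRoot.def, Polynomial.eval_mul, mul_eq_zero] at hT
    rcases hT with hT | hT
    · exact hD2 T hT b hb
    · exact hE2 T hT b hb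
  have hprod : ∀ {κ : Type} (S : Finset κ) (D : κ → Polynomial ℂ), (∀ i ∈ S, Good (D i)) →
      Good (∏ i ∈ S, D i) := by
    intro κ S D h
    induction S using Finset.induction_on with
    | empty => simpa using hone
    | insert a S ha ih =>
      rw [Finset.prod_insert ha]
      exact hmul _ _ (h a (Finset.mem_insert_self _ _))
        (ih fun i hi => h i (Finset.mem_insert_of_mem hi))
  have hD : Good (∏ j, Dm p (m j)) := by
    refine hprod _ _ fun j _ => ⟨by rw [Dm_eq]; exact Db_ne p _ _ (hm j), fun T hT b hb => ?_⟩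
    rw [Polynomial.IsRoot.def, Dm_eq] at hT
    rw [Db_root p _ _ (hm j) T hT, Nat.cast_one]
    rw [hmap] at hb
    obtain ⟨P, hP⟩ := exists_zero_nc (fC j) (hdeg j)
    rcases hcent P with h | ⟨w, e, g, h, H⟩
    · exact root_comp_at fC m hm _ hc' hfC0 b hb j P h (by rw [aeval_ev]; exact hP)
    · exact H.comp m hm _ hc' j hP b hb
  set fp : J → MvPolynomial V ℤ_[p] := fun j => map (Int.castRingHom ℤ_[p]) (f j) with hfp
  have hfpC : ∀ j, map (emC σ) (fp j) = fC j := by
    intro j
    rw [hfp, hfC]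
    show map (emC σ) (map (Int.castRingHom ℤ_[p]) (f j)) = map (Int.castRingHom ℂ) (f j)
    have h1 : (emC σ).comp (Int.castRingHom ℤ_[p]) = Int.castRingHom ℂ := RingHom.ext_int _ _
    rw [map_map, h1]
  have hcp : ((c : ℤ) : ℤ_[p]) ≠ 0 := by exact_mod_cast hc
  obtain ⟨D, ⟨hD0, hDg⟩, P, hP⟩ := nice_global fp m (c : ℤ_[p]) hcp Good hone hmul hD (by
    intro x₀
    rcases hcent (fun v => emC σ (x₀ v)) with h | ⟨w, e, g, h, H⟩
    · left
      refine ncat_of_snc σ fp x₀ ?_
      simp only [hfpC]
      exact h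
    · right
      have htr : ∀ j, map (emC σ) (trl x₀ (fp j)) = trl (fun v => emC σ (x₀ v)) (fC j) := by
        intro j
        rw [map_trl, hfpC]
      have hgp : ∀ j, map (emC σ) (weightedHomogeneousComponent w (e j) (trl x₀ (fp j))) =
          g j := by
        intro j
        rw [map_whc, htr]
        exact (H.low j).2
      have hlow : ∀ j, LowC w (e j) (trl x₀ (fp j))
          (weightedHomogeneousComponent w (e j) (trl x₀ (fp j))) := by
        intro j
        refine ⟨fun a ha => ?_, rfl⟩
        apply map_injective (emC σ) (emC_inj σ)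
        rw [map_whc, htr, map_zero]
        exact (H.low j).1 a ha
      obtain ⟨M, hM⟩ := near_prim σ w
        (fun j => weightedHomogeneousComponent w (e j) (trl x₀ (fp j))) h H.hom
        (by rw [← constantCoeff_eq, ← eval_zero]; exact H.ne) (fun y hy hv => by
          simp only [hgp]
          exact H.snc y hy hv)
      have hroot := H.root m hm _ hc'
      have hw : 0 < ∑ v, w v := by
        have : 0 < Fintype.card (Pos w) := by have := H.card; omega
        obtain ⟨v⟩ := Fintype.card_pos_iff.mp this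
        exact lt_of_lt_of_le v.2
          (Finset.single_le_sum (f := w) (fun _ _ => Nat.zero_le _) (Finset.mem_univ v.1))
      refine ⟨w, e, _, M, hw, hlow, hM, Db_ne p _ _ hroot.1, fun T hT b hb => ?_⟩
      rw [Db_root p _ _ hroot.1 T hT]
      rw [hmap] at hb
      exact hroot.2 b hb)
  have hint : ∀ s, ∫⁻ x, tau p s (aeval x (C c * ∏ j, f j ^ m j)) ∂(muV p V) =
      ∫⁻ x, tau p s (eval x (C ((c : ℤ) : ℤ_[p]) * ∏ j, fp j ^ m j)) ∂(muV p V) := by
    intro s
    refine lintegral_congr fun x => ?_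
    congr 1
    have h1 : ∀ q : MvPolynomial V ℤ, (aeval x q : ℤ_[p]) =
        eval x (map (Int.castRingHom ℤ_[p]) q) := by
      intro q
      rw [eval_map]
      rfl
    rw [h1, map_mul, map_C, map_prod]
    simp only [map_pow]
    rfl
  obtain ⟨Φ, h1, -, h3⟩ := poincare_of p (C c * ∏ j, f j ^ m j) D P hD0
    (fun s hs => by rw [hint s]; exact (hP s hs).2)
  refine ⟨Φ, h1, fun T hT b hb => ?_⟩
  have h4 : 0 < Φ.denom.rootMultiplicity T :=
    (Polynomial.rootMultiplicity_pos Φ.denom_ne_zero).mpr hT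
  have h5 : D.IsRoot T := (Polynomial.rootMultiplicity_pos hD0).mp (h4.trans_le (h3 T))
  exact hDg T h5 b hb

end Pool.Agent.L0h21.SN
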