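import Pool.Agent.L0h21.SN.Depth

/-! The grade of free modules over polynomial rings. -/

set_option autoImplicit false

namespace Pool.Agent.L0h21.SN

open MvPolynomial RingTheory.Sequence

theorem mem_smul_top_pi {R κ : Type} [CommRing R] [Finite κ] (I : Ideal R) (m : κ → R) :
    m ∈ (I • ⊤ : Submodule R (κ → R)) ↔ ∀ k, m k ∈ I := by
  constructor
  · intro h
    refine Submodule.smul_induction_on h ?_ ?_
    · intro r hr n _ k
      exact I.mul_mem_right _ hr
    · intro a b ha hb k
      exact I.add_mem (ha k) (hb k)
  · intro h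
    classical
    have := Fintype.ofFinite κ
    have : m = ∑ k, m k • (Pi.single k 1 : κ → R) := by
      ext l
      simp [Finset.sum_apply, Pi.single_apply]
    rw [this]
    exact Submodule.sum_mem _ fun k _ => Submodule.smul_mem_smul (h k) trivial

theorem X_mul_mem {σ K : Type} [Field K] (T : Set σ) (v : σ) (hv : v ∉ T) (g : MvPolynomial σ K)
    (h : X v * g ∈ Ideal.span (X '' T : Set (MvPolynomial σ K))) :
    g ∈ Ideal.span (X '' T : Set (MvPolynomial σ K)) := by
  classical
  rw [mem_ideal_span_X_image] at h ⊢
  intro m hm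
  have hm' : (Finsupp.single v 1 + m) ∈ (X v * g).support := by
    rw [mem_support_iff] at hm ⊢
    rwa [coeff_X_mul]
  obtain ⟨i, hi, h1⟩ := h _ hm'
  refine ⟨i, hi, ?_⟩
  have : i ≠ v := fun h => hv (h ▸ hi)
  simpa [Finsupp.single_apply, this.symm] using h1

theorem depth_free {σ K : Type} [Fintype σ] [Field K] (M : Type) [AddCommGroup M]
    [Module (MvPolynomial σ K) M] [Module.Free (MvPolynomial σ K) M]
    [Module.Finite (MvPolynomial σ K) M] :
    DepthGE (X : σ → MvPolynomial σ K) (Fintype.card σ) M := by
  classical
  refine DepthGE.of_equiv (Module.Free.chooseBasis (MvPolynomial σ K) M).equivFun ?_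
  have h := DepthGE.of_regular (x := (X : σ → MvPolynomial σ K))
    (M := Module.Free.ChooseBasisIndex (MvPolynomial σ K) M → MvPolynomial σ K)
    (Finset.univ : Finset σ).toList ?_
  · simpa using h
  · constructor
    intro i hi
    set l := (Finset.univ : Finset σ).toList with hl
    have hnd : l.Nodup := Finset.nodup_toList _
    have hi' : i < l.length := by simpa using hi
    have hI : Ideal.ofList ((l.map (X : σ → MvPolynomial σ K)).take i) =
        Ideal.span (X '' {v | v ∈ l.take i}) := by
      rw [← List.map_take, Ideal.ofList]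
      congr 1
      ext y
      simp [← List.map_take]
    rw [hI]
    simp only [List.getElem_map]
    intro a b hab
    obtain ⟨a, rfl⟩ := Submodule.Quotient.mk_surjective _ a
    obtain ⟨b, rfl⟩ := Submodule.Quotient.mk_surjective _ b
    simp only at hab
    rw [← Submodule.Quotient.mk_smul, ← Submodule.Quotient.mk_smul, Submodule.Quotient.eq,
      ← smul_sub, mem_smul_top_pi] at hab
    rw [Submodule.Quotient.eq, mem_smul_top_pi]
    intro k
    refine X_mul_mem _ l[i] ?_ _ (hab k)
    intro hmem
    simp only [Set.mem_ofPred_eq] at hmem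
    rw [List.mem_take_iff_getElem] at hmem
    obtain ⟨j, hj, h⟩ := hmem
    have := (List.Nodup.getElem_inj_iff hnd).mp h
    omega

end Pool.Agent.L0h21.SN
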