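import Mathlib

/-! Derivations of the algebraic closure of a field of rational functions. -/

set_option autoImplicit false

namespace Pool.Agent.L0h21.SN

open MvPolynomial

variable (τ : Type)

/-- The algebraic closure of the field of rational functions. -/
abbrev GK : Type := AlgebraicClosure (FractionRing (MvPolynomial τ ℂ))

variable {τ}

theorem gk_etale : Algebra.FormallyEtale (MvPolynomial τ ℂ) (GK τ) := by
  have h1 : Algebra.FormallyEtale (MvPolynomial τ ℂ) (FractionRing (MvPolynomial τ ℂ)) :=
    Algebra.FormallyEtale.of_isLocalization (nonZeroDivisors (MvPolynomial τ ℂ))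
  have h2 : Algebra.FormallyEtale (FractionRing (MvPolynomial τ ℂ)) (GK τ) :=
    Algebra.FormallyEtale.of_isSeparable _ _
  exact Algebra.FormallyEtale.comp (MvPolynomial τ ℂ) (FractionRing (MvPolynomial τ ℂ)) (GK τ)

theorem gk_inj : Function.Injective (algebraMap (MvPolynomial τ ℂ) (GK τ)) := by
  rw [IsScalarTower.algebraMap_eq (MvPolynomial τ ℂ) (FractionRing (MvPolynomial τ ℂ)) (GK τ)]
  exact (algebraMap (FractionRing (MvPolynomial τ ℂ)) (GK τ)).injective.comp
    (FaithfulSMul.algebraMap_injective _ _)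

theorem exists_derivation (l : τ) : ∃ D : Derivation ℂ (GK τ) (GK τ),
    ∀ a : MvPolynomial τ ℂ, D (algebraMap _ (GK τ) a) = algebraMap _ (GK τ) (pderiv l a) := by
  have h := gk_etale (τ := τ)
  have hb := KaehlerDifferential.isBaseChange_of_formallyEtale ℂ (MvPolynomial τ ℂ) (GK τ)
  let d₀ : Derivation ℂ (MvPolynomial τ ℂ) (GK τ) :=
    (Algebra.linearMap (MvPolynomial τ ℂ) (GK τ)).compDer (pderiv l)
  let L := hb.lift d₀.liftKaehlerDifferential
  refine ⟨L.compDer (KaehlerDifferential.D ℂ (GK τ)), fun a => ?_⟩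
  have h1 := hb.lift_eq d₀.liftKaehlerDifferential (KaehlerDifferential.D ℂ _ a)
  rw [Derivation.liftKaehlerDifferential_comp_D] at h1
  simp only [KaehlerDifferential.map_D] at h1
  exact h1

end Pool.Agent.L0h21.SN
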