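import Pool.Agent.L0h21.SN.Root
import Pool.Agent.L0h21.SN.Cert
import Pool.Agent.L0h21.SN.Gen

/-! The roots of the Bernstein-Sato polynomial which belong to a block of variables. -/

set_option autoImplicit false
set_option linter.unusedSectionVars false

namespace Pool.Agent.L0h21.SN

open MvPolynomial Pool.Agent.H628R4.TP

section Chain

variable {V : Type} [Fintype V] [DecidableEq V] {K : Type} [Field K] [Algebra ℂ K]

theorem derivation_aeval (D : Derivation ℂ K K) (Q : V → K) (g : MvPolynomial V ℂ) :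
    D (aeval Q g) = ∑ v, aeval Q (pderiv v g) * D (Q v) := by
  induction g using MvPolynomial.induction_on with
  | C c => simp
  | add p q hp hq => simp only [map_add, hp, hq, add_mul, Finset.sum_add_distrib]
  | mul_X p i hp =>
    simp only [map_mul, Derivation.leibniz, smul_eq_mul, hp, aeval_X, map_add, add_mul,
      Finset.sum_add_distrib]
    have h1 : ∑ v, aeval Q p * aeval Q (pderiv v (X i : MvPolynomial V ℂ)) * D (Q v) =
        aeval Q p * D (Q i) := by
      rw [Finset.sum_eq_single i]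
      · simp
      · intro v _ hv
        rw [pderiv_X, Pi.single_eq_of_ne hv.symm]
        simp
      · simp
    rw [h1, Finset.mul_sum]
    congr 1
    exact Finset.sum_congr rfl fun v _ => by ring

end Chain

variable {V J ι : Type} [Fintype V] [DecidableEq V] [Fintype J] [DecidableEq J] [Fintype ι]

section

variable (w : ι → V → ℕ) (i₀ : ι)

/-- The variables which are not in the block. -/
abbrev Par : Type := {v : V // ¬ 0 < w i₀ v}

/-- The generic values of the variables which are not in the block. -/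
noncomputable def genP (v : V) : GK (Par w i₀) :=
  if h : 0 < w i₀ v then 0 else algebraMap (MvPolynomial (Par w i₀) ℂ) _ (X ⟨v, h⟩)

/-- A point with generic values of the variables which are not in the block. -/
noncomputable def genQ (x : Pos (w i₀) → GK (Par w i₀)) (v : V) : GK (Par w i₀) :=
  if h : 0 < w i₀ v then x ⟨v, h⟩ else genP w i₀ v

/-- The relative gradients are independent. -/
theorem rel_indep (hdisj : ∀ v i i', 0 < w i v → 0 < w i' v → i = i')
    (hne : ∀ i, ∃ v, 0 < w i v) (f : J → MvPolynomial V ℂ)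
    (hsnc : ∀ P : V → ℂ, (∀ i, ∃ v, 0 < w i v ∧ P v ≠ 0) → SNCAt' f P)
    (x : Pos (w i₀) → GK (Par w i₀)) (hx : x ≠ 0) :
    LinearIndependent (GK (Par w i₀)) (fun (j : {j // aeval (genQ w i₀ x) (f j) = 0})
      (v : Pos (w i₀)) => aeval (genQ w i₀ x) (pderiv v.1 (f j.1))) := by
  classical
  have h1 : SNCAt' f (genQ w i₀ x) := by
    refine snc_of_cert w f (fun I v hv => cert w f hsnc I v hv) _ fun i => ?_
    by_cases hi : i = i₀
    · subst hi
      obtain ⟨v, hv⟩ := Function.ne_iff.mp hx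
      exact ⟨v.1, v.2, by rw [genQ, dif_pos v.2]; exact hv⟩
    · obtain ⟨v, hv⟩ := hne i
      have h2 : ¬ 0 < w i₀ v := fun h => hi (hdisj v i i₀ hv h)
      refine ⟨v, hv, ?_⟩
      rw [genQ, dif_neg h2, genP, dif_neg h2]
      intro h3
      have h4 := gk_inj (h3.trans (map_zero _).symm)
      exact X_ne_zero _ h4
  rw [Fintype.linearIndependent_iff]
  intro l hl
  have h2 := Fintype.linearIndependent_iff.mp h1 l
  apply h2
  funext v
  by_cases hv : 0 < w i₀ v
  · have := congrFun hl ⟨v, hv⟩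
    simpa [Finset.sum_apply] using this
  · obtain ⟨D, hD⟩ := exists_derivation (⟨v, hv⟩ : Par w i₀)
    have h3 : ∀ j : {j // aeval (genQ w i₀ x) (f j) = 0},
        aeval (genQ w i₀ x) (pderiv v (f j.1)) =
          - ∑ u : Pos (w i₀), aeval (genQ w i₀ x) (pderiv u.1 (f j.1)) * D (x u) := by
      intro j
      have h4 := derivation_aeval D (genQ w i₀ x) (f j.1)
      rw [j.2, map_zero, ← Fintype.sum_subtype_add_sum_subtype (fun u => 0 < w i₀ u)] at h4
      have h5 : ∑ u : {u // ¬ 0 < w i₀ u}, aeval (genQ w i₀ x) (pderiv u.1 (f j.1)) *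
          D (genQ w i₀ x u.1) = aeval (genQ w i₀ x) (pderiv v (f j.1)) := by
        rw [Finset.sum_eq_single (⟨v, hv⟩ : Par w i₀)]
        · rw [genQ, dif_neg hv, genP, dif_neg hv, hD, pderiv_X_self, map_one, mul_one]
        · intro u _ hu
          rw [genQ, dif_neg u.2, genP, dif_neg u.2, hD, pderiv_X, Pi.single_eq_of_ne hu,
            map_zero, mul_zero]
        · simp
      have h6 : ∀ u : Pos (w i₀), genQ w i₀ x u.1 = x u := fun u => by rw [genQ, dif_pos u.2]
      rw [h5] at h4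
      simp only [h6] at h4
      linear_combination -h4
    simp only [Finset.sum_apply, Pi.smul_apply, smul_eq_mul, Pi.zero_apply]
    simp only [h3]
    have h7 : ∀ u : Pos (w i₀), ∑ j, l j * aeval (genQ w i₀ x) (pderiv u.1 (f j.1)) = 0 := by
      intro u
      have := congrFun hl u
      simpa [Finset.sum_apply] using this
    calc ∑ j, l j * -∑ u : Pos (w i₀), aeval (genQ w i₀ x) (pderiv u.1 (f j.1)) * D (x u)
        = - ∑ u : Pos (w i₀), (∑ j, l j * aeval (genQ w i₀ x) (pderiv u.1 (f j.1))) * D (x u) := by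
          simp only [mul_neg, Finset.sum_neg_distrib, Finset.mul_sum, Finset.sum_mul]
          rw [Finset.sum_comm]
          congr 1
          exact Finset.sum_congr rfl fun u _ => Finset.sum_congr rfl fun j _ => by ring
      _ = 0 := by simp [h7]

theorem eval_sp_gen (x : Pos (w i₀) → GK (Par w i₀)) (g : MvPolynomial V ℂ) :
    eval x (sp (w i₀) (genP w i₀) g) = aeval (genQ w i₀ x) g := by
  rw [eval_sp]
  rfl

theorem gen_ne (hdisj : ∀ v i i', 0 < w i v → 0 < w i' v → i = i')
    (hne : ∀ i, ∃ v, 0 < w i v) (f : J → MvPolynomial V ℂ)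
    (hsnc : ∀ P : V → ℂ, (∀ i, ∃ v, 0 < w i v ∧ P v ≠ 0) → SNCAt' f P)
    (j : J) (hj : IsWeightedHomogeneous (w i₀) (f j) 0) : aeval (genP w i₀) (f j) ≠ 0 := by
  intro h0
  obtain ⟨v, hv⟩ := hne i₀
  have hx : (fun _ => 1 : Pos (w i₀) → GK (Par w i₀)) ≠ 0 :=
    fun h => one_ne_zero (congrFun h ⟨v, hv⟩)
  have h1 := rel_indep w i₀ hdisj hne f hsnc _ hx
  have h2 : aeval (genQ w i₀ fun _ => 1) (f j) = 0 := by
    rw [← eval_sp_gen, sp_zero _ _ hj, eval_C, h0]
  refine h1.ne_zero ⟨j, h2⟩ ?_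
  funext u
  have h3 : pderiv u.1 (f j) = 0 := pderiv_zero_of_lt _ hj u.1 u.2
  simp [h3]

theorem gen_snc (hdisj : ∀ v i i', 0 < w i v → 0 < w i' v → i = i')
    (hne : ∀ i, ∃ v, 0 < w i v) (f : J → MvPolynomial V ℂ) (e : J → ℕ)
    (hsnc : ∀ P : V → ℂ, (∀ i, ∃ v, 0 < w i v ∧ P v ≠ 0) → SNCAt' f P)
    (x : Pos (w i₀) → GK (Par w i₀)) (hx : x ≠ 0) :
    SNCAt (fun j : {j // 0 < e j} => sp (w i₀) (genP w i₀) (f j.1)) x := by
  have h1 := rel_indep w i₀ hdisj hne f hsnc x hx
  have h2 := LinearIndependent.comp h1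
    (fun j : {j : {j // 0 < e j} // eval x (sp (w i₀) (genP w i₀) (f j.1)) = 0} =>
      (⟨j.1.1, by rw [← eval_sp_gen]; exact j.2⟩ : {j // aeval (genQ w i₀ x) (f j) = 0}))
    (fun s t h => Subtype.ext (Subtype.ext (by simpa using congrArg Subtype.val h)))
  unfold SNCAt
  convert h2 using 2 with j
  funext v
  rw [sp_pderiv, eval_sp_gen]
  rfl

/-- The origin with generic values of the other variables: coefficients. -/
noncomputable def atZero (g : MvPolynomial V ℂ) : MvPolynomial (Par w i₀) ℂ :=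
  aeval (fun v => if h : 0 < w i₀ v then 0 else X ⟨v, h⟩) g

theorem atZero_gen (g : MvPolynomial V ℂ) :
    algebraMap _ (GK (Par w i₀)) (atZero w i₀ g) = aeval (genP w i₀) g := by
  have h : (algebraMap (MvPolynomial (Par w i₀) ℂ) (GK (Par w i₀))).comp
      (aeval (fun v => if h : 0 < w i₀ v then 0 else X ⟨v, h⟩) :
        MvPolynomial V ℂ →ₐ[ℂ] MvPolynomial (Par w i₀) ℂ).toRingHom =
      (aeval (genP w i₀) : MvPolynomial V ℂ →ₐ[ℂ] GK (Par w i₀)).toRingHom := by
    apply MvPolynomial.ringHom_ext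
    · intro r
      simp only [RingHom.comp_apply, AlgHom.toRingHom_eq_coe, RingHom.coe_coe, aeval_C,
        ← IsScalarTower.algebraMap_apply]
    · intro v
      simp only [RingHom.comp_apply, AlgHom.toRingHom_eq_coe, RingHom.coe_coe, aeval_X, genP]
      split_ifs <;> simp
  exact RingHom.congr_fun h g

theorem atZero_eval (y : Par w i₀ → ℂ) (g : MvPolynomial V ℂ) :
    eval y (atZero w i₀ g) = aeval (fun v => if h : 0 < w i₀ v then 0 else y ⟨v, h⟩ : V → ℂ) g := by
  have h : (eval y).comp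
      (aeval (fun v => if h : 0 < w i₀ v then 0 else X ⟨v, h⟩) :
        MvPolynomial V ℂ →ₐ[ℂ] MvPolynomial (Par w i₀) ℂ).toRingHom =
      (aeval (fun v => if h : 0 < w i₀ v then 0 else y ⟨v, h⟩ : V → ℂ) :
        MvPolynomial V ℂ →ₐ[ℂ] ℂ).toRingHom := by
    apply MvPolynomial.ringHom_ext
    · intro r
      simp
    · intro v
      simp only [RingHom.comp_apply, AlgHom.toRingHom_eq_coe, RingHom.coe_coe, aeval_X]
      split_ifs <;> simp
  exact RingHom.congr_fun h g

theorem gen_dep (hdisj : ∀ v i i', 0 < w i v → 0 < w i' v → i = i')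
    (hne : ∀ i, ∃ v, 0 < w i v) (f : J → MvPolynomial V ℂ) (e : J → ℕ)
    (hhom : ∀ j, IsWeightedHomogeneous (w i₀) (f j) (e j))
    (hsnc : ∀ P : V → ℂ, SNCAt' f P ↔ ∀ i, ∃ v, 0 < w i v ∧ P v ≠ 0) :
    ∃ l : {j // 0 < e j} → GK (Par w i₀), l ≠ 0 ∧
      ∀ v, ∑ i, l i * constantCoeff (pderiv v (sp (w i₀) (genP w i₀) (f i.1))) = 0 := by
  classical
  -- the gradients at the origin
  have hcc : ∀ (v : Pos (w i₀)) (j : J), constantCoeff (pderiv v (sp (w i₀) (genP w i₀) (f j))) =
      algebraMap _ (GK (Par w i₀)) (atZero w i₀ (pderiv v.1 (f j))) := by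
    intro v j
    have h1 : ∀ g : MvPolynomial (Pos (w i₀)) (GK (Par w i₀)), constantCoeff g = eval 0 g := by
      intro g
      rw [eval_zero]
    rw [h1, sp_pderiv, eval_sp_gen, atZero_gen]
    congr 2
    funext v
    simp only [genQ, genP]
    split_ifs <;> simp
  by_contra hcon
  have hli : LinearIndependent (GK (Par w i₀)) (fun (j : {j // 0 < e j}) (v : Pos (w i₀)) =>
      constantCoeff (pderiv v (sp (w i₀) (genP w i₀) (f j.1)))) := by
    rw [Fintype.linearIndependent_iff]
    intro l hl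
    by_contra hne
    apply hcon
    refine ⟨l, fun h => hne fun i => by rw [h]; rfl, fun v => ?_⟩
    have := congrFun hl v
    simpa [Finset.sum_apply] using this
  obtain ⟨u, hu⟩ := exists_minor _ hli
  set M : Matrix {j // 0 < e j} {j // 0 < e j} (MvPolynomial (Par w i₀) ℂ) :=
    Matrix.of fun s t => atZero w i₀ (pderiv (u s).1 (f t.1)) with hM
  have hdet : M.det ≠ 0 := by
    intro h0
    apply hu
    have h1 : (Matrix.of fun s t : {j // 0 < e j} =>
        constantCoeff (pderiv (u s) (sp (w i₀) (genP w i₀) (f t.1)))) =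
        (algebraMap (MvPolynomial (Par w i₀) ℂ) (GK (Par w i₀))).mapMatrix M := by
      ext s t
      rw [RingHom.mapMatrix_apply, Matrix.map_apply, hM, Matrix.of_apply, Matrix.of_apply, hcc]
    rw [h1, ← RingHom.map_det, h0, map_zero]
  have hG : ∀ j, e j = 0 → atZero w i₀ (f j) ≠ 0 := by
    intro j hj h0
    have h1 := hhom j
    rw [hj] at h1
    apply gen_ne w i₀ hdisj hne f (fun P => (hsnc P).mpr) j h1
    rw [← atZero_gen, h0, map_zero]
  set Φ : MvPolynomial (Par w i₀) ℂ := M.det * (∏ j : {j // e j = 0}, atZero w i₀ (f j.1)) *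
    ∏ v : Par w i₀, X v with hΦ
  have hΦ0 : Φ ≠ 0 := mul_ne_zero (mul_ne_zero hdet (Finset.prod_ne_zero_iff.mpr fun j _ =>
    hG j.1 j.2)) (Finset.prod_ne_zero_iff.mpr fun v _ => X_ne_zero v)
  obtain ⟨y, hy⟩ : ∃ y : Par w i₀ → ℂ, eval y Φ ≠ 0 := by
    by_contra hne
    push Not at hne
    exact hΦ0 (MvPolynomial.funext fun y => by rw [hne y, map_zero])
  rw [hΦ, map_mul, map_mul, map_prod, map_prod] at hy
  have hy1 := left_ne_zero_of_mul (left_ne_zero_of_mul hy)
  have hy2 := Finset.prod_ne_zero_iff.mp (right_ne_zero_of_mul (left_ne_zero_of_mul hy))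
  have hy3 := Finset.prod_ne_zero_iff.mp (right_ne_zero_of_mul hy)
  set P₁ : V → ℂ := fun v => if h : 0 < w i₀ v then 0 else y ⟨v, h⟩ with hP₁
  have hzero : ∀ j, 0 < e j → aeval P₁ (f j) = 0 := by
    intro j hj
    rw [(f j).as_sum, map_sum]
    refine Finset.sum_eq_zero fun m hm => ?_
    have h1 := hhom j (mem_support_iff.mp hm)
    rw [Finsupp.weight_apply, Finsupp.sum_fintype _ _ (by simp)] at h1
    obtain ⟨v, -, hv⟩ := Finset.exists_ne_zero_of_sum_ne_zero (by rw [h1]; exact hj.ne')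
    simp only [smul_eq_mul, ne_eq, mul_eq_zero, not_or] at hv
    rw [aeval_monomial, Finsupp.prod_fintype _ _ (by simp)]
    have h2 : P₁ v = 0 := by
      rw [hP₁]
      simp only [dif_pos (Nat.pos_of_ne_zero hv.2)]
    rw [Finset.prod_eq_zero (Finset.mem_univ v) (by rw [h2, zero_pow hv.1]), mul_zero]
  have hbad : SNCAt' f P₁ := by
    have h1 : LinearIndependent ℂ (fun (j : {j // 0 < e j}) (v : V) =>
        aeval P₁ (pderiv v (f j.1))) := by
      refine indep_of_minor _ (fun s => (u s).1) ?_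
      have h2 : (Matrix.of fun s t : {j // 0 < e j} => aeval P₁ (pderiv (u s).1 (f t.1))) =
          (eval y).mapMatrix M := by
        ext s t
        rw [RingHom.mapMatrix_apply, Matrix.map_apply, hM, Matrix.of_apply, Matrix.of_apply,
          atZero_eval]
      rw [h2, ← RingHom.map_det]
      exact hy1
    have h2 : ∀ j : {j // aeval P₁ (f j) = 0}, 0 < e j.1 := by
      intro j
      by_contra h0
      have h3 : e j.1 = 0 := by omega
      apply hy2 ⟨j.1, h3⟩ (Finset.mem_univ _)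
      rw [atZero_eval]
      exact j.2
    exact LinearIndependent.comp h1 (fun j : {j // aeval P₁ (f j) = 0} =>
      (⟨j.1, h2 j⟩ : {j // 0 < e j})) (fun s t h => Subtype.ext (by
        simpa using congrArg Subtype.val h))
  obtain ⟨v, hv, hv2⟩ := (hsnc P₁).mp hbad i₀
  apply hv2
  rw [hP₁]
  simp only [dif_pos hv]

end

/-- The root of the Bernstein-Sato polynomial which belongs to a block of variables. -/
theorem root_block (w : ι → V → ℕ) (hdisj : ∀ v i i', 0 < w i v → 0 < w i' v → i = i')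
    (hcard : ∀ i, 2 ≤ Fintype.card (Pos (w i))) (f : J → MvPolynomial V ℂ) (e : ι → J → ℕ)
    (hhom : ∀ i j, IsWeightedHomogeneous (w i) (f j) (e i j)) (m : J → ℕ) (hm : ∀ j, 0 < m j)
    (c : ℂ) (hc : c ≠ 0) (hsnc : ∀ P : V → ℂ, SNCAt' f P ↔ ∀ i, ∃ v, 0 < w i v ∧ P v ≠ 0)
    (b : Polynomial ℂ) (hb : IsBFunction (C c * ∏ j, f j ^ m j) b) (i : ι) :
    0 < ∑ j, m j * e i j ∧
      b.eval (-((∑ v, w i v : ℕ) : ℂ) / (∑ j, m j * e i j : ℕ)) = 0 := by
  have hne : ∀ i, ∃ v, 0 < w i v := by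
    intro i
    have : 0 < Fintype.card (Pos (w i)) := by have := hcard i; omega
    obtain ⟨v⟩ := Fintype.card_pos_iff.mp this
    exact ⟨v.1, v.2⟩
  obtain ⟨l, hl, hl2⟩ := gen_dep w i hdisj hne f (e i) (hhom i) hsnc
  have hd : 0 < ∑ j, m j * e i j := by
    obtain ⟨j, -⟩ := Function.ne_iff.mp hl
    exact lt_of_lt_of_le (Nat.mul_pos (hm j.1) j.2)
      (Finset.single_le_sum (f := fun j => m j * e i j) (fun _ _ => Nat.zero_le _)
        (Finset.mem_univ j.1))
  refine ⟨hd, ?_⟩
  exact root_spec (w i) (genP w i) f (e i) (hhom i) m hm c hc hd (hcard i)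
    (fun j hj => gen_ne w i hdisj hne f (fun P => (hsnc P).mpr) j (by rw [← hj]; exact hhom i j))
    (fun x hx => gen_snc w i hdisj hne f (e i) (fun P => (hsnc P).mpr) x hx) ⟨l, hl, hl2⟩ b hb

end Pool.Agent.L0h21.SN
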