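import Pool.Agent.L0h21.SN.Root2
import Pool.Agent.L0h21.SN.Cert
import Pool.Agent.L0h21.SN.Gen

/-! The roots of the Bernstein-Sato polynomial which belong to the centre of a weighted
blow-up. -/

set_option autoImplicit false
set_option linter.unusedSectionVars false

namespace Pool.Agent.L0h21.SN

open MvPolynomial Pool.Agent.H628R4.TP

section

variable {V J k K : Type} [Fintype V] [DecidableEq V] [Fintype J] [DecidableEq J] [Field k]
  [Field K] [Algebra k K]

theorem cert1 [IsAlgClosed K] (f : J → MvPolynomial V k) (H : MvPolynomial V k)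
    (hsnc : ∀ P : V → K, aeval P H ≠ 0 → SNCAt' f P) (I : Finset J) :
    ∃ M : ℕ, H ^ M ∈ certIdeal f I := by
  have h1 : H ∈ vanishingIdeal k (zeroLocus K (certIdeal f I)) := by
    rw [mem_vanishingIdeal_iff]
    intro P hP
    rw [mem_zeroLocus_iff] at hP
    by_contra hne
    have h2 := hsnc P hne
    have h3 : ∀ j ∈ I, aeval P (f j) = 0 := fun j hj =>
      hP _ (Ideal.subset_span (Or.inl ⟨j, hj, rfl⟩))
    have h4 : LinearIndependent K (fun (j : I) (v : V) => aeval P (pderiv v (f j.1))) := by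
      have := LinearIndependent.comp h2 (fun t : I => (⟨t.1, h3 t.1 t.2⟩ : {j // aeval P (f j) = 0}))
        (fun s t h => Subtype.ext (by simpa using congrArg Subtype.val h))
      exact this
    obtain ⟨u, hu⟩ := exists_minor _ h4
    apply hu
    have := hP _ (Ideal.subset_span (Or.inr ⟨u, rfl⟩))
    rw [aeval_minor] at this
    exact this
  rw [vanishingIdeal_zeroLocus_eq_radical] at h1
  exact h1

theorem snc_of_cert1 {K' : Type} [Field K'] [Algebra k K']
    (f : J → MvPolynomial V k) (H : MvPolynomial V k)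
    (hcert : ∀ (I : Finset J), ∃ M : ℕ, H ^ M ∈ certIdeal f I)
    (P : V → K') (hP : aeval P H ≠ 0) : SNCAt' f P := by
  classical
  set I : Finset J := Finset.univ.filter fun j => aeval P (f j) = 0 with hI
  obtain ⟨M, hM⟩ := hcert I
  have h1 : ∃ u : I → V, aeval P (minor f I u) ≠ 0 := by
    by_contra hne
    push Not at hne
    have h2 : certIdeal f I ≤ RingHom.ker (aeval P : MvPolynomial V k →ₐ[k] K') := by
      rw [certIdeal, Ideal.span_le]
      rintro g (⟨j, hj, rfl⟩ | ⟨u, rfl⟩)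
      · exact (Finset.mem_filter.mp hj).2
      · exact hne u
    have h3 := h2 hM
    rw [RingHom.mem_ker, map_pow] at h3
    exact pow_ne_zero _ hP h3
  obtain ⟨u, hu⟩ := h1
  rw [aeval_minor] at hu
  have h2 := indep_of_minor (fun (t : I) (v : V) => aeval P (pderiv v (f t.1))) u hu
  have h3 := LinearIndependent.comp h2 (fun j : {j // aeval P (f j) = 0} =>
    (⟨j.1, by simp [hI, j.2]⟩ : I)) (fun s t h => Subtype.ext (by simpa using congrArg Subtype.val h))
  exact h3

end

section Chain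

variable {V : Type} [Fintype V] [DecidableEq V] {K : Type} [Field K] [Algebra ℂ K]

theorem derivation_aeval1 (D : Derivation ℂ K K) (Q : V → K) (g : MvPolynomial V ℂ) :
    D (aeval Q g) = ∑ v, aeval Q (pderiv v g) * D (Q v) := by
  induction g using MvPolynomial.induction_on with
  | C c => simp
  | add p q hp hq => simp only [map_add, hp, hq, add_mul, Finset.sum_add_distrib]
  | mul_X p i hp =>
    simp only [map_mul, Derivation.leibniz, smul_eq_mul, hp, aeval_X, map_add, add_mul,
      Finset.sum_add_distrib]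
    have h1 : ∑ v, aeval Q p * aeval Q (pderiv v (X i : MvPolynomial V ℂ)) * D (Q v) =
        aeval Q p * D (Q i) := by
      rw [Finset.sum_eq_single i]
      · simp
      · intro v _ hv
        rw [pderiv_X, Pi.single_eq_of_ne hv.symm]
        simp
      · simp
    rw [h1, Finset.mul_sum]
    congr 1
    exact Finset.sum_congr rfl fun v _ => by ring

end Chain

variable {V J : Type} [Fintype V] [DecidableEq V] [Fintype J] [DecidableEq J]

section

variable (w : V → ℕ)

/-- The variables which are not in the block. -/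
abbrev Par1 : Type := {v : V // ¬ 0 < w v}

/-- The generic values of the variables which are not in the block. -/
noncomputable def genP1 (v : V) : GK (Par1 w) :=
  if h : 0 < w v then 0 else algebraMap (MvPolynomial (Par1 w) ℂ) _ (X ⟨v, h⟩)

/-- A point with generic values of the variables which are not in the block. -/
noncomputable def genQ1 (x : Pos w → GK (Par1 w)) (v : V) : GK (Par1 w) :=
  if h : 0 < w v then x ⟨v, h⟩ else genP1 w v

/-- The origin with generic values of the other variables: coefficients. -/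
noncomputable def atZero1 (g : MvPolynomial V ℂ) : MvPolynomial (Par1 w) ℂ :=
  aeval (fun v => if h : 0 < w v then 0 else X ⟨v, h⟩) g

theorem atZero1_gen (g : MvPolynomial V ℂ) :
    algebraMap _ (GK (Par1 w)) (atZero1 w g) = aeval (genP1 w) g := by
  have h : (algebraMap (MvPolynomial (Par1 w) ℂ) (GK (Par1 w))).comp
      (aeval (fun v => if h : 0 < w v then 0 else X ⟨v, h⟩) :
        MvPolynomial V ℂ →ₐ[ℂ] MvPolynomial (Par1 w) ℂ).toRingHom =
      (aeval (genP1 w) : MvPolynomial V ℂ →ₐ[ℂ] GK (Par1 w)).toRingHom := by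
    apply MvPolynomial.ringHom_ext
    · intro r
      simp only [RingHom.comp_apply, AlgHom.toRingHom_eq_coe, RingHom.coe_coe, aeval_C,
        ← IsScalarTower.algebraMap_apply]
    · intro v
      simp only [RingHom.comp_apply, AlgHom.toRingHom_eq_coe, RingHom.coe_coe, aeval_X, genP1]
      split_ifs <;> simp
  exact RingHom.congr_fun h g

theorem atZero1_eval (y : Par1 w → ℂ) (g : MvPolynomial V ℂ) :
    eval y (atZero1 w g) = aeval (fun v => if h : 0 < w v then 0 else y ⟨v, h⟩ : V → ℂ) g := by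
  have h : (eval y).comp
      (aeval (fun v => if h : 0 < w v then 0 else X ⟨v, h⟩) :
        MvPolynomial V ℂ →ₐ[ℂ] MvPolynomial (Par1 w) ℂ).toRingHom =
      (aeval (fun v => if h : 0 < w v then 0 else y ⟨v, h⟩ : V → ℂ) :
        MvPolynomial V ℂ →ₐ[ℂ] ℂ).toRingHom := by
    apply MvPolynomial.ringHom_ext
    · intro r
      simp
    · intro v
      simp only [RingHom.comp_apply, AlgHom.toRingHom_eq_coe, RingHom.coe_coe, aeval_X]
      split_ifs <;> simp
  exact RingHom.congr_fun h g

theorem aeval_w0 {K : Type} [Field K] [Algebra ℂ K] {h : MvPolynomial V ℂ}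
    (hh : IsWeightedHomogeneous w h 0) (Q Q' : V → K) (hQ : ∀ v, w v = 0 → Q v = Q' v) :
    aeval Q h = aeval Q' h := by
  rw [h.as_sum, map_sum, map_sum]
  refine Finset.sum_congr rfl fun m hm => ?_
  have h1 := hh (mem_support_iff.mp hm)
  rw [Finsupp.weight_apply, Finsupp.sum_fintype _ _ (by simp)] at h1
  rw [aeval_monomial, aeval_monomial, Finsupp.prod_fintype _ _ (by simp),
    Finsupp.prod_fintype _ _ (by simp)]
  congr 1
  refine Finset.prod_congr rfl fun v _ => ?_
  have h2 := Finset.sum_eq_zero_iff.mp h1 v (Finset.mem_univ v)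
  simp only [smul_eq_mul, mul_eq_zero] at h2
  rcases h2 with h2 | h2
  · rw [h2, pow_zero, pow_zero]
  · rw [hQ v h2]

theorem atZero1_ne {h : MvPolynomial V ℂ} (hh0 : h ≠ 0)
    (hh : IsWeightedHomogeneous w h 0) : atZero1 w h ≠ 0 := by
  intro h0
  apply hh0
  apply MvPolynomial.funext
  intro y
  have h1 := atZero1_eval w (fun v : Par1 w => y v.1) h
  rw [h0, map_zero] at h1
  rw [map_zero]
  have h2 := aeval_w0 w hh (fun v => if h : 0 < w v then 0 else y v : V → ℂ) y (fun v hv => by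
    have : ¬ 0 < w v := by omega
    simp [this])
  have h3 : eval y h = aeval y h := by rw [aeval_eq_eval]
  rw [h3, ← h2]
  exact h1.symm

theorem genQ1_ne (h : MvPolynomial V ℂ) (hh0 : h ≠ 0)
    (hh : IsWeightedHomogeneous w h 0) (x : Pos w → GK (Par1 w)) :
    aeval (genQ1 w x) h ≠ 0 := by
  rw [aeval_w0 w hh (genQ1 w x) (genP1 w) (fun v hv => by
    have h1 : ¬ 0 < w v := by omega
    rw [genQ1, dif_neg h1])]
  rw [← atZero1_gen]
  intro h1
  exact atZero1_ne w hh0 hh (gk_inj (h1.trans (map_zero _).symm))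

/-- The relative gradients are independent. -/
theorem rel_indep1 (hne : ∃ v, 0 < w v) (h : MvPolynomial V ℂ) (hh0 : h ≠ 0)
    (hh : IsWeightedHomogeneous w h 0) (f : J → MvPolynomial V ℂ)
    (hsnc : ∀ P : V → ℂ, aeval P h ≠ 0 → (∃ v, 0 < w v ∧ P v ≠ 0) → SNCAt' f P)
    (x : Pos w → GK (Par1 w)) (hx : x ≠ 0) :
    LinearIndependent (GK (Par1 w)) (fun (j : {j // aeval (genQ1 w x) (f j) = 0})
      (v : Pos w) => aeval (genQ1 w x) (pderiv v.1 (f j.1))) := by
  classical
  have h1 : SNCAt' f (genQ1 w x) := by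
    obtain ⟨v, hv⟩ := Function.ne_iff.mp hx
    refine snc_of_cert1 f (h * X v.1) (fun I => cert1 (K := ℂ) f (h * X v.1) (fun P hP => ?_) I) _ ?_
    · rw [map_mul, aeval_X] at hP
      exact hsnc P (left_ne_zero_of_mul hP) ⟨v.1, v.2, right_ne_zero_of_mul hP⟩
    · rw [map_mul, aeval_X]
      refine mul_ne_zero (genQ1_ne w h hh0 hh x) ?_
      rw [genQ1, dif_pos v.2]
      exact hv
  rw [Fintype.linearIndependent_iff]
  intro l hl
  have h2 := Fintype.linearIndependent_iff.mp h1 l
  apply h2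
  funext v
  by_cases hv : 0 < w v
  · have := congrFun hl ⟨v, hv⟩
    simpa [Finset.sum_apply] using this
  · obtain ⟨D, hD⟩ := exists_derivation (⟨v, hv⟩ : Par1 w)
    have h3 : ∀ j : {j // aeval (genQ1 w x) (f j) = 0},
        aeval (genQ1 w x) (pderiv v (f j.1)) =
          - ∑ u : Pos w, aeval (genQ1 w x) (pderiv u.1 (f j.1)) * D (x u) := by
      intro j
      have h4 := derivation_aeval1 D (genQ1 w x) (f j.1)
      rw [j.2, map_zero, ← Fintype.sum_subtype_add_sum_subtype (fun u => 0 < w u)] at h4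
      have h5 : ∑ u : {u // ¬ 0 < w u}, aeval (genQ1 w x) (pderiv u.1 (f j.1)) *
          D (genQ1 w x u.1) = aeval (genQ1 w x) (pderiv v (f j.1)) := by
        rw [Finset.sum_eq_single (⟨v, hv⟩ : Par1 w)]
        · rw [genQ1, dif_neg hv, genP1, dif_neg hv, hD, pderiv_X_self, map_one, mul_one]
        · intro u _ hu
          rw [genQ1, dif_neg u.2, genP1, dif_neg u.2, hD, pderiv_X, Pi.single_eq_of_ne hu,
            map_zero, mul_zero]
        · simp
      have h6 : ∀ u : Pos w, genQ1 w x u.1 = x u := fun u => by rw [genQ1, dif_pos u.2]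
      rw [h5] at h4
      simp only [h6] at h4
      linear_combination -h4
    simp only [Finset.sum_apply, Pi.smul_apply, smul_eq_mul, Pi.zero_apply]
    simp only [h3]
    have h7 : ∀ u : Pos w, ∑ j, l j * aeval (genQ1 w x) (pderiv u.1 (f j.1)) = 0 := by
      intro u
      have := congrFun hl u
      simpa [Finset.sum_apply] using this
    calc ∑ j, l j * -∑ u : Pos w, aeval (genQ1 w x) (pderiv u.1 (f j.1)) * D (x u)
        = - ∑ u : Pos w, (∑ j, l j * aeval (genQ1 w x) (pderiv u.1 (f j.1))) * D (x u) := by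
          simp only [mul_neg, Finset.sum_neg_distrib, Finset.mul_sum, Finset.sum_mul]
          rw [Finset.sum_comm]
          congr 1
          exact Finset.sum_congr rfl fun u _ => Finset.sum_congr rfl fun j _ => by ring
      _ = 0 := by simp [h7]

theorem eval_sp_gen1 (x : Pos w → GK (Par1 w)) (g : MvPolynomial V ℂ) :
    eval x (sp w (genP1 w) g) = aeval (genQ1 w x) g := by
  rw [eval_sp]
  rfl

theorem gen_ne1 (hne : ∃ v, 0 < w v) (h : MvPolynomial V ℂ) (hh0 : h ≠ 0)
    (hh : IsWeightedHomogeneous w h 0) (f : J → MvPolynomial V ℂ)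
    (hsnc : ∀ P : V → ℂ, aeval P h ≠ 0 → (∃ v, 0 < w v ∧ P v ≠ 0) → SNCAt' f P)
    (j : J) (hj : IsWeightedHomogeneous w (f j) 0) : aeval (genP1 w) (f j) ≠ 0 := by
  intro h0
  obtain ⟨v, hv⟩ := id hne
  have hx : (fun _ => 1 : Pos w → GK (Par1 w)) ≠ 0 :=
    fun h => one_ne_zero (congrFun h ⟨v, hv⟩)
  have h1 := rel_indep1 w hne h hh0 hh f hsnc _ hx
  have h2 : aeval (genQ1 w fun _ => 1) (f j) = 0 := by
    rw [← eval_sp_gen1, sp_zero _ _ hj, eval_C, h0]
  refine h1.ne_zero ⟨j, h2⟩ ?_
  funext u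
  have h3 : pderiv u.1 (f j) = 0 := pderiv_zero_of_lt _ hj u.1 u.2
  simp [h3]

theorem gen_snc1 (hne : ∃ v, 0 < w v) (h : MvPolynomial V ℂ) (hh0 : h ≠ 0)
    (hh : IsWeightedHomogeneous w h 0) (f : J → MvPolynomial V ℂ) (e : J → ℕ)
    (hsnc : ∀ P : V → ℂ, aeval P h ≠ 0 → (∃ v, 0 < w v ∧ P v ≠ 0) → SNCAt' f P)
    (x : Pos w → GK (Par1 w)) (hx : x ≠ 0) :
    SNCAt (fun j : {j // 0 < e j} => sp w (genP1 w) (f j.1)) x := by
  have h1 := rel_indep1 w hne h hh0 hh f hsnc x hx
  have h2 := LinearIndependent.comp h1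
    (fun j : {j : {j // 0 < e j} // eval x (sp w (genP1 w) (f j.1)) = 0} =>
      (⟨j.1.1, by rw [← eval_sp_gen1]; exact j.2⟩ : {j // aeval (genQ1 w x) (f j) = 0}))
    (fun s t h => Subtype.ext (Subtype.ext (by simpa using congrArg Subtype.val h)))
  unfold SNCAt
  convert h2 using 2 with j
  funext v
  rw [sp_pderiv, eval_sp_gen1]
  rfl

theorem gen_dep1 (hne : ∃ v, 0 < w v) (h : MvPolynomial V ℂ) (hh0 : h ≠ 0)
    (hh : IsWeightedHomogeneous w h 0) (f : J → MvPolynomial V ℂ) (e : J → ℕ)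
    (hhom : ∀ j, IsWeightedHomogeneous w (f j) (e j))
    (hsnc : ∀ P : V → ℂ, aeval P h ≠ 0 → (SNCAt' f P ↔ ∃ v, 0 < w v ∧ P v ≠ 0)) :
    ∃ l : {j // 0 < e j} → GK (Par1 w), l ≠ 0 ∧
      ∀ v, ∑ i, l i * constantCoeff (pderiv v (sp w (genP1 w) (f i.1))) = 0 := by
  classical
  -- the gradients at the origin
  have hcc : ∀ (v : Pos w) (j : J), constantCoeff (pderiv v (sp w (genP1 w) (f j))) =
      algebraMap _ (GK (Par1 w)) (atZero1 w (pderiv v.1 (f j))) := by
    intro v j
    have h1 : ∀ g : MvPolynomial (Pos w) (GK (Par1 w)), constantCoeff g = eval 0 g := by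
      intro g
      rw [eval_zero]
    rw [h1, sp_pderiv, eval_sp_gen1, atZero1_gen]
    congr 2
    funext v
    simp only [genQ1, genP1]
    split_ifs <;> simp
  by_contra hcon
  have hli : LinearIndependent (GK (Par1 w)) (fun (j : {j // 0 < e j}) (v : Pos w) =>
      constantCoeff (pderiv v (sp w (genP1 w) (f j.1)))) := by
    rw [Fintype.linearIndependent_iff]
    intro l hl
    by_contra hne
    apply hcon
    refine ⟨l, fun h => hne fun i => by rw [h]; rfl, fun v => ?_⟩
    have := congrFun hl v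
    simpa [Finset.sum_apply] using this
  obtain ⟨u, hu⟩ := exists_minor _ hli
  set M : Matrix {j // 0 < e j} {j // 0 < e j} (MvPolynomial (Par1 w) ℂ) :=
    Matrix.of fun s t => atZero1 w (pderiv (u s).1 (f t.1)) with hM
  have hdet : M.det ≠ 0 := by
    intro h0
    apply hu
    have h1 : (Matrix.of fun s t : {j // 0 < e j} =>
        constantCoeff (pderiv (u s) (sp w (genP1 w) (f t.1)))) =
        (algebraMap (MvPolynomial (Par1 w) ℂ) (GK (Par1 w))).mapMatrix M := by
      ext s t
      rw [RingHom.mapMatrix_apply, Matrix.map_apply, hM, Matrix.of_apply, Matrix.of_apply, hcc]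
    rw [h1, ← RingHom.map_det, h0, map_zero]
  have hG : ∀ j, e j = 0 → atZero1 w (f j) ≠ 0 := by
    intro j hj h0
    have h1 := hhom j
    rw [hj] at h1
    apply gen_ne1 w hne h hh0 hh f (fun P hP => (hsnc P hP).mpr) j h1
    rw [← atZero1_gen, h0, map_zero]
  set Φ : MvPolynomial (Par1 w) ℂ := M.det * (∏ j : {j // e j = 0}, atZero1 w (f j.1)) *
    atZero1 w h with hΦ
  have hΦ0 : Φ ≠ 0 := mul_ne_zero (mul_ne_zero hdet (Finset.prod_ne_zero_iff.mpr fun j _ =>
    hG j.1 j.2)) (atZero1_ne w hh0 hh)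
  obtain ⟨y, hy⟩ : ∃ y : Par1 w → ℂ, eval y Φ ≠ 0 := by
    by_contra hne
    push Not at hne
    exact hΦ0 (MvPolynomial.funext fun y => by rw [hne y, map_zero])
  rw [hΦ, map_mul, map_mul, map_prod] at hy
  have hy1 := left_ne_zero_of_mul (left_ne_zero_of_mul hy)
  have hy2 := Finset.prod_ne_zero_iff.mp (right_ne_zero_of_mul (left_ne_zero_of_mul hy))
  have hy3 := right_ne_zero_of_mul hy
  set P₁ : V → ℂ := fun v => if h : 0 < w v then 0 else y ⟨v, h⟩ with hP₁
  have hzero : ∀ j, 0 < e j → aeval P₁ (f j) = 0 := by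
    intro j hj
    rw [(f j).as_sum, map_sum]
    refine Finset.sum_eq_zero fun m hm => ?_
    have h1 := hhom j (mem_support_iff.mp hm)
    rw [Finsupp.weight_apply, Finsupp.sum_fintype _ _ (by simp)] at h1
    obtain ⟨v, -, hv⟩ := Finset.exists_ne_zero_of_sum_ne_zero (by rw [h1]; exact hj.ne')
    simp only [smul_eq_mul, ne_eq, mul_eq_zero, not_or] at hv
    rw [aeval_monomial, Finsupp.prod_fintype _ _ (by simp)]
    have h2 : P₁ v = 0 := by
      rw [hP₁]
      simp only [dif_pos (Nat.pos_of_ne_zero hv.2)]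
    rw [Finset.prod_eq_zero (Finset.mem_univ v) (by rw [h2, zero_pow hv.1]), mul_zero]
  have hbad : SNCAt' f P₁ := by
    have h1 : LinearIndependent ℂ (fun (j : {j // 0 < e j}) (v : V) =>
        aeval P₁ (pderiv v (f j.1))) := by
      refine indep_of_minor _ (fun s => (u s).1) ?_
      have h2 : (Matrix.of fun s t : {j // 0 < e j} => aeval P₁ (pderiv (u s).1 (f t.1))) =
          (eval y).mapMatrix M := by
        ext s t
        rw [RingHom.mapMatrix_apply, Matrix.map_apply, hM, Matrix.of_apply, Matrix.of_apply,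
          atZero1_eval]
      rw [h2, ← RingHom.map_det]
      exact hy1
    have h2 : ∀ j : {j // aeval P₁ (f j) = 0}, 0 < e j.1 := by
      intro j
      by_contra h0
      have h3 : e j.1 = 0 := by omega
      apply hy2 ⟨j.1, h3⟩ (Finset.mem_univ _)
      rw [atZero1_eval]
      exact j.2
    exact LinearIndependent.comp h1 (fun j : {j // aeval P₁ (f j) = 0} =>
      (⟨j.1, h2 j⟩ : {j // 0 < e j})) (fun s t h => Subtype.ext (by
        simpa using congrArg Subtype.val h))
  obtain ⟨v, hv, hv2⟩ := (hsnc P₁ (by rw [atZero1_eval] at hy3; exact hy3)).mp hbad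
  apply hv2
  rw [hP₁]
  simp only [dif_pos hv]

end

/-- The root of the Bernstein-Sato polynomial which belongs to a centre. -/
theorem root_centre (w : V → ℕ) (hcard : 2 ≤ Fintype.card (Pos w))
    (F f : J → MvPolynomial V ℂ) (e : J → ℕ) (hlow : ∀ j, LowC w (e j) (F j) (f j))
    (m : J → ℕ) (hm : ∀ j, 0 < m j) (c : ℂ) (hc : c ≠ 0) (h : MvPolynomial V ℂ) (hh0 : h ≠ 0)
    (hh : IsWeightedHomogeneous w h 0)
    (hsnc : ∀ P : V → ℂ, aeval P h ≠ 0 → (SNCAt' f P ↔ ∃ v, 0 < w v ∧ P v ≠ 0))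
    (b : Polynomial ℂ) (hb : IsBFunction (C c * ∏ j, F j ^ m j) b) :
    0 < ∑ j, m j * e j ∧
      b.eval (-((∑ v, w v : ℕ) : ℂ) / (∑ j, m j * e j : ℕ)) = 0 := by
  have hne : ∃ v, 0 < w v := by
    have : 0 < Fintype.card (Pos w) := by omega
    obtain ⟨v⟩ := Fintype.card_pos_iff.mp this
    exact ⟨v.1, v.2⟩
  obtain ⟨l, hl, hl2⟩ := gen_dep1 w hne h hh0 hh f e (fun j => (hlow j).hom) hsnc
  have hd : 0 < ∑ j, m j * e j := by
    obtain ⟨j, -⟩ := Function.ne_iff.mp hl
    exact lt_of_lt_of_le (Nat.mul_pos (hm j.1) j.2)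
      (Finset.single_le_sum (f := fun j => m j * e j) (fun _ _ => Nat.zero_le _)
        (Finset.mem_univ j.1))
  have hF0 : ∀ j, F j ≠ 0 := by
    intro j h0
    have h1 : f j = 0 := by rw [← (hlow j).2, h0, map_zero]
    obtain ⟨v, hv⟩ := hne
    obtain ⟨y, hy⟩ : ∃ y : V → ℂ, eval y (h * X v) ≠ 0 := by
      by_contra hcon
      push Not at hcon
      exact mul_ne_zero hh0 (X_ne_zero v)
        (MvPolynomial.funext fun y => by rw [hcon y, map_zero])
    rw [map_mul, eval_X] at hy
    have h2 : SNCAt' f y := (hsnc y (by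
      rw [aeval_eq_eval]; exact left_ne_zero_of_mul hy)).mpr ⟨v, hv, right_ne_zero_of_mul hy⟩
    refine h2.ne_zero ⟨j, by rw [h1, map_zero]⟩ ?_
    funext v
    simp [h1]
  refine ⟨hd, ?_⟩
  exact root_low w (genP1 w) F f e hlow m hm c hc hd hcard
    (fun j hj => gen_ne1 w hne h hh0 hh f (fun P hP => (hsnc P hP).mpr) j
      (by rw [← hj]; exact (hlow j).hom))
    (fun x hx => gen_snc1 w hne h hh0 hh f e (fun P hP => (hsnc P hP).mpr) x hx) ⟨l, hl, hl2⟩
    hF0 b hb

end Pool.Agent.L0h21.SN
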