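import Pool.Agent.L0h21.SN.Exact

/-! The first step of the exactness, in coordinates. -/

set_option autoImplicit false
set_option linter.unusedSectionVars false

namespace Pool.Agent.L0h21.SN

open ExteriorAlgebra

variable {R : Type} [CommRing R] {σ J : Type} [Fintype σ] (D : SNData R σ J)

theorem del_sum (φ : Module.Dual R (σ → R)) [DecidableEq σ] (η : Lam R σ) :
    del φ η = ∑ u, φ (Pi.single u 1) • del (LinearMap.proj u) η := by
  have h : φ = ∑ u, φ (Pi.single u 1) • (LinearMap.proj u : Module.Dual R (σ → R)) := by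
    apply (Pi.basisFun R σ).ext
    intro v
    simp [Pi.single_apply]
  have h2 : ∀ ψ : Module.Dual R (σ → R), del ψ η =
      (CliffordAlgebra.contractLeft (Q := (0 : QuadraticForm R (σ → R)))).flip η ψ := fun ψ => rfl
  conv_lhs => rw [h, h2, map_sum]
  refine Finset.sum_congr rfl fun u _ => ?_
  rw [map_smul]
  rfl

variable [IsDomain R] [IsNoetherianRing R]

theorem SNData.star [DecidableEq J] [DecidableEq σ] (I : Finset J) (j : J) (hj : j ∉ I)
    (w : σ → R) (hw : ∀ i ∈ I, D.f i ∣ D.φ i w) (hwj : D.φ j w = 0) :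
    ∃ b : σ → σ → R, (∀ u, b u u = 0) ∧ (∀ u v, b u v = - b v u) ∧
      (∀ v, ∑ u, D.φ j (Pi.single u 1) * b u v = w v) ∧
      ∀ i ∈ I, ∀ v, D.f i ∣ ∑ u, D.φ i (Pi.single u 1) * b u v := by
  have h1 : ι R w ∈ D.Mod I 1 := by
    refine ⟨by rw [LP, exteriorPower, pow_one]; exact LinearMap.mem_range_self _ _,
      fun i hi => ?_⟩
    obtain ⟨c, hc⟩ := hw i hi
    exact ⟨algebraMap R _ c, by rw [del_ι, hc, map_mul, Algebra.smul_def]⟩
  have h2 : del (D.φ j) (ι R w) = 0 := by rw [del_ι, hwj, map_zero]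
  obtain ⟨η, hη, h3⟩ := D.exact I j hj 1 le_rfl h1 h2
  have h4 : ∀ u : σ, ∃ a : σ → R, del (LinearMap.proj u) η = ι R a := by
    intro u
    have := del_mem (LinearMap.proj u : Module.Dual R (σ → R)) hη.1
    rw [LP, exteriorPower, pow_one] at this
    obtain ⟨a, ha⟩ := this
    exact ⟨a, ha.symm⟩
  choose b hb using h4
  have hsum : ∀ φ : Module.Dual R (σ → R), del φ η = ι R (∑ u, φ (Pi.single u 1) • b u) := by
    intro φ
    rw [del_sum φ η, map_sum]
    exact Finset.sum_congr rfl fun u _ => by rw [hb, map_smul]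
  have hinj : Function.Injective (algebraMap R (Lam R σ)) := ExteriorAlgebra.algebraMap_leftInverse _ |>.injective
  refine ⟨b, ?_, ?_, ?_, ?_⟩
  · intro u
    have h5 := del_del (LinearMap.proj u : Module.Dual R (σ → R)) η
    rw [hb, del_ι] at h5
    apply hinj
    rw [map_zero]
    exact h5
  · intro u v
    have h5 := del_comm (LinearMap.proj v : Module.Dual R (σ → R)) (LinearMap.proj u) η
    rw [hb, hb, del_ι, del_ι, ← map_neg] at h5
    exact hinj h5
  · intro v
    rw [hsum] at h3
    have h5 := ExteriorAlgebra.ι_leftInverse.injective h3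
    have h6 := congrFun h5 v
    simpa [Finset.sum_apply] using h6
  · intro i hi v
    obtain ⟨ζ, hζ⟩ := hη.2 i hi
    have hζ1 : ζ ∈ LP R σ 1 := proj_smul_mem (D.hf i) hζ (del_mem _ hη.1)
    rw [LP, exteriorPower, pow_one] at hζ1
    obtain ⟨z, rfl⟩ := hζ1
    rw [hsum, ← map_smul] at hζ
    have h5 := ExteriorAlgebra.ι_leftInverse.injective hζ
    have h6 := congrFun h5 v
    refine ⟨z v, ?_⟩
    simpa [Finset.sum_apply] using h6

end Pool.Agent.L0h21.SN
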