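import Pool.Agent.L0h21.SN.Homog
import Pool.Agent.L0h21.SN.Star

/-! The reduction of the pole order. -/

set_option autoImplicit false
set_option linter.unusedSectionVars false

namespace Pool.Agent.L0h21.SN

open MvPolynomial

variable {σ J K : Type} [Fintype σ] [DecidableEq σ] [Fintype J] [DecidableEq J] [Field K]
  [CharZero K]

/-- `f ^ (-α - k) (∏ f ^ k) c` is the divergence of a logarithmic vector field times
`f ^ (-α - k)`. -/
def IsDiv (f : J → MvPolynomial σ K) (α : J → K) (c : K) (k : J → ℕ) : Prop :=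
  ∃ (g : σ → MvPolynomial σ K) (h : J → MvPolynomial σ K), (∀ i, act g (f i) = h i * f i) ∧
    dvg g - ∑ i, C (α i + k i) * h i = C c * ∏ i, f i ^ k i

theorem act_single (u : σ) (g : MvPolynomial σ K) : act (Pi.single u 1) g = pderiv u g := by
  simp [act, Pi.single_apply]

variable (w : σ → ℕ) (D : SNData (MvPolynomial σ K) σ J) (d : J → ℕ) (hd : ∀ j, 0 < d j)
  (hE : D.E = eul w) (hφ : ∀ i g, D.φ i g = act g (D.f i))
  (hhom : ∀ j, IsWeightedHomogeneous w (D.f j) (d j)) (α : J → K)
  (hα : ∑ j, α j * d j = ((∑ v, w v : ℕ) : K)) (c : K)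

include hhom in
theorem IsDiv.homog {k : J → ℕ} (H : IsDiv D.f α c k) :
    ∃ (g : σ → MvPolynomial σ K) (h : J → MvPolynomial σ K),
      (∀ i, IsWeightedHomogeneous w (h i) (∑ j, k j * d j)) ∧
      (∀ i, act g (D.f i) = h i * D.f i) ∧
      dvg g - ∑ i, C (α i + k i) * h i = C c * ∏ i, D.f i ^ k i := by
  obtain ⟨g, h, h1, h2⟩ := H
  set κ := ∑ j, k j * d j with hκ
  refine ⟨fun v => weightedHomogeneousComponent w (κ + w v) (g v),
    fun i => weightedHomogeneousComponent w κ (h i),
    fun i => weightedHomogeneousComponent_isWeightedHomogeneous _ _, fun i => ?_, ?_⟩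
  · rw [act_whc w (hhom i), h1 i, whc_mul w (hhom i)]
  · have h3 := congrArg (weightedHomogeneousComponent w κ) h2
    rw [map_sub, map_sum] at h3
    simp only [weightedHomogeneousComponent_C_mul] at h3
    rw [dvg_whc, h3]
    congr 1
    apply IsWeightedHomogeneous.weightedHomogeneousComponent_same
    rw [hκ]
    have := IsWeightedHomogeneous.prod Finset.univ (fun i => D.f i ^ k i) (fun i => k i * d i)
      (w := w) (fun i _ => by
        have := (hhom i).pow (k i)
        simpa using this)
    exact this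

include hd hE hφ hhom hα in
/-- The main construction. -/
theorem main_step (k : J → ℕ) (H : IsDiv D.f α c k) (j : J) :
    ∃ (T : σ → MvPolynomial σ K) (h : J → MvPolynomial σ K),
      (∀ i, i ≠ j → act T (D.f i) = h i * D.f i) ∧
      dvg T - ∑ i ∈ Finset.univ.erase j, C (α i + k i) * h i = 0 ∧
      act T (D.f j) = - (C c * ∏ i, D.f i ^ k i) := by
  obtain ⟨g, h, h0, h1, h2⟩ := IsDiv.homog w D d hhom α c H
  set κ := ∑ j, k j * d j with hκ
  have hdj : (d j : K) ≠ 0 := by
    have := hd j
    exact_mod_cast this.ne'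
  -- subtract a multiple of the Euler field
  set w0 : σ → MvPolynomial σ K := fun v => g v + (C (-(1 / (d j : K))) * h j) * eul w v with hw0
  set h' : J → MvPolynomial σ K := fun i => h i - C ((d i : K) / d j) * h j with hh'
  have h3 : ∀ i, act w0 (D.f i) = h' i * D.f i := by
    intro i
    rw [hw0, act_add g (fun v => (C (-(1 / (d j : K))) * h j) * eul w v),
      act_smul (C (-(1 / (d j : K))) * h j) (eul w), act_eul w (hhom i), h1 i, hh']
    have : (C ((d i : K) / d j) : MvPolynomial σ K) = C (1 / (d j : K)) * C (d i : K) := by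
      rw [← map_mul]; congr 1; field_simp
    simp only [this, map_neg]
    ring
  have h3j : h' j = 0 := by
    rw [hh']
    simp only [div_self hdj, map_one, one_mul, sub_self]
  have h4 : dvg w0 - ∑ i, C (α i + k i) * h' i = C c * ∏ i, D.f i ^ k i := by
    have h5 : dvg w0 = dvg g + C (-(1 / (d j : K))) * (C (((∑ v, w v + κ : ℕ)) : K) * h j) := by
      rw [← dvg_mul_eul w (h0 j)]
      simp only [dvg, hw0, map_add, Finset.sum_add_distrib, Finset.mul_sum]
      congr 1
      refine Finset.sum_congr rfl fun v _ => ?_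
      rw [mul_assoc, pderiv_C_mul]
    have h6 : ∑ i, C (α i + k i) * h' i = ∑ i, C (α i + k i) * h i -
        C (1 / (d j : K)) * (C (((∑ v, w v + κ : ℕ)) : K) * h j) := by
      have h7 : (((∑ v, w v + κ : ℕ)) : K) = ∑ i, (α i + k i) * d i := by
        rw [hκ]
        push_cast
        simp only [add_mul, Finset.sum_add_distrib, hα]
        push_cast
        rfl
      rw [h7, map_sum, Finset.sum_mul, Finset.mul_sum, ← Finset.sum_sub_distrib]
      refine Finset.sum_congr rfl fun i _ => ?_
      have : (C ((d i : K) / d j) : MvPolynomial σ K) = C (1 / (d j : K)) * C (d i : K) := by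
        rw [← map_mul]; congr 1; field_simp
      simp only [hh', this, map_mul]
      ring
    rw [h5, h6, ← h2, map_neg]
    ring
  -- the bivector field
  obtain ⟨b, -, hb2, hb3, hb4⟩ := D.star (Finset.univ.erase j) j (by simp) w0
    (fun i _ => ⟨h' i, by rw [hφ, h3]; ring⟩) (by rw [hφ, h3, h3j, zero_mul])
  have hb3' : ctr b (D.f j) = w0 := by
    funext v
    rw [← hb3 v, ctr]
    exact Finset.sum_congr rfl fun u _ => by rw [hφ, act_single]
  have hb4' : ∀ i ∈ Finset.univ.erase j, ∀ v, D.f i ∣ ctr b (D.f i) v := by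
    intro i hi v
    have := hb4 i hi v
    simp only [hφ, act_single] at this
    exact this
  choose! u hu using hb4'
  obtain ⟨⟨h8, h9, h10⟩, h11⟩ := tdv_main b hb2 D.f D.hf D.cop (Finset.univ.erase j)
    (fun i => α i + k i) u hu
  refine ⟨_, h8, fun i hi => h9 i (by simp [hi]), h10, ?_⟩
  rw [h11 (D.f j) h' (fun i _ => by rw [hb3', h3]), hb3', ← h4,
    ← Finset.add_sum_erase _ _ (Finset.mem_univ j), h3j]
  ring

include hd hE hφ hhom hα in
theorem IsDiv.step (hpos : ∀ (j : J) (m : ℕ), α j + m ≠ 0) (k : J → ℕ) (j : J)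
    (H : IsDiv D.f α c (k + Pi.single j 1)) : IsDiv D.f α c k := by
  obtain ⟨T, h, h1, h2, h3⟩ := main_step w D d hd hE hφ hhom α hα c _ H j
  have hc : α j + k j ≠ 0 := hpos j (k j)
  set e : K := (α j + k j)⁻¹ with he
  have hk1 : (k + Pi.single j 1 : J → ℕ) j = k j + 1 := by simp
  have hk2 : ∀ i, i ≠ j → (k + Pi.single j 1 : J → ℕ) i = k i := by
    intro i hi
    simp [hi]
  have hprod : ∏ i, D.f i ^ (k + Pi.single j 1 : J → ℕ) i = D.f j * ∏ i, D.f i ^ k i := by
    rw [← Finset.mul_prod_erase _ _ (Finset.mem_univ j),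
      ← Finset.mul_prod_erase Finset.univ (fun i => D.f i ^ k i) (Finset.mem_univ j)]
    have : ∏ i ∈ Finset.univ.erase j, D.f i ^ (k + Pi.single j 1 : J → ℕ) i =
        ∏ i ∈ Finset.univ.erase j, D.f i ^ k i := by
      refine Finset.prod_congr rfl fun i hi => ?_
      rw [hk2 i (Finset.ne_of_mem_erase hi)]
    rw [this, hk1, pow_succ]
    ring
  refine ⟨fun v => C e * T v,
    fun i => if i = j then - (C (e * c) * ∏ i, D.f i ^ k i) else C e * h i, ?_, ?_⟩
  · intro i
    rw [act_smul]
    by_cases hi : i = j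
    · subst hi
      rw [h3, hprod]
      simp only [if_true, map_mul]
      ring
    · rw [h1 i hi]
      simp only [if_neg hi]
      ring
  · have hdv : dvg (fun v => C e * T v) = C e * dvg T := by
      rw [dvg_smul]
      simp [act]
    rw [hdv, ← Finset.add_sum_erase _ _ (Finset.mem_univ j)]
    have h4 : ∑ i ∈ Finset.univ.erase j, C (α i + (k i : K)) *
        (if i = j then - (C (e * c) * ∏ i, D.f i ^ k i) else C e * h i) =
        C e * ∑ i ∈ Finset.univ.erase j, C (α i + ((k + Pi.single j 1 : J → ℕ) i : K)) * h i := by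
      rw [Finset.mul_sum]
      refine Finset.sum_congr rfl fun i hi => ?_
      have hij : i ≠ j := Finset.ne_of_mem_erase hi
      rw [if_neg hij, hk2 i hij]
      ring
    rw [h4]
    have h5 : dvg T = ∑ i ∈ Finset.univ.erase j,
        C (α i + ((k + Pi.single j 1 : J → ℕ) i : K)) * h i := sub_eq_zero.mp h2
    rw [h5]
    have h6 : (C (α j + (k j : K)) : MvPolynomial σ K) * C e = 1 := by
      rw [← map_mul, he, mul_inv_cancel₀ hc, map_one]
    simp only [if_true, map_mul]
    linear_combination (C c * ∏ i, D.f i ^ k i) * h6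

include hd hE hφ hhom hα in
theorem IsDiv.zero (hpos : ∀ (j : J) (m : ℕ), α j + m ≠ 0) (k : J → ℕ) (H : IsDiv D.f α c k) :
    IsDiv D.f α c 0 := by
  have key : ∀ (n : ℕ) (k : J → ℕ), ∑ j, k j = n → IsDiv D.f α c k → IsDiv D.f α c 0 := by
    intro n
    induction n with
    | zero =>
      intro k hk H
      have : k = 0 := by
        funext j
        have := Finset.sum_eq_zero_iff.mp hk j (Finset.mem_univ j)
        simpa using this
      rwa [this] at H
    | succ n ih =>
      intro k hk H
      obtain ⟨j, hj⟩ : ∃ j, 1 ≤ k j := by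
        by_contra hne
        push Not at hne
        have : ∑ j, k j = 0 := Finset.sum_eq_zero fun j _ => by
          have := hne j
          omega
        omega
      have hk' : k = (k - Pi.single j 1) + Pi.single j 1 := by
        funext i
        by_cases hi : i = j
        · subst hi
          simp
          omega
        · simp [hi]
      refine ih (k - Pi.single j 1) ?_ (IsDiv.step w D d hd hE hφ hhom α hα c hpos _ j
        (by rwa [← hk']))
      rw [hk'] at hk
      simp only [Pi.add_apply, Finset.sum_add_distrib] at hk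
      have : ∑ i, (Pi.single j 1 : J → ℕ) i = 1 := by simp
      omega
  exact key _ k rfl H

include hd hE hφ hhom hα in
/-- The core: `c f ^ (-α)` is not a divergence. -/
theorem core (hpos : ∀ (j : J) (m : ℕ), α j + m ≠ 0)
    (hdep : ∃ l : J → K, l ≠ 0 ∧ ∀ v, ∑ i, l i * constantCoeff (pderiv v (D.f i)) = 0)
    (h0 : ∀ i, constantCoeff (D.f i) = 0) (k : J → ℕ) (H : IsDiv D.f α c k) : c = 0 := by
  obtain ⟨l, hl, hl2⟩ := hdep
  obtain ⟨j, hj⟩ : ∃ j, l j ≠ 0 := by
    by_contra hne
    push Not at hne
    exact hl (funext hne)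
  obtain ⟨T, h, h1, -, h3⟩ := main_step w D d hd hE hφ hhom α hα c 0
    (IsDiv.zero w D d hd hE hφ hhom α hα c hpos k H) j
  have h4 : ∀ i, constantCoeff (act T (D.f i)) =
      ∑ v, constantCoeff (T v) * constantCoeff (pderiv v (D.f i)) := by
    intro i
    simp [act, map_sum]
  have h5 : ∑ i, l i * constantCoeff (act T (D.f i)) = 0 := by
    simp only [h4, Finset.mul_sum]
    rw [Finset.sum_comm]
    have : ∀ v, ∑ i, l i * (constantCoeff (T v) * constantCoeff (pderiv v (D.f i))) =
        constantCoeff (T v) * ∑ i, l i * constantCoeff (pderiv v (D.f i)) := by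
      intro v
      rw [Finset.mul_sum]
      exact Finset.sum_congr rfl fun i _ => by ring
    simp only [this, hl2, mul_zero, Finset.sum_const_zero]
  rw [← Finset.add_sum_erase _ _ (Finset.mem_univ j), h3] at h5
  have h6 : ∑ i ∈ Finset.univ.erase j, l i * constantCoeff (act T (D.f i)) = 0 := by
    refine Finset.sum_eq_zero fun i hi => ?_
    rw [h1 i (Finset.ne_of_mem_erase hi), map_mul, h0, mul_zero, mul_zero]
  rw [h6, add_zero] at h5
  simpa [hj] using h5

end Pool.Agent.L0h21.SN
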