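import Mathlib

/-! Grade with respect to the powers of some elements, through `Ext`. -/

set_option autoImplicit false

namespace Pool.Agent.L0h21.SN

open CategoryTheory Abelian RingTheory.Sequence

variable {R : Type} [CommRing R] {ι : Type} (x : ι → R)

/-- `Ext^j(N, M) = 0` for `j < i` and all finitely generated `N` killed by powers of the `x v`. -/
def DepthGE (i : ℕ) (M : Type) [AddCommGroup M] [Module R M] : Prop :=
  ∀ N : ModuleCat.{0} R, Module.Finite R N → (∀ v, ∃ t : ℕ, ∀ y : N, x v ^ t • y = 0) →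
    ∀ j < i, Subsingleton (Ext N (ModuleCat.of R M) j)

variable {x}

theorem DepthGE.mono {i j : ℕ} {M : Type} [AddCommGroup M] [Module R M] (h : DepthGE x i M)
    (hj : j ≤ i) : DepthGE x j M := fun N h1 h2 l hl => h N h1 h2 l (hl.trans_le hj)

/-- Short exact sequence from linear maps. -/
theorem shortExact {A B C : Type} [AddCommGroup A] [Module R A] [AddCommGroup B] [Module R B]
    [AddCommGroup C] [Module R C] (f : A →ₗ[R] B) (g : B →ₗ[R] C) (hf : Function.Injective f)
    (hg : Function.Surjective g) (h : Function.Exact f g) :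
    (ModuleCat.shortComplexOfCompEqZero f g h.linearMap_comp_eq_zero).ShortExact where
  exact := ModuleCat.shortComplex_exact _ h
  mono_f := by
    rw [ModuleCat.mono_iff_injective]; exact hf
  epi_g := by
    rw [ModuleCat.epi_iff_surjective]; exact hg

section
variable {A B C : Type} [AddCommGroup A] [Module R A] [AddCommGroup B] [Module R B]
    [AddCommGroup C] [Module R C] (f : A →ₗ[R] B) (g : B →ₗ[R] C) (hf : Function.Injective f)
    (hg : Function.Surjective g) (h : Function.Exact f g)

include hf hg h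

theorem DepthGE.left {i : ℕ} (hB : DepthGE x (i + 1) B) (hC : DepthGE x i C) :
    DepthGE x (i + 1) A := by
  intro N h1 h2 j hj
  have hS := shortExact f g hf hg h
  have hBj := hB N h1 h2 j hj
  refine ⟨fun a b => ?_⟩
  rw [← sub_eq_zero]
  set c := a - b with hc
  match j, c, hj, hBj with
  | 0, c, _, hBj =>
    have hm : Mono (ModuleCat.shortComplexOfCompEqZero f g h.linearMap_comp_eq_zero).f :=
      hS.mono_f
    have := Ext.postcomp_mk₀_injective_of_mono N
      (ModuleCat.shortComplexOfCompEqZero f g h.linearMap_comp_eq_zero).f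
    exact this (Subsingleton.elim (α := Ext N (ModuleCat.of R B) 0) _ _)
  | (j + 1), c, hj, hBj =>
    have hCj := hC N h1 h2 j (by omega)
    obtain ⟨y, hy⟩ := Ext.covariant_sequence_exact₁ N hS c
      (Subsingleton.elim (α := Ext N (ModuleCat.of R B) (j + 1)) _ _) rfl
    rw [← hy, Subsingleton.elim (α := Ext N (ModuleCat.of R C) j) y 0, Ext.zero_comp]

theorem DepthGE.mid {i : ℕ} (hA : DepthGE x i A) (hC : DepthGE x i C) : DepthGE x i B := by
  intro N h1 h2 j hj
  have hS := shortExact f g hf hg h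
  have hAj := hA N h1 h2 j hj
  have hCj := hC N h1 h2 j hj
  refine ⟨fun a b => ?_⟩
  rw [← sub_eq_zero]
  obtain ⟨y, hy⟩ := Ext.covariant_sequence_exact₂ N hS (a - b)
    (Subsingleton.elim (α := Ext N (ModuleCat.of R C) j) _ _)
  rw [← hy, Subsingleton.elim (α := Ext N (ModuleCat.of R A) j) y 0, Ext.zero_comp]

theorem DepthGE.right {i : ℕ} (hA : DepthGE x (i + 1) A) (hB : DepthGE x i B) :
    DepthGE x i C := by
  intro N h1 h2 j hj
  have hS := shortExact f g hf hg h
  have hAj := hA N h1 h2 (j + 1) (by omega)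
  have hBj := hB N h1 h2 j hj
  refine ⟨fun a b => ?_⟩
  rw [← sub_eq_zero]
  obtain ⟨y, hy⟩ := Ext.covariant_sequence_exact₃ N hS (a - b) rfl
    (Subsingleton.elim (α := Ext N (ModuleCat.of R A) (j + 1)) _ _)
  rw [← hy, Subsingleton.elim (α := Ext N (ModuleCat.of R B) j) y 0, Ext.zero_comp]

end

theorem DepthGE.hom_zero {i : ℕ} (hi : 0 < i) {N M : Type} [AddCommGroup N] [Module R N]
    [Module.Finite R N] [AddCommGroup M] [Module R M] (hM : DepthGE x i M)
    (hN : ∀ v, ∃ t : ℕ, ∀ y : N, x v ^ t • y = 0) (u : N →ₗ[R] M) : u = 0 := by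
  have h := hM (ModuleCat.of R N) ‹_› hN 0 hi
  have h2 : Subsingleton (ModuleCat.of R N ⟶ ModuleCat.of R M) :=
    Ext.addEquiv₀.subsingleton_congr.mp h
  have h3 : Subsingleton (N →ₗ[R] M) :=
    (ModuleCat.homAddEquiv (M := ModuleCat.of R N) (N := ModuleCat.of R M)).symm.subsingleton
  exact Subsingleton.elim _ _

theorem DepthGE.of_subsingleton {i : ℕ} {M : Type} [AddCommGroup M] [Module R M]
    [Subsingleton M] : DepthGE x i M := by
  intro N _ _ j _
  have hz : Limits.IsZero (ModuleCat.of R M) := ModuleCat.isZero_of_subsingleton _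
  refine ⟨fun a b => ?_⟩
  have h1 : ∀ c : Ext N (ModuleCat.of R M) j, c = 0 := by
    intro c
    have : c = c.comp (Ext.mk₀ (𝟙 (ModuleCat.of R M))) (add_zero j) := by simp
    rw [this, hz.eq_of_src (𝟙 _) 0]
    simp
  rw [h1 a, h1 b]

theorem DepthGE.of_equiv {i : ℕ} {A B : Type} [AddCommGroup A] [Module R A] [AddCommGroup B]
    [Module R B] (e : A ≃ₗ[R] B) (hB : DepthGE x i B) : DepthGE x i A := by
  cases i with
  | zero => intro N _ _ j hj; omega
  | succ i =>
    exact DepthGE.left (C := PUnit) e.toLinearMap (0 : B →ₗ[R] PUnit) e.injective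
      (fun y => ⟨0, Subsingleton.elim _ _⟩)
      (fun y => ⟨fun _ => ⟨e.symm y, by simp⟩, fun _ => rfl⟩) hB DepthGE.of_subsingleton

/-- If the quotient `Q` of `B` by `A` is killed by powers, and the depths of `B`, `A` are at least `1`,
`2`, then `Q = 0`. -/
theorem DepthGE.quot_subsingleton [IsNoetherianRing R] {A B Q : Type} [AddCommGroup A] [Module R A]
    [AddCommGroup B] [Module R B] [AddCommGroup Q] [Module R Q] [Module.Finite R Q]
    (f : A →ₗ[R] B) (g : B →ₗ[R] Q) (hf : Function.Injective f) (hg : Function.Surjective g)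
    (h : Function.Exact f g) (hA : DepthGE x 2 A) (hB : DepthGE x 1 B)
    (hQ : ∀ v, ∃ t : ℕ, ∀ y : Q, x v ^ t • y = 0) : Subsingleton Q := by
  have hQ1 : DepthGE x 1 Q := DepthGE.right f g hf hg h hA hB
  have := hQ1.hom_zero one_pos hQ LinearMap.id
  exact ⟨fun a b => by
    have ha := LinearMap.congr_fun this a
    have hb := LinearMap.congr_fun this b
    simp at ha hb
    rw [ha, hb]⟩

theorem ext_inj {A B C : Type} [AddCommGroup A] [Module R A] [AddCommGroup B] [Module R B]
    [AddCommGroup C] [Module R C] (f : A →ₗ[R] B) (g : B →ₗ[R] C) (hf : Function.Injective f)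
    (hg : Function.Surjective g) (h : Function.Exact f g) (N : ModuleCat.{0} R) (j : ℕ)
    (hC : ∀ k, k + 1 = j → Subsingleton (Ext N (ModuleCat.of R C) k))
    (c : Ext N (ModuleCat.of R A) j)
    (hc : c.comp (Ext.mk₀ (ModuleCat.ofHom f)) (add_zero j) = 0) : c = 0 := by
  have hS := shortExact f g hf hg h
  match j, c, hc, hC with
  | 0, c, hc, _ =>
    have hm : Mono (ModuleCat.shortComplexOfCompEqZero f g h.linearMap_comp_eq_zero).f :=
      hS.mono_f
    have := Ext.postcomp_mk₀_injective_of_mono N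
      (ModuleCat.shortComplexOfCompEqZero f g h.linearMap_comp_eq_zero).f
    apply this
    rw [map_zero]
    exact hc
  | (j + 1), c, hc, hC =>
    have hCj := hC j rfl
    obtain ⟨y, hy⟩ := Ext.covariant_sequence_exact₁ N hS c hc rfl
    rw [← hy, Subsingleton.elim (α := Ext N (ModuleCat.of R C) j) y 0, Ext.zero_comp]

theorem DepthGE.succ_of_quot {i : ℕ} {M : Type} [AddCommGroup M] [Module R M] {v : ι}
    (reg : IsSMulRegular M (x v)) (h : DepthGE x i (QuotSMulTop (x v) M)) :
    DepthGE x (i + 1) M := by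
  intro N h1 h2 j hj
  obtain ⟨t, ht⟩ := h2 v
  have inj : ∀ c : Ext N (ModuleCat.of R M) j, x v • c = 0 → c = 0 := by
    intro c hc
    refine ext_inj (x v • (LinearMap.id : M →ₗ[R] M)) (Submodule.mkQ _)
      (C := QuotSMulTop (x v) M) reg (Submodule.mkQ_surjective _)
      (LinearMap.exact_lsmul_mkQ_smul_top M (x v)) N j (fun k hk => h N h1 h2 k (by omega)) c ?_
    have : (Ext.mk₀ (ModuleCat.ofHom (x v • (LinearMap.id : M →ₗ[R] M)))) =
        x v • Ext.mk₀ (𝟙 (ModuleCat.of R M)) := by
      rw [← Ext.mk₀_smul]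
      rfl
    rw [this]
    simpa using hc
  have inj' : ∀ (t : ℕ) (c : Ext N (ModuleCat.of R M) j), x v ^ t • c = 0 → c = 0 := by
    intro t
    induction t with
    | zero => intro c hc; simpa using hc
    | succ t ih =>
      intro c hc
      exact ih c (inj _ (by rw [smul_smul, ← pow_succ']; exact hc))
  have hz : ∀ c : Ext N (ModuleCat.of R M) j, c = 0 := by
    intro c
    apply inj' t c
    have h0 : (x v ^ t) • 𝟙 N = 0 := by
      ext y
      exact ht y
    have : (x v ^ t) • c = (Ext.mk₀ ((x v ^ t) • 𝟙 N)).comp c (zero_add j) := by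
      simp [Ext.mk₀_smul]
    rw [this, h0]
    simp
  exact ⟨fun a b => by rw [hz a, hz b]⟩

/-- Modules with a regular sequence. -/
theorem DepthGE.of_regular {M : Type} [AddCommGroup M] [Module R M]
    (l : List ι) (h : IsWeaklyRegular M (l.map x)) :
    DepthGE x l.length M := by
  induction l generalizing M with
  | nil => intro N _ _ j hj; simp at hj
  | cons v l ih =>
    rw [List.map_cons, isWeaklyRegular_cons_iff] at h
    exact DepthGE.succ_of_quot h.1 (ih h.2)

end Pool.Agent.L0h21.SN
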