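import Pool.Agent.L0h21.SN.Lam

/-! Exactness of the complexes of logarithmic polyvectors with the contraction by a further
covector. -/

set_option autoImplicit false
set_option linter.unusedSectionVars false

namespace Pool.Agent.L0h21.SN

open ExteriorAlgebra

/-- Covectors `φ i` (the differentials of `f i`), an Euler vector field `E`, elements `x v` defining
the origin, outside of which the `f i` cross each other normally. -/
structure SNData (R σ J : Type) [CommRing R] [Fintype σ] where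
  f : J → R
  φ : J → Module.Dual R (σ → R)
  E : σ → R
  d : J → R
  hd : ∀ i, IsUnit (d i)
  hE : ∀ i, φ i E = d i * f i
  hf : ∀ i, f i ≠ 0
  cop : ∀ i j, i ≠ j → ∀ r, f i ∣ f j * r → f i ∣ r
  x : σ → R
  hx : ∀ p, DepthGE x (Fintype.card σ) (LP R σ p)
  prim : ∀ (I : Finset J) (j : J), j ∉ I → ∀ v, ∃ N : ℕ, ∃ w, (∀ i ∈ I, f i ∣ φ i w) ∧
    φ j w = x v ^ N

variable {R : Type} [CommRing R] {σ J : Type} [Fintype σ] (D : SNData R σ J)

/-- Logarithmic polyvectors. -/
noncomputable def SNData.Mod (I : Finset J) (p : ℕ) : Submodule R (Lam R σ) where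
  carrier := {θ | θ ∈ LP R σ p ∧ ∀ i ∈ I, ∃ η, del (D.φ i) θ = D.f i • η}
  add_mem' := by
    rintro a b ⟨ha, ha'⟩ ⟨hb, hb'⟩
    refine ⟨Submodule.add_mem _ ha hb, fun i hi => ?_⟩
    obtain ⟨c, hc⟩ := ha' i hi
    obtain ⟨e, he⟩ := hb' i hi
    exact ⟨c + e, by rw [map_add, hc, he, smul_add]⟩
  zero_mem' := ⟨Submodule.zero_mem _, fun i _ => ⟨0, by simp⟩⟩
  smul_mem' := by
    rintro r a ⟨ha, ha'⟩
    refine ⟨Submodule.smul_mem _ _ ha, fun i hi => ?_⟩
    obtain ⟨c, hc⟩ := ha' i hi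
    exact ⟨r • c, by rw [map_smul, hc, smul_comm]⟩

theorem SNData.mem_Mod {I : Finset J} {p : ℕ} {θ : Lam R σ} :
    θ ∈ D.Mod I p ↔ θ ∈ LP R σ p ∧ ∀ i ∈ I, ∃ η, del (D.φ i) θ = D.f i • η := Iff.rfl

/-- Cycles. -/
noncomputable def SNData.Z (I : Finset J) (j : J) (p : ℕ) : Submodule R (Lam R σ) :=
  D.Mod I p ⊓ LinearMap.ker (del (D.φ j))

/-- Boundaries. -/
noncomputable def SNData.Bd (I : Finset J) (j : J) (p : ℕ) : Submodule R (Lam R σ) :=
  (D.Mod I (p + 1)).map (del (D.φ j))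

theorem SNData.ι_mul_mem_Mod {I : Finset J} {p : ℕ} {w : σ → R} (hw : ∀ i ∈ I, D.f i ∣ D.φ i w)
    {θ : Lam R σ} (hθ : θ ∈ D.Mod I p) : ι R w * θ ∈ D.Mod I (p + 1) := by
  refine ⟨ι_mul_mem w hθ.1, fun i hi => ?_⟩
  obtain ⟨c, hc⟩ := hw i hi
  obtain ⟨η, hη⟩ := hθ.2 i hi
  refine ⟨c • θ - ι R w * η, ?_⟩
  rw [del_ι_mul, hc, hη, smul_sub, smul_smul, Algebra.mul_smul_comm]

variable [IsDomain R]

theorem SNData.del_mem_Mod {I : Finset J} {j : J} {p : ℕ} {θ : Lam R σ}
    (hθ : θ ∈ D.Mod I (p + 1)) : del (D.φ j) θ ∈ D.Mod I p := by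
  refine ⟨del_mem _ hθ.1, fun i hi => ?_⟩
  obtain ⟨η, hη⟩ := hθ.2 i hi
  exact ⟨- del (D.φ j) η, by rw [del_comm, hη, map_smul, smul_neg]⟩

theorem SNData.Bd_le_Z (I : Finset J) (j : J) (p : ℕ) : D.Bd I j p ≤ D.Z I j p := by
  rintro _ ⟨θ, hθ, rfl⟩
  exact ⟨D.del_mem_Mod hθ, by simp [del_del]⟩

theorem SNData.Z_top (I : Finset J) (j : J) {p : ℕ} (hp : Fintype.card σ ≤ p) :
    D.Z I j p = ⊥ := by
  rw [eq_bot_iff]
  rintro θ ⟨hθ, h⟩
  have h1 : ι R D.E * θ = 0 := by
    have := ι_mul_mem D.E hθ.1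
    rw [LP_eq_bot (by omega)] at this
    simpa using this
  have h2 := del_ι_mul (D.φ j) D.E θ
  rw [h1, map_zero, LinearMap.mem_ker.mp h, mul_zero, sub_zero, D.hE, eq_comm,
    smul_eq_zero] at h2
  rcases h2 with h2 | h2
  · exact absurd h2 (mul_ne_zero (D.hd j).ne_zero (D.hf j))
  · simp [h2]

variable [IsNoetherianRing R]

theorem SNData.homology_nil (I : Finset J) (j : J) (hj : j ∉ I) (p : ℕ) (v : σ) :
    ∃ t : ℕ, ∀ θ ∈ D.Z I j p, D.x v ^ t • θ ∈ D.Bd I j p := by
  obtain ⟨N, w, hw, h⟩ := D.prim I j hj v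
  refine ⟨N, fun θ hθ => ⟨ι R w * θ, D.ι_mul_mem_Mod hw hθ.1, ?_⟩⟩
  rw [del_ι_mul, LinearMap.mem_ker.mp hθ.2, mul_zero, sub_zero, h]

/-- The induction step of the exactness. -/
theorem SNData.step (I : Finset J) (j : J) (hj : j ∉ I)
    (hA : ∀ p, 1 ≤ p → DepthGE D.x p (D.Mod I p)) (p : ℕ) (hp : 1 ≤ p)
    (hZ : DepthGE D.x (p + 2) (D.Z I j (p + 1))) :
    D.Z I j p = D.Bd I j p ∧ DepthGE D.x (p + 1) (D.Z I j p) := by
  -- depth of the boundaries
  have hB : DepthGE D.x (p + 1) (D.Bd I j p) := by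
    refine DepthGE.right (A := D.Z I j (p + 1)) (B := D.Mod I (p + 1))
      (Submodule.inclusion inf_le_left)
      ((del (D.φ j)).restrict (p := D.Mod I (p + 1)) (q := D.Bd I j p)
        (fun θ hθ => ⟨θ, hθ, rfl⟩)) (Submodule.inclusion_injective _) ?_ ?_ hZ
        (hA (p + 1) (by omega))
    · rintro ⟨_, θ, hθ, rfl⟩
      exact ⟨⟨θ, hθ⟩, rfl⟩
    · rintro ⟨θ, hθ⟩
      constructor
      · intro h
        have : del (D.φ j) θ = 0 := congrArg Subtype.val h
        exact ⟨⟨θ, hθ, this⟩, rfl⟩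
      · rintro ⟨⟨η, hη⟩, h⟩
        have h' : η = θ := congrArg Subtype.val h
        subst h'
        exact Subtype.ext hη.2
  have hQ : Subsingleton (D.Z I j p ⧸ (D.Bd I j p).submoduleOf (D.Z I j p)) := by
    refine DepthGE.quot_subsingleton (x := D.x) (A := D.Bd I j p) (B := D.Z I j p)
      (Submodule.inclusion (D.Bd_le_Z I j p)) (Submodule.mkQ _) (Submodule.inclusion_injective _)
      (Submodule.mkQ_surjective _) ?_ (hB.mono (by omega)) ?_ ?_
    · intro θ
      simp only [Submodule.mkQ_apply, Submodule.Quotient.mk_eq_zero]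
      constructor
      · intro h
        exact ⟨⟨θ, h⟩, rfl⟩
      · rintro ⟨η, rfl⟩
        exact η.2
    · refine DepthGE.mono (i := 1) ?_ le_rfl
      refine DepthGE.left (A := D.Z I j p) (B := D.Mod I p)
        (C := D.Mod I p ⧸ (D.Z I j p).submoduleOf (D.Mod I p))
        (Submodule.inclusion inf_le_left) (Submodule.mkQ _) (Submodule.inclusion_injective _)
        (Submodule.mkQ_surjective _) ?_ ((hA p hp).mono (by omega)) ?_
      · intro θ
        simp only [Submodule.mkQ_apply, Submodule.Quotient.mk_eq_zero]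
        constructor
        · intro h
          exact ⟨⟨θ, h⟩, rfl⟩
        · rintro ⟨η, rfl⟩
          exact η.2
      · intro N _ _ l hl
        omega
    · intro v
      obtain ⟨t, ht⟩ := D.homology_nil I j hj p v
      refine ⟨t, fun y => ?_⟩
      obtain ⟨y, rfl⟩ := Submodule.Quotient.mk_surjective _ y
      rw [← Submodule.Quotient.mk_smul, Submodule.Quotient.mk_eq_zero]
      exact ht y y.2
  have hEq : D.Z I j p = D.Bd I j p := by
    apply le_antisymm _ (D.Bd_le_Z I j p)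
    intro θ hθ
    have := Subsingleton.elim (Submodule.Quotient.mk ⟨θ, hθ⟩ :
      D.Z I j p ⧸ (D.Bd I j p).submoduleOf (D.Z I j p)) 0
    rw [Submodule.Quotient.mk_eq_zero] at this
    exact this
  refine ⟨hEq, ?_⟩
  rw [hEq]
  exact hB

theorem SNData.Z_all (I : Finset J) (j : J) (hj : j ∉ I)
    (hA : ∀ p, 1 ≤ p → DepthGE D.x p (D.Mod I p)) (p : ℕ) (hp : 1 ≤ p) :
    D.Z I j p = D.Bd I j p ∧ DepthGE D.x (p + 1) (D.Z I j p) := by
  have key : ∀ m p, 1 ≤ p → Fintype.card σ ≤ p + m →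
      D.Z I j p = D.Bd I j p ∧ DepthGE D.x (p + 1) (D.Z I j p) := by
    intro m
    induction m with
    | zero =>
      intro p hp h
      have h0 := D.Z_top I j (p := p) (by omega)
      constructor
      · apply le_antisymm _ (D.Bd_le_Z I j p)
        rw [h0]; exact bot_le
      · rw [h0]
        exact DepthGE.of_subsingleton
    | succ m ih =>
      intro p hp h
      exact D.step I j hj hA p hp (ih (p + 1) (by omega) (by omega)).2
  exact key (Fintype.card σ) p hp (by omega)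

theorem DepthGE.prod {ι : Type} {x : ι → R} {i : ℕ} {A B : Type} [AddCommGroup A] [Module R A]
    [AddCommGroup B] [Module R B] (hA : DepthGE x i A) (hB : DepthGE x i B) :
    DepthGE x i (A × B) := by
  refine DepthGE.mid (LinearMap.inl R A B) (LinearMap.snd R A B) ?_ ?_ ?_ hA hB
  · exact LinearMap.inl_injective
  · exact LinearMap.snd_surjective
  · rintro ⟨a, b⟩
    constructor
    · intro h
      exact ⟨a, by simpa using (show b = 0 from h).symm⟩
    · rintro ⟨c, h⟩
      simpa using (congrArg Prod.snd h).symm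

/-- Logarithmic polyvectors along one more element. -/
theorem SNData.insert_depth [DecidableEq J] (I : Finset J) (j : J) (hj : j ∉ I) (p : ℕ)
    (h1 : DepthGE D.x (p + 1) (D.Z I j (p + 1))) (h2 : DepthGE D.x (p + 1) (D.Z I j p)) :
    DepthGE D.x (p + 1) (D.Mod (insert j I) (p + 1)) := by
  obtain ⟨u, hu⟩ := D.hd j
  have hφE : D.φ j D.E = (u : R) * D.f j := by rw [D.hE, hu]
  set c : R := ((u⁻¹ : Rˣ) : R) with hc
  have hcu : c * (u : R) = 1 := by rw [hc]; exact u.inv_mul
  -- the wedge with the Euler field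
  have hlog : ∀ i ∈ I, D.f i ∣ D.φ i D.E := fun i _ => ⟨D.d i, by rw [D.hE, mul_comm]⟩
  have hdel : ∀ η ∈ D.Z I j p, del (D.φ j) (c • (ι R D.E * η)) = D.f j • η := by
    intro η hη
    rw [map_smul, del_ι_mul, LinearMap.mem_ker.mp hη.2, mul_zero, sub_zero, hφE, smul_smul,
      ← mul_assoc, hcu, one_mul]
  have hmem : ∀ a ∈ D.Z I j (p + 1), ∀ b ∈ D.Z I j p,
      a + c • (ι R D.E * b) ∈ D.Mod (insert j I) (p + 1) := by
    intro a ha b hb
    have h3 : a + c • (ι R D.E * b) ∈ D.Mod I (p + 1) :=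
      Submodule.add_mem _ ha.1 (Submodule.smul_mem _ _ (D.ι_mul_mem_Mod hlog hb.1))
    refine ⟨h3.1, fun i hi => ?_⟩
    rcases Finset.mem_insert.mp hi with rfl | hi
    · refine ⟨b, ?_⟩
      rw [map_add, LinearMap.mem_ker.mp ha.2, zero_add, hdel b hb]
    · exact h3.2 i hi
  let F : (D.Z I j (p + 1) × D.Z I j p) →ₗ[R] D.Mod (insert j I) (p + 1) :=
    { toFun := fun y => ⟨(y.1 : Lam R σ) + c • (ι R D.E * (y.2 : Lam R σ)),
        hmem _ y.1.2 _ y.2.2⟩
      map_add' := fun y z => Subtype.ext (by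
        simp only [Prod.fst_add, Prod.snd_add, Submodule.coe_add, mul_add, smul_add]
        abel)
      map_smul' := fun r y => Subtype.ext (by
        simp only [Prod.smul_fst, Prod.smul_snd, Submodule.coe_smul, RingHom.id_apply,
          Algebra.mul_smul_comm, smul_add]
        rw [smul_comm]) }
  have hF : Function.Bijective F := by
    constructor
    · rw [← LinearMap.ker_eq_bot, eq_bot_iff]
      rintro ⟨a, b⟩ h
      have h' : (a : Lam R σ) + c • (ι R D.E * (b : Lam R σ)) = 0 :=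
        congrArg Subtype.val (LinearMap.mem_ker.mp h)
      have h4 := congrArg (del (D.φ j)) h'
      rw [map_add, LinearMap.mem_ker.mp a.2.2, zero_add, hdel b b.2, map_zero] at h4
      have hb : (b : Lam R σ) = 0 := (smul_eq_zero.mp h4).resolve_left (D.hf j)
      have ha : (a : Lam R σ) = 0 := by
        rw [hb, mul_zero, smul_zero, add_zero] at h'
        exact h'
      simp only [Submodule.mem_bot, Prod.mk_eq_zero]
      exact ⟨Subtype.ext ha, Subtype.ext hb⟩
    · rintro ⟨θ, hθ⟩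
      obtain ⟨η, hη⟩ := hθ.2 j (Finset.mem_insert_self j I)
      have hηp : η ∈ LP R σ p := proj_smul_mem (D.hf j) hη (del_mem _ hθ.1)
      have hker : del (D.φ j) η = 0 := by
        have := del_del (D.φ j) θ
        rw [hη, map_smul] at this
        exact (smul_eq_zero.mp this).resolve_left (D.hf j)
      have hZ : η ∈ D.Z I j p := by
        refine ⟨⟨hηp, fun i hi => ?_⟩, hker⟩
        obtain ⟨ζ, hζ⟩ := hθ.2 i (Finset.mem_insert_of_mem hi)
        have hij : i ≠ j := fun h => hj (h ▸ hi)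
        have h5 : D.f j • del (D.φ i) η = D.f i • (- del (D.φ j) ζ) := by
          rw [← map_smul, ← hη, del_comm, hζ, map_smul, smul_neg]
        exact exists_smul_eq _ _ (D.cop i j hij) _ _ h5
      have hθI : θ ∈ D.Mod I (p + 1) :=
        ⟨hθ.1, fun i hi => hθ.2 i (Finset.mem_insert_of_mem hi)⟩
      have hZ0 : θ - c • (ι R D.E * η) ∈ D.Z I j (p + 1) := by
        refine ⟨Submodule.sub_mem _ hθI (Submodule.smul_mem _ _ (D.ι_mul_mem_Mod hlog hZ.1)), ?_⟩
        rw [SetLike.mem_coe, LinearMap.mem_ker, map_sub, hη, hdel η hZ, sub_self]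
      refine ⟨(⟨_, hZ0⟩, ⟨η, hZ⟩), Subtype.ext ?_⟩
      simp [F]
  exact DepthGE.of_equiv (LinearEquiv.ofBijective F hF).symm (DepthGE.prod h1 h2)

theorem SNData.Mod_empty (p : ℕ) : D.Mod ∅ p = LP R σ p := by
  ext θ
  simp [D.mem_Mod]

/-- The depth of the modules of logarithmic polyvectors. -/
theorem SNData.depth_Mod [DecidableEq J] (I : Finset J) :
    ∀ p, 1 ≤ p → DepthGE D.x p (D.Mod I p) := by
  induction I using Finset.induction_on with
  | empty =>
    intro p hp
    rw [D.Mod_empty]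
    by_cases h : p ≤ Fintype.card σ
    · exact (D.hx p).mono h
    · rw [LP_eq_bot (by omega)]
      exact DepthGE.of_subsingleton
  | insert j I hj ih =>
    intro p hp
    obtain ⟨p, rfl⟩ : ∃ q, p = q + 1 := ⟨p - 1, by omega⟩
    refine D.insert_depth I j hj p ((D.Z_all I j hj ih (p + 1) (by omega)).2.mono (by omega)) ?_
    by_cases hp0 : p = 0
    · subst hp0
      have hcard : 1 ≤ Fintype.card σ := by
        rw [Nat.one_le_iff_ne_zero]
        intro h0
        have := Fintype.card_eq_zero_iff.mp h0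
        have h1 : D.E = 0 := Subsingleton.elim _ _
        have h2 := D.hE j
        rw [h1, map_zero] at h2
        exact mul_ne_zero (D.hd j).ne_zero (D.hf j) h2.symm
      have hZ : D.Z I j 0 = LP R σ 0 := by
        apply le_antisymm
        · exact fun θ hθ => hθ.1.1
        · intro θ hθ
          exact ⟨⟨hθ, fun i _ => ⟨0, by rw [del_zero_mem _ hθ, smul_zero]⟩⟩, del_zero_mem _ hθ⟩
      rw [hZ]
      exact (D.hx 0).mono hcard
    · exact (D.Z_all I j hj ih p (by omega)).2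

/-- Exactness: a logarithmic polyvector killed by the contraction with `φ j` is the contraction of a
logarithmic polyvector. -/
theorem SNData.exact [DecidableEq J] (I : Finset J) (j : J) (hj : j ∉ I) (p : ℕ) (hp : 1 ≤ p)
    {θ : Lam R σ} (hθ : θ ∈ D.Mod I p) (h : del (D.φ j) θ = 0) :
    ∃ η ∈ D.Mod I (p + 1), del (D.φ j) η = θ := by
  have h1 : θ ∈ D.Z I j p := ⟨hθ, h⟩
  rw [(D.Z_all I j hj (D.depth_Mod I) p hp).1] at h1
  exact h1

end Pool.Agent.L0h21.SN
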