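import Pool.Agent.L0h21.SN.Red

/-! Weighted homogeneous components. -/

set_option autoImplicit false
set_option linter.unusedSectionVars false

namespace Pool.Agent.L0h21.SN

open MvPolynomial

variable {σ K : Type} [Fintype σ] [Field K] [CharZero K] (w : σ → ℕ)

theorem weight_add_single (m : σ →₀ ℕ) (v : σ) :
    Finsupp.weight w (m + Finsupp.single v 1) = Finsupp.weight w m + w v := by
  simp [map_add, Finsupp.weight_single]

theorem whc_pderiv (v : σ) (n : ℕ) (p : MvPolynomial σ K) :
    weightedHomogeneousComponent w n (pderiv v p) =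
      pderiv v (weightedHomogeneousComponent w (n + w v) p) := by
  ext m
  rw [coeff_weightedHomogeneousComponent, coeff_pderiv, coeff_pderiv,
    coeff_weightedHomogeneousComponent, weight_add_single]
  by_cases h : Finsupp.weight w m = n
  · simp [h]
  · rw [if_neg h, if_neg (by omega), zero_mul]

theorem whc_mul {q : MvPolynomial σ K} {m : ℕ} (hq : IsWeightedHomogeneous w q m) (n : ℕ)
    (p : MvPolynomial σ K) :
    weightedHomogeneousComponent w (n + m) (p * q) =
      weightedHomogeneousComponent w n p * q := by
  let := weightedGradedAlgebra K w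
  have h := DirectSum.coe_decompose_mul_add_of_right_mem (weightedHomogeneousSubmodule K w)
    (i := n) (j := m) (a := p) (b := q) hq
  have h1 : ∀ (r : MvPolynomial σ K) (l : ℕ),
      ((DirectSum.decompose (weightedHomogeneousSubmodule K w) r) l : MvPolynomial σ K) =
        weightedHomogeneousComponent w l r :=
    fun r l => weightedDecomposition.decompose'_apply K w r l
  rw [h1, h1] at h
  exact h

theorem pderiv_zero_of_lt {q : MvPolynomial σ K} {m : ℕ} (hq : IsWeightedHomogeneous w q m)
    (v : σ) (h : m < w v) : pderiv v q = 0 := by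
  ext a
  rw [coeff_pderiv, coeff_zero]
  by_contra hne
  have h1 : coeff (a + Finsupp.single v 1) q ≠ 0 := fun h0 => hne (by rw [h0, zero_mul])
  have h2 := hq h1
  rw [weight_add_single] at h2
  omega

theorem whc_mul_pderiv {q : MvPolynomial σ K} {m : ℕ} (hq : IsWeightedHomogeneous w q m) (n : ℕ)
    (v : σ) (p : MvPolynomial σ K) :
    weightedHomogeneousComponent w (n + m) (p * pderiv v q) =
      weightedHomogeneousComponent w (n + w v) p * pderiv v q := by
  by_cases h : m < w v
  · rw [pderiv_zero_of_lt w hq v h, mul_zero, mul_zero, map_zero]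
  · have h1 : IsWeightedHomogeneous w (pderiv v q) (m - w v) := hq.pderiv (by omega)
    have h2 : n + m = (n + w v) + (m - w v) := by omega
    rw [h2, whc_mul w h1]

theorem act_whc {q : MvPolynomial σ K} {m : ℕ} (hq : IsWeightedHomogeneous w q m) (n : ℕ)
    (g : σ → MvPolynomial σ K) :
    act (fun v => weightedHomogeneousComponent w (n + w v) (g v)) q =
      weightedHomogeneousComponent w (n + m) (act g q) := by
  simp only [act, map_sum]
  exact Finset.sum_congr rfl fun v _ => (whc_mul_pderiv w hq n v (g v)).symm

theorem dvg_whc (n : ℕ) (g : σ → MvPolynomial σ K) :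
    dvg (fun v => weightedHomogeneousComponent w (n + w v) (g v)) =
      weightedHomogeneousComponent w n (dvg g) := by
  simp only [dvg, map_sum]
  exact Finset.sum_congr rfl fun v _ => (whc_pderiv w v n (g v)).symm

/-- The Euler vector field. -/
noncomputable def eul : σ → MvPolynomial σ K := fun v => C (w v : K) * X v

theorem act_eul {q : MvPolynomial σ K} {m : ℕ} (hq : IsWeightedHomogeneous w q m) :
    act (eul w) q = C (m : K) * q := by
  have h := hq.sum_weight_X_mul_pderiv
  simp only [act, eul]
  calc ∑ v, C (w v : K) * X v * pderiv v q = ∑ v, w v • (X v * pderiv v q) := by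
        refine Finset.sum_congr rfl fun v _ => ?_
        rw [nsmul_eq_mul, mul_assoc, map_natCast]
    _ = C (m : K) * q := by rw [h, nsmul_eq_mul, map_natCast]

theorem dvg_eul : dvg (eul w : σ → MvPolynomial σ K) = C ((∑ v, w v : ℕ) : K) := by
  simp only [dvg, eul, Derivation.leibniz, pderiv_C, pderiv_X_self, smul_eq_mul, mul_one,
    mul_zero, add_zero]
  rw [← map_sum]
  push_cast
  rfl

theorem dvg_mul_eul {h : MvPolynomial σ K} {m : ℕ} (hh : IsWeightedHomogeneous w h m) :
    dvg (fun v => h * eul w v) = C (((∑ v, w v + m : ℕ)) : K) * h := by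
  rw [dvg_smul, act_eul w hh, dvg_eul]
  push_cast
  rw [map_add]
  ring

end Pool.Agent.L0h21.SN
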