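import Pool.Agent.H628R4.TP.Defs
import Pool.Agent.L0h21.SN.Homog

/-! Functional equations, specialized at a complex number `s`. -/

set_option autoImplicit false
set_option linter.unusedSectionVars false

namespace Pool.Agent.L0h21.SN

open MvPolynomial Pool.Agent.H628R4.TP

variable {σ : Type} [Fintype σ]

/-- A polynomial whose coefficients depend polynomially on `s`. -/
def PF (Γ : ℂ → MvPolynomial σ ℂ) : Prop :=
  ∀ m : σ →₀ ℕ, ∃ q : Polynomial ℂ, ∀ s, coeff m (Γ s) = q.eval s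

theorem PF.const (g : MvPolynomial σ ℂ) : PF fun _ : ℂ => g :=
  fun m => ⟨Polynomial.C (coeff m g), fun s => by simp⟩

theorem PF.C (q : Polynomial ℂ) : PF fun s : ℂ => (MvPolynomial.C (q.eval s) : MvPolynomial σ ℂ) := by
  classical
  intro m
  by_cases h : (0 : σ →₀ ℕ) = m
  · exact ⟨q, fun s => by rw [coeff_C, if_pos h]⟩
  · exact ⟨0, fun s => by rw [coeff_C, if_neg h]; simp⟩

theorem PF.add {Γ Δ : ℂ → MvPolynomial σ ℂ} (h : PF Γ) (h' : PF Δ) : PF fun s => Γ s + Δ s := by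
  intro m
  obtain ⟨q, hq⟩ := h m
  obtain ⟨r, hr⟩ := h' m
  exact ⟨q + r, fun s => by rw [coeff_add, hq, hr, Polynomial.eval_add]⟩

theorem PF.mul {Γ Δ : ℂ → MvPolynomial σ ℂ} (h : PF Γ) (h' : PF Δ) : PF fun s => Γ s * Δ s := by
  classical
  intro m
  choose q hq using h
  choose r hr using h'
  refine ⟨∑ x ∈ Finset.HasAntidiagonal.antidiagonal m, q x.1 * r x.2, fun s => ?_⟩
  rw [coeff_mul, Polynomial.eval_finsetSum]
  exact Finset.sum_congr rfl fun x _ => by rw [hq, hr, Polynomial.eval_mul]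

theorem PF.pderiv {Γ : ℂ → MvPolynomial σ ℂ} (h : PF Γ) (v : σ) :
    PF fun s => MvPolynomial.pderiv v (Γ s) := by
  intro m
  obtain ⟨q, hq⟩ := h (m + Finsupp.single v 1)
  exact ⟨q * Polynomial.C ((m v : ℂ) + 1), fun s => by rw [coeff_pderiv, hq]; simp⟩

theorem PF.sum {ι : Type} (t : Finset ι) (Γ : ι → ℂ → MvPolynomial σ ℂ)
    (h : ∀ i ∈ t, PF (Γ i)) : PF fun s => ∑ i ∈ t, Γ i s := by
  classical
  induction t using Finset.induction_on with
  | empty => simpa using PF.const 0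
  | insert a t ha ih =>
    simp only [Finset.sum_insert ha]
    exact (h a (Finset.mem_insert_self _ _)).add
      (ih fun i hi => h i (Finset.mem_insert_of_mem hi))

theorem PF.whc {Γ : ℂ → MvPolynomial σ ℂ} (h : PF Γ) (w : σ → ℕ) (n : ℕ) :
    PF fun s => weightedHomogeneousComponent w n (Γ s) := by
  intro m
  obtain ⟨q, hq⟩ := h m
  by_cases hm : Finsupp.weight w m = n
  · exact ⟨q, fun s => by rw [coeff_weightedHomogeneousComponent, if_pos hm, hq]⟩
  · exact ⟨0, fun s => by rw [coeff_weightedHomogeneousComponent, if_neg hm]; simp⟩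

theorem PF.eq_zero {Γ : ℂ → MvPolynomial σ ℂ} (h : PF Γ) (h0 : ∀ n : ℕ, Γ n = 0) (s : ℂ) :
    Γ s = 0 := by
  ext m
  obtain ⟨q, hq⟩ := h m
  have h1 : q = 0 := by
    apply Polynomial.eq_zero_of_infinite_isRoot
    refine Set.Infinite.mono (s := Set.range (fun n : ℕ => (n : ℂ))) ?_
      (Set.infinite_range_of_injective Nat.cast_injective)
    rintro _ ⟨n, rfl⟩
    show q.eval (n : ℂ) = 0
    rw [← hq, h0, coeff_zero]
  rw [hq, h1]
  simp

/-- The functions `s ↦ Γ(s) f ^ (s - k)` with an additional property `p k Γ` of `Γ`. -/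
def MF (f : MvPolynomial σ ℂ) (p : ℕ → (ℂ → MvPolynomial σ ℂ) → Prop)
    (φ : ℕ → MvPolynomial σ ℂ) : Prop :=
  ∃ (k : ℕ) (Γ : ℂ → MvPolynomial σ ℂ), PF Γ ∧ p k Γ ∧ ∀ s : ℕ, f ^ k * φ s = Γ s * f ^ s

/-- The differential operators with polynomial coefficients which contain only the partial
derivatives with respect to the variables in `V`. -/
noncomputable def weylV (V : Set σ) : Subalgebra ℂ (Module.End ℂ (MvPolynomial σ ℂ)) :=
  Algebra.adjoin ℂ
    (Set.range (fun i => LinearMap.mulLeft ℂ (X i : MvPolynomial σ ℂ)) ∪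
      (fun i => ((pderiv i : Derivation ℂ (MvPolynomial σ ℂ)
        (MvPolynomial σ ℂ)) : MvPolynomial σ ℂ →ₗ[ℂ] MvPolynomial σ ℂ)) '' V)

theorem weylV_univ : weylV (Set.univ : Set σ) = weylS σ := by
  rw [weylV, weylS, Set.image_univ]

/-- A property which is compatible with the action of these operators. -/
structure Good (f : MvPolynomial σ ℂ) (p : ℕ → (ℂ → MvPolynomial σ ℂ) → Prop) (V : Set σ) :
    Prop where
  add : ∀ k Γ Δ, p k Γ → p k Δ → p k fun s => Γ s + Δ s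
  mul : ∀ k (Γ Δ : ℂ → MvPolynomial σ ℂ), p k Γ → p k fun s => Δ s * Γ s
  raise : ∀ k Γ, p k Γ → p (k + 1) fun s => f * Γ s
  deriv : ∀ k Γ, ∀ v ∈ V, PF Γ → p k Γ → p (k + 1) fun s =>
    f * pderiv v (Γ s) + MvPolynomial.C (s - k) * Γ s * pderiv v f

variable {f : MvPolynomial σ ℂ} {p : ℕ → (ℂ → MvPolynomial σ ℂ) → Prop} {V : Set σ}
  (hp : Good f p V)

include hp

theorem MF.raise {φ : ℕ → MvPolynomial σ ℂ} {k : ℕ} {Γ : ℂ → MvPolynomial σ ℂ} (h1 : PF Γ)
    (h2 : p k Γ) (h3 : ∀ s : ℕ, f ^ k * φ s = Γ s * f ^ s) (l : ℕ) :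
    ∃ Γ : ℂ → MvPolynomial σ ℂ, PF Γ ∧ p (k + l) Γ ∧ ∀ s : ℕ, f ^ (k + l) * φ s = Γ s * f ^ s := by
  induction l with
  | zero => exact ⟨Γ, h1, h2, h3⟩
  | succ l ih =>
    obtain ⟨Δ, h4, h5, h6⟩ := ih
    refine ⟨fun s => f * Δ s, (PF.const f).mul h4, hp.raise _ _ h5, fun s => ?_⟩
    rw [← add_assoc, pow_succ, mul_right_comm, h6]
    ring

theorem MF.add {φ ψ : ℕ → MvPolynomial σ ℂ} (h : MF f p φ) (h' : MF f p ψ) :
    MF f p fun s => φ s + ψ s := by
  obtain ⟨k, Γ, h1, h2, h3⟩ := h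
  obtain ⟨l, Δ, h4, h5, h6⟩ := h'
  obtain ⟨Γ', h7, h8, h9⟩ := MF.raise hp h1 h2 h3 l
  obtain ⟨Δ', h10, h11, h12⟩ := MF.raise hp h4 h5 h6 k
  rw [add_comm l k] at h11
  refine ⟨k + l, fun s => Γ' s + Δ' s, h7.add h10, hp.add _ _ _ h8 h11, fun s => ?_⟩
  rw [mul_add, h9, add_comm k l, h12]
  ring

theorem MF.smul {φ : ℕ → MvPolynomial σ ℂ} (h : MF f p φ) (q : Polynomial ℂ)
    (g : MvPolynomial σ ℂ) :
    MF f p fun s => MvPolynomial.C (q.eval (s : ℂ)) * g * φ s := by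
  obtain ⟨k, Γ, h1, h2, h3⟩ := h
  refine ⟨k, fun s => (MvPolynomial.C (q.eval s) * g) * Γ s, ((PF.C q).mul (PF.const g)).mul h1,
    hp.mul _ _ _ h2, fun s => ?_⟩
  rw [mul_left_comm, h3]
  ring

theorem MF.pderiv {φ : ℕ → MvPolynomial σ ℂ} (h : MF f p φ) {v : σ} (hv : v ∈ V) :
    MF f p fun s => pderiv v (φ s) := by
  obtain ⟨k, Γ, h1, h2, h3⟩ := h
  refine ⟨k + 1, fun s => f * MvPolynomial.pderiv v (Γ s) +
    MvPolynomial.C (s - k) * Γ s * MvPolynomial.pderiv v f, ?_, hp.deriv _ _ v hv h1 h2,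
    fun s => ?_⟩
  · have h4 : PF fun s : ℂ => (MvPolynomial.C (s - k) : MvPolynomial σ ℂ) := by
      have := PF.C (σ := σ) (Polynomial.X - Polynomial.C (k : ℂ))
      simpa using this
    exact ((PF.const f).mul (h1.pderiv v)).add ((h4.mul h1).mul (PF.const _))
  · have h4 := congrArg (MvPolynomial.pderiv v) (h3 s)
    rw [Derivation.leibniz, Derivation.leibniz, Derivation.leibniz_pow,
      Derivation.leibniz_pow] at h4
    simp only [smul_eq_mul, nsmul_eq_mul] at h4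
    have h5 : f * ((s : MvPolynomial σ ℂ) * (f ^ (s - 1) * MvPolynomial.pderiv v f)) =
        (s : MvPolynomial σ ℂ) * f ^ s * MvPolynomial.pderiv v f := by
      rcases s with _ | s
      · simp
      · rw [Nat.add_sub_cancel, pow_succ]; ring
    have h6 : f * ((k : MvPolynomial σ ℂ) * (f ^ (k - 1) * MvPolynomial.pderiv v f)) =
        (k : MvPolynomial σ ℂ) * f ^ k * MvPolynomial.pderiv v f := by
      rcases k with _ | k
      · simp
      · rw [Nat.add_sub_cancel, pow_succ]; ring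
    have h7 : (MvPolynomial.C ((s : ℂ) - k) : MvPolynomial σ ℂ) = s - k := by
      rw [map_sub, map_natCast, map_natCast]
    show f ^ (k + 1) * MvPolynomial.pderiv v (φ s) = (f * MvPolynomial.pderiv v (Γ s) +
      MvPolynomial.C ((s : ℂ) - k) * Γ s * MvPolynomial.pderiv v f) * f ^ s
    rw [h7]
    have h8 : f ^ (k + 1) * MvPolynomial.pderiv v (φ s) =
        f * (f ^ k * MvPolynomial.pderiv v (φ s)) := by ring
    rw [h8]
    linear_combination f * h4 + (Γ s) * h5 - (φ s) * h6 - (k : MvPolynomial σ ℂ) *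
      MvPolynomial.pderiv v f * h3 s

theorem MF.weyl {φ : ℕ → MvPolynomial σ ℂ} (h : MF f p φ)
    (Q : Module.End ℂ (MvPolynomial σ ℂ)) (hQ : Q ∈ weylV V) : MF f p fun s => Q (φ s) := by
  induction hQ using Algebra.adjoin_induction generalizing φ with
  | mem Q hQ =>
    rcases hQ with ⟨i, rfl⟩ | ⟨i, hi, rfl⟩
    · have := MF.smul hp h 1 (X i)
      simpa using this
    · exact MF.pderiv hp h hi
  | algebraMap c =>
    have := MF.smul hp h (Polynomial.C c) 1
    simpa [MvPolynomial.smul_eq_C_mul] using this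
  | add Q R _ _ hQ hR => exact MF.add hp (hQ h) (hR h)
  | mul Q R _ _ hQ hR => exact hQ (hR h)

theorem MF.total (h0 : p 0 fun _ => 0) (P : ℕ →₀ Module.End ℂ (MvPolynomial σ ℂ))
    (hP : ∀ m, P m ∈ weylV V) {φ : ℕ → MvPolynomial σ ℂ} (h : MF f p φ) :
    MF f p fun s => P.sum fun m Q => ((s : ℂ) ^ m) • Q (φ s) := by
  classical
  have key : ∀ t : Finset ℕ, MF f p fun s => ∑ m ∈ t, ((s : ℂ) ^ m) • (P m) (φ s) := by
    intro t
    induction t using Finset.induction_on with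
    | empty => exact ⟨0, fun _ => 0, PF.const 0, h0, fun s => by simp⟩
    | insert a t ha ih =>
      simp only [Finset.sum_insert ha]
      refine MF.add hp ?_ ih
      have := MF.smul hp (MF.weyl hp h (P a) (hP a)) (Polynomial.X ^ a) 1
      simpa [MvPolynomial.smul_eq_C_mul] using this
  exact key P.support

end Pool.Agent.L0h21.SN
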