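import Pool.Agent.L0h21.SN.Low
import Pool.Agent.L0h21.SN.FE2

/-! The functional equation at `s₀ = -|w| / d` for a polynomial whose lowest weighted homogeneous
component has degree `d`. -/

set_option autoImplicit false
set_option linter.unusedSectionVars false

namespace Pool.Agent.L0h21.SN

open MvPolynomial Pool.Agent.H628R4.TP

variable {σ : Type} [Fintype σ]

/-- The divergence of `g F ^ s`, divided by `F ^ (s - 1)`. -/
noncomputable def LL (F : MvPolynomial σ ℂ) (s : ℂ) (g : σ → MvPolynomial σ ℂ) :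
    MvPolynomial σ ℂ := F * dvg g + C s * act g F

theorem dvg_sub' (g h : σ → MvPolynomial σ ℂ) : dvg (fun v => g v - h v) = dvg g - dvg h := by
  simp [dvg, Finset.sum_sub_distrib]

theorem act_sub' (g h : σ → MvPolynomial σ ℂ) (F : MvPolynomial σ ℂ) :
    act (fun v => g v - h v) F = act g F - act h F := by
  simp [act, sub_mul, Finset.sum_sub_distrib]

theorem dvg_mul' (q : MvPolynomial σ ℂ) (g : σ → MvPolynomial σ ℂ) :
    dvg (fun v => q * g v) = q * dvg g + act g q := by
  simp only [dvg, act, Derivation.leibniz, smul_eq_mul, Finset.sum_add_distrib, Finset.mul_sum]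

theorem act_mul_left' (q : MvPolynomial σ ℂ) (g : σ → MvPolynomial σ ℂ) (F : MvPolynomial σ ℂ) :
    act (fun v => q * g v) F = q * act g F := by
  simp only [act, Finset.mul_sum]
  exact Finset.sum_congr rfl fun v _ => by ring

/-- Multiplication by `F` changes the exponent. -/
theorem LL_raise (F : MvPolynomial σ ℂ) (s : ℂ) (g : σ → MvPolynomial σ ℂ) :
    LL F (s - 1) (fun v => F * g v) = F * LL F s g := by
  rw [LL, LL, dvg_mul', act_mul_left', map_sub, map_one]
  ring

/-- The vector field `Σ_j ∂_j (H_ij F^s)`, divided by `F ^ (s - 1)`. -/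
noncomputable def YY (F : MvPolynomial σ ℂ) (s : ℂ) (H : σ → σ → MvPolynomial σ ℂ) :
    σ → MvPolynomial σ ℂ :=
  fun i => F * (∑ j, pderiv j (H i j)) + C s * ∑ j, H i j * pderiv j F

theorem LL_YY (F : MvPolynomial σ ℂ) (s : ℂ) (H : σ → σ → MvPolynomial σ ℂ)
    (hH : ∀ i j, H i j = - H j i) : LL F (s - 1) (YY F s H) = 0 := by
  set S := ∑ i, ∑ j, pderiv j (H i j) * pderiv i F with hS
  have h1 : dvg (YY F s H) = (1 - C s) * S := by
    have e1 : ∑ i, ∑ j, F * pderiv i (pderiv j (H i j)) = 0 := by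
      apply anti_sum
      intro i _ j _
      rw [hH i j, map_neg, map_neg, pderiv_comm']
      ring
    have e2 : ∑ i, ∑ j, H i j * pderiv i (pderiv j F) = 0 := by
      apply anti_sum
      intro i _ j _
      rw [hH i j, pderiv_comm']
      ring
    have e3 : ∑ i, ∑ j, pderiv i (H i j) * pderiv j F = - S := by
      rw [Finset.sum_comm, hS]
      simp only [← Finset.sum_neg_distrib]
      refine Finset.sum_congr rfl fun i _ => Finset.sum_congr rfl fun j _ => ?_
      rw [hH j i, map_neg]
      ring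
    have e5 : ∀ i, pderiv i (YY F s H i) = ∑ j, pderiv j (H i j) * pderiv i F +
        ∑ j, F * pderiv i (pderiv j (H i j)) + C s * (∑ j, pderiv i (H i j) * pderiv j F) +
        C s * (∑ j, H i j * pderiv i (pderiv j F)) := by
      intro i
      have e6 : pderiv i (∑ j, H i j * pderiv j F) = ∑ j, pderiv i (H i j) * pderiv j F +
          ∑ j, H i j * pderiv i (pderiv j F) := by
        rw [map_sum, ← Finset.sum_add_distrib]
        refine Finset.sum_congr rfl fun j _ => ?_
        rw [Derivation.leibniz, smul_eq_mul, smul_eq_mul]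
        ring
      rw [YY, map_add, pderiv_C_mul, e6, Derivation.leibniz, smul_eq_mul, smul_eq_mul, map_sum,
        Finset.mul_sum, ← Finset.sum_mul]
      ring
    have e4 : dvg (YY F s H) = ∑ i, ∑ j, pderiv j (H i j) * pderiv i F +
        ∑ i, ∑ j, F * pderiv i (pderiv j (H i j)) +
        C s * (∑ i, ∑ j, pderiv i (H i j) * pderiv j F) +
        C s * (∑ i, ∑ j, H i j * pderiv i (pderiv j F)) := by
      rw [dvg, Finset.sum_congr rfl fun i _ => e5 i, Finset.sum_add_distrib,
        Finset.sum_add_distrib, Finset.sum_add_distrib, ← Finset.mul_sum, ← Finset.mul_sum]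
    rw [e4, e1, e2, e3, ← hS]
    ring
  have h2 : act (YY F s H) F = F * S := by
    have e1 : ∑ i, ∑ j, H i j * pderiv j F * pderiv i F = 0 := by
      apply anti_sum
      intro i _ j _
      rw [hH i j]
      ring
    have e5 : ∀ i, YY F s H i * pderiv i F = F * (∑ j, pderiv j (H i j) * pderiv i F) +
        C s * (∑ j, H i j * pderiv j F * pderiv i F) := by
      intro i
      rw [YY, add_mul, ← Finset.sum_mul, ← Finset.sum_mul]
      ring
    have e4 : act (YY F s H) F = F * (∑ i, ∑ j, pderiv j (H i j) * pderiv i F) +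
        C s * (∑ i, ∑ j, H i j * pderiv j F * pderiv i F) := by
      rw [act, Finset.sum_congr rfl fun i _ => e5 i, Finset.sum_add_distrib, ← Finset.mul_sum,
        ← Finset.mul_sum]
    rw [e4, e1, ← hS]
    ring
  rw [LL, h1, h2, map_sub, map_one]
  ring

variable (w : σ → ℕ)

/-- The Euler vector field times `G`. -/
noncomputable def HH (δ : ℂ) (G : σ → MvPolynomial σ ℂ) (i j : σ) : MvPolynomial σ ℂ :=
  C δ⁻¹ * (eul w j * G i - eul w i * G j)

theorem HH_anti (δ : ℂ) (G : σ → MvPolynomial σ ℂ) (i j : σ) :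
    HH w δ G i j = - HH w δ G j i := by
  rw [HH, HH]; ring

theorem HH_hom (δ : ℂ) (G : σ → MvPolynomial σ ℂ) (n : ℕ)
    (hG : ∀ v, IsWeightedHomogeneous w (G v) (n + w v)) (i j : σ) :
    IsWeightedHomogeneous w (HH w δ G i j) (n + w i + w j) := by
  have he : ∀ v, IsWeightedHomogeneous w (eul w v : MvPolynomial σ ℂ) (w v) := fun v =>
    (isWeightedHomogeneous_X ℂ w v).C_mul _
  refine IsWeightedHomogeneous.C_mul ?_ _
  have h1 := (he j).mul (hG i)
  have h2 := (he i).mul (hG j)
  have e1 : w j + (n + w i) = n + w i + w j := by omega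
  have e2 : w i + (n + w j) = n + w i + w j := by omega
  rw [e1] at h1
  rw [e2] at h2
  exact (weightedHomogeneousSubmodule ℂ w _).sub_mem h1 h2

/-- The homotopy. -/
theorem YY_HH (f : MvPolynomial σ ℂ) (s δ : ℂ) (hδ : δ ≠ 0) (d n : ℕ)
    (hf : IsWeightedHomogeneous w f d) (G : σ → MvPolynomial σ ℂ)
    (hG : ∀ v, IsWeightedHomogeneous w (G v) (n + w v))
    (hL : LL f s G = 0) (hδ' : ((∑ v, w v : ℕ) : ℂ) + n + s * d = δ) (i : σ) :
    YY f s (HH w δ G) i = f * G i := by
  classical
  have e1 : ∑ j, pderiv j (eul w j * G i) =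
      C (((∑ v, w v + (n + w i) : ℕ) : ℂ)) * G i := by
    have := dvg_mul_eul w (hG i)
    rw [← this, dvg]
    exact Finset.sum_congr rfl fun v _ => by rw [mul_comm]
  have e2 : ∑ j, pderiv j (eul w i * G j) = eul w i * dvg G + C (w i : ℂ) * G i := by
    have h1 : ∀ j, pderiv j (eul w i * G j) =
        eul w i * pderiv j (G j) + if i = j then C (w i : ℂ) * G i else 0 := by
      intro j
      rw [Derivation.leibniz, smul_eq_mul, smul_eq_mul]
      congr 1
      simp only [eul, Derivation.leibniz, pderiv_C, smul_eq_mul, mul_zero, add_zero, pderiv_X]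
      by_cases h : i = j
      · subst h; simp [mul_comm]
      · simp [Pi.single_apply, h, Ne.symm h]
    simp only [h1, Finset.sum_add_distrib, ← Finset.mul_sum, dvg]
    simp
  have e3 : ∑ j, HH w δ G i j * pderiv j f = C δ⁻¹ * (C (d : ℂ) * f * G i - eul w i * act G f) := by
    have h1 := act_eul w hf
    rw [act] at h1
    rw [← h1, act, Finset.mul_sum, Finset.sum_mul, ← Finset.sum_sub_distrib, Finset.mul_sum]
    refine Finset.sum_congr rfl fun j _ => ?_
    rw [HH]; ring
  have e4 : ∑ j, pderiv j (HH w δ G i j) = C δ⁻¹ * (∑ j, pderiv j (eul w j * G i) -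
      ∑ j, pderiv j (eul w i * G j)) := by
    rw [← Finset.sum_sub_distrib, Finset.mul_sum]
    refine Finset.sum_congr rfl fun j _ => ?_
    rw [HH, pderiv_C_mul, map_sub]
  have e5 : (C δ⁻¹ * C δ : MvPolynomial σ ℂ) = 1 := by
    rw [← map_mul, inv_mul_cancel₀ hδ, map_one]
  have e6 : (C δ : MvPolynomial σ ℂ) = C ((∑ v, w v : ℕ) : ℂ) + C (n : ℂ) + C s * C (d : ℂ) := by
    rw [← hδ', map_add, map_add, map_mul]
  rw [YY, e3, e4, e1, e2]
  rw [LL] at hL
  have e7 : (C (((∑ v, w v + (n + w i) : ℕ) : ℂ)) : MvPolynomial σ ℂ) =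
      C ((∑ v, w v : ℕ) : ℂ) + C (n : ℂ) + C (w i : ℂ) := by
    rw [← map_add, ← map_add]
    congr 1
    push_cast
    ring
  rw [e7]
  rw [e6] at e5
  linear_combination (f * G i) * e5 - C δ⁻¹ * eul w i * hL

/-- One step of the induction. -/
theorem fe_step (F f : MvPolynomial σ ℂ) (d : ℕ) (hFf : LowC w d F f) (β s₀ : ℂ)
    (hs₀ : s₀ * d = -((∑ v, w v : ℕ) : ℂ)) (K D : ℕ) (hD : D + 1 ≤ d * K)
    (Δ₀ : MvPolynomial σ ℂ) (Δ : σ → MvPolynomial σ ℂ) (h0 : OrdGE w (d * (K + 1)) Δ₀)
    (hw : ∀ v, w v = 0 → Δ v = 0) (hΔ : ∀ v, OrdGE w (d * K - (D + 1) + w v) (Δ v))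
    (hE : C β * F ^ (K + 1) = F * Δ₀ + LL F (s₀ - K) Δ) :
    ∃ (Δ₀' : MvPolynomial σ ℂ) (Δ' : σ → MvPolynomial σ ℂ), OrdGE w (d * (K + 2)) Δ₀' ∧
      (∀ v, w v = 0 → Δ' v = 0) ∧ (∀ v, OrdGE w (d * (K + 1) - D + w v) (Δ' v)) ∧
      C β * F ^ (K + 2) = F * Δ₀' + LL F (s₀ - (K + 1 : ℕ)) Δ' := by
  classical
  obtain ⟨n, hn⟩ : ∃ n, d * K = n + D + 1 := ⟨d * K - (D + 1), by omega⟩
  have hn1 : d * K - (D + 1) = n := by omega
  have hn2 : d * (K + 1) = n + D + 1 + d := by rw [mul_add, hn, mul_one]
  have hn3 : d * (K + 1) - D = n + 1 + d := by omega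
  rw [hn1] at hΔ
  rw [hn3]
  set G : σ → MvPolynomial σ ℂ := fun v => weightedHomogeneousComponent w (n + w v) (Δ v) with hG
  have hGhom : ∀ v, IsWeightedHomogeneous w (G v) (n + w v) := fun v =>
    weightedHomogeneousComponent_isWeightedHomogeneous _ _
  have hGw : ∀ v, w v = 0 → G v = 0 := fun v hv => by rw [hG]; simp only; rw [hw v hv, map_zero]
  have hFhom := hFf.hom
  -- the orders of the derivatives
  have hactF : ∀ v, OrdGE w (n + d) (Δ v * pderiv v F) ∧
      weightedHomogeneousComponent w (n + d) (Δ v * pderiv v F) = G v * pderiv v f := by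
    intro v
    by_cases hv : w v ≤ d
    · have h1 : OrdGE w (d - w v) (pderiv v F) := OrdGE.pderiv v (by
        rw [Nat.sub_add_cancel hv]; exact hFf.1)
      have h2 := (hΔ v).mul h1
      have h3 := low_mul (hΔ v) h1
      have e : n + w v + (d - w v) = n + d := by omega
      rw [e] at h2 h3
      refine ⟨h2, ?_⟩
      rw [h3, whc_pderiv, Nat.sub_add_cancel hv, hFf.2]
    · have h1 : OrdGE w (n + w v) (Δ v * pderiv v F) := by
        have := (hΔ v).mul (OrdGE.of_zero (w := w) (pderiv v F))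
        rwa [add_zero] at this
      refine ⟨h1.mono (by omega), ?_⟩
      rw [h1 _ (by omega), pderiv_zero_of_lt w hFhom v (by omega), mul_zero]
  have hdvgΔ : OrdGE w n (dvg Δ) ∧ weightedHomogeneousComponent w n (dvg Δ) = dvg G :=
    ⟨OrdGE.sum _ fun v _ => OrdGE.pderiv v (hΔ v), (dvg_whc w n Δ).symm⟩
  -- the lowest component of the equation
  have hlow : LL f (s₀ - K) G = 0 := by
    have h1 := congrArg (weightedHomogeneousComponent w (n + d)) hE
    have h2 : weightedHomogeneousComponent w (n + d) (C β * F ^ (K + 1)) = 0 := by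
      have h3 : OrdGE w ((K + 1) * d) (C β * F ^ (K + 1)) :=
        (hFf.pow (K + 1)).1.C_mul _
      refine h3 _ ?_
      have : (K + 1) * d = d * (K + 1) := by ring
      omega
    have h3 : weightedHomogeneousComponent w (n + d) (F * Δ₀) = 0 := by
      refine (hFf.1.mul h0) _ ?_
      omega
    have h4 : weightedHomogeneousComponent w (n + d) (F * dvg Δ) = f * dvg G := by
      rw [add_comm n d, low_mul hFf.1 hdvgΔ.1, hFf.2, hdvgΔ.2]
    have h5 : weightedHomogeneousComponent w (n + d) (act Δ F) = act G f := by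
      rw [act, map_sum, act]
      exact Finset.sum_congr rfl fun v _ => (hactF v).2
    rw [h2, map_add, h3, zero_add, LL, map_add, h4, weightedHomogeneousComponent_C_mul, h5] at h1
    rw [LL]
    exact h1.symm
  have hδ : -((D : ℂ) + 1) ≠ 0 := by
    rw [neg_ne_zero]
    exact_mod_cast Nat.succ_ne_zero D
  set δ : ℂ := -((D : ℂ) + 1) with hδdef
  have hδ' : ((∑ v, w v : ℕ) : ℂ) + n + (s₀ - K) * d = δ := by
    have h1 : (d : ℂ) * K = n + D + 1 := by exact_mod_cast hn
    rw [hδdef, sub_mul, hs₀]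
    linear_combination -h1
  set H := HH w δ G with hH
  have hHhom := HH_hom w δ G n hGhom
  have hY := YY_HH w f (s₀ - K) δ hδ d n hFhom G hGhom hlow hδ'
  -- the lowest component of `Y`
  have hYord : ∀ i, OrdGE w (n + d + w i) (YY F (s₀ - K) H i) ∧
      weightedHomogeneousComponent w (n + d + w i) (YY F (s₀ - K) H i) = f * G i := by
    intro i
    have h1 : OrdGE w (n + w i) (∑ j, pderiv j (H i j)) :=
      OrdGE.sum _ fun j _ => OrdGE.pderiv j (OrdGE.of_hom (hHhom i j))
    have h1' : weightedHomogeneousComponent w (n + w i) (∑ j, pderiv j (H i j)) =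
        ∑ j, pderiv j (H i j) := by
      rw [map_sum]
      refine Finset.sum_congr rfl fun j _ => ?_
      rw [whc_pderiv, (hHhom i j).weightedHomogeneousComponent_same]
    have h2 : ∀ j, OrdGE w (n + d + w i) (H i j * pderiv j F) ∧
        weightedHomogeneousComponent w (n + d + w i) (H i j * pderiv j F) =
          H i j * pderiv j f := by
      intro j
      have hHo := OrdGE.of_hom (hHhom i j)
      by_cases hj : w j ≤ d
      · have h3 : OrdGE w (d - w j) (pderiv j F) := OrdGE.pderiv j (by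
          rw [Nat.sub_add_cancel hj]; exact hFf.1)
        have h4 := hHo.mul h3
        have h5 := low_mul hHo h3
        have e : n + w i + w j + (d - w j) = n + d + w i := by omega
        rw [e] at h4 h5
        refine ⟨h4, ?_⟩
        rw [h5, whc_pderiv, Nat.sub_add_cancel hj, hFf.2,
          (hHhom i j).weightedHomogeneousComponent_same]
      · have h3 : OrdGE w (n + w i + w j) (H i j * pderiv j F) := by
          have := hHo.mul (OrdGE.of_zero (w := w) (pderiv j F))
          rwa [add_zero] at this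
        refine ⟨h3.mono (by omega), ?_⟩
        rw [h3 _ (by omega), pderiv_zero_of_lt w hFhom j (by omega), mul_zero]
    have e1 : d + (n + w i) = n + d + w i := by omega
    refine ⟨?_, ?_⟩
    · refine OrdGE.add ?_ ((OrdGE.sum _ fun j _ => (h2 j).1).C_mul _)
      have := hFf.1.mul h1
      rwa [e1] at this
    · rw [← hY i, YY, YY, map_add, weightedHomogeneousComponent_C_mul, map_sum]
      have h3 := low_mul hFf.1 h1
      rw [e1, h1', hFf.2] at h3
      rw [h3]
      congr 2
      exact Finset.sum_congr rfl fun j _ => (h2 j).2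
  refine ⟨F * Δ₀, fun v => F * Δ v - YY F (s₀ - K) H v, ?_, ?_, ?_, ?_⟩
  · have := hFf.1.mul h0
    have e : d + d * (K + 1) = d * (K + 2) := by ring
    rwa [e] at this
  · intro v hv
    have h1 : ∀ j, H v j = 0 := by
      intro j
      rw [hH, HH, hGw v hv]
      simp [eul, hv]
    simp only [YY, h1, hw v hv]
    simp
  · intro v e he
    have h1 : e < n + d + w v ∨ e = n + d + w v := by omega
    have h2 : OrdGE w (n + d + w v) (F * Δ v) ∧
        weightedHomogeneousComponent w (n + d + w v) (F * Δ v) = f * G v := by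
      have h3 := hFf.1.mul (hΔ v)
      have h4 := low_mul hFf.1 (hΔ v)
      have e1 : d + (n + w v) = n + d + w v := by omega
      rw [e1] at h3 h4
      exact ⟨h3, by rw [h4, hFf.2]⟩
    rcases h1 with h1 | rfl
    · rw [map_sub, h2.1 e h1, (hYord v).1 e h1, sub_zero]
    · rw [map_sub, h2.2, (hYord v).2, sub_self]
  · have h1 : LL F (s₀ - (K + 1 : ℕ)) (fun v => F * Δ v - YY F (s₀ - K) H v) =
        F * LL F (s₀ - K) Δ := by
      have e : s₀ - (K + 1 : ℕ) = (s₀ - K) - 1 := by push_cast; ring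
      rw [e, ← LL_raise, ← sub_zero (LL F (s₀ - K - 1) fun v => F * Δ v),
        ← LL_YY F (s₀ - K) H (HH_anti w δ G)]
      simp only [LL]
      rw [dvg_sub', act_sub']
      ring
    rw [h1, pow_succ]
    linear_combination F * hE

end Pool.Agent.L0h21.SN
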