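import Pool.Agent.L0h21.SN.FE3

/-! The functional equation at `s₀`, for a polynomial which need not be homogeneous. -/

set_option autoImplicit false
set_option linter.unusedSectionVars false

namespace Pool.Agent.L0h21.SN

open MvPolynomial Pool.Agent.H628R4.TP

variable {σ : Type} [Fintype σ] (w : σ → ℕ)

/-- The functional equation at `s₀`: only the divergence part of the operator matters. -/
theorem fe_raw (f : MvPolynomial σ ℂ) (d : ℕ)
    (hf : OrdGE w d f) (hf0 : f ≠ 0) (b : Polynomial ℂ) (hb : IsBFunction f b)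
    (s₀ : ℂ) :
    ∃ (K : ℕ) (Δ₀ : MvPolynomial σ ℂ) (Δ : σ → MvPolynomial σ ℂ),
      OrdGE w (d * (K + 1)) Δ₀ ∧ (∀ v, w v = 0 → Δ v = 0) ∧
      C (b.eval s₀) * f ^ (K + 1) = f * Δ₀ + LL f (s₀ - K) Δ := by
  classical
  set V : Set σ := {v | w v = 0} with hV
  obtain ⟨P, hP⟩ := hb
  have hdec := fun m => decomp V (P m : Module.End ℂ (MvPolynomial σ ℂ)) (P m).2 1
    (Subalgebra.one_mem _)
  choose R hR q hq hq0 hRq using hdec
  -- the part without derivatives with respect to the variables of positive weight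
  let p : ℕ → (ℂ → MvPolynomial σ ℂ) → Prop := fun k Γ =>
    ∀ s, OrdGE w (d * (k + 1)) (Γ s)
  have hp : Good f p V := by
    refine ⟨fun k Γ Δ h1 h2 s => (h1 s).add (h2 s), ?_, ?_, ?_⟩
    · intro k Γ Δ h1 s
      have := (OrdGE.of_zero (w := w) (Δ s)).mul (h1 s)
      rwa [zero_add] at this
    · intro k Γ h1 s
      have := hf.mul (h1 s)
      have e : d + d * (k + 1) = d * (k + 1 + 1) := by ring
      rwa [e] at this
    · intro k Γ v hv _ h1 s
      have hwv : w v = 0 := hv
      show OrdGE w (d * (k + 1 + 1)) (f * pderiv v (Γ s) + C (s - k) * Γ s * pderiv v f)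
      have h2 : OrdGE w d (pderiv v f) := OrdGE.pderiv v (by rw [hwv, add_zero]; exact hf)
      have h3 : OrdGE w (d * (k + 1)) (pderiv v (Γ s)) :=
        OrdGE.pderiv v (by rw [hwv, add_zero]; exact h1 s)
      have h4 : OrdGE w (d * (k + 1)) (C (s - k) * Γ s) := (h1 s).C_mul _
      have e : d + d * (k + 1) = d * (k + 1 + 1) := by ring
      have e' : d * (k + 1) + d = d * (k + 1 + 1) := by ring
      have h5 := hf.mul h3
      have h6 := h4.mul h2
      rw [e] at h5
      rw [e'] at h6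
      exact h5.add h6
  have h1 : MF f p fun s => f ^ (s + 1) := by
    refine ⟨0, fun _ => f, PF.const f, ?_, fun s => by ring⟩
    intro s
    rw [zero_add, mul_one]
    exact hf
  let pR : ℕ →₀ Module.End ℂ (MvPolynomial σ ℂ) :=
    Finsupp.onFinset P.support (fun m => if m ∈ P.support then R m else 0) (by
      intro m hm
      by_contra h
      simp [h] at hm)
  have h2 := MF.total hp (by intro s; exact OrdGE.zero _) pR (fun m => by
    show (if m ∈ P.support then R m else 0) ∈ _
    split_ifs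
    · exact hR m
    · exact Subalgebra.zero_mem _) h1
  -- the other parts
  have hp' : Good f (fun _ _ => True) (Set.univ : Set σ) :=
    ⟨fun _ _ _ _ _ => trivial, fun _ _ _ _ => trivial, fun _ _ _ => trivial,
      fun _ _ _ _ _ _ => trivial⟩
  have h1' : MF f (fun _ _ => True) fun s => f ^ (s + 1) :=
    ⟨0, fun _ => f, PF.const f, trivial, fun s => by ring⟩
  let pq : σ → ℕ →₀ Module.End ℂ (MvPolynomial σ ℂ) := fun v =>
    Finsupp.onFinset P.support (fun m => if m ∈ P.support then q m v else 0) (by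
      intro m hm
      by_contra h
      simp [h] at hm)
  have h3 := fun v => MF.total hp' trivial (pq v) (fun m => by
    show (if m ∈ P.support then q m v else 0) ∈ _
    rw [weylV_univ]
    split_ifs
    · exact hq m v
    · exact Subalgebra.zero_mem _) h1'
  obtain ⟨k₀, Γ₀, hΓ₀, hpΓ₀, hΓ₀'⟩ := h2
  choose k Γ hΓ _ hΓ' using h3
  set K := k₀ + ∑ v, k v with hK
  obtain ⟨Δ₀, hΔ₀, hpΔ₀, hΔ₀'⟩ := MF.raise hp hΓ₀ hpΓ₀ hΓ₀' (∑ v, k v)
  have h4 : ∀ v, ∃ Δ : ℂ → MvPolynomial σ ℂ, PF Δ ∧ ∀ s : ℕ,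
      f ^ K * ((pq v).sum fun m Q => ((s : ℂ) ^ m) • Q (f ^ (s + 1))) = Δ s * f ^ s := by
    intro v
    have hle : k v ≤ ∑ v, k v := Finset.single_le_sum (fun _ _ => Nat.zero_le _)
      (Finset.mem_univ v)
    obtain ⟨Δ, h5, -, h6⟩ := MF.raise hp' (hΓ v) trivial (hΓ' v) (K - k v)
    have h7 : k v + (K - k v) = K := by omega
    rw [h7] at h6
    exact ⟨Δ, h5, h6⟩
  choose Δ hΔ hΔ' using h4
  have hdecomp : ∀ s : ℕ, C (b.eval (s : ℂ)) * f ^ s =
      (pR.sum fun m Q => ((s : ℂ) ^ m) • Q (f ^ (s + 1))) +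
        ∑ v, pderiv v ((pq v).sum fun m Q => ((s : ℂ) ^ m) • Q (f ^ (s + 1))) := by
    intro s
    rw [hP s, Finsupp.sum, Finsupp.onFinset_sum _ (by simp)]
    have h5 : ∀ v, ((pq v).sum fun m Q => ((s : ℂ) ^ m) • Q (f ^ (s + 1))) =
        ∑ m ∈ P.support, ((s : ℂ) ^ m) • (q m v) (f ^ (s + 1)) := by
      intro v
      rw [Finsupp.onFinset_sum _ (by simp)]
      exact Finset.sum_congr rfl fun m hm => by rw [if_pos hm]
    simp only [h5]
    have h6 : ∀ v, pderiv v (∑ m ∈ P.support, ((s : ℂ) ^ m) • (q m v) (f ^ (s + 1))) =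
        ∑ m ∈ P.support, ((s : ℂ) ^ m) • pderiv v ((q m v) (f ^ (s + 1))) := by
      intro v
      rw [map_sum]
      exact Finset.sum_congr rfl fun m _ => by rw [Derivation.map_smul]
    simp only [h6]
    rw [Finset.sum_comm, ← Finset.sum_add_distrib]
    refine Finset.sum_congr rfl fun m hm => ?_
    rw [if_pos hm, ← Finset.smul_sum, ← smul_add]
    congr 1
    have h7 := hRq m
    rw [one_mul] at h7
    rw [h7]
    simp [pd, LinearMap.sum_apply]
  have hfin : ∀ s : ℂ, C (b.eval s) * f ^ (K + 1) - (f * Δ₀ s + ∑ v, (f * pderiv v (Δ v s) +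
      C (s - K) * Δ v s * pderiv v f)) = 0 := by
    have h8 : PF fun s : ℂ => C (b.eval s) * f ^ (K + 1) - (f * Δ₀ s +
        ∑ v, (f * pderiv v (Δ v s) + C (s - K) * Δ v s * pderiv v f)) := by
      have h9 : PF fun s : ℂ => (C (s - K) : MvPolynomial σ ℂ) := by
        have := PF.C (σ := σ) (Polynomial.X - Polynomial.C (K : ℂ))
        simpa using this
      have h10 := PF.sum Finset.univ (fun v s => f * pderiv v (Δ v s) +
        C (s - K) * Δ v s * pderiv v f) fun v _ =>
          ((PF.const f).mul ((hΔ v).pderiv v)).add ((h9.mul (hΔ v)).mul (PF.const (pderiv v f)))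
      have h11 := ((PF.C b).mul (PF.const (f ^ (K + 1)))).add ((PF.const (-1)).mul
        (((PF.const f).mul hΔ₀).add h10))
      simpa [sub_eq_add_neg] using h11
    refine h8.eq_zero fun s => ?_
    refine (mul_eq_zero.mp ?_).resolve_right (pow_ne_zero s hf0)
    have h12 := hdecomp s
    have h13 := hΔ₀' s
    rw [← hK] at h13
    have h14 : ∀ v, f ^ (K + 1) * pderiv v
        ((pq v).sum fun m Q => ((s : ℂ) ^ m) • Q (f ^ (s + 1))) =
        (f * pderiv v (Δ v s) + C ((s : ℂ) - K) * Δ v s * pderiv v f) * f ^ s := by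
      intro v
      have h15 := congrArg (pderiv v) (hΔ' v s)
      rw [Derivation.leibniz, Derivation.leibniz, Derivation.leibniz_pow,
        Derivation.leibniz_pow] at h15
      simp only [smul_eq_mul, nsmul_eq_mul] at h15
      have h5 : f * ((s : MvPolynomial σ ℂ) * (f ^ (s - 1) * pderiv v f)) =
          (s : MvPolynomial σ ℂ) * f ^ s * pderiv v f := by
        rcases s with _ | s
        · simp
        · rw [Nat.add_sub_cancel, pow_succ]; ring
      have h6 : f * ((K : MvPolynomial σ ℂ) * (f ^ (K - 1) * pderiv v f)) =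
          (K : MvPolynomial σ ℂ) * f ^ K * pderiv v f := by
        rcases K with _ | K
        · simp
        · rw [Nat.add_sub_cancel, pow_succ]; ring
      have h7 : (C ((s : ℂ) - K) : MvPolynomial σ ℂ) = s - K := by
        rw [map_sub, map_natCast, map_natCast]
      rw [h7]
      linear_combination f * h15 + (Δ v s) * h5 -
        ((pq v).sum fun m Q => ((s : ℂ) ^ m) • Q (f ^ (s + 1))) * h6 -
        (K : MvPolynomial σ ℂ) * pderiv v f * hΔ' v s
    have h16 := congrArg (fun z => f ^ (K + 1) * z) h12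
    simp only [mul_add, Finset.mul_sum, h14] at h16
    have h17 : f ^ (K + 1) * (pR.sum fun m Q => ((s : ℂ) ^ m) • Q (f ^ (s + 1))) =
        f * Δ₀ s * f ^ s := by
      rw [pow_succ, mul_comm (f ^ K) f, mul_assoc, h13]
      ring
    rw [h17, ← Finset.sum_mul] at h16
    rw [sub_mul, add_mul, ← h16]
    ring
  refine ⟨K, Δ₀ s₀, fun v => Δ v s₀, hpΔ₀ s₀, fun v hv => ?_, ?_⟩
  · refine (hΔ v).eq_zero (fun s => ?_) s₀
    have h21 := hΔ' v s
    have h22 : (pq v).sum (fun m Q => ((s : ℂ) ^ m) • Q (f ^ (s + 1))) = 0 := by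
      rw [Finsupp.onFinset_sum _ (by simp)]
      refine Finset.sum_eq_zero fun m _ => ?_
      rw [hq0 m v hv]
      simp
    rw [h22, mul_zero] at h21
    exact (mul_eq_zero.mp h21.symm).resolve_right (pow_ne_zero s hf0)
  · have h18 := hfin s₀
    rw [sub_eq_zero] at h18
    rw [h18]
    congr 1
    simp only [LL, dvg, act, Finset.sum_add_distrib, Finset.mul_sum]
    congr 1
    exact Finset.sum_congr rfl fun v _ => by ring

theorem LL_pow (F : MvPolynomial σ ℂ) (s : ℂ) (g : σ → MvPolynomial σ ℂ) (l : ℕ) :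
    LL F (s - l) (fun v => F ^ l * g v) = F ^ l * LL F s g := by
  induction l with
  | zero => simp
  | succ l ih =>
    have h1 := LL_raise F (s - l) (fun v => F ^ l * g v)
    rw [ih] at h1
    have e : s - (l + 1 : ℕ) = s - l - 1 := by push_cast; ring
    rw [e, pow_succ', mul_assoc, ← h1]
    congr 1
    funext v
    ring

/-- The functional equation at `s₀ = -|w| / d` gives an equation for the lowest component. -/
theorem fe_low (F f : MvPolynomial σ ℂ) (d : ℕ) (hd : 0 < d) (hFf : LowC w d F f) (hF0 : F ≠ 0)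
    (b : Polynomial ℂ) (hb : IsBFunction F b) (s₀ : ℂ)
    (hs₀ : s₀ * d = -((∑ v, w v : ℕ) : ℂ)) :
    ∃ (k : ℕ) (g : σ → MvPolynomial σ ℂ), (∀ v, w v = 0 → g v = 0) ∧
      C (b.eval s₀) * f ^ (k + 1) = f * dvg g + C (s₀ - k) * act g f := by
  classical
  set β := b.eval s₀ with hβ
  obtain ⟨K₀, Δ₀, Δ, h0, hw, hE⟩ := fe_raw w F d hFf.1 hF0 b hb s₀
  rw [← hβ] at hE
  -- the induction
  have key : ∀ (D K : ℕ) (Δ₀ : MvPolynomial σ ℂ) (Δ : σ → MvPolynomial σ ℂ), D ≤ d * K →
      OrdGE w (d * (K + 1)) Δ₀ → (∀ v, w v = 0 → Δ v = 0) →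
      (∀ v, OrdGE w (d * K - D + w v) (Δ v)) →
      C β * F ^ (K + 1) = F * Δ₀ + LL F (s₀ - K) Δ →
      ∃ (K : ℕ) (Δ₀ : MvPolynomial σ ℂ) (Δ : σ → MvPolynomial σ ℂ),
        OrdGE w (d * (K + 1)) Δ₀ ∧ (∀ v, w v = 0 → Δ v = 0) ∧
        (∀ v, OrdGE w (d * K + w v) (Δ v)) ∧
        C β * F ^ (K + 1) = F * Δ₀ + LL F (s₀ - K) Δ := by
    intro D
    induction D with
    | zero =>
      intro K Δ₀ Δ _ h1 h2 h3 h4
      exact ⟨K, Δ₀, Δ, h1, h2, fun v => by simpa using h3 v, h4⟩
    | succ D ih =>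
      intro K Δ₀ Δ hD h1 h2 h3 h4
      obtain ⟨Δ₀', Δ', h5, h6, h7, h8⟩ := fe_step w F f d hFf β s₀ hs₀ K D hD Δ₀ Δ h1 h2 h3 h4
      refine ih (K + 1) Δ₀' Δ' ?_ h5 h6 h7 h8
      rw [mul_add, mul_one]
      omega
  -- the start of the induction
  obtain ⟨M, hM⟩ : ∃ M, ∀ v, w v ≤ M := ⟨∑ v, w v, fun v =>
    Finset.single_le_sum (fun _ _ => Nat.zero_le _) (Finset.mem_univ v)⟩
  set D₀ := d * K₀ + M with hD₀
  set l := D₀ with hl
  have hdl : l ≤ d * l := Nat.le_mul_of_pos_left l hd
  have hE' : C β * F ^ (K₀ + l + 1) = F * (F ^ l * Δ₀) +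
      LL F (s₀ - (K₀ + l : ℕ)) (fun v => F ^ l * Δ v) := by
    have e : s₀ - (K₀ + l : ℕ) = s₀ - K₀ - l := by push_cast; ring
    rw [e, LL_pow]
    have : F ^ (K₀ + l + 1) = F ^ l * F ^ (K₀ + 1) := by ring
    rw [this]
    linear_combination F ^ l * hE
  have hFl : OrdGE w (d * l) (F ^ l) := by
    have := (hFf.pow l).1
    rwa [mul_comm] at this
  obtain ⟨K, Δ₀, Δ, h1, h2, h3, h4⟩ := key D₀ (K₀ + l) (F ^ l * Δ₀) (fun v => F ^ l * Δ v)
    (by rw [mul_add]; omega)
    (by
      have := hFl.mul h0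
      have e : d * l + d * (K₀ + 1) = d * (K₀ + l + 1) := by ring
      rwa [e] at this)
    (fun v hv => by rw [hw v hv, mul_zero])
    (fun v => by
      have h5 : OrdGE w (d * l) (F ^ l * Δ v) := by
        have := hFl.mul (OrdGE.of_zero (w := w) (Δ v))
        rwa [add_zero] at this
      refine h5.mono ?_
      have := hM v
      rw [mul_add]
      omega)
    hE'
  -- the component of degree `d (K + 1)`
  have hFhom := hFf.hom
  refine ⟨K, fun v => weightedHomogeneousComponent w (d * K + w v) (Δ v),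
    fun v hv => by
      show weightedHomogeneousComponent w _ (Δ v) = 0
      rw [h2 v hv, map_zero], ?_⟩
  have h5 := congrArg (weightedHomogeneousComponent w (d * K + d)) h4
  have h6 : weightedHomogeneousComponent w (d * K + d) (C β * F ^ (K + 1)) =
      C β * f ^ (K + 1) := by
    have := (hFf.pow (K + 1)).2
    have e : (K + 1) * d = d * K + d := by ring
    rw [e] at this
    rw [weightedHomogeneousComponent_C_mul, this]
  have h7 : weightedHomogeneousComponent w (d * K + d) (F * Δ₀) = 0 := by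
    refine (hFf.1.mul h1) _ ?_
    rw [mul_add]
    omega
  have h8 : OrdGE w (d * K) (dvg Δ) := OrdGE.sum _ fun v _ => OrdGE.pderiv v (h3 v)
  have h9 : weightedHomogeneousComponent w (d * K + d) (F * dvg Δ) =
      f * dvg (fun v => weightedHomogeneousComponent w (d * K + w v) (Δ v)) := by
    rw [dvg_whc, add_comm (d * K) d, low_mul hFf.1 h8, hFf.2]
  have h10 : weightedHomogeneousComponent w (d * K + d) (act Δ F) =
      act (fun v => weightedHomogeneousComponent w (d * K + w v) (Δ v)) f := by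
    rw [act, map_sum, act]
    refine Finset.sum_congr rfl fun v _ => ?_
    by_cases hv : w v ≤ d
    · have h11 : OrdGE w (d - w v) (pderiv v F) := OrdGE.pderiv v (by
        rw [Nat.sub_add_cancel hv]; exact hFf.1)
      have h12 := low_mul (h3 v) h11
      have e : d * K + w v + (d - w v) = d * K + d := by omega
      rw [e, whc_pderiv, Nat.sub_add_cancel hv, hFf.2] at h12
      exact h12
    · have h11 : OrdGE w (d * K + w v) (Δ v * pderiv v F) := by
        have := (h3 v).mul (OrdGE.of_zero (w := w) (pderiv v F))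
        rwa [add_zero] at this
      rw [h11 _ (by omega), pderiv_zero_of_lt w hFhom v (by omega), mul_zero]
  rw [h6, map_add, h7, zero_add, LL, map_add, h9, weightedHomogeneousComponent_C_mul, h10] at h5
  exact h5

end Pool.Agent.L0h21.SN
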