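import Pool.Agent.L0h21.SN.Core
import Pool.Agent.L0h21.SN.Base

/-! Weighted homogeneous polynomials whose zero loci cross each other normally outside of the
origin. -/

set_option autoImplicit false
set_option linter.unusedSectionVars false

namespace Pool.Agent.L0h21.SN

open MvPolynomial

variable {σ J K : Type} [Fintype σ] [DecidableEq σ] [Field K] [CharZero K]

/-- Normal crossings (with smooth components) at the point `x`. -/
def SNCAt {σ J K : Type} [Field K] (f : J → MvPolynomial σ K) (x : σ → K) : Prop :=
  LinearIndependent K (fun (j : {j // eval x (f j) = 0}) (v : σ) => eval x (pderiv v (f j)))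

theorem exists_dual {T : Type} [Fintype T] [DecidableEq T] (a : T → σ → K)
    (h : LinearIndependent K a) :
    ∃ c : T → σ → K, ∀ s t, ∑ v, c s v * a t v = if s = t then 1 else 0 := by
  obtain ⟨g, hg⟩ := LinearMap.exists_leftInverse_of_injective (Fintype.linearCombination K a)
    (LinearMap.ker_eq_bot.mpr h.fintypeLinearCombination_injective)
  refine ⟨fun s v => g (Pi.single v 1) s, fun s t => ?_⟩
  have h1 : g (a t) = Pi.single t 1 := by
    have := LinearMap.congr_fun hg (Pi.single t 1)
    simpa [Fintype.linearCombination_apply] using this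
  have h2 : a t = ∑ v, a t v • (Pi.single v 1 : σ → K) := by
    ext u
    simp [Finset.sum_apply, Pi.single_apply]
  have h3 : g (a t) s = ∑ v, a t v * g (Pi.single v 1) s := by
    conv_lhs => rw [h2]
    simp [map_sum, Finset.sum_apply]
  rw [h1] at h3
  rw [Finset.sum_congr rfl fun v _ => mul_comm _ _, ← h3]
  simp [Pi.single_apply]

theorem eval_act (x : σ → K) (g : σ → MvPolynomial σ K) (q : MvPolynomial σ K) :
    eval x (act g q) = ∑ v, eval x (g v) * eval x (pderiv v q) := by
  simp [act, map_sum]

/-- A vector field tangent to the components through `x` and transversal to one of them. -/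
theorem exists_field [Fintype J] [DecidableEq J] (f : J → MvPolynomial σ K) (x : σ → K)
    (hx : SNCAt f x) (I : Finset J) (j : J) (hj : j ∉ I) (hjx : eval x (f j) = 0) :
    ∃ g : σ → MvPolynomial σ K, (∀ i ∈ I, f i ∣ act g (f i)) ∧ eval x (act g (f j)) ≠ 0 := by
  classical
  let T := {i // i ∈ insert j I ∧ eval x (f i) = 0}
  let t0 : T := ⟨j, Finset.mem_insert_self _ _, hjx⟩
  let a : T → σ → K := fun t v => eval x (pderiv v (f t.1))
  have ha : LinearIndependent K a := by
    have := LinearIndependent.comp hx (fun t : T => (⟨t.1, t.2.2⟩ : {j // eval x (f j) = 0}))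
      (fun s t h => Subtype.ext (by simpa using congrArg Subtype.val h))
    exact this
  obtain ⟨c, hc⟩ := exists_dual a ha
  let M : Matrix T T (MvPolynomial σ K) :=
    Matrix.of fun s t => ∑ v, C (c s v) * pderiv v (f t.1)
  have hMa : ∀ s t, M s t = ∑ v, C (c s v) * pderiv v (f t.1) := fun s t => rfl
  have hM : (RingHom.mapMatrix (eval x)) M = 1 := by
    ext s t
    rw [RingHom.mapMatrix_apply, Matrix.map_apply, hMa, Matrix.one_apply, ← hc s t]
    simp [a]
  have hdet : eval x M.det = 1 := by
    rw [RingHom.map_det, hM, Matrix.det_one]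
  let g0 : σ → MvPolynomial σ K := fun v => ∑ s, M.adjugate t0 s * C (c s v)
  have hg0 : ∀ t : T, act g0 (f t.1) = if t0 = t then M.det else 0 := by
    intro t
    have h1 : act g0 (f t.1) = (M.adjugate * M) t0 t := by
      rw [Matrix.mul_apply]
      simp only [act, g0, hMa, Finset.sum_mul, Finset.mul_sum]
      rw [Finset.sum_comm]
      exact Finset.sum_congr rfl fun s _ => Finset.sum_congr rfl fun v _ => by ring
    rw [h1, Matrix.adjugate_mul, Matrix.smul_apply, Matrix.one_apply]
    split_ifs <;> simp
  let F : MvPolynomial σ K := ∏ i ∈ I.filter (fun i => eval x (f i) ≠ 0), f i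
  refine ⟨fun v => F * g0 v, ?_, ?_⟩
  · intro i hi
    rw [act_smul]
    by_cases h : eval x (f i) = 0
    · have h2 := hg0 ⟨i, Finset.mem_insert_of_mem hi, h⟩
      have h3 : t0 ≠ ⟨i, Finset.mem_insert_of_mem hi, h⟩ := by
        intro h4
        exact hj (by rw [show j = i from congrArg Subtype.val h4]; exact hi)
      rw [if_neg h3] at h2
      rw [h2, mul_zero]
      exact dvd_zero _
    · exact Dvd.dvd.mul_right (Finset.dvd_prod_of_mem _ (by simp [hi, h])) _
  · rw [act_smul, map_mul]
    have h2 := hg0 t0
    rw [if_pos rfl] at h2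
    rw [show act g0 (f j) = M.det from h2, hdet, mul_one, map_prod]
    exact Finset.prod_ne_zero_iff.mpr fun i hi => (Finset.mem_filter.mp hi).2

theorem exists_zero [IsAlgClosed K] (hcard : 2 ≤ Fintype.card σ) (g : MvPolynomial σ K)
    (hg : ¬ IsUnit g) : ∃ x : σ → K, x ≠ 0 ∧ eval x g = 0 := by
  by_contra hne
  push Not at hne
  have hX : ∀ v : σ, ∃ N, g ∣ X v ^ N := by
    intro v
    have h1 : (X v : MvPolynomial σ K) ∈ vanishingIdeal K (zeroLocus K (Ideal.span {g})) := by
      rw [mem_vanishingIdeal_iff]
      intro x hx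
      have h2 : eval x g = 0 := by
        have := (mem_zeroLocus_iff.mp hx) g (Ideal.subset_span rfl)
        simpa [aeval_eq_eval] using this
      by_cases h3 : x = 0
      · simp [h3]
      · exact absurd h2 (hne x h3)
    rw [vanishingIdeal_zeroLocus_eq_radical] at h1
    obtain ⟨N, hN⟩ := h1
    exact ⟨N, Ideal.mem_span_singleton.mp hN⟩
  obtain ⟨u, v, huv⟩ := Fintype.exists_pair_of_one_lt_card (α := σ) (by omega)
  obtain ⟨N, hN⟩ := hX u
  obtain ⟨M, hM⟩ := hX v
  have hrel : IsRelPrime (X u : MvPolynomial σ K) (X v) := by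
    rw [(X_prime (R := K) (i := u)).irreducible.isRelPrime_iff_not_dvd, X_dvd_X]
    exact huv
  exact hg ((hrel.pow) hN hM)

theorem exists_SNData [IsAlgClosed K] [Fintype J] [DecidableEq J] (w : σ → ℕ) (hw : ∀ v, 0 < w v)
    (f : J → MvPolynomial σ K) (d : J → ℕ) (hd : ∀ j, 0 < d j)
    (hhom : ∀ j, IsWeightedHomogeneous w (f j) (d j)) (hcard : 2 ≤ Fintype.card σ)
    (hsnc : ∀ x : σ → K, x ≠ 0 → SNCAt f x) :
    ∃ D : SNData (MvPolynomial σ K) σ J, D.f = f ∧ D.E = eul w ∧
      (∀ i g, D.φ i g = act g (f i)) := by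
  have hf0 : ∀ j, f j ≠ 0 := by
    intro j hj
    obtain ⟨u, -⟩ : ∃ u : σ, True := by
      have : 0 < Fintype.card σ := by omega
      exact (Fintype.card_pos_iff.mp this).elim fun u => ⟨u, trivial⟩
    have h1 : (fun _ : σ => (1 : K)) ≠ 0 := fun h => one_ne_zero (congrFun h u)
    have h2 := (hsnc _ h1).ne_zero ⟨j, by rw [hj]; simp⟩
    apply h2
    funext v
    simp [hj]
  have hrel : ∀ i j, i ≠ j → IsRelPrime (f i) (f j) := by
    intro i j hij g hi hj
    by_contra hg
    obtain ⟨x, hx, hx0⟩ := exists_zero hcard g hg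
    obtain ⟨a, ha⟩ := hi
    obtain ⟨b, hb⟩ := hj
    have hfi : eval x (f i) = 0 := by rw [ha, map_mul, hx0, zero_mul]
    have hfj : eval x (f j) = 0 := by rw [hb, map_mul, hx0, zero_mul]
    have hgi : ∀ v, eval x (pderiv v (f i)) = eval x a * eval x (pderiv v g) := by
      intro v
      rw [ha, Derivation.leibniz]
      simp [hx0]
    have hgj : ∀ v, eval x (pderiv v (f j)) = eval x b * eval x (pderiv v g) := by
      intro v
      rw [hb, Derivation.leibniz]
      simp [hx0]
    have hli := hsnc x hx
    have h1 := (linearIndependent_iff'.mp hli) {⟨i, hfi⟩, ⟨j, hfj⟩}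
      (fun t => if t.1 = i then eval x b else - eval x a) (by
        rw [Finset.sum_pair (fun h => hij (congrArg Subtype.val h))]
        funext v
        simp [hij.symm, hgi, hgj]
        ring)
    have hb0 := h1 ⟨i, hfi⟩ (by simp)
    simp only [if_true] at hb0
    have := hli.ne_zero ⟨j, hfj⟩
    apply this
    funext v
    simp [hgj, hb0]
  refine ⟨{ f := f
            φ := fun i => ∑ v, (pderiv v (f i)) •
              (LinearMap.proj v : (σ → MvPolynomial σ K) →ₗ[MvPolynomial σ K] MvPolynomial σ K)
            E := eul w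
            d := fun j => C (d j : K)
            hd := fun j => by
              have := hd j
              exact (isUnit_iff_ne_zero.mpr (by exact_mod_cast this.ne' : (d j : K) ≠ 0)).map C
            hE := fun i => ?_
            hf := hf0
            cop := fun i j hij r h => (hrel i j hij).dvd_of_dvd_mul_left h
            x := X
            hx := fun p => depth_free _
            prim := ?_ }, rfl, rfl, ?_⟩
  · have := act_eul w (hhom i)
    rw [← this]
    simp [act, mul_comm]
  · intro I j hj v
    have hφ : ∀ (i : J) (g : σ → MvPolynomial σ K),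
        (∑ v, (pderiv v (f i)) •
          (LinearMap.proj v : (σ → MvPolynomial σ K) →ₗ[MvPolynomial σ K] MvPolynomial σ K)) g =
          act g (f i) := by
      intro i g
      simp [act, mul_comm]
    simp only [hφ]
    let 𝔞 : Ideal (MvPolynomial σ K) :=
      { carrier := {r | ∃ g, (∀ i ∈ I, f i ∣ act g (f i)) ∧ act g (f j) = r}
        add_mem' := by
          rintro a b ⟨g, hg, rfl⟩ ⟨g', hg', rfl⟩
          exact ⟨fun v => g v + g' v, fun i hi => by
            rw [act_add]; exact dvd_add (hg i hi) (hg' i hi), act_add _ _ _⟩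
        zero_mem' := ⟨0, fun i _ => by simp [act], by simp [act]⟩
        smul_mem' := by
          rintro c a ⟨g, hg, rfl⟩
          exact ⟨fun v => c * g v, fun i hi => by
            rw [act_smul]; exact (hg i hi).mul_left _, act_smul _ _ _⟩ }
    have h1 : (X v : MvPolynomial σ K) ∈ vanishingIdeal K (zeroLocus K 𝔞) := by
      rw [mem_vanishingIdeal_iff]
      intro x hx
      by_contra hv
      have hx0 : x ≠ 0 := by
        rintro rfl
        simp at hv
      have hz : ∀ r ∈ 𝔞, eval x r = 0 := by
        intro r hr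
        have := (mem_zeroLocus_iff.mp hx) r hr
        simpa [aeval_eq_eval] using this
      by_cases h : eval x (f j) = 0
      · obtain ⟨g, hg, hg2⟩ := exists_field f x (hsnc x hx0) I j hj h
        exact hg2 (hz _ ⟨g, hg, rfl⟩)
      · have h2 := hz (act (eul w) (f j)) ⟨eul w, fun i _ => ⟨C (d i : K), by
          rw [act_eul w (hhom i), mul_comm]⟩, rfl⟩
        rw [act_eul w (hhom j), map_mul, eval_C] at h2
        have h3 : (d j : K) ≠ 0 := by
          have := hd j
          exact_mod_cast this.ne'
        exact h ((mul_eq_zero.mp h2).resolve_left h3)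
    rw [vanishingIdeal_zeroLocus_eq_radical] at h1
    obtain ⟨N, g, hg, hN⟩ := h1
    exact ⟨N, g, hg, hN⟩
  · intro i g
    simp [act, mul_comm]

end Pool.Agent.L0h21.SN
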