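import Pool.Agent.L0h21.SN.Depth

/-! Contractions on the exterior algebra of a free module, and the polyvectors which are logarithmic
along some elements. -/

set_option autoImplicit false
set_option linter.unusedSectionVars false

namespace Pool.Agent.L0h21.SN

open ExteriorAlgebra

variable {R : Type} [CommRing R] {σ : Type} [Fintype σ]

/-- The exterior algebra. -/
abbrev Lam (R σ : Type) [CommRing R] : Type := ExteriorAlgebra R (σ → R)

/-- Contraction with a covector. -/
noncomputable def del (φ : Module.Dual R (σ → R)) : Lam R σ →ₗ[R] Lam R σ :=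
  CliffordAlgebra.contractLeft (Q := (0 : QuadraticForm R (σ → R))) φ

theorem del_ι_mul (φ : Module.Dual R (σ → R)) (a : σ → R) (b : Lam R σ) :
    del φ (ι R a * b) = φ a • b - ι R a * del φ b :=
  CliffordAlgebra.contractLeft_ι_mul φ a b

theorem del_ι (φ : Module.Dual R (σ → R)) (a : σ → R) :
    del φ (ι R a) = algebraMap R _ (φ a) :=
  CliffordAlgebra.contractLeft_ι _ φ a

theorem del_algebraMap (φ : Module.Dual R (σ → R)) (r : R) :
    del φ (algebraMap R _ r) = 0 :=
  CliffordAlgebra.contractLeft_algebraMap _ φ r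

theorem del_del (φ : Module.Dual R (σ → R)) (b : Lam R σ) : del φ (del φ b) = 0 :=
  CliffordAlgebra.contractLeft_contractLeft φ b

theorem del_comm (φ ψ : Module.Dual R (σ → R)) (b : Lam R σ) :
    del φ (del ψ b) = - del ψ (del φ b) :=
  CliffordAlgebra.contractLeft_comm φ ψ b

/-- The `p`-th exterior power. -/
noncomputable abbrev LP (R σ : Type) [CommRing R] (p : ℕ) : Submodule R (Lam R σ) :=
  ⋀[R]^p (σ → R)

omit [Fintype σ] in
theorem ι_mul_mem (a : σ → R) {p : ℕ} {b : Lam R σ} (hb : b ∈ LP R σ p) :
    ι R a * b ∈ LP R σ (p + 1) := by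
  rw [LP, exteriorPower, pow_succ']
  exact Submodule.mul_mem_mul (LinearMap.mem_range_self _ _) hb

theorem del_zero_mem (φ : Module.Dual R (σ → R)) {b : Lam R σ} (hb : b ∈ LP R σ 0) :
    del φ b = 0 := by
  rw [LP, exteriorPower, pow_zero, Submodule.one_eq_range] at hb
  obtain ⟨r, rfl⟩ := hb
  exact del_algebraMap φ r

theorem del_mem (φ : Module.Dual R (σ → R)) {p : ℕ} {b : Lam R σ} (hb : b ∈ LP R σ (p + 1)) :
    del φ b ∈ LP R σ p := by
  induction p generalizing b with
  | zero =>
    rw [LP, exteriorPower, zero_add, pow_one] at hb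
    obtain ⟨a, rfl⟩ := hb
    rw [del_ι, LP, exteriorPower, pow_zero]
    exact Submodule.algebraMap_mem _
  | succ p ih =>
    rw [LP, exteriorPower, pow_succ'] at hb
    refine Submodule.mul_induction_on hb ?_ ?_
    · rintro _ ⟨a, rfl⟩ c hc
      rw [del_ι_mul]
      exact Submodule.sub_mem _ (Submodule.smul_mem _ _ hc) (ι_mul_mem a (ih hc))
    · intro c d hc hd
      rw [map_add]
      exact Submodule.add_mem _ hc hd

instance : Module.Free R (Lam R σ) := by
  classical
  let : LinearOrder σ := linearOrderOfSTO WellOrderingRel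
  exact Module.Free.of_basis (Pi.basisFun R σ).ExteriorAlgebra

instance : Module.Finite R (Lam R σ) := by
  classical
  let : LinearOrder σ := linearOrderOfSTO WellOrderingRel
  exact Module.Finite.of_basis (Pi.basisFun R σ).ExteriorAlgebra

theorem exists_smul_eq (a b : R) (hab : ∀ r, b ∣ a * r → b ∣ r) {M : Type} [AddCommGroup M]
    [Module R M] [Module.Free R M] [Module.Finite R M] (θ η : M) (h : a • θ = b • η) :
    ∃ ζ, θ = b • ζ := by
  classical
  set B := Module.Free.chooseBasis R M
  have h1 : ∀ k, b ∣ B.repr θ k := by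
    intro k
    apply hab
    refine ⟨B.repr η k, ?_⟩
    have := congrArg (fun z => B.repr z k) h
    simpa using this
  choose c hc using h1
  refine ⟨∑ k, c k • B k, ?_⟩
  apply B.repr.injective
  ext k
  simp [hc, Finsupp.single_apply]

theorem proj_smul_mem [IsDomain R] {p : ℕ} {θ η : Lam R σ} {r : R} (hr : r ≠ 0)
    (h : θ = r • η) (hθ : θ ∈ LP R σ p) : η ∈ LP R σ p := by
  classical
  have h1 := DirectSum.decompose_of_mem_same (fun i => LP R σ i) hθ
  have h2 : r • ((DirectSum.decompose (fun i => LP R σ i) η p : LP R σ p) : Lam R σ) = r • η := by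
    rw [← h, ← h1, h, DirectSum.decompose_smul]
    rfl
  have h3 := smul_right_injective (Lam R σ) hr h2
  rw [← h3]
  exact Submodule.coe_mem _

theorem LP_eq_bot [Nontrivial R] {p : ℕ} (hp : Fintype.card σ < p) : LP R σ p = ⊥ := by
  have h : Module.finrank R (LP R σ p) = 0 := by
    rw [exteriorPower.finrank_eq, Module.finrank_pi]
    exact Nat.choose_eq_zero_of_lt hp
  have h1 : Subsingleton (LP R σ p) := by
    exact (Module.finrank_eq_zero_iff_of_free (R := R) (M := LP R σ p)).mp h
  rw [eq_bot_iff]
  intro b hb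
  have := Subsingleton.elim (⟨b, hb⟩ : LP R σ p) 0
  simpa using congrArg Subtype.val this

end Pool.Agent.L0h21.SN
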