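import Pool.Agent.L0h21.SN.Pad1
import Pool.Agent.L0h21.SN.Cert

/-! Averaging over translations: the local computation at a point with normal crossings. -/

set_option autoImplicit false
set_option linter.unusedSectionVars false

namespace Pool.Agent.L0h21.SN

open MeasureTheory MvPolynomial
open Pool.Agent.W427.SMC
open scoped ENNReal

theorem aeval_taylor {R τ : Type} [CommRing R] [Fintype τ] (G : MvPolynomial τ ℤ) (y z : τ → R)
    (q : R) (hz : ∀ i, q ∣ z i) :
    q ^ 2 ∣ aeval (fun i => y i + z i) G - aeval y G - ∑ i, z i * aeval y (pderiv i G) := by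
  classical
  induction G using MvPolynomial.induction_on with
  | C a => simp
  | add f g hf hg =>
    obtain ⟨a, ha⟩ := hf
    obtain ⟨b, hb⟩ := hg
    refine ⟨a + b, ?_⟩
    have e1 : ∀ i, z i * aeval y (pderiv i (f + g)) =
        z i * aeval y (pderiv i f) + z i * aeval y (pderiv i g) := by
      intro i
      rw [map_add, map_add, mul_add]
    rw [Finset.sum_congr rfl fun i _ => e1 i, Finset.sum_add_distrib, mul_add, ← ha, ← hb,
      map_add, map_add]
    ring
  | mul_X f i hf =>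
    obtain ⟨a, ha⟩ := hf
    have hs : q ∣ ∑ j, z j * aeval y (pderiv j f) :=
      Finset.dvd_sum fun j _ => (hz j).mul_right _
    obtain ⟨b, hb⟩ := hs
    obtain ⟨c, hc⟩ := hz i
    have e1 : ∀ j, z j * aeval y (pderiv j (f * X i)) =
        y i * (z j * aeval y (pderiv j f)) +
        (if j = i then z j * aeval y f else 0) := by
      intro j
      rw [pderiv_mul, map_add, map_mul, map_mul, aeval_X]
      by_cases h : j = i
      · subst h
        rw [pderiv_X_self, map_one, if_pos rfl]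
        ring
      · rw [pderiv_X_of_ne (Ne.symm h), map_zero, if_neg h]
        ring
    rw [Finset.sum_congr rfl fun j _ => e1 j, Finset.sum_add_distrib, ← Finset.mul_sum,
      Finset.sum_ite_eq' Finset.univ i, if_pos (Finset.mem_univ i)]
    simp only [map_mul, aeval_X]
    refine ⟨a * y i + a * (z i) + b * c, ?_⟩
    have h1 : aeval (fun i => y i + z i) f = aeval y f + q * b + q ^ 2 * a := by
      rw [← ha, ← hb]; ring
    rw [h1, hb, hc]
    ring

theorem aeval_lip {R τ : Type} [CommRing R] (G : MvPolynomial τ ℤ) (x y : τ → R)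
    (q : R) (h : ∀ i, q ∣ x i - y i) : q ∣ aeval x G - aeval y G := by
  induction G using MvPolynomial.induction_on with
  | C a => simp
  | add f g hf hg =>
    rw [map_add, map_add]
    have : aeval x f + aeval x g - (aeval y f + aeval y g) =
      (aeval x f - aeval y f) + (aeval x g - aeval y g) := by ring
    rw [this]
    exact dvd_add hf hg
  | mul_X f i hf =>
    rw [map_mul, map_mul, aeval_X, aeval_X]
    have : aeval x f * x i - aeval y f * y i =
      (aeval x f - aeval y f) * x i + (x i - y i) * aeval y f := by ring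
    rw [this]
    exact dvd_add (hf.mul_right _) ((h i).mul_right _)

section lin

variable {R V T : Type} [CommRing R] [Fintype V] [Fintype T] [DecidableEq T]

/-- The first order expansion along the directions `q s`. -/
theorem lin (f : T → MvPolynomial V ℤ) (x₀ x : V → R) (π δ : R)
    (q : T → V → R) (hq : ∀ s t, ∑ v, q s v * aeval x₀ (pderiv v (f t)) = if s = t then δ else 0)
    (hx : ∀ v, π ∣ x v - x₀ v) (g : R) (a a' : T → R) (hg : ∀ s, g ∣ a s - a' s) (t : T) :
    π ^ 2 * g ∣ aeval (fun v => x v + π * ∑ s, a s * q s v) (f t) -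
      aeval (fun v => x v + π * ∑ s, a' s * q s v) (f t) - π * δ * (a t - a' t) := by
  set X' : V → R := fun v => x v + π * ∑ s, a' s * q s v with hX'
  set z : V → R := fun v => π * ∑ s, (a s - a' s) * q s v with hz
  have h1 : (fun v => x v + π * ∑ s, a s * q s v) = fun v => X' v + z v := by
    funext v
    simp only [hX', hz, sub_mul, Finset.sum_sub_distrib]
    ring
  choose d hd using hg
  have hzd : ∀ v, z v = π * g * ∑ s, d s * q s v := by
    intro v
    simp only [hz, hd]
    rw [mul_assoc, Finset.mul_sum (a := g)]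
    congr 1
    exact Finset.sum_congr rfl fun s _ => by ring
  have h2 := aeval_taylor (f t) X' z (π * g) (fun v => ⟨_, hzd v⟩)
  have h3 : ∑ v, z v * aeval x₀ (pderiv v (f t)) = π * δ * (a t - a' t) := by
    calc ∑ v, z v * aeval x₀ (pderiv v (f t))
        = π * ∑ v, ∑ s, (a s - a' s) * (q s v * aeval x₀ (pderiv v (f t))) := by
          rw [Finset.mul_sum]
          refine Finset.sum_congr rfl fun v _ => ?_
          simp only [hz, Finset.mul_sum, Finset.sum_mul]
          exact Finset.sum_congr rfl fun s _ => by ring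
      _ = π * ∑ s, (a s - a' s) * ∑ v, q s v * aeval x₀ (pderiv v (f t)) := by
          rw [Finset.sum_comm]
          simp only [Finset.mul_sum]
      _ = π * δ * (a t - a' t) := by
          simp only [hq, mul_ite, mul_zero, Finset.sum_ite_eq' Finset.univ t, Finset.mem_univ,
            if_true]
          ring
  have h4 : π ^ 2 * g ∣ ∑ v, z v * (aeval X' (pderiv v (f t)) - aeval x₀ (pderiv v (f t))) := by
    refine Finset.dvd_sum fun v _ => ?_
    have h5 : π ∣ aeval X' (pderiv v (f t)) - aeval x₀ (pderiv v (f t)) := by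
      refine aeval_lip _ _ _ _ fun v => ?_
      have h6 : X' v - x₀ v = (x v - x₀ v) + π * ∑ s, a' s * q s v := by
        simp only [hX']; ring
      rw [h6]
      exact dvd_add (hx v) (dvd_mul_right _ _)
    obtain ⟨e, he⟩ := h5
    rw [hzd v, he]
    exact ⟨(∑ s, d s * q s v) * e, by ring⟩
  have h7 : aeval (fun v => x v + π * ∑ s, a s * q s v) (f t) - aeval X' (f t) -
      π * δ * (a t - a' t) =
      (aeval (fun v => X' v + z v) (f t) - aeval X' (f t) -
        ∑ v, z v * aeval X' (pderiv v (f t))) +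
      ∑ v, z v * (aeval X' (pderiv v (f t)) - aeval x₀ (pderiv v (f t))) := by
    rw [h1, ← h3]
    simp only [mul_sub, Finset.sum_sub_distrib]
    ring
  rw [h7]
  refine dvd_add (dvd_trans ?_ h2) h4
  exact ⟨g, by ring⟩

end lin

/-- The directions which belong to a minor. -/
theorem exists_dir {R V T : Type} [CommRing R] [Fintype V] [DecidableEq V] [Fintype T]
    [DecidableEq T] (u : T → V) (A : T → V → R) :
    ∃ q : T → V → R, ∀ s t, ∑ v, q s v * A t v =
      if s = t then (Matrix.of fun s t : T => A t (u s)).det else 0 := by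
  set M : Matrix T T R := Matrix.of fun s t : T => A t (u s) with hM
  refine ⟨fun s v => ∑ r, if v = u r then M.adjugate s r else 0, fun s t => ?_⟩
  have h1 : ∑ v, (∑ r, if v = u r then M.adjugate s r else 0) * A t v =
      ∑ r, M.adjugate s r * M r t := by
    simp only [Finset.sum_mul]
    rw [Finset.sum_comm]
    refine Finset.sum_congr rfl fun r _ => ?_
    simp only [ite_mul, zero_mul, Finset.sum_ite_eq' Finset.univ (u r), Finset.mem_univ, if_true]
    rfl
  rw [h1, ← Matrix.mul_apply, Matrix.adjugate_mul, Matrix.smul_apply, Matrix.one_apply]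
  split_ifs <;> simp

variable (p : ℕ) [Fact p.Prime]

attribute [local instance] msZ bsZ

theorem dvd_of_norm_le (x y : ℤ_[p]) (h : ‖x‖ ≤ ‖y‖) : y ∣ x := by
  rcases eq_or_ne y 0 with rfl | hy
  · rw [norm_zero] at h
    rw [norm_le_zero_iff.mp h]
  · have h1 := PadicInt.unitCoeff_spec hy
    have h2 : ‖x‖ ≤ ‖(p : ℤ_[p]) ^ y.valuation‖ := by
      refine h.trans ?_
      conv_lhs => rw [h1]
      rw [norm_mul, PadicInt.norm_units, one_mul]
    obtain ⟨z, hz⟩ := norm_mul_dvd p _ _ h2
    refine ⟨((PadicInt.unitCoeff hy)⁻¹ : ℤ_[p]ˣ) * z, ?_⟩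
    generalize PadicInt.unitCoeff hy = U at *
    generalize y.valuation = n at *
    rw [hz, h1]
    calc (p : ℤ_[p]) ^ n * z
        = ((U : ℤ_[p]) * (U⁻¹ : ℤ_[p]ˣ)) * ((p : ℤ_[p]) ^ n * z) := by
          rw [Units.mul_inv, one_mul]
      _ = _ := by ring

theorem norm_le_of_dvd (x y : ℤ_[p]) (h : y ∣ x) : ‖x‖ ≤ ‖y‖ := by
  obtain ⟨z, rfl⟩ := h
  rw [norm_mul]
  exact mul_le_of_le_one_right (norm_nonneg _) (PadicInt.norm_le_one z)

variable {V T : Type} [Fintype V] [Fintype T] [DecidableEq T]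

/-- The chart of the directions is, up to scaling, an isometry. -/
theorem exists_isom (f : T → MvPolynomial V ℤ) (x₀ x : V → ℤ_[p]) (L : ℕ) (δ : ℤ_[p])
    (hδ : ¬ (p : ℤ_[p]) ^ L ∣ δ) (q : T → V → ℤ_[p])
    (hq : ∀ s t, ∑ v, q s v * aeval x₀ (pderiv v (f t)) = if s = t then δ else 0)
    (hx : ∀ v, (p : ℤ_[p]) ^ L ∣ x v - x₀ v) :
    ∃ ψ : (T → ℤ_[p]) → (T → ℤ_[p]), Isometry ψ ∧ ∀ a t,
      aeval (fun v => x v + (p : ℤ_[p]) ^ L * ∑ s, a s * q s v) (f t) =
        aeval x (f t) + (p : ℤ_[p]) ^ L * δ * ψ a t := by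
  have hp0 : (p : ℤ_[p]) ≠ 0 := by exact_mod_cast (Fact.out : p.Prime).ne_zero
  have hδ0 : δ ≠ 0 := fun h => hδ (h ▸ dvd_zero _)
  have hπ0 : (p : ℤ_[p]) ^ L ≠ 0 := pow_ne_zero _ hp0
  have hlt : ‖(p : ℤ_[p]) ^ L‖ < ‖δ‖ := by
    by_contra h
    exact hδ (dvd_of_norm_le p _ _ (not_lt.mp h))
  have hδd : δ ∣ (p : ℤ_[p]) ^ L := dvd_of_norm_le p _ _ hlt.le
  set F : (T → ℤ_[p]) → T → ℤ_[p] :=
    fun a t => aeval (fun v => x v + (p : ℤ_[p]) ^ L * ∑ s, a s * q s v) (f t) with hF
  have hF0 : ∀ t, F 0 t = aeval x (f t) := by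
    intro t
    simp [hF]
  have hl := fun g a a' hg t => lin f x₀ x ((p : ℤ_[p]) ^ L) δ q hq hx g a a' hg t
  have hex : ∀ a t, ∃ e, F a t = aeval x (f t) + (p : ℤ_[p]) ^ L * δ * e := by
    intro a t
    have h1 := hl 1 a 0 (fun s => one_dvd _) t
    rw [mul_one] at h1
    have h2 : (p : ℤ_[p]) ^ L * δ ∣ ((p : ℤ_[p]) ^ L) ^ 2 := by
      rw [pow_two]
      exact mul_dvd_mul_left _ hδd
    obtain ⟨e, he⟩ := h2.trans h1
    refine ⟨e + (a t - 0), ?_⟩
    rw [← hF0]
    have he' : F a t - F 0 t - (p : ℤ_[p]) ^ L * δ * (a t - (0 : T → ℤ_[p]) t) =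
      (p : ℤ_[p]) ^ L * δ * e := he
    rw [Pi.zero_apply] at he'
    linear_combination he'
  choose ψ hψ using hex
  refine ⟨ψ, ?_, hψ⟩
  refine Isometry.of_dist_eq fun a a' => ?_
  rw [dist_eq_norm, dist_eq_norm]
  rcases eq_or_ne a a' with rfl | hne
  · simp
  have hD0 : a - a' ≠ 0 := sub_ne_zero.mpr hne
  obtain ⟨s₁, hs₁⟩ := Function.ne_iff.mp hD0
  have : Nonempty T := ⟨s₁⟩
  obtain ⟨s₀, hs₀⟩ := Finite.exists_max (fun s => ‖(a - a') s‖)
  set g : ℤ_[p] := (a - a') s₀ with hg
  have hg0 : g ≠ 0 := by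
    intro h
    have := hs₀ s₁
    rw [h, norm_zero] at this
    exact hs₁ (norm_le_zero_iff.mp this)
  have hnorm : ‖a - a'‖ = ‖g‖ := by
    apply le_antisymm
    · exact (pi_norm_le_iff_of_nonneg (norm_nonneg _)).mpr hs₀
    · exact norm_le_pi_norm (a - a') s₀
  have hgd : ∀ s, g ∣ a s - a' s := fun s => dvd_of_norm_le p _ _ (hs₀ s)
  have hdiff : ‖(ψ a - ψ a') - (a - a')‖ < ‖a - a'‖ := by
    rw [pi_norm_lt_iff (by rw [hnorm]; exact norm_pos_iff.mpr hg0)]
    intro t
    have h1 := hl g a a' hgd t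
    have h2 : aeval (fun v => x v + (p : ℤ_[p]) ^ L * ∑ s, a s * q s v) (f t) -
        aeval (fun v => x v + (p : ℤ_[p]) ^ L * ∑ s, a' s * q s v) (f t) -
        (p : ℤ_[p]) ^ L * δ * (a t - a' t) =
        (p : ℤ_[p]) ^ L * (δ * (((ψ a - ψ a') - (a - a')) t)) := by
      have h3 := hψ a t
      have h4 := hψ a' t
      simp only [hF] at h3 h4
      rw [h3, h4]
      simp only [Pi.sub_apply]
      ring
    rw [h2, pow_two, mul_assoc] at h1
    have h5 := (mul_dvd_mul_iff_left hπ0).mp h1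
    have h6 := norm_le_of_dvd p _ _ h5
    rw [norm_mul, norm_mul] at h6
    rw [hnorm]
    have h7 : 0 < ‖g‖ := norm_pos_iff.mpr hg0
    have h8 : 0 < ‖δ‖ := norm_pos_iff.mpr hδ0
    have h9 : ‖(p : ℤ_[p]) ^ L‖ * ‖g‖ < ‖δ‖ * ‖g‖ := mul_lt_mul_of_pos_right hlt h7
    exact lt_of_mul_lt_mul_left (h6.trans_lt h9) h8.le
  have h10 : ψ a - ψ a' = ((ψ a - ψ a') - (a - a')) + (a - a') := by abel
  rw [h10]
  rw [IsUltrametricDist.norm_add_eq_max_of_norm_ne_norm hdiff.ne, max_eq_right hdiff.le]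

end Pool.Agent.L0h21.SN
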