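import Pool.Agent.L0h21.SN.Pad2
import Pool.Agent.W427.SMC.Poin4

/-! Functions of `s` which are rational in `p ^ (-s)` with a given denominator. -/

set_option autoImplicit false
set_option linter.unusedSectionVars false

namespace Pool.Agent.L0h21.SN

open MeasureTheory Polynomial
open Pool.Agent.W427.SMC
open scoped ENNReal

variable (p : ℕ) [Fact p.Prime]

attribute [local instance] msZ bsZ

/-- The function `Z(s)` is a polynomial in `p ^ (-s)` divided by `D(p ^ (-s))`. -/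
def Nice (D : ℂ[X]) (Z : ℝ → ℝ≥0∞) : Prop :=
  ∃ P : ℂ[X], ∀ s : ℝ, 0 ≤ s → Z s ≠ ⊤ ∧ D.eval (tr' p s : ℂ) * ((Z s).toReal : ℂ) =
    P.eval (tr' p s : ℂ)

variable {p}

theorem Nice.add {D : ℂ[X]} {Z W : ℝ → ℝ≥0∞} (hZ : Nice p D Z) (hW : Nice p D W) :
    Nice p D (fun s => Z s + W s) := by
  obtain ⟨P, hP⟩ := hZ
  obtain ⟨Q, hQ⟩ := hW
  refine ⟨P + Q, fun s hs => ⟨ENNReal.add_ne_top.mpr ⟨(hP s hs).1, (hQ s hs).1⟩, ?_⟩⟩
  rw [ENNReal.toReal_add (hP s hs).1 (hQ s hs).1, Complex.ofReal_add, mul_add, (hP s hs).2,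
    (hQ s hs).2, eval_add]

theorem Nice.zero (D : ℂ[X]) : Nice p D (fun _ => 0) :=
  ⟨0, fun s _ => ⟨ENNReal.zero_ne_top, by simp⟩⟩

theorem Nice.sum {D : ℂ[X]} {κ : Type} (S : Finset κ) (Z : κ → ℝ → ℝ≥0∞)
    (h : ∀ k ∈ S, Nice p D (Z k)) : Nice p D (fun s => ∑ k ∈ S, Z k s) := by
  classical
  induction S using Finset.induction_on with
  | empty => simpa using Nice.zero D
  | insert k S hk ih =>
    simp only [Finset.sum_insert hk]
    exact (h k (Finset.mem_insert_self _ _)).add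
      (ih fun k' hk' => h k' (Finset.mem_insert_of_mem hk'))

theorem Nice.congr {D : ℂ[X]} {Z W : ℝ → ℝ≥0∞} (hZ : Nice p D Z) (h : ∀ s, 0 ≤ s → Z s = W s) :
    Nice p D W := by
  obtain ⟨P, hP⟩ := hZ
  exact ⟨P, fun s hs => by rw [← h s hs]; exact hP s hs⟩

theorem Nice.mul {D E : ℂ[X]} {Z W : ℝ → ℝ≥0∞} (hZ : Nice p D Z) (hW : Nice p E W) :
    Nice p (D * E) (fun s => Z s * W s) := by
  obtain ⟨P, hP⟩ := hZ
  obtain ⟨Q, hQ⟩ := hW
  refine ⟨P * Q, fun s hs => ⟨ENNReal.mul_ne_top (hP s hs).1 (hQ s hs).1, ?_⟩⟩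
  rw [ENNReal.toReal_mul, Complex.ofReal_mul, eval_mul, eval_mul, ← (hP s hs).2, ← (hQ s hs).2]
  ring

theorem Nice.const (c : ℝ≥0∞) (hc : c ≠ ⊤) : Nice p 1 (fun _ => c) :=
  ⟨C (c.toReal : ℂ), fun s _ => ⟨hc, by simp⟩⟩

theorem Nice.const_mul {D : ℂ[X]} {Z : ℝ → ℝ≥0∞} (hZ : Nice p D Z) (c : ℝ≥0∞) (hc : c ≠ ⊤) :
    Nice p D (fun s => c * Z s) := by
  have := (Nice.const (p := p) c hc).mul hZ
  rwa [one_mul] at this

theorem Nice.mul_const {D : ℂ[X]} {Z : ℝ → ℝ≥0∞} (hZ : Nice p D Z) (c : ℝ≥0∞) (hc : c ≠ ⊤) :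
    Nice p D (fun s => Z s * c) := by
  have := hZ.const_mul c hc
  simpa only [mul_comm] using this

theorem Nice.prod {κ : Type} (S : Finset κ) (D : κ → ℂ[X]) (Z : κ → ℝ → ℝ≥0∞)
    (h : ∀ k ∈ S, Nice p (D k) (Z k)) : Nice p (∏ k ∈ S, D k) (fun s => ∏ k ∈ S, Z k s) := by
  classical
  induction S using Finset.induction_on with
  | empty => simpa using Nice.const (p := p) 1 ENNReal.one_ne_top
  | insert k S hk ih =>
    simp only [Finset.prod_insert hk]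
    exact (h k (Finset.mem_insert_self _ _)).mul
      (ih fun k' hk' => h k' (Finset.mem_insert_of_mem hk'))

theorem Nice.weaken {D : ℂ[X]} {Z : ℝ → ℝ≥0∞} (hZ : Nice p 1 Z) : Nice p D Z := by
  obtain ⟨P, hP⟩ := hZ
  refine ⟨D * P, fun s hs => ⟨(hP s hs).1, ?_⟩⟩
  have := (hP s hs).2
  rw [eval_one, one_mul] at this
  rw [eval_mul, this]

theorem tau_val (s : ℝ) (u : ℤ_[p]) (hu : u ≠ 0) : tau p s u = Tt p s ^ u.valuation := by
  have h := up_spec p u hu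
  conv_lhs => rw [h]
  rw [tau_mul, tau_pow, tau_p, tau_unit p s (up p u) (up_norm p u), mul_one]

theorem Tt_ne_top (s : ℝ) : Tt p s ≠ ⊤ := ENNReal.ofReal_ne_top

theorem nice_tau (u : ℤ_[p]) (hu : u ≠ 0) : Nice p 1 (fun s => tau p s u) := by
  refine ⟨X ^ u.valuation, fun s _ => ?_⟩
  show tau p s u ≠ ⊤ ∧ eval _ 1 * ((tau p s u).toReal : ℂ) = _
  rw [tau_val s u hu]
  refine ⟨ENNReal.pow_ne_top (Tt_ne_top s), ?_⟩
  rw [ENNReal.toReal_pow, Tt_toReal]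
  simp

theorem nice_tau_pow (u : ℤ_[p]) (hu : u ≠ 0) (m : ℕ) : Nice p 1 (fun s => tau p s u ^ m) := by
  have := nice_tau (u ^ m) (pow_ne_zero _ hu)
  simpa only [tau_pow] using this

variable (p) in
/-- The denominator of a component. -/
noncomputable def Dm (m : ℕ) : ℂ[X] := 1 - C ((p : ℂ)⁻¹) * X ^ m

theorem nice_phi (m : ℕ) : Nice p (Dm p m) (fun s => phi p (m * s)) := by
  have hp : (p : ℂ) ≠ 0 := by exact_mod_cast (Fact.out : p.Prime).ne_zero
  refine ⟨C (1 - (p : ℂ)⁻¹), fun s hs => ?_⟩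
  have hs' : 0 ≤ (m : ℝ) * s := by positivity
  refine ⟨((phi_le p _ hs').trans_lt ENNReal.one_lt_top).ne, ?_⟩
  have h1 := phi_eq p (m * s) hs'
  have h2 : (p : ℝ) ^ (-((m : ℝ) * s)) = tr' p s ^ m := by
    rw [tr', ← Real.rpow_natCast, ← Real.rpow_mul (Nat.cast_nonneg _)]
    congr 1
    ring
  rw [h2] at h1
  have h3 := congrArg (fun x : ℝ => (x : ℂ)) h1
  simp only [Complex.ofReal_mul, Complex.ofReal_sub, Complex.ofReal_pow, Complex.ofReal_natCast,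
    Complex.ofReal_one] at h3
  rw [Dm]
  simp only [eval_sub, eval_one, eval_mul, eval_C, eval_pow, eval_X]
  have h4 : (1 - (p : ℂ)⁻¹ * (tr' p s : ℂ) ^ m) = (p : ℂ)⁻¹ * ((p : ℂ) - (tr' p s : ℂ) ^ m) := by
    field_simp
  rw [h4, mul_assoc, h3]
  field_simp

/-- The integral over a scaled ball. -/
noncomputable def psi (N u : ℤ_[p]) (m : ℕ) (s : ℝ) : ℝ≥0∞ :=
  ∫⁻ b, tau p s (u + N * b) ^ m ∂(mu p)

theorem psi_not_dvd (N u : ℤ_[p]) (m : ℕ) (s : ℝ) (h : ¬ N ∣ u) : psi N u m s = tau p s u ^ m := by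
  have h1 : ‖N‖ < ‖u‖ := by
    by_contra hc
    exact h (dvd_of_norm_le p _ _ (not_lt.mp hc))
  have h2 : ∀ b, tau p s (u + N * b) = tau p s u := by
    intro b
    refine tau_norm p s _ _ (norm_eq_of_sub_lt p _ _ ?_)
    rw [add_sub_cancel_left, norm_mul]
    exact (mul_le_of_le_one_right (norm_nonneg _) (PadicInt.norm_le_one b)).trans_lt h1
  simp [psi, h2]

theorem psi_dvd (N u : ℤ_[p]) (m : ℕ) (s : ℝ) (h : N ∣ u) :
    psi N u m s = tau p s N ^ m * phi p (m * s) := by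
  obtain ⟨u', rfl⟩ := h
  have h2 : ∀ b, tau p s (N * u' + N * b) ^ m = tau p s N ^ m * tau p (m * s) (u' + b) := by
    intro b
    rw [← mul_add, tau_mul, mul_pow, tau_nat]
  rw [psi]
  simp only [h2]
  have h3 : Measurable fun b => tau p (m * s) (u' + b) :=
    (tau_meas p _).comp (measurable_const_add u')
  rw [lintegral_const_mul _ h3, lintegral_add_left_eq_self (μ := mu p) (tau p (m * s)) u']
  rfl

theorem nice_psi (N u : ℤ_[p]) (hN : N ≠ 0) (m : ℕ) : Nice p (Dm p m) (psi N u m) := by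
  by_cases h : N ∣ u
  · have := (nice_tau_pow N hN m).mul (nice_phi (p := p) m)
    rw [one_mul] at this
    exact this.congr fun s _ => (psi_dvd N u m s h).symm
  · have hu : u ≠ 0 := fun h0 => h (h0 ▸ dvd_zero _)
    exact (nice_tau_pow u hu m).weaken.congr fun s _ => (psi_not_dvd N u m s h).symm

theorem psi_congr (N u u' : ℤ_[p]) (m : ℕ) (s : ℝ) (h : N ∣ u - u') :
    psi N u m s = psi N u' m s := by
  obtain ⟨d, hd⟩ := h
  have h1 : ∀ b, u + N * b = u' + N * (d + b) := by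
    intro b
    linear_combination hd
  rw [psi, psi]
  simp only [h1]
  exact lintegral_add_left_eq_self (μ := mu p) (fun b => tau p s (u' + N * b) ^ m) d

end Pool.Agent.L0h21.SN
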