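import Pool.Agent.L0h21.SN.Pad3

/-! The integral over a ball around a point with normal crossings. -/

set_option autoImplicit false
set_option linter.unusedSectionVars false

namespace Pool.Agent.L0h21.SN

open MeasureTheory MvPolynomial
open Pool.Agent.W427.SMC
open scoped ENNReal

variable {p : ℕ} [Fact p.Prime]

attribute [local instance] msZ bsZ

section

variable {V T : Type} [Fintype V] [Fintype T]

/-- Averaging over translations. -/
theorem avg (g : (V → ℤ_[p]) → ℝ≥0∞) (hg : Measurable g)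
    (φ : (T → ℤ_[p]) → (V → ℤ_[p])) (hφ : Measurable φ) :
    ∫⁻ x, g x ∂(muV p V) = ∫⁻ x, ∫⁻ a, g (x + φ a) ∂(muV p T) ∂(muV p V) := by
  have hm : Measurable (Function.uncurry fun (x : V → ℤ_[p]) (a : T → ℤ_[p]) => g (x + φ a)) :=
    hg.comp (measurable_fst.add (hφ.comp measurable_snd))
  rw [lintegral_lintegral_swap hm.aemeasurable]
  have h1 : ∀ a : T → ℤ_[p], ∫⁻ x, g (x + φ a) ∂(muV p V) = ∫⁻ x, g x ∂(muV p V) := fun a =>
    lintegral_add_right_eq_self (μ := muV p V) g (φ a)
  simp only [h1]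
  simp

/-- The reduction modulo `p ^ K`. -/
noncomputable def rho (K : ℕ) (x : V → ℤ_[p]) (v : V) : ZMod (p ^ K) := PadicInt.toZModPow K (x v)

/-- The representatives of the residue classes. -/
noncomputable def rep (K : ℕ) (r : V → ZMod (p ^ K)) (v : V) : ℤ_[p] := ((r v).val : ℤ_[p])

instance (K : ℕ) : NeZero (p ^ K) := ⟨pow_ne_zero _ (Fact.out : p.Prime).ne_zero⟩

theorem rho_rep (K : ℕ) (r : V → ZMod (p ^ K)) : rho K (rep (p := p) K r) = r := by
  funext v
  rw [rho, rep, map_natCast, ZMod.natCast_zmod_val]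

theorem rho_eq_iff (K : ℕ) (x y : V → ℤ_[p]) :
    rho K x = rho K y ↔ ∀ v, (p : ℤ_[p]) ^ K ∣ x v - y v := by
  rw [funext_iff]
  refine forall_congr' fun v => ?_
  rw [rho, rho, ← Ideal.mem_span_singleton, ← PadicInt.ker_toZModPow, RingHom.mem_ker, map_sub,
    sub_eq_zero]

theorem dvd_rep (K : ℕ) (x : V → ℤ_[p]) (v : V) : (p : ℤ_[p]) ^ K ∣ x v - rep K (rho K x) v :=
  (rho_eq_iff K x _).mp (rho_rep K (rho K x)).symm v

theorem rho_meas (K : ℕ) : Measurable (rho (p := p) (V := V) K) := by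
  refine measurable_pi_lambda _ fun v => ?_
  have h1 : Measurable fun t : ℤ_[p] => PadicInt.toZModPow K t :=
    measurable_to_countable' fun w => meas_res p K w
  have h2 : Measurable fun x : V → ℤ_[p] => x v := measurable_pi_apply v
  exact h1.comp h2

theorem nice_fin [DecidableEq V] (D : Polynomial ℂ) (K : ℕ) (H : (V → ZMod (p ^ K)) → ℝ → ℝ≥0∞)
    (hH : ∀ r, Nice p D (H r)) : Nice p D (fun s => ∫⁻ x, H (rho K x) s ∂(muV p V)) := by
  have h1 : ∀ s, ∫⁻ x, H (rho K x) s ∂(muV p V) =
      ∑ r, H r s * ((muV p V).map (rho K)) {r} := by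
    intro s
    have hm : Measurable fun r : V → ZMod (p ^ K) => H r s := measurable_of_countable _
    rw [← lintegral_map hm (rho_meas K), lintegral_fintype]
  simp only [h1]
  refine Nice.sum _ _ fun r _ => (hH r).mul_const _ ?_
  have : IsProbabilityMeasure ((muV p V).map (rho K)) :=
    Measure.isProbabilityMeasure_map (rho_meas K).aemeasurable
  exact measure_ne_top _ _

end

variable {V J : Type} [Fintype V] [DecidableEq V] [Fintype J] [DecidableEq J]

theorem aeval_minor' {R : Type} [CommRing R] (f : J → MvPolynomial V ℤ) (I : Finset J) (u : I → V)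
    (P : V → R) :
    aeval P (minor f I u) = (Matrix.of fun s t : I => aeval P (pderiv (u s) (f t.1))).det := by
  rw [minor, AlgHom.map_det]
  congr 1

theorem tau_F (f : J → MvPolynomial V ℤ) (m : J → ℕ) (c : ℤ) (s : ℝ) (x : V → ℤ_[p]) :
    tau p s (aeval x (C c * ∏ j, f j ^ m j)) =
      tau p s (c : ℤ_[p]) * ∏ j, tau p s (aeval x (f j)) ^ m j := by
  rw [map_mul, tau_mul, map_prod, tau_prod]
  congr 1
  · congr 1
    rw [aeval_C]
    rfl
  · exact Finset.prod_congr rfl fun j _ => by rw [map_pow, tau_pow]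

theorem meas_F (g : MvPolynomial V ℤ) (s : ℝ) :
    Measurable fun x : V → ℤ_[p] => tau p s (aeval x g) :=
  (tau_meas p s).comp (aeval_cont p g).measurable

/-- The ball around a point. -/
def bal (L : ℕ) (x₀ : V → ℤ_[p]) : Set (V → ℤ_[p]) := {x | ∀ v, (p : ℤ_[p]) ^ L ∣ x v - x₀ v}

theorem bal_eq (L : ℕ) (x₀ : V → ℤ_[p]) : bal L x₀ = rho L ⁻¹' {rho L x₀} := by
  ext x
  exact (rho_eq_iff L x x₀).symm

theorem bal_meas (L : ℕ) (x₀ : V → ℤ_[p]) : MeasurableSet (bal L x₀) := by
  rw [bal_eq]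
  exact rho_meas L (measurableSet_singleton _)

theorem pi_prod {T : Type} [Fintype T] [DecidableEq T] (H : T → ℤ_[p] → ℝ≥0∞)
    (hH : ∀ t, Measurable (H t)) :
    ∫⁻ b, ∏ t, H t (b t) ∂(muV p T) = ∏ t, ∫⁻ z, H t z ∂(mu p) := by
  refine lintegral_prod_avg p (id : T → T) (fun t b => H t (b t)) (fun t =>
    (hH t).comp (measurable_pi_apply t)) (fun t => ∫⁻ z, H t z ∂(mu p)) ?_ ?_ Finset.univ
  · intro t t' h z x
    simp only [id]
    rw [Function.update_of_ne h.symm]
  · intro t z
    simp only [id, Function.update_self]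

theorem local_nice (f : J → MvPolynomial V ℤ) (m : J → ℕ) (c : ℤ) (hc : c ≠ 0)
    (x₀ : V → ℤ_[p]) (L : ℕ) (I : Finset J) (hI : ∀ j, j ∈ I ↔ (p : ℤ_[p]) ^ L ∣ aeval x₀ (f j))
    (u : I → V) (hu : ¬ (p : ℤ_[p]) ^ L ∣ aeval x₀ (minor f I u)) :
    Nice p (∏ j, Dm p (m j)) (fun s => ∫⁻ x, (bal L x₀).indicator
      (fun x => tau p s (aeval x (C c * ∏ j, f j ^ m j))) x ∂(muV p V)) := by
  have hp0 : (p : ℤ_[p]) ≠ 0 := by exact_mod_cast (Fact.out : p.Prime).ne_zero
  obtain ⟨q, hq⟩ := exists_dir u (fun (t : I) v => aeval x₀ (pderiv v (f t.1)))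
  rw [← aeval_minor'] at hq
  set δ : ℤ_[p] := aeval x₀ (minor f I u) with hδ
  have hδ0 : δ ≠ 0 := fun h => hu (h ▸ dvd_zero _)
  set N : ℤ_[p] := (p : ℤ_[p]) ^ L * δ with hN
  have hN0 : N ≠ 0 := mul_ne_zero (pow_ne_zero _ hp0) hδ0
  have hNd : N ∣ (p : ℤ_[p]) ^ (2 * L) := by
    rw [two_mul, pow_add]
    refine mul_dvd_mul_left _ (dvd_of_norm_le p _ _ ?_)
    by_contra h
    exact hu (dvd_of_norm_le p _ _ (not_le.mp h).le)
  set φ : (I → ℤ_[p]) → (V → ℤ_[p]) := fun a v => (p : ℤ_[p]) ^ L * ∑ s, a s * q s v with hφ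
  have hφm : Measurable φ := by
    refine Continuous.measurable ?_
    refine continuous_pi fun v => continuous_const.mul ?_
    exact continuous_finsetSum _ fun s _ => (continuous_apply s).mul continuous_const
  -- the constant factors
  set κ : ℝ → ℝ≥0∞ := fun s => tau p s (c : ℤ_[p]) *
    ∏ j ∈ Finset.univ.filter (fun j => j ∉ I), tau p s (aeval x₀ (f j)) ^ m j with hκ
  have hcne : (c : ℤ_[p]) ≠ 0 := by exact_mod_cast hc
  -- norms of the other factors
  have hout : ∀ x ∈ bal L x₀, ∀ j, j ∉ I → ∀ s, tau p s (aeval x (f j)) =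
      tau p s (aeval x₀ (f j)) := by
    intro x hx j hj s
    refine tau_norm p s _ _ (norm_eq_of_sub_lt p _ _ ?_)
    have h1 := aeval_lip (f j) x x₀ _ hx
    have h2 : ‖(p : ℤ_[p]) ^ L‖ < ‖aeval x₀ (f j)‖ := by
      by_contra h
      exact hj ((hI j).mpr (dvd_of_norm_le p _ _ (not_lt.mp h)))
    exact (norm_le_of_dvd p _ _ h1).trans_lt h2
  -- the average
  have hin : ∀ x ∈ bal L x₀, ∀ s, ∫⁻ a, tau p s (aeval (x + φ a) (C c * ∏ j, f j ^ m j))
      ∂(muV p I) = κ s * ∏ t : I, psi N (aeval x (f t.1)) (m t.1) s := by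
    intro x hx s
    obtain ⟨ψ, hψ, hψ2⟩ := exists_isom p (fun t : I => f t.1) x₀ x L δ hu q hq hx
    have hmem : ∀ a, x + φ a ∈ bal L x₀ := by
      intro a v
      have : (x + φ a) v - x₀ v = (x v - x₀ v) + φ a v := by
        rw [Pi.add_apply]; ring
      rw [this]
      exact dvd_add (hx v) (dvd_mul_right _ _)
    have h1 : ∀ a, tau p s (aeval (x + φ a) (C c * ∏ j, f j ^ m j)) =
        κ s * ∏ t : I, tau p s (aeval x (f t.1) + N * ψ a t) ^ m t.1 := by
      intro a
      rw [tau_F, hκ]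
      simp only
      rw [mul_assoc]
      congr 1
      rw [← Finset.prod_filter_mul_prod_filter_not Finset.univ (fun j => j ∉ I)]
      congr 1
      · refine Finset.prod_congr rfl fun j hj => ?_
        rw [hout _ (hmem a) j (Finset.mem_filter.mp hj).2 s]
      · have h2 : (Finset.univ.filter fun j => ¬ j ∉ I) = I := by
          ext j; simp
        rw [h2, ← Finset.prod_coe_sort]
        refine Finset.prod_congr rfl fun t _ => ?_
        congr 2
        exact hψ2 a t
    simp only [h1]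
    have h3 : Measurable fun b : I → ℤ_[p] =>
        ∏ t : I, tau p s (aeval x (f t.1) + N * b t) ^ m t.1 := by
      refine Finset.measurable_prod _ fun t _ => Measurable.pow_const ?_ _
      refine (tau_meas p s).comp ?_
      exact (continuous_const.add (continuous_const.mul (continuous_apply t))).measurable
    have hmp := isom_mp p ψ hψ
    refine (lintegral_const_mul _ (h3.comp hmp.measurable)).trans ?_
    congr 1
    refine (hmp.lintegral_comp h3).trans ?_
    refine pi_prod (fun (t : I) z => tau p s (aeval x (f t.1) + N * z) ^ m t.1) fun t => ?_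
    refine Measurable.pow_const ?_ _
    refine (tau_meas p s).comp ?_
    exact (continuous_const.add (continuous_const.mul continuous_id)).measurable
  -- the integral
  classical
  set B : Set (V → ZMod (p ^ (2 * L))) := {r | rep (2 * L) r ∈ bal L x₀} with hB
  set H : (V → ZMod (p ^ (2 * L))) → ℝ → ℝ≥0∞ := fun r s => if r ∈ B then
    κ s * ∏ t : I, psi N (aeval (rep (2 * L) r) (f t.1)) (m t.1) s else 0 with hH
  have hD : (∏ j, Dm p (m j)) = (∏ t : I, Dm p (m t.1)) *
      ∏ j ∈ Finset.univ.filter (fun j => j ∉ I), Dm p (m j) := by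
    rw [← Finset.prod_filter_mul_prod_filter_not Finset.univ (fun j => j ∉ I)]
    have h2 : (Finset.univ.filter fun j => ¬ j ∉ I) = I := by
      ext j; simp
    rw [h2, mul_comm, ← Finset.prod_coe_sort]
  have hNice : ∀ r, Nice p (∏ j, Dm p (m j)) (H r) := by
    intro r
    by_cases hr : r ∈ B
    · have h1 : Nice p (∏ j, Dm p (m j)) (fun s => (∏ t : I, psi N (aeval (rep (2 * L) r) (f t.1))
          (m t.1) s) * κ s) := by
        rw [hD]
        refine Nice.mul (Nice.prod _ _ _ fun t _ => nice_psi N _ hN0 _) ?_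
        refine Nice.weaken ?_
        have h2 := (nice_tau (p := p) (c : ℤ_[p]) hcne).mul (Nice.prod
          (Finset.univ.filter fun j => j ∉ I) (fun _ => 1)
          (fun j s => tau p s (aeval x₀ (f j)) ^ m j) fun j hj => nice_tau_pow _ (fun h => ?_) _)
        · simpa using h2
        · exact (Finset.mem_filter.mp hj).2 ((hI j).mpr (h ▸ dvd_zero _))
      refine h1.congr fun s _ => ?_
      simp only [hH, if_pos hr]
      rw [mul_comm]
    · exact (Nice.zero _).congr fun s _ => by simp only [hH, if_neg hr]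
  refine (nice_fin _ (2 * L) H hNice).congr fun s _ => ?_
  have hg : Measurable ((bal L x₀).indicator
      (fun x => tau p s (aeval x (C c * ∏ j, f j ^ m j)))) :=
    (meas_F _ s).indicator (bal_meas L x₀)
  rw [avg _ hg φ hφm]
  refine lintegral_congr fun x => ?_
  have hmem : ∀ a, x + φ a ∈ bal L x₀ ↔ x ∈ bal L x₀ := by
    intro a
    refine forall_congr' fun v => ?_
    have : (x + φ a) v - x₀ v = (x v - x₀ v) + φ a v := by
      rw [Pi.add_apply]; ring
    rw [this]
    exact (dvd_add_left (dvd_mul_right _ _))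
  have hle : (p : ℤ_[p]) ^ L ∣ (p : ℤ_[p]) ^ (2 * L) := pow_dvd_pow _ (by omega)
  have hB2 : rho (2 * L) x ∈ B ↔ x ∈ bal L x₀ := by
    refine forall_congr' fun v => ?_
    have h1 := hle.trans (dvd_rep (2 * L) x v)
    have h2 : x v - x₀ v = (x v - rep (2 * L) (rho (2 * L) x) v) +
      (rep (2 * L) (rho (2 * L) x) v - x₀ v) := by ring
    rw [h2]
    exact (dvd_add_right h1).symm
  by_cases hx : x ∈ bal L x₀
  · simp only [hH, if_pos (hB2.mpr hx)]
    have h1 : ∀ a, (bal L x₀).indicator (fun x => tau p s (aeval x (C c * ∏ j, f j ^ m j)))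
        (x + φ a) = tau p s (aeval (x + φ a) (C c * ∏ j, f j ^ m j)) := fun a =>
      Set.indicator_of_mem ((hmem a).mpr hx) _
    simp only [h1]
    rw [hin x hx s]
    congr 1
    refine Finset.prod_congr rfl fun t _ => ?_
    refine (psi_congr N _ _ _ s ?_).symm
    exact hNd.trans (aeval_lip _ _ _ _ (dvd_rep (2 * L) x))
  · simp only [hH, if_neg (fun h => hx (hB2.mp h))]
    have h1 : ∀ a, (bal L x₀).indicator (fun x => tau p s (aeval x (C c * ∏ j, f j ^ m j)))
        (x + φ a) = 0 := fun a => Set.indicator_of_notMem (fun h => hx ((hmem a).mp h)) _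
    simp only [h1]
    simp

end Pool.Agent.L0h21.SN
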