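import Pool.Agent.L0h21.SN.Pad4

/-! Scaling a block of variables. -/

set_option autoImplicit false
set_option linter.unusedSectionVars false

namespace Pool.Agent.L0h21.SN

open MeasureTheory MvPolynomial
open Pool.Agent.W427.SMC
open scoped ENNReal

variable {p : ℕ} [Fact p.Prime]

attribute [local instance] msZ bsZ

theorem meas_dvd (w : ℕ) : MeasurableSet {z : ℤ_[p] | (p : ℤ_[p]) ^ w ∣ z} := by
  have h1 := meas_res p w 0
  convert h1 using 1
  ext z
  rw [Set.mem_ofPred_eq, Set.mem_ofPred_eq, ← RingHom.mem_ker, PadicInt.ker_toZModPow,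
    Ideal.mem_span_singleton]

theorem meas_mul (a : ℤ_[p]) : Measurable (fun z : ℤ_[p] => a * z) :=
  (continuous_const.mul continuous_id).measurable

theorem lint_dvd (l : ℕ) (g : ℤ_[p] → ℝ≥0∞) (hg : Measurable g) :
    ∫⁻ z, {z : ℤ_[p] | (p : ℤ_[p]) ^ l ∣ z}.indicator g z ∂(mu p) =
      ((p : ℝ≥0∞)⁻¹) ^ l * ∫⁻ z, g ((p : ℤ_[p]) ^ l * z) ∂(mu p) := by
  rw [lintegral_sm p l _ (hg.indicator (meas_dvd l)), sm]
  rw [Finset.sum_eq_single (0 : ZMod (p ^ l))]
  · congr 1
    refine lintegral_congr fun z => ?_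
    rw [ZMod.val_zero, Nat.cast_zero, zero_add]
    refine Set.indicator_of_mem (s := {z : ℤ_[p] | (p : ℤ_[p]) ^ l ∣ z}) ?_ g
    exact dvd_mul_right _ _
  · intro w _ hw
    have h1 : ∀ z : ℤ_[p], {z : ℤ_[p] | (p : ℤ_[p]) ^ l ∣ z}.indicator g
        ((w.val : ℤ_[p]) + (p : ℤ_[p]) ^ l * z) = 0 := by
      intro z
      refine Set.indicator_of_notMem (fun h => hw ?_) _
      rw [Set.mem_ofPred_eq, dvd_add_left (dvd_mul_right _ _)] at h
      rw [← Ideal.mem_span_singleton, ← PadicInt.ker_toZModPow, RingHom.mem_ker, map_natCast,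
        ZMod.natCast_zmod_val] at h
      exact h
    simp only [h1]
    simp
  · intro h
    exact absurd (Finset.mem_univ _) h

theorem map_pow_mu (l : ℕ) : (mu p).map (fun z => (p : ℤ_[p]) ^ l * z) =
    ((p : ℝ≥0∞) ^ l) • (mu p).restrict {z : ℤ_[p] | (p : ℤ_[p]) ^ l ∣ z} := by
  have hp0 : (p : ℝ≥0∞) ≠ 0 := by exact_mod_cast (Fact.out : p.Prime).ne_zero
  have hp1 : (p : ℝ≥0∞) ≠ ⊤ := ENNReal.natCast_ne_top p
  refine Measure.ext_of_lintegral _ fun g hg => ?_
  rw [lintegral_map hg (meas_mul _), lintegral_smul_measure,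
    ← lintegral_indicator (meas_dvd l), lint_dvd l g hg, smul_eq_mul, ← mul_assoc, ← mul_pow,
    ENNReal.mul_inv_cancel hp0 hp1, one_pow, one_mul]

variable {V : Type} [Fintype V]

/-- The image of the scaling. -/
def As (p : ℕ) [Fact p.Prime] (w : V → ℕ) : Set (V → ℤ_[p]) := {y | ∀ i, (p : ℤ_[p]) ^ w i ∣ y i}

theorem As_pi (w : V → ℕ) :
    As p w = Set.pi Set.univ fun i => {z : ℤ_[p] | (p : ℤ_[p]) ^ w i ∣ z} := by
  ext y
  simp [As]

theorem meas_As (w : V → ℕ) : MeasurableSet (As p w) := by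
  rw [As_pi]
  exact MeasurableSet.univ_pi fun i => meas_dvd _

/-- The scaling. -/
noncomputable def scl (w : V → ℕ) (y : V → ℤ_[p]) (i : V) : ℤ_[p] := (p : ℤ_[p]) ^ w i * y i

theorem scl_meas (w : V → ℕ) : Measurable (scl (p := p) w) := by
  refine Continuous.measurable (continuous_pi fun i => ?_)
  exact continuous_const.mul (continuous_apply i)

theorem map_scl (w : V → ℕ) :
    (muV p V).map (scl w) = ((p : ℝ≥0∞) ^ (∑ i, w i)) • (muV p V).restrict (As p w) := by
  have hp1 : (p : ℝ≥0∞) ≠ ⊤ := ENNReal.natCast_ne_top p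
  have hfin : IsFiniteMeasure (((p : ℝ≥0∞) ^ (∑ i, w i)) • (muV p V).restrict (As p w)) :=
    Measure.smul_finite _ (ENNReal.pow_ne_top hp1)
  have h0 : scl (p := p) w = fun y i => (fun z => (p : ℤ_[p]) ^ w i * z) (y i) := rfl
  rw [h0, Measure.pi_map_pi (μ := fun _ : V => mu p) (f := fun i z => (p : ℤ_[p]) ^ w i * z)
    (fun i => (meas_mul _).aemeasurable)]
  refine Measure.pi_eq fun s hs => ?_
  rw [Measure.smul_apply, Measure.restrict_apply (MeasurableSet.univ_pi hs), As_pi,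
    ← Set.pi_inter_distrib, Measure.pi_pi, smul_eq_mul]
  have : ∀ i, (mu p).map (fun z => (p : ℤ_[p]) ^ w i * z) (s i) =
      (p : ℝ≥0∞) ^ (w i) * mu p (s i ∩ {z : ℤ_[p] | (p : ℤ_[p]) ^ w i ∣ z}) := by
    intro i
    rw [map_pow_mu, Measure.smul_apply, Measure.restrict_apply (hs i), smul_eq_mul]
  rw [Finset.prod_congr rfl fun i _ => this i, Finset.prod_mul_distrib, Finset.prod_pow_eq_pow_sum]

theorem lint_scl (w : V → ℕ) (g : (V → ℤ_[p]) → ℝ≥0∞) (hg : Measurable g) :
    ∫⁻ x, (As p w).indicator g x ∂(muV p V) =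
      ((p : ℝ≥0∞)⁻¹) ^ (∑ i, w i) * ∫⁻ y, g (scl w y) ∂(muV p V) := by
  have hp0 : (p : ℝ≥0∞) ≠ 0 := by exact_mod_cast (Fact.out : p.Prime).ne_zero
  have hp1 : (p : ℝ≥0∞) ≠ ⊤ := ENNReal.natCast_ne_top p
  rw [← lintegral_map hg (scl_meas w), map_scl, lintegral_smul_measure, smul_eq_mul, ← mul_assoc,
    ← mul_pow, mul_comm (p : ℝ≥0∞)⁻¹, ENNReal.mul_inv_cancel hp0 hp1, one_pow, one_mul,
    lintegral_indicator (meas_As w)]

theorem aeval_hom (G : MvPolynomial V ℤ) (w : V → ℕ) (D : ℕ) (hG : G.IsWeightedHomogeneous w D)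
    (y : V → ℤ_[p]) : aeval (scl w y) G = (p : ℤ_[p]) ^ D * aeval y G := by
  rw [G.as_sum, map_sum, map_sum, Finset.mul_sum]
  refine Finset.sum_congr rfl fun d hd => ?_
  have h1 := hG (mem_support_iff.1 hd)
  rw [aeval_monomial, aeval_monomial, Finsupp.prod_fintype _ _ (by simp),
    Finsupp.prod_fintype _ _ (by simp)]
  have h2 : ∏ i, scl w y i ^ d i = (p : ℤ_[p]) ^ D * ∏ i, y i ^ d i := by
    simp only [scl, mul_pow, Finset.prod_mul_distrib]
    congr 1
    rw [← h1, Finsupp.weight_apply, Finsupp.sum_fintype _ _ (by simp), ← Finset.prod_pow_eq_pow_sum]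
    refine Finset.prod_congr rfl fun i _ => ?_
    rw [← pow_mul, smul_eq_mul, mul_comm]
  rw [h2]
  ring

variable {ι : Type} [Fintype ι] [DecidableEq ι]

/-- The points which are primitive with respect to the blocks in `A`. -/
def Om (p : ℕ) [Fact p.Prime] (w : ι → V → ℕ) (A : Finset ι) : Set (V → ℤ_[p]) :=
  {x | ∀ i ∈ A, ∃ v, ¬ (p : ℤ_[p]) ^ w i v ∣ x v}

theorem Om_eq (w : ι → V → ℕ) (A : Finset ι) : Om p w A = ⋂ i ∈ A, (As p (w i))ᶜ := by
  ext x
  simp [Om, As]

theorem Om_meas (w : ι → V → ℕ) (A : Finset ι) : MeasurableSet (Om p w A) := by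
  rw [Om_eq]
  exact Finset.measurableSet_biInter _ fun i _ => (meas_As _).compl

theorem scl_mem (w : ι → V → ℕ) (hdisj : ∀ v i i', 0 < w i v → 0 < w i' v → i = i')
    (A : Finset ι) (i : ι) (hi : i ∉ A) (y : V → ℤ_[p]) :
    scl (w i) y ∈ Om p w A ↔ y ∈ Om p w A := by
  refine forall_congr' fun i' => forall_congr' fun hi' => exists_congr fun v => ?_
  rcases Nat.eq_zero_or_pos (w i' v) with h0 | h0
  · rw [h0, pow_zero]
    simp
  · have h1 : w i v = 0 := by
      by_contra hne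
      exact hi ((hdisj v i i' (Nat.pos_of_ne_zero hne) h0) ▸ hi')
    rw [scl, h1, pow_zero, one_mul]

/-- The recursion for the integrals over the primitive points. -/
theorem Z_rec (w : ι → V → ℕ) (hdisj : ∀ v i i', 0 < w i v → 0 < w i' v → i = i')
    (A : Finset ι) (i : ι) (hi : i ∉ A) (F : MvPolynomial V ℤ) (d : ℕ)
    (hF : F.IsWeightedHomogeneous (w i) d) (s : ℝ) :
    ∫⁻ x, (Om p w A).indicator (fun x => tau p s (aeval x F)) x ∂(muV p V) =
      ∫⁻ x, (Om p w (insert i A)).indicator (fun x => tau p s (aeval x F)) x ∂(muV p V) +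
      ((p : ℝ≥0∞)⁻¹) ^ (∑ v, w i v) * (Tt p s ^ d *
        ∫⁻ x, (Om p w A).indicator (fun x => tau p s (aeval x F)) x ∂(muV p V)) := by
  have hm : Measurable fun x : V → ℤ_[p] => tau p s (aeval x F) := by
    classical exact meas_F F s
  have h1 : ∀ x : V → ℤ_[p], (Om p w A).indicator (fun x => tau p s (aeval x F)) x =
      (Om p w (insert i A)).indicator (fun x => tau p s (aeval x F)) x +
      (As p (w i)).indicator ((Om p w A).indicator (fun x => tau p s (aeval x F))) x := by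
    intro x
    by_cases hx : x ∈ As p (w i)
    · rw [Set.indicator_of_mem hx]
      have h2 : x ∉ Om p w (insert i A) := by
        intro h
        obtain ⟨v, hv⟩ := h i (Finset.mem_insert_self _ _)
        exact hv (hx v)
      rw [Set.indicator_of_notMem h2, zero_add]
    · rw [Set.indicator_of_notMem hx, add_zero]
      have h2 : x ∈ Om p w (insert i A) ↔ x ∈ Om p w A := by
        rw [Om_eq, Om_eq, Finset.set_biInter_insert]
        exact and_iff_right hx
      by_cases h3 : x ∈ Om p w A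
      · rw [Set.indicator_of_mem h3, Set.indicator_of_mem (h2.mpr h3)]
      · rw [Set.indicator_of_notMem h3, Set.indicator_of_notMem (fun h => h3 (h2.mp h))]
  have h2 : Measurable ((Om p w A).indicator (fun x => tau p s (aeval x F))) :=
    hm.indicator (Om_meas w A)
  have h3 : Measurable ((Om p w (insert i A)).indicator (fun x => tau p s (aeval x F))) :=
    hm.indicator (Om_meas w _)
  refine (lintegral_congr h1).trans ?_
  rw [lintegral_add_left h3, lint_scl _ _ h2]
  congr 2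
  rw [← lintegral_const_mul _ h2]
  refine lintegral_congr fun y => ?_
  by_cases hy : y ∈ Om p w A
  · rw [Set.indicator_of_mem ((scl_mem w hdisj A i hi y).mpr hy), Set.indicator_of_mem hy,
      aeval_hom F (w i) d hF, tau_mul, tau_pow, tau_p]
  · rw [Set.indicator_of_notMem (fun h => hy ((scl_mem w hdisj A i hi y).mp h)),
      Set.indicator_of_notMem hy, mul_zero]

end Pool.Agent.L0h21.SN
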