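import Pool.Agent.L0h21.SN.Pad6
import Pool.Agent.L0h21.SN.Strict

/-! The poles of the Poincare series. -/

set_option autoImplicit false
set_option linter.unusedSectionVars false

namespace Pool.Agent.L0h21.SN

open MeasureTheory MvPolynomial
open Pool.Agent.W427.SMC Pool.Agent.H628R4.TP
open scoped ENNReal

variable (p : ℕ) [Fact p.Prime]

attribute [local instance] msZ bsZ

/-- The factor of the denominator which belongs to a block. -/
noncomputable def Db (n d : ℕ) : Polynomial ℂ :=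
  1 - Polynomial.C (((p : ℂ)⁻¹) ^ n) * Polynomial.X ^ d

theorem Dm_eq (m : ℕ) : Dm p m = Db p 1 m := by
  rw [Dm, Db, pow_one]

theorem Db_ne (n d : ℕ) (hd : 0 < d) : Db p n d ≠ 0 := by
  intro h
  have := congrArg (Polynomial.eval 0) h
  rw [Db] at this
  simp [hd.ne'] at this

theorem Db_root (n d : ℕ) (hd : 0 < d) (T : ℂ) (h : (Db p n d).eval T = 0) :
    ((-Real.log ‖T‖ / Real.log p : ℝ) : ℂ) = -(n : ℂ) / (d : ℂ) := by
  have hp : (1 : ℝ) < p := by exact_mod_cast (Fact.out : p.Prime).one_lt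
  have hp0 : (p : ℂ) ≠ 0 := by exact_mod_cast (Fact.out : p.Prime).ne_zero
  have hlog : Real.log p ≠ 0 := (Real.log_pos hp).ne'
  rw [Db] at h
  simp only [Polynomial.eval_sub, Polynomial.eval_one, Polynomial.eval_mul, Polynomial.eval_C,
    Polynomial.eval_pow, Polynomial.eval_X] at h
  have h1 : T ^ d = (p : ℂ) ^ n := by
    have h2 : ((p : ℂ)⁻¹) ^ n * T ^ d = 1 := by linear_combination -h
    have h3 : (p : ℂ) ^ n * (((p : ℂ)⁻¹) ^ n * T ^ d) = (p : ℂ) ^ n := by rw [h2, mul_one]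
    rwa [← mul_assoc, ← mul_pow, mul_inv_cancel₀ hp0, one_pow, one_mul] at h3
  have h2 : (d : ℝ) * Real.log ‖T‖ = n * Real.log p := by
    have h3 := congrArg (fun z : ℂ => Real.log ‖z‖) h1
    simp only [norm_pow, Real.log_pow, Complex.norm_natCast] at h3
    exact h3
  have hd' : (d : ℝ) ≠ 0 := by exact_mod_cast hd.ne'
  have h4 : -Real.log ‖T‖ / Real.log p = -(n : ℝ) / d := by
    field_simp
    linarith
  rw [h4]
  push_cast
  rfl

variable {V J ι : Type} [Fintype V] [DecidableEq V] [Fintype J] [DecidableEq J] [Fintype ι]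
  [DecidableEq ι]

theorem hom_F {R : Type} [CommRing R] (w : V → ℕ) (f : J → MvPolynomial V R) (e : J → ℕ)
    (hhom : ∀ j, IsWeightedHomogeneous w (f j) (e j)) (m : J → ℕ) (c : R) :
    IsWeightedHomogeneous w (C c * ∏ j, f j ^ m j) (∑ j, m j * e j) := by
  have h1 := (isWeightedHomogeneous_C (R := R) w c).mul
    (IsWeightedHomogeneous.prod Finset.univ (fun j => f j ^ m j) (fun j => m j • e j)
      (fun j _ => (hhom j).pow (m j)))
  rw [zero_add] at h1
  simpa only [smul_eq_mul] using h1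

/-- The integral has the expected denominator. -/
theorem nice_all (w : ι → V → ℕ) (hdisj : ∀ v i i', 0 < w i v → 0 < w i' v → i = i')
    (f : J → MvPolynomial V ℤ) (e : ι → J → ℕ)
    (hhom : ∀ i j, IsWeightedHomogeneous (w i) (f j) (e i j)) (m : J → ℕ) (c : ℤ) (hc : c ≠ 0)
    (hsnc : ∀ P : V → ℚ_[p], (∀ i, ∃ v, 0 < w i v ∧ P v ≠ 0) →
      SNCAt' (fun j => map (Int.castRingHom ℚ) (f j)) P) :
    Nice p ((∏ i, Db p (∑ v, w i v) (∑ j, m j * e i j)) * ∏ j, Dm p (m j))
      (fun s => ∫⁻ x, tau p s (aeval x (C c * ∏ j, f j ^ m j)) ∂(muV p V)) := by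
  classical
  obtain ⟨P, hP⟩ := nice_prim (p := p) w f m c hc hsnc
  set F : MvPolynomial V ℤ := C c * ∏ j, f j ^ m j with hF
  set Z : Finset ι → ℝ → ℝ≥0∞ := fun A s => ∫⁻ x, (Om p w A).indicator
    (fun x => tau p s (aeval x F)) x ∂(muV p V) with hZ
  have hZfin : ∀ A s, 0 ≤ s → Z A s ≠ ⊤ := by
    intro A s hs
    have h1 : Z A s ≤ 1 := by
      refine (lintegral_mono (g := fun _ => (1 : ℝ≥0∞)) fun x => ?_).trans ?_
      · exact (Set.indicator_le_self' (by simp) x).trans (tau_le_one p s hs _)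
      · simp
    exact (h1.trans_lt ENNReal.one_lt_top).ne
  have hrec : ∀ (A : Finset ι) (s : ℝ), 0 ≤ s →
      (∏ i ∈ A, (Db p (∑ v, w i v) (∑ j, m j * e i j)).eval (tr' p s : ℂ)) *
        ((Z ∅ s).toReal : ℂ) = ((Z A s).toReal : ℂ) := by
    intro A s hs
    induction A using Finset.induction_on with
    | empty => simp
    | insert i A hi ih =>
      rw [Finset.prod_insert hi, mul_assoc, ih]
      have h1 := Z_rec (p := p) w hdisj A i hi F _ (hom_F (w i) f (e i) (hhom i) m c) s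
      have h2 := congrArg ENNReal.toReal h1
      change (Z A s).toReal = (Z (insert i A) s + ((p : ℝ≥0∞)⁻¹) ^ (∑ v, w i v) *
        (Tt p s ^ (∑ j, m j * e i j) * Z A s)).toReal at h2
      have hpt : ((p : ℝ≥0∞)⁻¹) ≠ ⊤ := by
        rw [Ne, ENNReal.inv_eq_top]
        exact_mod_cast (Fact.out : p.Prime).ne_zero
      rw [ENNReal.toReal_add (hZfin _ s hs) (ENNReal.mul_ne_top (ENNReal.pow_ne_top hpt)
        (ENNReal.mul_ne_top (ENNReal.pow_ne_top (Tt_ne_top s)) (hZfin _ s hs))),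
        ENNReal.toReal_mul, ENNReal.toReal_mul, ENNReal.toReal_pow, ENNReal.toReal_pow,
        ENNReal.toReal_inv, ENNReal.toReal_natCast, Tt_toReal] at h2
      have h3 := congrArg (fun x : ℝ => (x : ℂ)) h2
      simp only [Complex.ofReal_add, Complex.ofReal_mul, Complex.ofReal_pow, Complex.ofReal_inv,
        Complex.ofReal_natCast] at h3
      rw [Db]
      simp only [Polynomial.eval_sub, Polynomial.eval_one, Polynomial.eval_mul,
        Polynomial.eval_C, Polynomial.eval_pow, Polynomial.eval_X]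
      linear_combination h3
  refine ⟨P, fun s hs => ?_⟩
  have h0 : ∫⁻ x, tau p s (aeval x F) ∂(muV p V) = Z ∅ s := by
    have h1 : Om p w ∅ = Set.univ := by
      ext x; simp [Om]
    simp only [hZ, h1, Set.indicator_univ]
  show ∫⁻ x, tau p s (aeval x F) ∂(muV p V) ≠ ⊤ ∧ _ * ((∫⁻ x, tau p s (aeval x F)
    ∂(muV p V)).toReal : ℂ) = _
  rw [h0]
  refine ⟨hZfin _ s hs, ?_⟩
  rw [Polynomial.eval_mul, Polynomial.eval_prod, mul_comm (∏ i, _), mul_assoc, hrec _ s hs]
  exact (hP s hs).2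

theorem snc_rat (w : ι → V → ℕ) (f : J → MvPolynomial V ℤ)
    (hsnc : ∀ P : V → ℂ, (∀ i, ∃ v, 0 < w i v ∧ P v ≠ 0) →
      SNCAt' (fun j => map (Int.castRingHom ℂ) (f j)) P)
    (P : V → ℚ_[p]) (hP : ∀ i, ∃ v, 0 < w i v ∧ P v ≠ 0) :
    SNCAt' (fun j => map (Int.castRingHom ℚ) (f j)) P := by
  refine snc_of_cert w _ (fun I v hv => cert (K := ℂ) w _ (fun Q hQ => ?_) I v hv) P hP
  have h1 := hsnc Q hQ
  have h2 : ∀ g : MvPolynomial V ℤ, aeval Q (map (Int.castRingHom ℚ) g) =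
      aeval Q (map (Int.castRingHom ℂ) g) := by
    intro g
    induction g using MvPolynomial.induction_on with
    | C a => simp
    | add f g hf hg => rw [map_add, map_add, map_add, map_add, hf, hg]
    | mul_X f i hf =>
      rw [map_mul, map_mul, map_mul, map_mul, hf, map_X, map_X, aeval_X, aeval_X]
  unfold SNCAt' at h1 ⊢
  have h3 := LinearIndependent.comp h1
    (fun j : {j // aeval Q (map (Int.castRingHom ℚ) (f j)) = 0} =>
      (⟨j.1, by rw [← h2]; exact j.2⟩ : {j // aeval Q (map (Int.castRingHom ℂ) (f j)) = 0}))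
    (fun s t h => Subtype.ext (by simpa using congrArg Subtype.val h))
  convert h3 using 1
  funext j v
  show aeval Q (pderiv v (map (Int.castRingHom ℚ) (f j.1))) =
    aeval Q (pderiv v (map (Int.castRingHom ℂ) (f j.1)))
  rw [pderiv_map, pderiv_map, h2]

theorem hom_map {R S : Type} [CommRing R] [CommRing S] (φ : R →+* S) (w : V → ℕ) {d : ℕ}
    {g : MvPolynomial V R} (hg : IsWeightedHomogeneous w g d) :
    IsWeightedHomogeneous w (map φ g) d := by
  intro k hk
  refine hg fun h0 => hk ?_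
  rw [coeff_map, h0, map_zero]

theorem isBFunction_zero (g : MvPolynomial V ℂ) : IsBFunction g 0 := by
  refine ⟨0, fun s => ?_⟩
  simp

/-- Every pole of the Poincare series gives a root of the Bernstein-Sato polynomial. -/
theorem padic_main (w : ι → V → ℕ) (hdisj : ∀ v i i', 0 < w i v → 0 < w i' v → i = i')
    (hcard : ∀ i, 2 ≤ Fintype.card (Pos (w i)))
    (f : J → MvPolynomial V ℤ) (hf : ∀ j, (f j).totalDegree ≠ 0) (e : ι → J → ℕ)
    (hhom : ∀ i j, IsWeightedHomogeneous (w i) (f j) (e i j)) (m : J → ℕ) (hm : ∀ j, 0 < m j)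
    (c : ℤ) (hc : c ≠ 0)
    (hsnc : ∀ P : V → ℂ, SNCAt' (fun j => map (Int.castRingHom ℂ) (f j)) P ↔
      ∀ i, ∃ v, 0 < w i v ∧ P v ≠ 0) :
    ∃ Φ : RatFunc ℂ,
      ((Φ.denom : Polynomial ℂ) : PowerSeries ℂ) * poincare p (C c * ∏ j, f j ^ m j) =
        ((Φ.num : Polynomial ℂ) : PowerSeries ℂ) ∧
      ∀ T : ℂ, Φ.denom.IsRoot T → ∀ b : Polynomial ℂ,
        IsBFunction (map (Int.castRingHom ℂ) (C c * ∏ j, f j ^ m j)) b →
          b.eval ((-Real.log ‖T‖ / Real.log p : ℝ) : ℂ) = 0 := by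
  classical
  have hcast : Function.Injective (Int.castRingHom ℂ) := Int.cast_injective (α := ℂ)
  have hmap : map (Int.castRingHom ℂ) (C c * ∏ j, f j ^ m j) =
      C ((Int.castRingHom ℂ) c) * ∏ j, (map (Int.castRingHom ℂ) (f j)) ^ m j := by
    rw [map_mul, map_C, map_prod]
    simp only [map_pow]
  have hc' : (Int.castRingHom ℂ) c ≠ 0 := fun h => hc (hcast (h.trans (map_zero _).symm))
  have hb1 := fun b hb => root_block w hdisj hcard (fun j => map (Int.castRingHom ℂ) (f j)) e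
    (fun i j => hom_map _ _ (hhom i j)) m hm _ hc' hsnc b hb
  have hb2 := fun b hb j => root_comp w hdisj hcard (fun j => map (Int.castRingHom ℂ) (f j)) m hm _
    hc' (fun P => (hsnc P).mpr) b hb j (by
      rw [totalDegree, support_map_of_injective _ hcast]
      exact hf j)
  have hd := fun i => (hb1 0 (isBFunction_zero _) i).1
  obtain ⟨P, hP⟩ := nice_all p w hdisj f e hhom m c hc (snc_rat p w f fun P => (hsnc P).mpr)
  set D : Polynomial ℂ := (∏ i, Db p (∑ v, w i v) (∑ j, m j * e i j)) * ∏ j, Dm p (m j) with hD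
  have hD0 : D ≠ 0 := by
    refine mul_ne_zero (Finset.prod_ne_zero_iff.mpr fun i _ => Db_ne p _ _ (hd i))
      (Finset.prod_ne_zero_iff.mpr fun j _ => ?_)
    rw [Dm_eq]
    exact Db_ne p _ _ (hm j)
  obtain ⟨Φ, h1, -, h3⟩ := poincare_of p (C c * ∏ j, f j ^ m j) D P hD0 (fun s hs => (hP s hs).2)
  refine ⟨Φ, h1, fun T hT b hb => ?_⟩
  rw [hmap] at hb
  have h4 : 0 < Φ.denom.rootMultiplicity T :=
    (Polynomial.rootMultiplicity_pos Φ.denom_ne_zero).mpr hT
  have h5 : D.IsRoot T := (Polynomial.rootMultiplicity_pos hD0).mp (h4.trans_le (h3 T))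
  rw [Polynomial.IsRoot.def, hD, Polynomial.eval_mul, Polynomial.eval_prod, Polynomial.eval_prod,
    mul_eq_zero, Finset.prod_eq_zero_iff, Finset.prod_eq_zero_iff] at h5
  rcases h5 with ⟨i, -, hi⟩ | ⟨j, -, hj⟩
  · rw [Db_root p _ _ (hd i) T hi]
    exact (hb1 b hb i).2
  · rw [Dm_eq] at hj
    rw [Db_root p _ _ (hm j) T hj, Nat.cast_one]
    exact hb2 b hb j

end Pool.Agent.L0h21.SN
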