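import Pool.Agent.L0h21.SN.PadR2

/-! The integral over an open compact set of points with normal crossings. -/

set_option autoImplicit false
set_option linter.unusedSectionVars false

namespace Pool.Agent.L0h21.SN

open MeasureTheory MvPolynomial
open Pool.Agent.W427.SMC
open scoped ENNReal

variable {p : ℕ} [Fact p.Prime]

attribute [local instance] msZ bsZ

variable {V J : Type} [Fintype V] [DecidableEq V] [Fintype J] [DecidableEq J]

/-- Normal crossings at all the points of a set. -/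
def NCon (f : J → MvPolynomial V ℤ_[p]) (S : Set (V → ℤ_[p])) : Prop :=
  ∀ x ∈ S, ∀ I : Finset J, (∀ j ∈ I, eval x (f j) = 0) → ∃ u : I → V, eval x (minor f I u) ≠ 0

/-- The set is a union of residue classes. -/
def Inv (L : ℕ) (S : Set (V → ℤ_[p])) : Prop := ∀ x y, x ∈ bal L y → (x ∈ S ↔ y ∈ S)

theorem Inv.mono {L L' : ℕ} {S : Set (V → ℤ_[p])} (h : Inv L S) (hL : L ≤ L') : Inv L' S :=
  fun x y hxy => h x y fun v => (pow_dvd_pow _ hL).trans (hxy v)

theorem Inv.eq {L : ℕ} {S : Set (V → ℤ_[p])} (h : Inv L S) :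
    S = rho L ⁻¹' {r | rep L r ∈ S} := by
  ext x
  exact h x _ (dvd_rep L x)

theorem Inv.meas {L : ℕ} {S : Set (V → ℤ_[p])} (h : Inv L S) : MeasurableSet S := by
  rw [h.eq]
  exact rho_meas L (Set.toFinite _).measurableSet

theorem bal_open (L : ℕ) (x₀ : V → ℤ_[p]) : IsOpen (bal L x₀) := by
  have h1 : bal L x₀ = Set.pi Set.univ fun v => {z : ℤ_[p] | (p : ℤ_[p]) ^ L ∣ z - x₀ v} := by
    ext x
    simp [bal]
  rw [h1]
  refine isOpen_set_pi Set.finite_univ fun v _ => ?_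
  have h2 : {z : ℤ_[p] | (p : ℤ_[p]) ^ L ∣ z - x₀ v} =
      Metric.ball (x₀ v) (‖(p : ℤ_[p]) ^ L‖ * p) := by
    ext z
    rw [Set.mem_ofPred_eq, mem_ball_iff_norm, dvd_iff_norm]
    have hp1 : (1 : ℝ) < p := by exact_mod_cast (Fact.out : p.Prime).one_lt
    rw [PadicInt.norm_p_pow]
    constructor
    · intro h
      have hpos : (0 : ℝ) < (p : ℝ) ^ (-(L : ℤ)) := by positivity
      nlinarith
    · intro h
      rw [PadicInt.norm_le_pow_iff_norm_lt_pow_add_one, zpow_add₀ (by positivity), zpow_one]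
      exact h
  rw [h2]
  exact Metric.isOpen_ball

theorem bal_self (L : ℕ) (x : V → ℤ_[p]) : x ∈ bal L x := fun v => by simp

theorem bal_symm {L : ℕ} {x y : V → ℤ_[p]} (h : x ∈ bal L y) : y ∈ bal L x := fun v => by
  rw [dvd_sub_comm]; exact h v

theorem bal_trans {L : ℕ} {x y z : V → ℤ_[p]} (h : x ∈ bal L y) (h' : y ∈ bal L z) :
    x ∈ bal L z := fun v => by
  have := dvd_add (h v) (h' v)
  rwa [sub_add_sub_cancel] at this

theorem Inv.isOpen {L : ℕ} {S : Set (V → ℤ_[p])} (h : Inv L S) : IsOpen S := by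
  rw [isOpen_iff_mem_nhds]
  intro x hx
  exact Filter.mem_of_superset ((bal_open L x).mem_nhds (bal_self L x))
    fun y hy => (h y x hy).mpr hx

theorem Inv.compl {L : ℕ} {S : Set (V → ℤ_[p])} (h : Inv L S) : Inv L Sᶜ :=
  fun x y hxy => not_congr (h x y hxy)

theorem Inv.inter {L : ℕ} {S T : Set (V → ℤ_[p])} (h : Inv L S) (h' : Inv L T) :
    Inv L (S ∩ T) := fun x y hxy => and_congr (h x y hxy) (h' x y hxy)

theorem Inv.isCompact {L : ℕ} {S : Set (V → ℤ_[p])} (h : Inv L S) : IsCompact S := by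
  refine IsClosed.isCompact ?_
  rw [← isOpen_compl_iff]
  exact h.compl.isOpen

/-- A uniform bound for the minors. -/
theorem unif_set (C : Set (V → ℤ_[p])) (hC : IsCompact C) (f : J → MvPolynomial V ℤ_[p])
    (hNC : NCon f C) (I : Finset J) :
    ∃ L : ℕ, ∀ x ∈ C, (∀ j ∈ I, (p : ℤ_[p]) ^ L ∣ eval x (f j)) →
      ∃ u : I → V, ¬ (p : ℤ_[p]) ^ L ∣ eval x (minor f I u) := by
  have hp1 : (1 : ℝ) < p := by exact_mod_cast (Fact.out : p.Prime).one_lt
  have hinv : (p : ℝ)⁻¹ < 1 := inv_lt_one_of_one_lt₀ hp1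
  set h : (V → ℤ_[p]) → ℝ := fun x =>
    ∑ j ∈ I, ‖eval x (f j)‖ + ∑ u : I → V, ‖eval x (minor f I u)‖ with hh
  have hcont : Continuous h := by
    refine Continuous.add ?_ ?_
    · exact continuous_finsetSum _ fun j _ => (MvPolynomial.continuous_eval (f j)).norm
    · exact continuous_finsetSum _ fun u _ => (MvPolynomial.continuous_eval (minor f I u)).norm
  rcases C.eq_empty_or_nonempty with h0 | h0
  · refine ⟨0, fun x hx => ?_⟩
    rw [h0] at hx
    exact absurd hx (Set.notMem_empty x)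
  obtain ⟨x₀, hx₀, hmin⟩ := hC.exists_isMinOn h0 hcont.continuousOn
  have hpos : 0 < h x₀ := by
    by_contra hle
    have hnn1 : 0 ≤ ∑ j ∈ I, ‖eval x₀ (f j)‖ := Finset.sum_nonneg fun _ _ => norm_nonneg _
    have hnn2 : 0 ≤ ∑ u : I → V, ‖eval x₀ (minor f I u)‖ :=
      Finset.sum_nonneg fun _ _ => norm_nonneg _
    have h1 : ∑ j ∈ I, ‖eval x₀ (f j)‖ = 0 := by
      have := not_lt.mp hle
      simp only [hh] at this
      linarith
    have h2 : ∑ u : I → V, ‖eval x₀ (minor f I u)‖ = 0 := by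
      have := not_lt.mp hle
      simp only [hh] at this
      linarith
    rw [Finset.sum_eq_zero_iff_of_nonneg fun _ _ => norm_nonneg _] at h1 h2
    obtain ⟨u, hu⟩ := hNC x₀ hx₀ I (fun j hj => norm_eq_zero.mp (h1 j hj))
    exact hu (norm_eq_zero.mp (h2 u (Finset.mem_univ u)))
  set n : ℝ := (I.card : ℝ) + (Fintype.card (I → V) : ℝ) + 1 with hn
  have hn0 : 0 < n := by positivity
  obtain ⟨L, hL⟩ := exists_pow_lt_of_lt_one (show 0 < h x₀ / n by positivity) hinv
  refine ⟨L, fun x hx hI => ?_⟩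
  by_contra hno
  push Not at hno
  have h1 : h x₀ ≤ h x := hmin hx
  have hnorm : ∀ y : ℤ_[p], (p : ℤ_[p]) ^ L ∣ y → ‖y‖ ≤ ((p : ℝ)⁻¹) ^ L := by
    intro y hy
    rw [dvd_iff_norm, PadicInt.norm_p_pow] at hy
    rwa [inv_pow, ← zpow_natCast, ← zpow_neg]
  have h2 : h x ≤ n * ((p : ℝ)⁻¹) ^ L := by
    have h3 : ∑ j ∈ I, ‖eval x (f j)‖ ≤ (I.card : ℝ) * ((p : ℝ)⁻¹) ^ L := by
      refine (Finset.sum_le_sum fun j hj => hnorm _ (hI j hj)).trans ?_
      rw [Finset.sum_const, nsmul_eq_mul]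
    have h4 : ∑ u : I → V, ‖eval x (minor f I u)‖ ≤
        (Fintype.card (I → V) : ℝ) * ((p : ℝ)⁻¹) ^ L := by
      refine (Finset.sum_le_sum fun u _ => hnorm _ (hno u)).trans ?_
      rw [Finset.sum_const, nsmul_eq_mul, Finset.card_univ]
    have h5 : (0 : ℝ) < ((p : ℝ)⁻¹) ^ L := by positivity
    calc h x ≤ (I.card : ℝ) * ((p : ℝ)⁻¹) ^ L + (Fintype.card (I → V) : ℝ) * ((p : ℝ)⁻¹) ^ L :=
          add_le_add h3 h4
      _ ≤ n * ((p : ℝ)⁻¹) ^ L := by rw [hn]; nlinarith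
  rw [lt_div_iff₀ hn0] at hL
  nlinarith

theorem unif_all (C : Set (V → ℤ_[p])) (hC : IsCompact C) (f : J → MvPolynomial V ℤ_[p])
    (hNC : NCon f C) (L₀ : ℕ) :
    ∃ L : ℕ, L₀ ≤ L ∧ ∀ I : Finset J, ∀ x ∈ C, (∀ j ∈ I, (p : ℤ_[p]) ^ L ∣ eval x (f j)) →
      ∃ u : I → V, ¬ (p : ℤ_[p]) ^ L ∣ eval x (minor f I u) := by
  choose Lf hLf using fun I => unif_set C hC f hNC I
  refine ⟨L₀ + ∑ I, Lf I, Nat.le_add_right _ _, fun I x hx hI => ?_⟩
  have hle : Lf I ≤ L₀ + ∑ I, Lf I := by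
    have := Finset.single_le_sum (f := Lf) (fun _ _ => Nat.zero_le _) (Finset.mem_univ I)
    omega
  obtain ⟨u, hu⟩ := hLf I x hx fun j hj => (pow_dvd_pow _ hle).trans (hI j hj)
  exact ⟨u, fun h => hu ((pow_dvd_pow _ hle).trans h)⟩

/-- Splitting an integral in residue classes. -/
theorem split_int (L : ℕ) (C : Set (V → ℤ_[p])) (hC : Inv L C) (G : (V → ℤ_[p]) → ℝ≥0∞)
    (hG : Measurable G) :
    ∫⁻ x, C.indicator G x ∂(muV p V) =
      ∑ r ∈ (Set.toFinite {r : V → ZMod (p ^ L) | rep L r ∈ C}).toFinset,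
        ∫⁻ x, (bal L (rep L r)).indicator G x ∂(muV p V) := by
  classical
  rw [← lintegral_finsetSum _ fun r _ => hG.indicator (bal_meas L _)]
  refine lintegral_congr fun x => ?_
  have hx : x ∈ bal L (rep L (rho L x)) := dvd_rep L x
  have h1 : ∀ r, r ≠ rho L x → (bal L (rep L r)).indicator G x = 0 := by
    intro r hr
    refine Set.indicator_of_notMem (fun h => hr ?_) _
    rw [bal_eq, Set.mem_preimage, Set.mem_singleton_iff, rho_rep] at h
    exact h.symm
  by_cases h2 : x ∈ C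
  · rw [Set.indicator_of_mem h2, Finset.sum_eq_single (rho L x)]
    · rw [Set.indicator_of_mem hx]
    · intro r _ hr
      exact h1 r hr
    · intro h
      exfalso
      apply h
      rw [Set.Finite.mem_toFinset, Set.mem_ofPred_eq]
      exact (hC _ _ hx).mp h2
  · rw [Set.indicator_of_notMem h2]
    symm
    refine Finset.sum_eq_zero fun r hr => h1 r fun h => h2 ?_
    rw [Set.Finite.mem_toFinset, Set.mem_ofPred_eq, h] at hr
    exact (hC _ _ hx).mpr hr

/-- The integral over an open compact set of points with normal crossings. -/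
theorem set_nice (f : J → MvPolynomial V ℤ_[p]) (m : J → ℕ) (c : ℤ_[p]) (hc : c ≠ 0)
    (C : Set (V → ℤ_[p])) (L₁ : ℕ) (hC : Inv L₁ C) (hNC : NCon f C) :
    Nice p (∏ j, Dm p (m j)) (fun s => ∫⁻ x, C.indicator
      (fun x => tau p s (eval x (MvPolynomial.C c * ∏ j, f j ^ m j))) x ∂(muV p V)) := by
  classical
  obtain ⟨L, hL₁, hL⟩ := unif_all C hC.isCompact f hNC L₁
  have hC' := hC.mono hL₁
  refine (Nice.sum (Set.toFinite {r : V → ZMod (p ^ L) | rep L r ∈ C}).toFinset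
    (fun r s => ∫⁻ x, (bal L (rep L r)).indicator
      (fun x => tau p s (eval x (MvPolynomial.C c * ∏ j, f j ^ m j))) x ∂(muV p V))
    fun r hr => ?_).congr fun s _ => (split_int L C hC' _ (meas_F' _ s)).symm
  have hr' : rep L r ∈ C := by simpa using hr
  set I : Finset J := Finset.univ.filter fun j => (p : ℤ_[p]) ^ L ∣ eval (rep L r) (f j) with hI
  obtain ⟨u, hu⟩ := hL I (rep L r) hr' (fun j hj => (Finset.mem_filter.mp hj).2)
  exact local_nice' f m c hc (rep L r) L I (fun j => by simp [hI]) u hu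

/-- The integral does not change under small perturbations. -/
theorem set_stable (f : J → MvPolynomial V ℤ_[p]) (m : J → ℕ) (c : ℤ_[p])
    (C : Set (V → ℤ_[p])) (L₁ : ℕ) (hC : Inv L₁ C) (hNC : NCon f C) :
    ∃ K : ℕ, ∀ k, K ≤ k → ∀ f' r : J → MvPolynomial V ℤ_[p],
      (∀ j, f' j = f j + MvPolynomial.C ((p : ℤ_[p]) ^ k) * r j) →
      NCon f' C ∧ ∀ s : ℝ, ∫⁻ x, C.indicator
        (fun x => tau p s (eval x (MvPolynomial.C c * ∏ j, f' j ^ m j))) x ∂(muV p V) =
      ∫⁻ x, C.indicator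
        (fun x => tau p s (eval x (MvPolynomial.C c * ∏ j, f j ^ m j))) x ∂(muV p V) := by
  classical
  obtain ⟨L, hL₁, hL⟩ := unif_all C hC.isCompact f hNC L₁
  have hC' := hC.mono hL₁
  refine ⟨2 * L, fun k hk f' r hf => ⟨?_, fun s => ?_⟩⟩
  · intro x hx I hI
    have hkL : (p : ℤ_[p]) ^ L ∣ (p : ℤ_[p]) ^ k := pow_dvd_pow _ (by omega)
    obtain ⟨u, hu⟩ := hL I x hx (fun j hj => by
      have h1 : eval x (f' j) = eval x (f j) + (p : ℤ_[p]) ^ k * eval x (r j) := by
        rw [hf j, map_add, map_mul, eval_C]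
      rw [hI j hj] at h1
      have h2 : eval x (f j) = -((p : ℤ_[p]) ^ k * eval x (r j)) := by linear_combination -h1
      rw [h2, dvd_neg]
      exact hkL.trans (dvd_mul_right _ _))
    refine ⟨u, fun h0 => hu ?_⟩
    have h1 := hkL.trans (minor_congr f f' k r hf I u x)
    rw [h0, zero_sub, dvd_neg] at h1
    exact h1
  · rw [split_int L C hC' _ (meas_F' _ s), split_int L C hC' _ (meas_F' _ s)]
    refine Finset.sum_congr rfl fun r' hr => ?_
    have hr' : rep L r' ∈ C := by simpa using hr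
    set I : Finset J := Finset.univ.filter fun j => (p : ℤ_[p]) ^ L ∣ eval (rep L r') (f j)
      with hI
    obtain ⟨u, hu⟩ := hL I (rep L r') hr' (fun j hj => (Finset.mem_filter.mp hj).2)
    exact local_stable f m c (rep L r') L I (fun j => by simp [hI]) u hu k hk f' r hf s

end Pool.Agent.L0h21.SN
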