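import Pool.Agent.L0h21.SN.PadR3
import Pool.Agent.L0h21.SN.Low
import Pool.Agent.L0h21.SN.Pad7

/-! Scaling of polynomials with coefficients in `ℤ_p`. -/

set_option autoImplicit false
set_option linter.unusedSectionVars false

namespace Pool.Agent.L0h21.SN

open MeasureTheory MvPolynomial
open Pool.Agent.W427.SMC
open scoped ENNReal

variable {p : ℕ} [Fact p.Prime]

attribute [local instance] msZ bsZ

variable {V J : Type} [Fintype V] [DecidableEq V] [Fintype J] [DecidableEq J]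

/-- Normal crossings at a point with coordinates in `ℤ_p`. -/
def NCat (f : J → MvPolynomial V ℤ_[p]) (x : V → ℤ_[p]) : Prop :=
  ∀ I : Finset J, (∀ j ∈ I, eval x (f j) = 0) → ∃ u : I → V, eval x (minor f I u) ≠ 0

/-- The scaling of the variables of a polynomial. -/
noncomputable def scaleP (l : V → ℕ) : MvPolynomial V ℤ_[p] →ₐ[ℤ_[p]] MvPolynomial V ℤ_[p] :=
  aeval fun v => C ((p : ℤ_[p]) ^ l v) * X v

theorem scaleP_X (l : V → ℕ) (v : V) :
    scaleP l (X v : MvPolynomial V ℤ_[p]) = C ((p : ℤ_[p]) ^ l v) * X v := by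
  rw [scaleP, aeval_X]

theorem eval_scaleP (l : V → ℕ) (y : V → ℤ_[p]) (q : MvPolynomial V ℤ_[p]) :
    eval y (scaleP l q) = eval (scl l y) q := by
  induction q using MvPolynomial.induction_on with
  | C a => simp [scaleP]
  | add f g hf hg => rw [map_add, map_add, map_add, hf, hg]
  | mul_X f i hf =>
    rw [map_mul, map_mul, map_mul, hf, scaleP_X, map_mul, eval_C, eval_X, eval_X]
    rfl

theorem scaleP_monomial (w : V → ℕ) (k : ℕ) (d : V →₀ ℕ) (c : ℤ_[p]) :
    scaleP (fun v => k * w v) (monomial d c) =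
      C ((p : ℤ_[p]) ^ (k * Finsupp.weight w d)) * monomial d c := by
  rw [scaleP, aeval_monomial, Finsupp.prod_fintype _ _ (by simp)]
  simp only [mul_pow, Finset.prod_mul_distrib, algebraMap_eq]
  rw [monomial_eq, Finsupp.prod_fintype _ _ (by simp)]
  have h1 : (C ((p : ℤ_[p]) ^ (k * Finsupp.weight w d)) : MvPolynomial V ℤ_[p]) =
      ∏ v, C ((p : ℤ_[p]) ^ (k * w v)) ^ d v := by
    rw [Finsupp.weight_apply, Finsupp.sum_fintype _ _ (by simp), Finset.mul_sum,
      ← Finset.prod_pow_eq_pow_sum, map_prod]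
    refine Finset.prod_congr rfl fun v _ => ?_
    rw [← map_pow, ← pow_mul]
    congr 2
    rw [smul_eq_mul]
    ring
  rw [h1]
  ring

theorem scaleP_ord {w : V → ℕ} {a : ℕ} {q : MvPolynomial V ℤ_[p]} (h : OrdGE w a q) (k : ℕ) :
    ∃ r, scaleP (fun v => k * w v) q = C ((p : ℤ_[p]) ^ (k * a)) * r := by
  rw [ordGE_iff] at h
  refine ⟨∑ d ∈ q.support, C ((p : ℤ_[p]) ^ (k * (Finsupp.weight w d - a))) *
    monomial d (coeff d q), ?_⟩
  conv_lhs => rw [q.as_sum]
  rw [map_sum, Finset.mul_sum]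
  refine Finset.sum_congr rfl fun d hd => ?_
  have h1 := h d (mem_support_iff.mp hd)
  rw [scaleP_monomial, ← mul_assoc, ← map_mul, ← pow_add, ← mul_add, Nat.add_sub_cancel' h1]

theorem scaleP_hom {w : V → ℕ} {a : ℕ} {q : MvPolynomial V ℤ_[p]}
    (h : IsWeightedHomogeneous w q a) (k : ℕ) :
    scaleP (fun v => k * w v) q = C ((p : ℤ_[p]) ^ (k * a)) * q := by
  conv_lhs => rw [q.as_sum]
  conv_rhs => rw [q.as_sum]
  rw [map_sum, Finset.mul_sum]
  refine Finset.sum_congr rfl fun d hd => ?_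
  rw [scaleP_monomial, h (mem_support_iff.mp hd)]

theorem scaleP_low {w : V → ℕ} {e : ℕ} {f g : MvPolynomial V ℤ_[p]} (h : LowC w e f g) (k : ℕ) :
    ∃ r, scaleP (fun v => k * w v) f =
      C ((p : ℤ_[p]) ^ (k * e)) * (g + C ((p : ℤ_[p]) ^ k) * r) := by
  have h1 := ord_succ h.1
  rw [h.2] at h1
  obtain ⟨r, hr⟩ := scaleP_ord h1 k
  refine ⟨r, ?_⟩
  have h2 : f = g + (f - g) := by ring
  rw [h2, map_add, hr, scaleP_hom h.hom, mul_add k e 1, mul_one, pow_add, map_mul]
  ring

theorem pderiv_scaleP (l : V → ℕ) (v : V) (q : MvPolynomial V ℤ_[p]) :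
    pderiv v (scaleP l q) = C ((p : ℤ_[p]) ^ l v) * scaleP l (pderiv v q) := by
  induction q using MvPolynomial.induction_on with
  | C a => simp [scaleP]
  | add f g hf hg => rw [map_add, map_add, map_add, map_add, hf, hg, mul_add]
  | mul_X f i hf =>
    have h1 : pderiv v (scaleP l (X i : MvPolynomial V ℤ_[p])) =
        C ((p : ℤ_[p]) ^ l v) * scaleP l (pderiv v (X i)) := by
      rw [scaleP_X, pderiv_C_mul, pderiv_X]
      by_cases h : v = i
      · subst h; simp
      · simp [Ne.symm h]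
    rw [map_mul, Derivation.leibniz, Derivation.leibniz, map_add, h1, hf]
    simp only [smul_eq_mul, map_mul]
    ring

theorem minor_scale (l : V → ℕ) (f f' : J → MvPolynomial V ℤ_[p]) (a : J → ℕ)
    (hf : ∀ j, scaleP l (f j) = C ((p : ℤ_[p]) ^ a j) * f' j) (I : Finset J) (u : I → V)
    (y : V → ℤ_[p]) :
    (∏ s : I, (p : ℤ_[p]) ^ l (u s)) * eval (scl l y) (minor f I u) =
      (∏ t : I, (p : ℤ_[p]) ^ a t.1) * eval y (minor f' I u) := by
  rw [eval_minor', eval_minor', ← Matrix.det_mul_column, ← Matrix.det_mul_row]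
  congr 1
  ext s t
  simp only [Matrix.of_apply]
  have h1 := congrArg (eval y) (congrArg (pderiv (u s)) (hf t.1))
  rw [pderiv_scaleP, pderiv_C_mul, map_mul, map_mul, eval_C, eval_C, eval_scaleP] at h1
  exact h1

/-- Normal crossings are preserved by the scaling. -/
theorem ncat_scale (l : V → ℕ) (f f' : J → MvPolynomial V ℤ_[p]) (a : J → ℕ)
    (hf : ∀ j, scaleP l (f j) = C ((p : ℤ_[p]) ^ a j) * f' j) (y : V → ℤ_[p])
    (h : NCat f' y) : NCat f (scl l y) := by
  have hp0 : (p : ℤ_[p]) ≠ 0 := by exact_mod_cast (Fact.out : p.Prime).ne_zero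
  intro I hI
  obtain ⟨u, hu⟩ := h I (fun j hj => by
    have h1 := congrArg (eval y) (hf j)
    rw [eval_scaleP, hI j hj, map_mul, eval_C] at h1
    exact (mul_eq_zero.mp h1.symm).resolve_left (pow_ne_zero _ hp0))
  refine ⟨u, fun h0 => ?_⟩
  have h1 := minor_scale l f f' a hf I u y
  rw [h0, mul_zero] at h1
  refine mul_ne_zero (Finset.prod_ne_zero_iff.mpr fun t _ => pow_ne_zero _ hp0) hu h1.symm

/-- The points whose coordinates of weight zero are small. -/
def Sml (w : V → ℕ) (M : ℕ) : Set (V → ℤ_[p]) := {y | ∀ v, w v = 0 → (p : ℤ_[p]) ^ M ∣ y v}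

/-- The points of `Sml` which are primitive with respect to the weights. -/
def Prim (w : V → ℕ) (M : ℕ) : Set (V → ℤ_[p]) := Sml w M ∩ (As p w)ᶜ

theorem Sml_inv (w : V → ℕ) (M : ℕ) : Inv M (Sml (p := p) w M) := by
  intro x y hxy
  refine forall_congr' fun v => forall_congr' fun _ => ?_
  have h2 : x v = (x v - y v) + y v := by ring
  rw [h2]
  exact dvd_add_right (hxy v)

theorem As_inv (w : V → ℕ) : Inv (∑ v, w v) (As p w) := by
  intro x y hxy
  refine forall_congr' fun v => ?_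
  have h1 : (p : ℤ_[p]) ^ w v ∣ x v - y v :=
    (pow_dvd_pow _ (Finset.single_le_sum (f := w) (fun _ _ => Nat.zero_le _)
      (Finset.mem_univ v))).trans (hxy v)
  have h2 : x v = (x v - y v) + y v := by ring
  rw [h2]
  exact dvd_add_right h1

theorem Prim_inv (w : V → ℕ) (M : ℕ) : Inv (M + ∑ v, w v) (Prim (p := p) w M) :=
  ((Sml_inv w M).mono (Nat.le_add_right _ _)).inter
    ((As_inv w).compl.mono (Nat.le_add_left _ _))

theorem Prim_pos {w : V → ℕ} {M : ℕ} {y : V → ℤ_[p]} (hy : y ∈ Prim w M) :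
    ∃ v, 0 < w v ∧ y v ≠ 0 := by
  have h1 : ¬ ∀ v, (p : ℤ_[p]) ^ w v ∣ y v := hy.2
  push Not at h1
  obtain ⟨v, hv⟩ := h1
  refine ⟨v, ?_, fun h0 => hv (h0 ▸ dvd_zero _)⟩
  by_contra h2
  have h3 : w v = 0 := by omega
  rw [h3, pow_zero] at hv
  exact hv (one_dvd _)

theorem scl_Sml (w : V → ℕ) (M k : ℕ) (y : V → ℤ_[p]) :
    scl (fun v => k * w v) y ∈ Sml w M ↔ y ∈ Sml w M := by
  refine forall_congr' fun v => forall_congr' fun hv => ?_
  rw [scl, hv, mul_zero, pow_zero, one_mul]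

theorem scl_As (w : V → ℕ) (k : ℕ) (y : V → ℤ_[p]) :
    scl (fun v => k * w v) y ∈ As p (fun v => (k + 1) * w v) ↔ y ∈ As p w := by
  have hp0 : (p : ℤ_[p]) ≠ 0 := by exact_mod_cast (Fact.out : p.Prime).ne_zero
  refine forall_congr' fun v => ?_
  show (p : ℤ_[p]) ^ ((k + 1) * w v) ∣ (p : ℤ_[p]) ^ (k * w v) * y v ↔ _
  rw [add_mul, one_mul, pow_add]
  exact mul_dvd_mul_iff_left (pow_ne_zero _ hp0)

theorem exists_scl {l : V → ℕ} {x : V → ℤ_[p]} (hx : x ∈ As p l) : ∃ y, x = scl l y := by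
  choose y hy using hx
  exact ⟨y, funext hy⟩

/-- Points near the centre have normal crossings. -/
theorem near_nc (w : V → ℕ) (e : J → ℕ) (f g : J → MvPolynomial V ℤ_[p])
    (hlow : ∀ j, LowC w (e j) (f j) (g j)) (M : ℕ)
    (hg : ∀ y ∈ Sml w M, (∃ v, 0 < w v ∧ y v ≠ 0) → NCat g y) :
    ∃ K, ∀ x ∈ Sml w M, (∃ v, 0 < w v ∧ x v ≠ 0) → x ∈ As p (fun v => K * w v) → NCat f x := by
  classical
  obtain ⟨K, hK⟩ := set_stable g (fun _ => 0) 1 (Prim w M) _ (Prim_inv w M)
    (fun y hy => hg y hy.1 (Prim_pos hy))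
  refine ⟨K, fun x hx hx0 hxK => ?_⟩
  have hex : ∃ k, x ∉ As p (fun v => k * w v) := by
    obtain ⟨v, hv, hxv⟩ := hx0
    refine ⟨(x v).valuation + 1, fun h => ?_⟩
    have h1 := h v
    have h2 : (p : ℤ_[p]) ^ ((x v).valuation + 1) ∣ x v :=
      (pow_dvd_pow _ (Nat.le_mul_of_pos_right _ hv)).trans h1
    rw [dvd_iff_norm, PadicInt.norm_p_pow, PadicInt.norm_eq_zpow_neg_valuation hxv] at h2
    have hp1 : (1 : ℝ) < p := by exact_mod_cast (Fact.out : p.Prime).one_lt
    have h3 := (zpow_le_zpow_iff_right₀ hp1).mp h2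
    push_cast at h3
    omega
  set k₀ := Nat.find hex with hk₀
  have h0 : x ∉ As p (fun v => k₀ * w v) := Nat.find_spec hex
  have hlt : K < k₀ := by
    by_contra hle
    apply h0
    intro v
    exact (pow_dvd_pow _ (Nat.mul_le_mul_right _ (not_lt.mp hle))).trans (hxK v)
  obtain ⟨k, hk⟩ : ∃ k, k₀ = k + 1 := ⟨k₀ - 1, by omega⟩
  have h1 : x ∈ As p (fun v => k * w v) := by
    by_contra hcon
    exact Nat.find_min hex (show k < Nat.find hex by omega) hcon
  obtain ⟨y, rfl⟩ := exists_scl h1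
  rw [hk, scl_As] at h0
  have hy : y ∈ Prim w M := ⟨(scl_Sml w M k y).mp hx, h0⟩
  choose r hr using fun j => scaleP_low (hlow j) k
  have h2 := (hK k (by omega) (fun j => g j + C ((p : ℤ_[p]) ^ k) * r j) r fun j => rfl).1 y hy
  exact ncat_scale _ f _ (fun j => k * e j) hr y h2

/-- The limit of a recursion. -/
theorem geom_lim (a : ℕ → ℝ) (q α : ℝ) (K : ℕ) (h : ∀ k, K ≤ k → a k = a (k + 1) + q ^ k * α)
    (hq : |q| < 1) (ha : Filter.Tendsto a Filter.atTop (nhds 0)) (k : ℕ) (hk : K ≤ k) :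
    (1 - q) * a k = q ^ k * α := by
  have h1 : ∀ n, (1 - q) * a (k + n) - q ^ (k + n) * α = (1 - q) * a k - q ^ k * α := by
    intro n
    induction n with
    | zero => rfl
    | succ n ih =>
      rw [← ih]
      have := h (k + n) (by omega)
      rw [this, ← add_assoc]
      ring
  have h2 : Filter.Tendsto (fun n => (1 - q) * a (k + n) - q ^ (k + n) * α) Filter.atTop
      (nhds ((1 - q) * 0 - 0 * α)) := by
    have h3 : Filter.Tendsto (fun n => k + n) Filter.atTop Filter.atTop :=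
      Filter.tendsto_atTop_mono (fun n => Nat.le_add_left n k) Filter.tendsto_id
    exact ((ha.comp h3).const_mul _).sub
      (((tendsto_pow_atTop_nhds_zero_of_abs_lt_one hq).comp h3).mul_const _)
  simp only [h1] at h2
  have h4 := tendsto_nhds_unique h2 tendsto_const_nhds
  linarith

theorem tau_scale (w : V → ℕ) (e : J → ℕ) (f g r : J → MvPolynomial V ℤ_[p]) (k : ℕ)
    (hr : ∀ j, scaleP (fun v => k * w v) (f j) =
      C ((p : ℤ_[p]) ^ (k * e j)) * (g j + C ((p : ℤ_[p]) ^ k) * r j))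
    (m : J → ℕ) (c : ℤ_[p]) (s : ℝ) (y : V → ℤ_[p]) :
    tau p s (eval (scl (fun v => k * w v) y) (C c * ∏ j, f j ^ m j)) =
      Tt p s ^ (k * ∑ j, m j * e j) *
        tau p s (eval y (C c * ∏ j, (g j + C ((p : ℤ_[p]) ^ k) * r j) ^ m j)) := by
  have h1 : eval (scl (fun v => k * w v) y) (C c * ∏ j, f j ^ m j) =
      (p : ℤ_[p]) ^ (k * ∑ j, m j * e j) *
        eval y (C c * ∏ j, (g j + C ((p : ℤ_[p]) ^ k) * r j) ^ m j) := by
    rw [map_mul, map_mul, map_prod, map_prod, eval_C, eval_C, Finset.mul_sum,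
      ← Finset.prod_pow_eq_pow_sum]
    have h2 : ∀ j, eval (scl (fun v => k * w v) y) (f j ^ m j) =
        (p : ℤ_[p]) ^ (k * (m j * e j)) *
          eval y ((g j + C ((p : ℤ_[p]) ^ k) * r j) ^ m j) := by
      intro j
      rw [map_pow, map_pow, ← eval_scaleP, hr j, map_mul, eval_C, mul_pow, ← pow_mul]
      congr 2
      ring
    rw [Finset.prod_congr rfl fun j _ => h2 j, Finset.prod_mul_distrib]
    ring
  rw [h1, tau_mul, tau_pow, tau_p]

theorem shell_sum (w : V → ℕ) (hw : 0 < ∑ v, w v) (e : J → ℕ) (f g : J → MvPolynomial V ℤ_[p])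
    (hlow : ∀ j, LowC w (e j) (f j) (g j)) (m : J → ℕ) (c : ℤ_[p]) (hc : c ≠ 0) (M : ℕ)
    (hg : ∀ y ∈ Sml w M, (∃ v, 0 < w v ∧ y v ≠ 0) → NCat g y) :
    ∃ K, ∀ k, K ≤ k → Nice p (Db p (∑ v, w v) (∑ j, m j * e j) * ∏ j, Dm p (m j))
      (fun s => ∫⁻ x, (As p (fun v => k * w v)).indicator ((Sml w M).indicator
        (fun x => tau p s (eval x (C c * ∏ j, f j ^ m j)))) x ∂(muV p V)) := by
  classical
  have hp1 : (1 : ℝ) < p := by exact_mod_cast (Fact.out : p.Prime).one_lt
  have hNC : NCon g (Prim w M) := fun y hy => hg y hy.1 (Prim_pos hy)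
  obtain ⟨K, hK⟩ := set_stable g m c (Prim w M) _ (Prim_inv w M) hNC
  obtain ⟨P, hP⟩ := set_nice g m c hc (Prim w M) _ (Prim_inv w M) hNC
  set N := ∑ j, m j * e j with hN
  set F : MvPolynomial V ℤ_[p] := C c * ∏ j, f j ^ m j with hF
  set A : ℝ → ℝ≥0∞ := fun s => ∫⁻ x, (Prim w M).indicator
    (fun x => tau p s (eval x (C c * ∏ j, g j ^ m j))) x ∂(muV p V) with hA
  set S : ℕ → ℝ → ℝ≥0∞ := fun k s => ∫⁻ x, (As p (fun v => k * w v)).indicator
    ((Sml w M).indicator (fun x => tau p s (eval x F))) x ∂(muV p V) with hS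
  have hmP : MeasurableSet (Sml (p := p) w M) := (Sml_inv w M).meas
  have hmF : ∀ s, Measurable fun x : V → ℤ_[p] => tau p s (eval x F) := meas_F' F
  have hmPF : ∀ s, Measurable ((Sml w M).indicator (fun x => tau p s (eval x F))) :=
    fun s => (hmF s).indicator hmP
  have hrec : ∀ k, K ≤ k → ∀ s, S k s = S (k + 1) s +
      ((p : ℝ≥0∞)⁻¹) ^ (∑ v, k * w v) * (Tt p s ^ (k * N) * A s) := by
    intro k hk s
    choose r hr using fun j => scaleP_low (hlow j) k
    have hst := (hK k hk (fun j => g j + C ((p : ℤ_[p]) ^ k) * r j) r fun j => rfl).2 s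
    have h1 : ∀ x : V → ℤ_[p], (As p (fun v => k * w v)).indicator
        ((Sml w M).indicator (fun x => tau p s (eval x F))) x =
        (As p (fun v => (k + 1) * w v)).indicator
          ((Sml w M).indicator (fun x => tau p s (eval x F))) x +
        (As p (fun v => k * w v)).indicator (((As p (fun v => (k + 1) * w v))ᶜ).indicator
          ((Sml w M).indicator (fun x => tau p s (eval x F)))) x := by
      intro x
      by_cases hx : x ∈ As p (fun v => (k + 1) * w v)
      · have hx' : x ∈ As p (fun v => k * w v) := fun v =>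
          (pow_dvd_pow _ (Nat.mul_le_mul_right _ (Nat.le_succ k))).trans (hx v)
        rw [Set.indicator_of_mem hx, Set.indicator_of_mem hx', Set.indicator_of_mem hx',
          Set.indicator_of_notMem
            (fun h : x ∈ (As p (fun v => (k + 1) * w v))ᶜ => h hx), add_zero]
      · rw [Set.indicator_of_notMem hx, zero_add]
        by_cases hx' : x ∈ As p (fun v => k * w v)
        · rw [Set.indicator_of_mem hx', Set.indicator_of_mem hx',
            Set.indicator_of_mem (show x ∈ (As p (fun v => (k + 1) * w v))ᶜ from hx)]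
        · rw [Set.indicator_of_notMem hx', Set.indicator_of_notMem hx']
    have h2 : Measurable ((As p (fun v => (k + 1) * w v)).indicator
        ((Sml w M).indicator (fun x => tau p s (eval x F)))) := (hmPF s).indicator (meas_As _)
    have h3 : Measurable (((As p (fun v => (k + 1) * w v))ᶜ).indicator
        ((Sml w M).indicator (fun x => tau p s (eval x F)))) :=
      (hmPF s).indicator (meas_As _).compl
    refine (lintegral_congr h1).trans ?_
    rw [lintegral_add_left h2, lint_scl _ _ h3]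
    congr 2
    have hA' : A s = _ := hst.symm
    rw [hA', ← lintegral_const_mul _ ((meas_F' _ s).indicator (Prim_inv w M).meas)]
    refine lintegral_congr fun y => ?_
    by_cases hy : y ∈ As p w
    · rw [Set.indicator_of_notMem (fun h : scl (fun v => k * w v) y ∈
          (As p (fun v => (k + 1) * w v))ᶜ => h ((scl_As w k y).mpr hy)),
        Set.indicator_of_notMem (fun h : y ∈ Prim w M => h.2 hy), mul_zero]
    · rw [Set.indicator_of_mem (show scl (fun v => k * w v) y ∈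
        (As p (fun v => (k + 1) * w v))ᶜ from fun h => hy ((scl_As w k y).mp h))]
      by_cases hy' : y ∈ Sml w M
      · rw [Set.indicator_of_mem ((scl_Sml w M k y).mpr hy'),
          Set.indicator_of_mem (show y ∈ Prim w M from ⟨hy', hy⟩)]
        exact tau_scale w e f g r k hr m c s y
      · rw [Set.indicator_of_notMem (fun h => hy' ((scl_Sml w M k y).mp h)),
          Set.indicator_of_notMem (fun h : y ∈ Prim w M => hy' h.1), mul_zero]
  have hSle : ∀ k s, 0 ≤ s → S k s ≤ ((p : ℝ≥0∞)⁻¹) ^ (∑ v, k * w v) := by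
    intro k s hs
    simp only [hS]
    rw [lint_scl _ _ (hmPF s)]
    refine mul_le_of_le_one_right' ?_
    refine (lintegral_mono (g := fun _ => (1 : ℝ≥0∞)) fun x => ?_).trans ?_
    · exact (Set.indicator_le_self' (by simp) _).trans (tau_le_one p s hs _)
    · simp
  have hpt : ((p : ℝ≥0∞)⁻¹) ≠ ⊤ := by
    rw [Ne, ENNReal.inv_eq_top]
    exact_mod_cast (Fact.out : p.Prime).ne_zero
  have hSfin : ∀ k s, 0 ≤ s → S k s ≠ ⊤ := fun k s hs =>
    ((hSle k s hs).trans_lt (ENNReal.pow_ne_top hpt).lt_top).ne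
  refine ⟨K, fun k hk => ⟨(Polynomial.C (((p : ℂ)⁻¹) ^ (∑ v, w v)) * Polynomial.X ^ N) ^ k * P,
    fun s hs => ⟨hSfin k s hs, ?_⟩⟩⟩
  have hA1 : A s ≠ ⊤ := (hP s hs).1
  have hA2 := (hP s hs).2
  set q : ℝ := ((p : ℝ)⁻¹) ^ (∑ v, w v) * tr' p s ^ N with hq
  have hq0 : 0 ≤ q := mul_nonneg (by positivity) (pow_nonneg (tr'_pos p s).le _)
  have hpi : ((p : ℝ)⁻¹) ^ (∑ v, w v) < 1 :=
    pow_lt_one₀ (by positivity) (inv_lt_one_of_one_lt₀ hp1) (by omega)
  have hq1 : |q| < 1 := by
    rw [abs_of_nonneg hq0]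
    exact (mul_le_of_le_one_right (by positivity)
      (pow_le_one₀ (tr'_pos p s).le (tr'_le p s hs))).trans_lt hpi
  have hr : ∀ k, K ≤ k → (S k s).toReal = (S (k + 1) s).toReal + q ^ k * (A s).toReal := by
    intro k hk
    have h1 := congrArg ENNReal.toReal (hrec k hk s)
    rw [ENNReal.toReal_add (hSfin _ s hs) (ENNReal.mul_ne_top (ENNReal.pow_ne_top hpt)
      (ENNReal.mul_ne_top (ENNReal.pow_ne_top (Tt_ne_top s)) hA1)), ENNReal.toReal_mul,
      ENNReal.toReal_mul, ENNReal.toReal_pow, ENNReal.toReal_pow, ENNReal.toReal_inv,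
      ENNReal.toReal_natCast, Tt_toReal] at h1
    rw [h1, hq, mul_pow, ← pow_mul, ← pow_mul, ← Finset.mul_sum, mul_comm k N,
      mul_comm k (∑ v, w v)]
    ring
  have hlim : Filter.Tendsto (fun k => (S k s).toReal) Filter.atTop (nhds 0) := by
    have h1 : ∀ k, (S k s).toReal ≤ (((p : ℝ)⁻¹) ^ (∑ v, w v)) ^ k := by
      intro k
      have h2 := ENNReal.toReal_mono (ENNReal.pow_ne_top hpt) (hSle k s hs)
      rw [ENNReal.toReal_pow, ENNReal.toReal_inv, ENNReal.toReal_natCast, ← Finset.mul_sum,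
        mul_comm, pow_mul] at h2
      exact h2
    refine squeeze_zero (fun k => ENNReal.toReal_nonneg) h1 ?_
    exact tendsto_pow_atTop_nhds_zero_of_lt_one (by positivity) hpi
  have h1 := geom_lim (fun k => (S k s).toReal) q (A s).toReal K hr hq1 hlim k hk
  have h2 := congrArg (fun x : ℝ => (x : ℂ)) h1
  simp only [Complex.ofReal_mul, Complex.ofReal_sub, Complex.ofReal_one, Complex.ofReal_pow,
    hq, Complex.ofReal_inv, Complex.ofReal_natCast] at h2
  rw [Polynomial.eval_mul, Polynomial.eval_mul, ← hA2, Db]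
  simp only [Polynomial.eval_sub, Polynomial.eval_one, Polynomial.eval_mul,
    Polynomial.eval_C, Polynomial.eval_pow, Polynomial.eval_X]
  show _ * ((S k s).toReal : ℂ) = _
  linear_combination (Polynomial.eval (tr' p s : ℂ) (∏ j, Dm p (m j))) * h2

end Pool.Agent.L0h21.SN
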