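import Pool.Agent.L0h21.SN.PadR4
import Pool.Agent.L0h21.SN.Strict2

/-! The local integrals near a centre, and the gluing of the local integrals. -/

set_option autoImplicit false
set_option linter.unusedSectionVars false

namespace Pool.Agent.L0h21.SN

open MeasureTheory MvPolynomial
open Pool.Agent.W427.SMC
open scoped ENNReal

variable {p : ℕ} [Fact p.Prime]

attribute [local instance] msZ bsZ

theorem Nice.mul_right {D : Polynomial ℂ} {Z : ℝ → ℝ≥0∞} (hZ : Nice p D Z) (E : Polynomial ℂ) :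
    Nice p (D * E) Z := by
  have h1 := hZ.mul ((Nice.const (p := p) 1 ENNReal.one_ne_top).weaken (D := E))
  simpa only [mul_one] using h1

theorem Nice.mul_left {D : Polynomial ℂ} {Z : ℝ → ℝ≥0∞} (hZ : Nice p D Z) (E : Polynomial ℂ) :
    Nice p (E * D) Z := by
  rw [mul_comm]
  exact hZ.mul_right E

theorem Nice.of_dvd {D E : Polynomial ℂ} {Z : ℝ → ℝ≥0∞} (hZ : Nice p D Z) (h : D ∣ E) :
    Nice p E Z := by
  obtain ⟨r, rfl⟩ := h
  exact hZ.mul_right r

variable {V J : Type} [Fintype V] [DecidableEq V] [Fintype J] [DecidableEq J]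

theorem bal_inv (L : ℕ) (x₀ : V → ℤ_[p]) : Inv L (bal L x₀) := fun _ _ hxy =>
  ⟨fun h => bal_trans (bal_symm hxy) h, fun h => bal_trans hxy h⟩

/-- The integral over a ball around a point of the centre. -/
theorem local_centre (w : V → ℕ) (hw : 0 < ∑ v, w v) (e : J → ℕ)
    (f g : J → MvPolynomial V ℤ_[p]) (hlow : ∀ j, LowC w (e j) (f j) (g j)) (m : J → ℕ)
    (c : ℤ_[p]) (hc : c ≠ 0) (M : ℕ)
    (hg : ∀ y ∈ Sml w M, (∃ v, 0 < w v ∧ y v ≠ 0) → NCat g y) :
    ∃ L, Nice p (Db p (∑ v, w v) (∑ j, m j * e j) * ∏ j, Dm p (m j))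
      (fun s => ∫⁻ x, (bal L 0).indicator
        (fun x => tau p s (eval x (C c * ∏ j, f j ^ m j))) x ∂(muV p V)) := by
  classical
  obtain ⟨K, hK⟩ := near_nc w e f g hlow M hg
  set L := M + ∑ v, K * w v with hL
  have hLK : ∀ v, K * w v ≤ L := by
    intro v
    have := Finset.single_le_sum (f := fun v => K * w v) (fun _ _ => Nat.zero_le _)
      (Finset.mem_univ v)
    exact this.trans (Nat.le_add_left _ _)
  have hS : ∀ x ∈ Sml (p := p) w L, x ∈ Sml w M := fun x hx v hv =>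
    (pow_dvd_pow _ (Nat.le_add_right _ _)).trans (hx v hv)
  obtain ⟨K', hK'⟩ := shell_sum w hw e f g hlow m c hc L fun y hy => hg y (hS y hy)
  set k := K' + L with hk
  set B : Set (V → ℤ_[p]) := As p (fun v => k * w v) ∩ Sml w L with hB
  have hBinv : Inv (∑ v, k * w v + L) B :=
    ((As_inv _).mono (Nat.le_add_right _ _)).inter ((Sml_inv w L).mono (Nat.le_add_left _ _))
  have hbal : ∀ x : V → ℤ_[p], x ∈ bal L 0 ↔ ∀ v, (p : ℤ_[p]) ^ L ∣ x v := fun x =>
    forall_congr' fun v => by rw [Pi.zero_apply, sub_zero]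
  have hBL : B ⊆ bal L 0 := by
    intro x hx
    rw [hbal]
    intro v
    rcases Nat.eq_zero_or_pos (w v) with h0 | h0
    · exact hx.2 v h0
    · refine (pow_dvd_pow _ ?_).trans (hx.1 v)
      exact (Nat.le_add_left L K').trans (Nat.le_mul_of_pos_right _ h0)
  set R : Set (V → ℤ_[p]) := bal L 0 ∩ Bᶜ with hR
  have hRinv : Inv (L + (∑ v, k * w v + L)) R :=
    ((bal_inv L 0).mono (Nat.le_add_right _ _)).inter (hBinv.compl.mono (Nat.le_add_left _ _))
  have hRnc : NCon f R := by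
    intro x hx
    have hx1 := (hbal x).mp hx.1
    refine hK x (fun v _ => (pow_dvd_pow _ (Nat.le_add_right _ _)).trans (hx1 v)) ?_
      (fun v => (pow_dvd_pow _ (hLK v)).trans (hx1 v))
    have h1 : ¬ ∀ v, (p : ℤ_[p]) ^ (k * w v) ∣ x v := fun h => hx.2 ⟨h, fun v _ => hx1 v⟩
    push Not at h1
    obtain ⟨v, hv⟩ := h1
    refine ⟨v, ?_, fun h0 => hv (h0 ▸ dvd_zero _)⟩
    by_contra h2
    have h3 : w v = 0 := by omega
    rw [h3, mul_zero, pow_zero] at hv
    exact hv (one_dvd _)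
  have h1 := hK' k (Nat.le_add_right _ _)
  have h2 := (set_nice f m c hc R _ hRinv hRnc).mul_left
    (Db p (∑ v, w v) (∑ j, m j * e j))
  refine ⟨L, (h1.add h2).congr fun s _ => ?_⟩
  have hm := meas_F' (C c * ∏ j, f j ^ m j : MvPolynomial V ℤ_[p]) s
  rw [← lintegral_add_left ((hm.indicator (Sml_inv w L).meas).indicator (meas_As _))]
  refine lintegral_congr fun x => ?_
  by_cases hx : x ∈ B
  · rw [Set.indicator_of_mem hx.1, Set.indicator_of_mem hx.2, Set.indicator_of_mem (hBL hx),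
      Set.indicator_of_notMem (fun h : x ∈ R => h.2 hx), add_zero]
  · have h3 : (As p (fun v => k * w v)).indicator ((Sml w L).indicator
        (fun x => tau p s (eval x (C c * ∏ j, f j ^ m j)))) x = 0 := by
      by_cases hx1 : x ∈ As p (fun v => k * w v)
      · rw [Set.indicator_of_mem hx1]
        exact Set.indicator_of_notMem (fun hx2 => hx ⟨hx1, hx2⟩) _
      · exact Set.indicator_of_notMem hx1 _
    rw [h3, zero_add]
    by_cases hx1 : x ∈ bal L 0
    · rw [Set.indicator_of_mem hx1, Set.indicator_of_mem (show x ∈ R from ⟨hx1, hx⟩)]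
    · rw [Set.indicator_of_notMem hx1, Set.indicator_of_notMem (fun h : x ∈ R => hx1 h.1)]

/-- Translation of the integral over a ball. -/
theorem int_trl (f : J → MvPolynomial V ℤ_[p]) (m : J → ℕ) (c : ℤ_[p]) (x₀ : V → ℤ_[p]) (L : ℕ)
    (s : ℝ) : ∫⁻ x, (bal L x₀).indicator
      (fun x => tau p s (eval x (C c * ∏ j, f j ^ m j))) x ∂(muV p V) =
    ∫⁻ x, (bal L 0).indicator
      (fun x => tau p s (eval x (C c * ∏ j, trl x₀ (f j) ^ m j))) x ∂(muV p V) := by
  rw [← lintegral_add_right_eq_self (μ := muV p V) _ x₀]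
  refine lintegral_congr fun x => ?_
  have h1 : x + x₀ ∈ bal L x₀ ↔ x ∈ bal L 0 := by
    refine forall_congr' fun v => ?_
    rw [Pi.add_apply, add_sub_cancel_right, Pi.zero_apply, sub_zero]
  have h2 : eval (x + x₀) (C c * ∏ j, f j ^ m j) =
      eval x (C c * ∏ j, trl x₀ (f j) ^ m j) := by
    rw [map_mul, map_mul, map_prod, map_prod, eval_C, eval_C]
    congr 1
    refine Finset.prod_congr rfl fun j _ => ?_
    rw [map_pow, map_pow, eval_trl]
    rfl
  by_cases hx : x ∈ bal L 0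
  · rw [Set.indicator_of_mem hx, Set.indicator_of_mem (h1.mpr hx), h2]
  · rw [Set.indicator_of_notMem hx, Set.indicator_of_notMem (fun h => hx (h1.mp h))]

/-- Points with normal crossings form an open set. -/
theorem ncat_open (f : J → MvPolynomial V ℤ_[p]) (x₀ : V → ℤ_[p]) (h : NCat f x₀) :
    ∃ L, NCon f (bal L x₀) := by
  classical
  have hp1 : (1 : ℝ) < p := by exact_mod_cast (Fact.out : p.Prime).one_lt
  have hinv : (p : ℝ)⁻¹ < 1 := inv_lt_one_of_one_lt₀ hp1
  have key : ∀ I : Finset J, ∃ L, ∀ x ∈ bal L x₀, (∀ j ∈ I, eval x (f j) = 0) →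
      ∃ u : I → V, eval x (minor f I u) ≠ 0 := by
    intro I
    by_cases hI : ∀ j ∈ I, eval x₀ (f j) = 0
    · obtain ⟨u, hu⟩ := h I hI
      refine ⟨(eval x₀ (minor f I u)).valuation + 1, fun x hx _ => ⟨u, fun h0 => ?_⟩⟩
      have h1 := eval_lip (minor f I u) x x₀ _ hx
      rw [h0, zero_sub, dvd_neg, dvd_iff_norm, PadicInt.norm_p_pow,
        PadicInt.norm_eq_zpow_neg_valuation hu] at h1
      have h3 := (zpow_le_zpow_iff_right₀ hp1).mp h1
      push_cast at h3
      omega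
    · push Not at hI
      obtain ⟨j, hj, hj0⟩ := hI
      refine ⟨(eval x₀ (f j)).valuation + 1, fun x hx hI' => ?_⟩
      exfalso
      have h1 := eval_lip (f j) x x₀ _ hx
      rw [hI' j hj, zero_sub, dvd_neg, dvd_iff_norm, PadicInt.norm_p_pow,
        PadicInt.norm_eq_zpow_neg_valuation hj0] at h1
      have h3 := (zpow_le_zpow_iff_right₀ hp1).mp h1
      push_cast at h3
      omega
  choose Lf hLf using key
  refine ⟨∑ I, Lf I, fun x hx I hI => hLf I x (fun v => (pow_dvd_pow _ ?_).trans (hx v)) hI⟩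
  exact Finset.single_le_sum (f := Lf) (fun _ _ => Nat.zero_le _) (Finset.mem_univ I)

/-- Gluing of a local property of balls. -/
theorem glue (P : ℕ → (V → ℤ_[p]) → Prop) (hP : ∀ L x y, x ∈ bal L y → P L x → P L y)
    (hsum : ∀ L x, (∀ y ∈ bal L x, P (L + 1) y) → P L x) (hloc : ∀ x, ∃ L, P L x)
    (x : V → ℤ_[p]) : P 0 x := by
  classical
  choose Lf hLf using hloc
  obtain ⟨t, ht⟩ := (isCompact_univ (X := V → ℤ_[p])).elim_finite_subcover
    (fun x => bal (Lf x) x) (fun x => bal_open _ _)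
    (fun x _ => Set.mem_iUnion.mpr ⟨x, bal_self _ _⟩)
  have hcov : ∀ x, ∃ i ∈ t, x ∈ bal (Lf i) i := by
    intro x
    obtain ⟨i, hi, hx⟩ := Set.mem_iUnion₂.mp (ht (Set.mem_univ x))
    exact ⟨i, hi, hx⟩
  set N := ∑ i ∈ t, Lf i with hN
  have hle : ∀ i ∈ t, Lf i ≤ N := fun i hi =>
    Finset.single_le_sum (f := Lf) (fun _ _ => Nat.zero_le _) hi
  have key : ∀ d n, n + d = N → ∀ x, P n x ∨ ∃ i ∈ t, Lf i < n ∧ x ∈ bal (Lf i) i := by
    intro d
    induction d with
    | zero =>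
      intro n hn x
      obtain ⟨i, hi, hx⟩ := hcov x
      rcases Nat.lt_or_ge (Lf i) n with h | h
      · exact Or.inr ⟨i, hi, h, hx⟩
      · have h1 : Lf i = n := by have := hle i hi; omega
        rw [h1] at hx
        exact Or.inl (hP n i x (bal_symm hx) (h1 ▸ hLf i))
    | succ d ih =>
      intro n hn x
      by_cases hc : ∃ i ∈ t, Lf i ≤ n ∧ x ∈ bal (Lf i) i
      · obtain ⟨i, hi, hi2, hx⟩ := hc
        rcases Nat.lt_or_ge (Lf i) n with h | h
        · exact Or.inr ⟨i, hi, h, hx⟩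
        · have h1 : Lf i = n := le_antisymm hi2 h
          rw [h1] at hx
          exact Or.inl (hP n i x (bal_symm hx) (h1 ▸ hLf i))
      · refine Or.inl (hsum n x fun y hy => ?_)
        rcases ih (n + 1) (by omega) y with h | ⟨i, hi, h, hy'⟩
        · exact h
        · exfalso
          refine hc ⟨i, hi, by omega, ?_⟩
          have h1 : x ∈ bal (Lf i) y := fun v =>
            (pow_dvd_pow _ (by omega)).trans ((bal_symm hy) v)
          exact bal_trans h1 hy'
  rcases key N 0 (by omega) x with h | ⟨i, _, h, _⟩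
  · exact h
  · omega

end Pool.Agent.L0h21.SN
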