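import Pool.Agent.L0h21.SN.PadR5

/-! The integral over `ℤ_p ^ n` for a divisor which has normal crossings outside of weighted
centres. -/

set_option autoImplicit false
set_option linter.unusedSectionVars false

namespace Pool.Agent.L0h21.SN

open MeasureTheory MvPolynomial
open Pool.Agent.W427.SMC
open scoped ENNReal

variable {p : ℕ} [Fact p.Prime]

attribute [local instance] msZ bsZ

variable {V J : Type} [Fintype V] [DecidableEq V] [Fintype J] [DecidableEq J]

theorem bal_congr {L : ℕ} {x y : V → ℤ_[p]} (h : x ∈ bal L y) : bal L x = bal L y := by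
  ext z
  exact ⟨fun hz => bal_trans hz h, fun hz => bal_trans hz (bal_symm h)⟩

theorem nice_global (f : J → MvPolynomial V ℤ_[p]) (m : J → ℕ) (c : ℤ_[p]) (hc : c ≠ 0)
    (Good : Polynomial ℂ → Prop) (hone : Good 1) (hmul : ∀ D E, Good D → Good E → Good (D * E))
    (hD : Good (∏ j, Dm p (m j)))
    (hloc : ∀ x₀ : V → ℤ_[p], NCat f x₀ ∨ ∃ (w : V → ℕ) (e : J → ℕ)
      (g : J → MvPolynomial V ℤ_[p]) (M : ℕ), 0 < ∑ v, w v ∧
        (∀ j, LowC w (e j) (trl x₀ (f j)) (g j)) ∧
        (∀ y ∈ Sml w M, (∃ v, 0 < w v ∧ y v ≠ 0) → NCat g y) ∧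
        Good (Db p (∑ v, w v) (∑ j, m j * e j))) :
    ∃ D, Good D ∧ Nice p D
      (fun s => ∫⁻ x, tau p s (eval x (C c * ∏ j, f j ^ m j)) ∂(muV p V)) := by
  classical
  have hprod : ∀ {κ : Type} (S : Finset κ) (D : κ → Polynomial ℂ), (∀ i ∈ S, Good (D i)) →
      Good (∏ i ∈ S, D i) := by
    intro κ S D h
    induction S using Finset.induction_on with
    | empty => simpa using hone
    | insert a S ha ih =>
      rw [Finset.prod_insert ha]
      exact hmul _ _ (h a (Finset.mem_insert_self _ _))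
        (ih fun i hi => h i (Finset.mem_insert_of_mem hi))
  have key := glue (p := p) (V := V) (fun L x => ∃ D, Good D ∧ Nice p D
    (fun s => ∫⁻ y, (bal L x).indicator
      (fun y => tau p s (eval y (C c * ∏ j, f j ^ m j))) y ∂(muV p V))) ?_ ?_ ?_ 0
  · obtain ⟨D, hD1, hD2⟩ := key
    refine ⟨D, hD1, hD2.congr fun s _ => lintegral_congr fun x => ?_⟩
    exact Set.indicator_of_mem (s := bal 0 0) (fun v => by simp) _
  · rintro L x y hxy ⟨D, hD1, hD2⟩
    refine ⟨D, hD1, ?_⟩
    rw [← bal_congr hxy]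
    exact hD2
  · intro L x hx
    have h1 : ∀ r : V → ZMod (p ^ (L + 1)), ∃ D, Good D ∧ (rep (L + 1) r ∈ bal L x → Nice p D
        (fun s => ∫⁻ y, (bal (L + 1) (rep (L + 1) r)).indicator
          (fun y => tau p s (eval y (C c * ∏ j, f j ^ m j))) y ∂(muV p V))) := by
      intro r
      by_cases hr : rep (L + 1) r ∈ bal L x
      · obtain ⟨D, hD1, hD2⟩ := hx _ hr
        exact ⟨D, hD1, fun _ => hD2⟩
      · exact ⟨1, hone, fun h => absurd h hr⟩
    choose Dr hDr1 hDr2 using h1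
    refine ⟨∏ r, Dr r, hprod _ _ fun r _ => hDr1 r, ?_⟩
    have h2 := Nice.sum (p := p) (D := ∏ r, Dr r)
      (Set.toFinite {r : V → ZMod (p ^ (L + 1)) | rep (L + 1) r ∈ bal L x}).toFinset
      (fun r s => ∫⁻ y, (bal (L + 1) (rep (L + 1) r)).indicator
          (fun y => tau p s (eval y (C c * ∏ j, f j ^ m j))) y ∂(muV p V))
      (fun r hr => (hDr2 r (by simpa using hr)).of_dvd
        (Finset.dvd_prod_of_mem Dr (Finset.mem_univ r)))
    exact h2.congr fun s _ => (split_int (L + 1) (bal L x)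
      ((bal_inv L x).mono (Nat.le_succ L)) _ (meas_F' _ s)).symm
  · intro x₀
    rcases hloc x₀ with h | ⟨w, e, g, M, hw, hlow, hg, hgood⟩
    · obtain ⟨L, hL⟩ := ncat_open f x₀ h
      exact ⟨L, _, hD, set_nice f m c hc _ L (bal_inv L x₀) hL⟩
    · obtain ⟨L, hL⟩ := local_centre w hw e (fun j => trl x₀ (f j)) g hlow m c hc M hg
      exact ⟨L, _, hmul _ _ hgood hD, hL.congr fun s _ => (int_trl f m c x₀ L s).symm⟩

end Pool.Agent.L0h21.SN
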