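import Pool.Agent.L0h21.SN.PadR6
import Pool.Agent.L0h21.SN.Centre

/-! Descent of normal crossings from the complex numbers to `ℤ_p`. -/

set_option autoImplicit false
set_option linter.unusedSectionVars false

namespace Pool.Agent.L0h21.SN

open MeasureTheory MvPolynomial
open Pool.Agent.W427.SMC
open scoped ENNReal

section descend

variable {V J k K : Type} [Fintype V] [DecidableEq V] [DecidableEq J] [Field k] [Field K]

/-- The coefficientwise application of an additive map. -/
noncomputable def cw (π : K →+ k) (q : MvPolynomial V K) : MvPolynomial V k :=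
  ∑ d ∈ q.support, monomial d (π (coeff d q))

theorem coeff_cw (π : K →+ k) (q : MvPolynomial V K) (d : V →₀ ℕ) :
    coeff d (cw π q) = π (coeff d q) := by
  rw [cw, coeff_sum]
  simp only [coeff_monomial]
  rw [Finset.sum_ite_eq' q.support d]
  split_ifs with h
  · rfl
  · rw [notMem_support_iff.mp h, map_zero]

theorem cw_add (π : K →+ k) (q q' : MvPolynomial V K) : cw π (q + q') = cw π q + cw π q' := by
  ext d
  rw [coeff_add, coeff_cw, coeff_cw, coeff_cw, coeff_add, map_add]

theorem cw_zero (π : K →+ k) : cw π (0 : MvPolynomial V K) = 0 := by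
  ext d
  rw [coeff_cw, coeff_zero, coeff_zero, map_zero]

theorem cw_mul_map (σ : k →+* K) (π : K →+ k) (hπ : ∀ z c, π (z * σ c) = π z * c)
    (a : MvPolynomial V K) (G : MvPolynomial V k) : cw π (a * map σ G) = cw π a * G := by
  classical
  ext d
  rw [coeff_cw, coeff_mul, coeff_mul, map_sum]
  refine Finset.sum_congr rfl fun x _ => ?_
  rw [coeff_map, hπ, coeff_cw]

theorem cw_mem (σ : k →+* K) (π : K →+ k) (hπ : ∀ z c, π (z * σ c) = π z * c)
    (f : J → MvPolynomial V k) (I : Finset J) (q : MvPolynomial V K)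
    (hq : q ∈ certIdeal (fun j => map σ (f j)) I) :
    ∀ a, cw π (a * q) ∈ certIdeal f I := by
  rw [certIdeal] at hq
  induction hq using Submodule.span_induction with
  | mem x hx =>
    intro a
    rcases hx with ⟨j, hj, rfl⟩ | ⟨u, rfl⟩
    · rw [cw_mul_map σ π hπ]
      exact Ideal.mul_mem_left _ _ (Ideal.subset_span (Or.inl ⟨j, hj, rfl⟩))
    · rw [← map_minor, cw_mul_map σ π hπ]
      exact Ideal.mul_mem_left _ _ (Ideal.subset_span (Or.inr ⟨u, rfl⟩))
  | zero =>
    intro a
    rw [mul_zero, cw_zero]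
    exact zero_mem _
  | add x y _ _ hx hy =>
    intro a
    rw [mul_add, cw_add]
    exact add_mem (hx a) (hy a)
  | smul b x _ hx =>
    intro a
    rw [smul_eq_mul, ← mul_assoc]
    exact hx (a * b)

theorem exists_retract (σ : k →+* K) : ∃ π : K →+ k, (∀ z c, π (z * σ c) = π z * c) ∧ π 1 = 1 := by
  let := σ.toAlgebra
  obtain ⟨g, hg⟩ := LinearMap.exists_leftInverse_of_injective (Algebra.linearMap k K)
    (LinearMap.ker_eq_bot.mpr (algebraMap k K).injective)
  refine ⟨g.toAddMonoidHom, fun z c => ?_, ?_⟩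
  · have h1 : z * σ c = c • z := by
      rw [Algebra.smul_def, mul_comm]
      rfl
    show g (z * σ c) = g z * c
    rw [h1, map_smul, smul_eq_mul, mul_comm]
  · have h1 := LinearMap.congr_fun hg 1
    simpa using h1

theorem descend_cert (σ : k →+* K) (w : V → ℕ) (f : J → MvPolynomial V k) (I : Finset J)
    (h : MvPolynomial V K) (hh : IsWeightedHomogeneous w h 0) (h0 : coeff 0 h ≠ 0) (v : V) (N : ℕ)
    (hmem : (h * X v) ^ N ∈ certIdeal (fun j => map σ (f j)) I) :
    ∃ H : MvPolynomial V k, IsWeightedHomogeneous w H 0 ∧ coeff 0 H = 1 ∧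
      H * X v ^ N ∈ certIdeal f I := by
  obtain ⟨π, hπ, hπ1⟩ := exists_retract σ
  obtain ⟨a, ha⟩ : ∃ a : K, a = (coeff 0 h)⁻¹ ^ N := ⟨_, rfl⟩
  have h1 : IsWeightedHomogeneous w (C a * h ^ N) 0 := by
    have := (isWeightedHomogeneous_C (R := K) w a).mul (hh.pow N)
    simpa using this
  have h2 : coeff 0 (C a * h ^ N) = 1 := by
    rw [← constantCoeff_eq, map_mul, map_pow, constantCoeff_C, constantCoeff_eq, ha, ← mul_pow,
      inv_mul_cancel₀ h0, one_pow]
  refine ⟨cw π (C a * h ^ N), ?_, ?_, ?_⟩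
  · intro d hd
    refine h1 fun h3 => hd ?_
    rw [coeff_cw, h3, map_zero]
  · rw [coeff_cw, h2, hπ1]
  · have h3 := cw_mem σ π hπ f I _ hmem (C a)
    have h4 : C a * (h * X v) ^ N = (C a * h ^ N) * map σ (X v ^ N) := by
      rw [map_pow, map_X]
      ring
    rw [h4, cw_mul_map σ π hπ] at h3
    exact h3

end descend

variable {p : ℕ} [Fact p.Prime]

attribute [local instance] msZ bsZ

variable {V J : Type} [Fintype V] [DecidableEq V] [Fintype J] [DecidableEq J]

/-- The embedding of `ℤ_p` in the complex numbers. -/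
noncomputable def emC (σ : ℚ_[p] →+* ℂ) : ℤ_[p] →+* ℂ := σ.comp PadicInt.Coe.ringHom

theorem emC_inj (σ : ℚ_[p] →+* ℂ) : Function.Injective (emC σ) := by
  intro a b h
  exact Subtype.ext (σ.injective h)

theorem eval_emC {R S : Type} [CommRing R] [CommRing S] (φ : R →+* S) (g : MvPolynomial V R)
    (x : V → R) : eval (fun v => φ (x v)) (map φ g) = φ (eval x g) := by
  induction g using MvPolynomial.induction_on with
  | C a => simp
  | add f g hf hg => rw [map_add, map_add, map_add, hf, hg, map_add]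
  | mul_X f i hf => rw [map_mul, map_mul, map_mul, hf, map_X, eval_X, eval_X, map_mul]

theorem aeval_emC (σ : ℚ_[p] →+* ℂ) (g : MvPolynomial V ℤ_[p]) (x : V → ℤ_[p]) :
    aeval (fun v => emC σ (x v)) (map (emC σ) g) = emC σ (eval x g) := by
  rw [aeval_eq_eval, eval_emC]

theorem ncat_of_snc (σ : ℚ_[p] →+* ℂ) (g : J → MvPolynomial V ℤ_[p]) (x : V → ℤ_[p])
    (h : SNCAt' (fun j => map (emC σ) (g j)) (fun v => emC σ (x v))) : NCat g x := by
  intro I hI
  have h1 : ∀ j ∈ I, aeval (fun v => emC σ (x v)) (map (emC σ) (g j)) = 0 := by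
    intro j hj
    rw [aeval_emC, hI j hj, map_zero]
  have h2 := LinearIndependent.comp h
    (fun t : I => (⟨t.1, h1 t.1 t.2⟩ : {j // aeval (fun v => emC σ (x v))
      (map (emC σ) (g j)) = 0}))
    (fun s t h => Subtype.ext (by simpa using congrArg Subtype.val h))
  obtain ⟨u, hu⟩ := exists_minor _ h2
  refine ⟨u, fun h0 => hu ?_⟩
  have h3 := aeval_emC σ (minor g I u) x
  rw [h0, map_minor, map_zero, aeval_minor] at h3
  exact h3

theorem ncat_iff_snc (σ : ℚ_[p] →+* ℂ) (g : J → MvPolynomial V ℤ_[p]) (x : V → ℤ_[p])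
    (h : NCat g x) : SNCAt' (fun j => map (emC σ) (g j)) (fun v => emC σ (x v)) := by
  classical
  obtain ⟨u, hu⟩ := h (Finset.univ.filter fun j => eval x (g j) = 0)
    (fun j hj => (Finset.mem_filter.mp hj).2)
  have hu' : aeval (fun v => emC σ (x v)) (minor (fun j => map (emC σ) (g j))
      (Finset.univ.filter fun j => eval x (g j) = 0) u) ≠ 0 := by
    rw [← map_minor, aeval_emC]
    exact fun h0 => hu (emC_inj σ (h0.trans (map_zero _).symm))
  rw [aeval_minor] at hu'
  have h2 := indep_of_minor (fun (t : {j // j ∈ Finset.univ.filter fun j => eval x (g j) = 0})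
    (v : V) => aeval (fun v => emC σ (x v)) (pderiv v (map (emC σ) (g t.1)))) u hu'
  have h3 := LinearIndependent.comp h2 (fun j : {j // aeval (fun v => emC σ (x v))
      (map (emC σ) (g j)) = 0} => (⟨j.1, by
        have := j.2
        rw [aeval_emC] at this
        exact Finset.mem_filter.mpr ⟨Finset.mem_univ _,
          emC_inj σ (this.trans (map_zero _).symm)⟩⟩ :
      {j // j ∈ Finset.univ.filter fun j => eval x (g j) = 0}))
    (fun s t h => Subtype.ext (by simpa using congrArg Subtype.val h))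
  exact h3

/-- Polynomials in the variables of weight zero do not vanish near a point where they do not
vanish. -/
theorem small_ne (w : V → ℕ) (H : MvPolynomial V ℚ_[p]) (hH : IsWeightedHomogeneous w H 0)
    (h0 : coeff 0 H ≠ 0) :
    ∃ M : ℕ, ∀ y ∈ Sml (p := p) w M, eval (fun v => (y v : ℚ_[p])) H ≠ 0 := by
  have h1 : IsOpen {z : V → ℚ_[p] | eval z H ≠ 0} :=
    isOpen_ne_fun (MvPolynomial.continuous_eval H) continuous_const
  have h2 : (0 : V → ℚ_[p]) ∈ {z : V → ℚ_[p] | eval z H ≠ 0} := by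
    show eval 0 H ≠ 0
    rw [eval_zero, constantCoeff_eq]
    exact h0
  obtain ⟨ε, hε, hb⟩ := Metric.isOpen_iff.mp h1 0 h2
  have hp1 : (1 : ℝ) < p := by exact_mod_cast (Fact.out : p.Prime).one_lt
  obtain ⟨M, hM⟩ := exists_pow_lt_of_lt_one hε (inv_lt_one_of_one_lt₀ hp1)
  refine ⟨M, fun y hy => ?_⟩
  set z : V → ℚ_[p] := fun v => if w v = 0 then (y v : ℚ_[p]) else 0 with hz
  have h3 : eval (fun v => (y v : ℚ_[p])) H = eval z H := by
    refine eval₂Hom_congr' rfl (fun i hi _ => ?_) rfl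
    obtain ⟨d, hd, hid⟩ := (mem_vars_iff_mem_support i).mp hi
    have h4 := hH (mem_support_iff.mp hd)
    rw [Finsupp.weight_apply, Finsupp.sum_fintype _ _ (by simp)] at h4
    have h5 := (Finset.sum_eq_zero_iff.mp h4) i (Finset.mem_univ i)
    rw [smul_eq_mul, mul_eq_zero] at h5
    have h6 : w i = 0 := h5.resolve_left (Finsupp.mem_support_iff.mp hid)
    simp only [hz, if_pos h6]
  rw [h3]
  refine hb ?_
  rw [mem_ball_zero_iff, pi_norm_lt_iff hε]
  intro v
  by_cases hv : w v = 0
  · simp only [hz, if_pos hv]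
    have h4 := hy v hv
    rw [dvd_iff_norm, PadicInt.norm_p_pow] at h4
    refine lt_of_le_of_lt ?_ hM
    rw [inv_pow, ← zpow_natCast, ← zpow_neg]
    exact h4
  · simp only [hz, if_neg hv, norm_zero]
    exact hε

/-- Normal crossings near the centre over `ℤ_p`. -/
theorem near_prim (σ : ℚ_[p] →+* ℂ) (w : V → ℕ) (g : J → MvPolynomial V ℤ_[p])
    (h : MvPolynomial V ℂ) (hh : IsWeightedHomogeneous w h 0) (h0 : coeff 0 h ≠ 0)
    (hsnc : ∀ y : V → ℂ, aeval y h ≠ 0 → (∃ v, 0 < w v ∧ y v ≠ 0) →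
      SNCAt' (fun j => map (emC σ) (g j)) y) :
    ∃ M, ∀ y ∈ Sml w M, (∃ v, 0 < w v ∧ y v ≠ 0) → NCat g y := by
  classical
  set gk : J → MvPolynomial V ℚ_[p] := fun j => map PadicInt.Coe.ringHom (g j) with hgk
  have hgk2 : ∀ j, map σ (gk j) = map (emC σ) (g j) := fun j => by
    rw [hgk, map_map]; rfl
  have key : ∀ (I : Finset J) (v : {v : V // 0 < w v}), ∃ M : ℕ, ∀ y ∈ Sml w M, y v.1 ≠ 0 →
      (∀ j ∈ I, eval y (g j) = 0) → ∃ u : I → V, eval y (minor g I u) ≠ 0 := by
    rintro I ⟨v, hv⟩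
    obtain ⟨N, hN⟩ := cert1 (K := ℂ) (fun j => map (emC σ) (g j)) (h * X v) (fun P hP => by
      rw [map_mul, aeval_X] at hP
      exact hsnc P (left_ne_zero_of_mul hP) ⟨v, hv, right_ne_zero_of_mul hP⟩) I
    have hN' : (h * X v) ^ N ∈ certIdeal (fun j => map σ (gk j)) I := by
      simp only [hgk2]
      exact hN
    obtain ⟨H, hH1, hH2, hH3⟩ := descend_cert σ w gk I h hh h0 v N hN'
    obtain ⟨M, hM⟩ := small_ne (p := p) w H hH1 (by rw [hH2]; exact one_ne_zero)
    refine ⟨M, fun y hy hyv hI => ?_⟩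
    by_contra hne
    push Not at hne
    have h2 : certIdeal gk I ≤ RingHom.ker (eval fun v => (y v : ℚ_[p])) := by
      rw [certIdeal, Ideal.span_le]
      rintro q (⟨j, hj, rfl⟩ | ⟨u, rfl⟩)
      · show eval (fun v => (y v : ℚ_[p])) (gk j) = 0
        have := eval_emC (PadicInt.Coe.ringHom (p := p)) (g j) y
        rw [hI j hj, map_zero] at this
        exact this
      · show eval (fun v => (y v : ℚ_[p])) (minor gk I u) = 0
        have := eval_emC (PadicInt.Coe.ringHom (p := p)) (minor g I u) y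
        rw [hne u, map_zero, map_minor] at this
        exact this
    have h3 := h2 hH3
    rw [RingHom.mem_ker, map_mul, map_pow, eval_X] at h3
    refine mul_ne_zero (hM y hy) (pow_ne_zero _ ?_) h3
    exact fun h4 => hyv (Subtype.ext h4)
  choose Mf hMf using key
  refine ⟨∑ I, ∑ v, Mf I v, fun y hy hpos I hI => ?_⟩
  obtain ⟨v, hv, hyv⟩ := hpos
  refine hMf I ⟨v, hv⟩ y (fun u hu => (pow_dvd_pow _ ?_).trans (hy u hu)) hyv hI
  have h1 := Finset.single_le_sum (f := fun I => ∑ v, Mf I v) (fun _ _ => Nat.zero_le _)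
    (Finset.mem_univ I)
  have h2 := Finset.single_le_sum (f := fun v => Mf I v) (fun _ _ => Nat.zero_le _)
    (Finset.mem_univ (⟨v, hv⟩ : {v : V // 0 < w v}))
  exact h2.trans h1

end Pool.Agent.L0h21.SN
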