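import Mathlib

/-! Twisted divergences of vector fields and bivector fields with polynomial coefficients. -/

set_option autoImplicit false
set_option linter.unusedSectionVars false

namespace Pool.Agent.L0h21.SN

open MvPolynomial

variable {σ K : Type} [Fintype σ] [Field K] [CharZero K]

/-- The derivative of `g` along `w`. -/
noncomputable def act (w : σ → MvPolynomial σ K) (g : MvPolynomial σ K) : MvPolynomial σ K :=
  ∑ v, w v * pderiv v g

/-- The divergence. -/
noncomputable def dvg (w : σ → MvPolynomial σ K) : MvPolynomial σ K := ∑ v, pderiv v (w v)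

/-- The contraction of a bivector field with the differential of `g`. -/
noncomputable def ctr (b : σ → σ → MvPolynomial σ K) (g : MvPolynomial σ K) :
    σ → MvPolynomial σ K := fun v => ∑ u, pderiv u g * b u v

/-- The divergence of a bivector field. -/
noncomputable def dvb (b : σ → σ → MvPolynomial σ K) : σ → MvPolynomial σ K :=
  fun v => ∑ u, pderiv u (b u v)

theorem anti_sum {ι : Type} (s : Finset ι) (a : ι → ι → MvPolynomial σ K)
    (h : ∀ i ∈ s, ∀ j ∈ s, a i j = - a j i) : ∑ i ∈ s, ∑ j ∈ s, a i j = 0 := by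
  have h1 : ∑ i ∈ s, ∑ j ∈ s, a i j = - ∑ i ∈ s, ∑ j ∈ s, a i j := by
    calc ∑ i ∈ s, ∑ j ∈ s, a i j = ∑ i ∈ s, ∑ j ∈ s, - a j i :=
          Finset.sum_congr rfl fun i hi => Finset.sum_congr rfl fun j hj => h i hi j hj
      _ = - ∑ i ∈ s, ∑ j ∈ s, a j i := by simp
      _ = - ∑ i ∈ s, ∑ j ∈ s, a i j := by rw [Finset.sum_comm]
  have h2 : (2 : MvPolynomial σ K) * ∑ i ∈ s, ∑ j ∈ s, a i j = 0 := by
    rw [two_mul]; nth_rewrite 1 [h1]; ring
  exact (mul_eq_zero.mp h2).resolve_left two_ne_zero

variable (b : σ → σ → MvPolynomial σ K) (hb : ∀ u v, b u v = - b v u)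

theorem pderiv_comm' (u v : σ) (g : MvPolynomial σ K) :
    pderiv u (pderiv v g) = pderiv v (pderiv u g) := by
  classical
  have h : ⁅(pderiv u : Derivation K (MvPolynomial σ K) (MvPolynomial σ K)),
      (pderiv v : Derivation K (MvPolynomial σ K) (MvPolynomial σ K))⁆ = 0 := by
    apply MvPolynomial.derivation_ext
    intro i
    rw [Derivation.commutator_apply, pderiv_X, pderiv_X]
    by_cases h1 : i = v <;> by_cases h2 : i = u <;> simp [Pi.single_apply, h1, h2]
    all_goals split_ifs <;> simp
  have h2 := congrArg (fun D : Derivation K (MvPolynomial σ K) (MvPolynomial σ K) => D g) h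
  simp only [Derivation.commutator_apply, Derivation.coe_zero, Pi.zero_apply] at h2
  exact sub_eq_zero.mp h2

include hb

theorem dvg_dvb : dvg (dvb b) = 0 := by
  simp only [dvg, dvb, map_sum]
  apply anti_sum
  intro u _ v _
  rw [hb v u, map_neg, map_neg, pderiv_comm']

theorem act_dvb (g : MvPolynomial σ K) : act (dvb b) g = - dvg (ctr b g) := by
  have h1 : ∑ v, ∑ u, pderiv v (pderiv u g) * b u v = 0 := by
    apply anti_sum
    intro u _ v _
    rw [hb v u, pderiv_comm' u v]
    ring
  have h2 : dvg (ctr b g) = ∑ v, ∑ u, pderiv v (pderiv u g) * b u v +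
      ∑ v, ∑ u, pderiv u g * pderiv v (b u v) := by
    simp only [dvg, ctr, map_sum, Derivation.leibniz, smul_eq_mul, ← Finset.sum_add_distrib]
    refine Finset.sum_congr rfl fun v _ => Finset.sum_congr rfl fun u _ => ?_
    ring
  rw [h2, h1, zero_add, Finset.sum_comm]
  simp only [act, dvb, Finset.sum_mul, ← Finset.sum_neg_distrib]
  refine Finset.sum_congr rfl fun v _ => Finset.sum_congr rfl fun u _ => ?_
  rw [hb v u, map_neg]
  ring

theorem act_ctr (g h : MvPolynomial σ K) : act (ctr b g) h = - act (ctr b h) g := by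
  simp only [act, ctr, Finset.sum_mul, ← Finset.sum_neg_distrib]
  rw [Finset.sum_comm]
  refine Finset.sum_congr rfl fun v _ => Finset.sum_congr rfl fun u _ => ?_
  rw [hb v u]
  ring

theorem act_ctr_self (g : MvPolynomial σ K) : act (ctr b g) g = 0 := by
  have h1 := act_ctr b hb g g
  have h2 : (2 : MvPolynomial σ K) * act (ctr b g) g = 0 := by
    rw [two_mul]; nth_rewrite 1 [h1]; ring
  exact (mul_eq_zero.mp h2).resolve_left two_ne_zero

omit hb

theorem act_smul (f : MvPolynomial σ K) (u : σ → MvPolynomial σ K) (g : MvPolynomial σ K) :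
    act (fun v => f * u v) g = f * act u g := by
  simp only [act, Finset.mul_sum]
  exact Finset.sum_congr rfl fun v _ => by ring

theorem act_add (u w : σ → MvPolynomial σ K) (g : MvPolynomial σ K) :
    act (fun v => u v + w v) g = act u g + act w g := by
  simp only [act, ← Finset.sum_add_distrib]
  exact Finset.sum_congr rfl fun v _ => by ring

theorem act_sum {ι : Type} (s : Finset ι) (u : ι → σ → MvPolynomial σ K) (g : MvPolynomial σ K) :
    act (fun v => ∑ i ∈ s, u i v) g = ∑ i ∈ s, act (u i) g := by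
  simp only [act, Finset.sum_mul]
  rw [Finset.sum_comm]

theorem dvg_smul (f : MvPolynomial σ K) (u : σ → MvPolynomial σ K) :
    dvg (fun v => f * u v) = f * dvg u + act u f := by
  simp only [dvg, act, Finset.mul_sum, ← Finset.sum_add_distrib, Derivation.leibniz, smul_eq_mul]

/-- The twisted divergence of a logarithmic bivector field `b` (`f i * u i = ctr b (f i)`). -/
noncomputable def tdv {J : Type} (b : σ → σ → MvPolynomial σ K) (I : Finset J) (β : J → K)
    (u : J → σ → MvPolynomial σ K) : σ → MvPolynomial σ K :=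
  fun v => dvb b v - ∑ i ∈ I, C (β i) * u i v

theorem act_tdv {J : Type} (I : Finset J) (β : J → K) (u : J → σ → MvPolynomial σ K)
    (g : MvPolynomial σ K) :
    act (tdv b I β u) g = act (dvb b) g - ∑ i ∈ I, C (β i) * act (u i) g := by
  have h : tdv b I β u = fun v => dvb b v + (-1 : MvPolynomial σ K) *
      ∑ i ∈ I, C (β i) * u i v := by
    funext v; simp only [tdv]; ring
  rw [h, act_add (dvb b) (fun v => (-1 : MvPolynomial σ K) * ∑ i ∈ I, C (β i) * u i v),
    act_smul (-1) (fun v => ∑ i ∈ I, C (β i) * u i v), act_sum I (fun i v => C (β i) * u i v)]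
  simp only [act_smul]
  ring

theorem dvg_tdv {J : Type} (I : Finset J) (β : J → K) (u : J → σ → MvPolynomial σ K) :
    dvg (tdv b I β u) = dvg (dvb b) - ∑ i ∈ I, C (β i) * dvg (u i) := by
  simp only [tdv, dvg, map_sub, map_sum, Finset.sum_sub_distrib, Finset.mul_sum]
  congr 1
  rw [Finset.sum_comm]
  refine Finset.sum_congr rfl fun v _ => Finset.sum_congr rfl fun u _ => ?_
  rw [Derivation.leibniz, pderiv_C]
  simp

include hb

/-- The calculus of twisted divergences. -/
theorem tdv_main {J : Type} [DecidableEq J] (f : J → MvPolynomial σ K) (hf : ∀ i, f i ≠ 0)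
    (cop : ∀ i j, i ≠ j → ∀ r, f i ∣ f j * r → f i ∣ r) (I : Finset J) (β : J → K)
    (u : J → σ → MvPolynomial σ K) (hu : ∀ i ∈ I, ∀ v, ctr b (f i) v = f i * u i v) :
    (∃ h : J → MvPolynomial σ K, (∀ i ∈ I, act (tdv b I β u) (f i) = h i * f i) ∧
      dvg (tdv b I β u) - ∑ i ∈ I, C (β i) * h i = 0) ∧
    ∀ (g : MvPolynomial σ K) (h : J → MvPolynomial σ K),
      (∀ i ∈ I, act (ctr b g) (f i) = h i * f i) →
      act (tdv b I β u) g = - (dvg (ctr b g) - ∑ i ∈ I, C (β i) * h i) := by
  have hu' : ∀ i ∈ I, ctr b (f i) = fun v => f i * u i v := fun i hi => funext (hu i hi)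
  have h1 : ∀ i ∈ I, ∀ l ∈ I, f l * act (u l) (f i) = - (f i * act (u i) (f l)) := by
    intro i hi l hl
    rw [← act_smul, ← act_smul, ← hu' l hl, ← hu' i hi, act_ctr b hb]
  have h2 : ∀ i ∈ I, act (u i) (f i) = 0 := by
    intro i hi
    have := act_ctr_self b hb (f i)
    rw [hu' i hi, act_smul] at this
    exact (mul_eq_zero.mp this).resolve_left (hf i)
  have h3 : ∀ i ∈ I, ∀ l ∈ I, ∃ g, act (u l) (f i) = f i * g := by
    intro i hi l hl
    by_cases hil : i = l
    · subst hil
      exact ⟨0, by rw [h2 i hi, mul_zero]⟩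
    · exact cop i l hil _ ⟨- act (u i) (f l), by rw [h1 i hi l hl]; ring⟩
  have h4 : ∃ g : J → J → MvPolynomial σ K, ∀ i ∈ I, ∀ l ∈ I, act (u l) (f i) = f i * g i l := by
    classical
    refine ⟨fun i l => if h : i ∈ I ∧ l ∈ I then (h3 i h.1 l h.2).choose else 0, ?_⟩
    intro i hi l hl
    simp only [hi, hl, and_self, dif_pos]
    exact (h3 i hi l hl).choose_spec
  obtain ⟨g, hg⟩ := h4
  have h5 : ∀ i ∈ I, ∀ l ∈ I, g i l = - g l i := by
    intro i hi l hl
    have := h1 i hi l hl
    rw [hg i hi l hl, hg l hl i hi] at this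
    have h6 : (f l * f i) * (g i l + g l i) = 0 := by linear_combination this
    have h7 := (mul_eq_zero.mp h6).resolve_left (mul_ne_zero (hf l) (hf i))
    exact eq_neg_of_add_eq_zero_left h7
  refine ⟨⟨fun i => - dvg (u i) - ∑ l ∈ I, C (β l) * g i l, ?_, ?_⟩, ?_⟩
  · intro i hi
    rw [act_tdv, act_dvb b hb, hu' i hi, dvg_smul, h2 i hi]
    have : ∑ l ∈ I, C (β l) * act (u l) (f i) = f i * ∑ l ∈ I, C (β l) * g i l := by
      rw [Finset.mul_sum]
      exact Finset.sum_congr rfl fun l hl => by rw [hg i hi l hl]; ring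
    rw [this]
    ring
  · rw [dvg_tdv, dvg_dvb b hb]
    have : ∑ i ∈ I, ∑ l ∈ I, C (β i) * (C (β l) * g i l) = 0 := by
      apply anti_sum
      intro i hi l hl
      rw [h5 i hi l hl]
      ring
    simp only [mul_sub, mul_neg, Finset.sum_sub_distrib, Finset.sum_neg_distrib, Finset.mul_sum,
      this]
    ring
  · intro g' h hh
    rw [act_tdv, act_dvb b hb]
    have : ∀ i ∈ I, act (u i) g' = - h i := by
      intro i hi
      have h8 := act_ctr b hb (f i) g'
      rw [hu' i hi, act_smul, hh i hi] at h8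
      have h9 : f i * (act (u i) g' + h i) = 0 := by linear_combination h8
      exact eq_neg_of_add_eq_zero_left ((mul_eq_zero.mp h9).resolve_left (hf i))
    rw [Finset.sum_congr rfl fun i hi => by rw [this i hi]]
    simp only [mul_neg, Finset.sum_neg_distrib]
    ring

end Pool.Agent.L0h21.SN
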