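import Pool.Agent.L0h21.SN.Spec

/-! The root `-|w| / d`. -/

set_option autoImplicit false
set_option linter.unusedSectionVars false

namespace Pool.Agent.L0h21.SN

open MvPolynomial Pool.Agent.H628R4.TP

variable {σ J K : Type} [Fintype σ] [DecidableEq σ] [Fintype J] [DecidableEq J] [Field K]
  [CharZero K] [IsAlgClosed K] [Algebra ℂ K]

/-- The root `-|w| / d` of the Bernstein-Sato polynomial of `f = c ∏ f_j ^ m_j`, where the `f_j` are
weighted homogeneous, with weights which may be zero, if for some values of the variables of weight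
zero the zero loci cross each other normally outside of the origin, but not at the origin. -/
theorem root_spec (w : σ → ℕ) (P : σ → K) (f : J → MvPolynomial σ ℂ) (e : J → ℕ)
    (hhom : ∀ j, IsWeightedHomogeneous w (f j) (e j)) (m : J → ℕ) (hm : ∀ j, 0 < m j)
    (c : ℂ) (hc : c ≠ 0) (hd : 0 < ∑ j, m j * e j) (hcard : 2 ≤ Fintype.card (Pos w))
    (hne : ∀ j, e j = 0 → aeval P (f j) ≠ 0)
    (hsnc : ∀ x : Pos w → K, x ≠ 0 → SNCAt (fun j : {j // 0 < e j} => sp w P (f j.1)) x)
    (hdep : ∃ l : {j // 0 < e j} → K, l ≠ 0 ∧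
      ∀ v, ∑ i, l i * constantCoeff (pderiv v (sp w P (f i.1))) = 0)
    (b : Polynomial ℂ) (hb : IsBFunction (C c * ∏ j, f j ^ m j) b) :
    b.eval (-((∑ v, w v : ℕ) : ℂ) / (∑ j, m j * e j : ℕ)) = 0 := by
  set W : ℕ := ∑ v, w v with hW
  set d : ℕ := ∑ j, m j * e j with hdd
  set s₀ : ℂ := -(W : ℂ) / d with hs₀
  have hd' : (d : ℂ) ≠ 0 := by exact_mod_cast hd.ne'
  have hWpos : 0 < W := by
    have h1 : 0 < Fintype.card (Pos w) := by omega
    obtain ⟨v⟩ := Fintype.card_pos_iff.mp h1
    exact lt_of_lt_of_le v.2 (Finset.single_le_sum (fun _ _ => Nat.zero_le _) (Finset.mem_univ v.1))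
  -- the logarithmic structure
  let w' : Pos w → ℕ := fun v => w v.1
  let f' : {j // 0 < e j} → MvPolynomial (Pos w) K := fun j => sp w P (f j.1)
  obtain ⟨D, hDf, hDE, hDφ⟩ := exists_SNData w' (fun v => v.2) f' (fun j => e j.1)
    (fun j => j.2) (fun j => sp_hom w P (hhom j.1)) hcard hsnc
  have hf'0 : ∀ j, f' j ≠ 0 := fun j => by rw [← hDf]; exact D.hf j
  have hfj0 : ∀ j, sp w P (f j) ≠ 0 := by
    intro j
    by_cases hj : 0 < e j
    · exact hf'0 ⟨j, hj⟩
    · have h0 : e j = 0 := by omega
      have h1 := hhom j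
      rw [h0] at h1
      rw [sp_zero w P h1]
      intro h2
      exact hne j h0 (C_injective _ _ (by rw [h2, map_zero]))
  have hf0 : (C c * ∏ j, f j ^ m j : MvPolynomial σ ℂ) ≠ 0 := by
    refine mul_ne_zero ?_ (Finset.prod_ne_zero_iff.mpr fun j _ => pow_ne_zero _ fun h => ?_)
    · intro h
      exact hc (C_injective _ _ (by rw [h, map_zero]))
    · exact hfj0 j (by rw [h, map_zero])
  have hfhom : IsWeightedHomogeneous w (C c * ∏ j, f j ^ m j : MvPolynomial σ ℂ) d := by
    refine IsWeightedHomogeneous.C_mul ?_ _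
    refine IsWeightedHomogeneous.prod _ _ _ fun j _ => ?_
    have := (hhom j).pow (m j)
    simpa using this
  obtain ⟨k, g, hg0, hg⟩ := fe_div w _ d hd hfhom hf0 b hb s₀
  -- specialization
  have h1 := congrArg (sp w P) hg
  simp only [map_mul, map_pow, map_add, sp_C, act_sp w P g hg0, dvg_sp w P g hg0] at h1
  set g' : Pos w → MvPolynomial (Pos w) K := fun v => sp w P (g v.1) with hg'
  -- the product
  let c' : K := algebraMap ℂ K c * ∏ j : {j // ¬ 0 < e j}, (aeval P (f j.1)) ^ m j.1
  have hc' : c' ≠ 0 := by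
    refine mul_ne_zero ?_ (Finset.prod_ne_zero_iff.mpr fun j _ => pow_ne_zero _
      (hne j.1 (by have := j.2; omega)))
    intro h
    exact hc ((algebraMap ℂ K).injective (by rw [h, map_zero]))
  have h2 : sp w P (∏ j, f j ^ m j) * C (algebraMap ℂ K c) =
      C c' * ∏ j : {j // 0 < e j}, D.f j ^ m j.1 := by
    rw [map_prod, hDf, ← Fintype.prod_subtype_mul_prod_subtype (fun j => 0 < e j)]
    have h3 : ∏ j : {j // ¬ 0 < e j}, sp w P (f j.1 ^ m j.1) =
        C (∏ j : {j // ¬ 0 < e j}, (aeval P (f j.1)) ^ m j.1) := by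
      rw [map_prod]
      refine Finset.prod_congr rfl fun j _ => ?_
      have h0 : e j.1 = 0 := by have := j.2; omega
      have h4 := hhom j.1
      rw [h0] at h4
      rw [map_pow, sp_zero w P h4, C_pow]
    rw [h3]
    simp only [map_pow, c', map_mul]
    ring
  have h3 : C (algebraMap ℂ K c) * ∏ j, sp w P (f j) ^ m j =
      C c' * ∏ j : {j // 0 < e j}, D.f j ^ m j.1 := by
    rw [← h2, map_prod]
    simp only [map_pow]
    ring
  simp only [map_prod, map_pow] at h1
  rw [h3] at h1
  have hs₀k : algebraMap ℂ K s₀ - k ≠ 0 := by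
    have h4 : algebraMap ℂ K s₀ - k = algebraMap ℂ K (s₀ - k) := by
      rw [map_sub, map_natCast]
    rw [h4]
    intro h5
    have h6 : s₀ - k = 0 := (algebraMap ℂ K).injective (by rw [h5, map_zero])
    have h7 : s₀ = k := sub_eq_zero.mp h6
    rw [hs₀, div_eq_iff hd'] at h7
    have h8 : ((W + k * d : ℕ) : ℂ) = 0 := by
      push_cast
      linear_combination -h7
    have h9 : W + k * d = 0 := by exact_mod_cast h8
    omega
  have h4 : C (algebraMap ℂ K (b.eval s₀)) * (C c' * ∏ j : {j // 0 < e j}, D.f j ^ m j.1) ^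
      (k + 1) = (C c' * ∏ j : {j // 0 < e j}, D.f j ^ m j.1) * dvg g' +
      C (algebraMap ℂ K s₀ - k) * act g' (C c' * ∏ j : {j // 0 < e j}, D.f j ^ m j.1) := by
    rw [h1]
    simp only [map_sub, map_natCast]
  have h5 := isDiv_of_fe D (fun j => m j.1) (fun j => hm j.1) c' hc' _ _ k hs₀k g' h4
  have h6 : algebraMap ℂ K (b.eval s₀) * c' ^ k = 0 := by
    refine core w' D (fun j => e j.1) (fun j => j.2) hDE (fun i g => by rw [hDφ, hDf])
      (fun j => by rw [hDf]; exact sp_hom w P (hhom j.1)) _ ?_ _ ?_ ?_ ?_ _ h5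
    · -- the weights
      have h7 : (∑ v : Pos w, w' v) = W := by
        rw [hW]
        exact (sum_pos w w (fun v hv => hv)).symm
      rw [h7]
      have h8 : ∑ j : {j // 0 < e j}, m j.1 * e j.1 = d := by
        rw [hdd, ← Fintype.sum_subtype_add_sum_subtype (fun j => 0 < e j)]
        have : ∑ j : {j // ¬ 0 < e j}, m j.1 * e j.1 = 0 :=
          Finset.sum_eq_zero fun j _ => by
            have : e j.1 = 0 := by have := j.2; omega
            rw [this, mul_zero]
        rw [this, add_zero]
      have h9 : ∑ j : {j // 0 < e j}, -algebraMap ℂ K s₀ * (m j.1 : K) * (e j.1 : K) =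
          -algebraMap ℂ K s₀ * (d : K) := by
        rw [← h8]
        push_cast
        rw [Finset.mul_sum]
        exact Finset.sum_congr rfl fun j _ => by ring
      rw [h9]
      have h10 : -algebraMap ℂ K s₀ * (d : K) = algebraMap ℂ K (-s₀ * d) := by
        rw [map_mul, map_neg, map_natCast]
      rw [h10, hs₀]
      have h11 : -(-(W : ℂ) / d) * d = W := by field_simp
      rw [h11, map_natCast]
    · intro j n h7
      have h8 : -algebraMap ℂ K s₀ * (m j.1 : K) + n = algebraMap ℂ K (-s₀ * m j.1 + n) := by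
        rw [map_add, map_mul, map_neg, map_natCast, map_natCast]
      rw [h8] at h7
      have h9 : -s₀ * m j.1 + n = 0 := (algebraMap ℂ K).injective (by rw [h7, map_zero])
      rw [hs₀] at h9
      have h10 : ((W * m j.1 + n * d : ℕ) : ℂ) = 0 := by
        push_cast
        field_simp at h9
        linear_combination h9
      have h11 : W * m j.1 + n * d = 0 := by exact_mod_cast h10
      have h12 : 0 < W * m j.1 := Nat.mul_pos hWpos (hm j.1)
      omega
    · rw [hDf]
      exact hdep
    · intro j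
      rw [hDf]
      have h7 := sp_hom w P (hhom j.1)
      rw [constantCoeff_eq]
      by_contra hne
      have := h7 hne
      rw [map_zero] at this
      have := j.2
      omega
  have h7 := (mul_eq_zero.mp h6).resolve_right (pow_ne_zero _ hc')
  exact (algebraMap ℂ K).injective (by rw [h7, map_zero])

end Pool.Agent.L0h21.SN
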