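import Pool.Agent.L0h21.SN.FE2
import Pool.Agent.L0h21.SN.Geom

/-! Specialization of the variables of weight zero. -/

set_option autoImplicit false
set_option linter.unusedSectionVars false

namespace Pool.Agent.L0h21.SN

open MvPolynomial Pool.Agent.H628R4.TP

section Sp

variable {σ : Type} [Fintype σ] [DecidableEq σ] (w : σ → ℕ) {K : Type} [Field K] [Algebra ℂ K]
  (P : σ → K)

/-- The variables of positive weight. -/
abbrev Pos : Type := {v : σ // 0 < w v}

/-- The specialization of the variables of weight zero to the values `P v`. -/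
noncomputable def sp : MvPolynomial σ ℂ →+* MvPolynomial (Pos w) K :=
  eval₂Hom (C.comp (algebraMap ℂ K)) (fun v => if h : 0 < w v then X ⟨v, h⟩ else C (P v))

theorem sp_C (c : ℂ) : sp w P (C c) = C (algebraMap ℂ K c) := by simp [sp]

theorem sp_X_pos (v : σ) (h : 0 < w v) : sp w P (X v) = X ⟨v, h⟩ := by simp [sp, h]

theorem sp_X_zero (v : σ) (h : ¬ 0 < w v) : sp w P (X v) = C (P v) := by simp [sp, h]

theorem sp_pderiv (v : Pos w) (g : MvPolynomial σ ℂ) :
    pderiv v (sp w P g) = sp w P (pderiv v.1 g) := by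
  induction g using MvPolynomial.induction_on with
  | C c => simp [sp_C]
  | add p q hp hq => rw [map_add, map_add, map_add, map_add, hp, hq]
  | mul_X p i hp =>
    have h1 : pderiv v (sp w P (X i)) = sp w P (pderiv v.1 (X i)) := by
      by_cases hi : 0 < w i
      · rw [sp_X_pos w P i hi, pderiv_X, pderiv_X]
        by_cases h : (⟨i, hi⟩ : Pos w) = v
        · have h2 : i = v.1 := congrArg Subtype.val h
          subst h
          simp
        · have h2 : i ≠ v.1 := fun h3 => h (Subtype.ext h3)
          simp [Pi.single_apply, h, h2]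
      · have h2 : i ≠ v.1 := fun h3 => hi (h3 ▸ v.2)
        rw [sp_X_zero w P i hi, pderiv_C, pderiv_X]
        simp [Pi.single_apply, h2]
    rw [map_mul, Derivation.leibniz, Derivation.leibniz, map_add]
    simp only [smul_eq_mul, map_mul, hp, h1]

theorem sp_hom {g : MvPolynomial σ ℂ} {d : ℕ} (hg : IsWeightedHomogeneous w g d) :
    IsWeightedHomogeneous (fun v : Pos w => w v.1) (sp w P g) d := by
  classical
  rw [g.as_sum, map_sum]
  refine IsWeightedHomogeneous.sum _ _ _ fun m hm => ?_
  have hwt := hg (mem_support_iff.mp hm)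
  rw [monomial_eq, map_mul, sp_C]
  refine IsWeightedHomogeneous.C_mul ?_ _
  rw [Finsupp.prod_fintype _ _ (by simp), map_prod]
  have h1 : d = ∑ v, m v * w v := by
    rw [← hwt, Finsupp.weight_apply, Finsupp.sum_fintype _ _ (by simp)]
    simp
  rw [h1]
  refine IsWeightedHomogeneous.prod _ _ _ fun v _ => ?_
  rw [map_pow]
  by_cases hv : 0 < w v
  · rw [sp_X_pos w P v hv]
    have := (isWeightedHomogeneous_X K (fun v : Pos w => w v.1) ⟨v, hv⟩).pow (m v)
    simpa using this
  · rw [sp_X_zero w P v hv, ← C_pow]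
    have h0 : w v = 0 := by omega
    rw [h0, mul_zero]
    exact isWeightedHomogeneous_C _ _

theorem eval_sp (x : Pos w → K) (g : MvPolynomial σ ℂ) :
    eval x (sp w P g) = aeval (fun v => if h : 0 < w v then x ⟨v, h⟩ else P v) g := by
  induction g using MvPolynomial.induction_on with
  | C c => rw [sp_C, eval_C, aeval_C]
  | add p q hp hq => rw [map_add, map_add, map_add, hp, hq]
  | mul_X p i hp =>
    rw [map_mul, map_mul, map_mul, hp, aeval_X]
    by_cases hi : 0 < w i
    · rw [sp_X_pos w P i hi, eval_X, dif_pos hi]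
    · rw [sp_X_zero w P i hi, eval_C, dif_neg hi]

theorem sp_zero {g : MvPolynomial σ ℂ} (hg : IsWeightedHomogeneous w g 0) :
    sp w P g = C (aeval P g) := by
  classical
  have h1 := sp_hom w P hg
  have h2 : sp w P g = C (coeff 0 (sp w P g)) := by
    ext m
    rw [coeff_C]
    split_ifs with hm
    · rw [hm]
    · by_contra hne
      have h3 := h1 hne
      apply hm
      rw [Finsupp.weight_apply, Finsupp.sum_fintype _ _ (by simp)] at h3
      ext v
      have h4 := (Finset.sum_eq_zero_iff.mp h3) v (Finset.mem_univ v)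
      have h5 := v.2
      simp only [smul_eq_mul, mul_eq_zero] at h4
      simp only [Finsupp.coe_zero, Pi.zero_apply]
      omega
  rw [h2]
  congr 1
  have h3 : coeff 0 (sp w P g) = eval (fun v : Pos w => P v.1) (sp w P g) := by
    rw [h2, eval_C, coeff_zero_C]
  rw [h3, eval_sp]
  congr 1
  congr 1
  funext v
  split_ifs <;> rfl

theorem sum_pos {M : Type} [AddCommMonoid M] (F : σ → M) (h : ∀ v, w v = 0 → F v = 0) :
    ∑ v, F v = ∑ v : Pos w, F v.1 := by
  rw [← Finset.sum_filter_of_ne (s := Finset.univ) (f := F) (p := fun v => 0 < w v)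
    (fun v _ hv => Nat.pos_of_ne_zero fun h0 => hv (h v h0))]
  exact Finset.sum_subtype _ (by simp) F

theorem act_sp (g : σ → MvPolynomial σ ℂ) (hg : ∀ v, w v = 0 → g v = 0) (q : MvPolynomial σ ℂ) :
    sp w P (act g q) = act (fun v : Pos w => sp w P (g v.1)) (sp w P q) := by
  rw [act, sum_pos w (fun v => g v * pderiv v q) (fun v hv => by simp [hg v hv]), map_sum, act]
  exact Finset.sum_congr rfl fun v _ => by rw [map_mul, sp_pderiv]

theorem dvg_sp (g : σ → MvPolynomial σ ℂ) (hg : ∀ v, w v = 0 → g v = 0) :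
    sp w P (dvg g) = dvg (fun v : Pos w => sp w P (g v.1)) := by
  rw [dvg, sum_pos w (fun v => pderiv v (g v)) (fun v hv => by simp [hg v hv]), map_sum, dvg]
  exact Finset.sum_congr rfl fun v _ => by rw [sp_pderiv]

end Sp

section Root

variable {σ J K : Type} [Fintype σ] [DecidableEq σ] [Fintype J] [DecidableEq J] [Field K]
  [CharZero K]

theorem dvd_of_prod (D : SNData (MvPolynomial σ K) σ J) (i : J) (m : J → ℕ) (s : Finset J)
    (hs : i ∉ s) (r : MvPolynomial σ K) (h : D.f i ∣ (∏ j ∈ s, D.f j ^ m j) * r) :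
    D.f i ∣ r := by
  induction s using Finset.induction_on generalizing r with
  | empty => simpa using h
  | insert a s ha ih =>
    have hia : i ≠ a := fun h => hs (h ▸ Finset.mem_insert_self _ _)
    have key : ∀ (n : ℕ) (r : MvPolynomial σ K), D.f i ∣ D.f a ^ n * r → D.f i ∣ r := by
      intro n
      induction n with
      | zero => intro r h; simpa using h
      | succ n ihn =>
        intro r h
        rw [pow_succ', mul_assoc] at h
        exact ihn r (D.cop i a hia _ h)
    rw [Finset.prod_insert ha, mul_assoc] at h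
    exact ih (fun h => hs (Finset.mem_insert_of_mem h)) r (key _ _ h)

theorem act_prod (f : J → MvPolynomial σ K) (g : σ → MvPolynomial σ K)
    (h : J → MvPolynomial σ K) (hh : ∀ i, act g (f i) = h i * f i) (m : J → ℕ) (s : Finset J) :
    act g (∏ j ∈ s, f j ^ m j) = (∏ j ∈ s, f j ^ m j) * ∑ j ∈ s, C (m j : K) * h j := by
  have hact_mul : ∀ p q : MvPolynomial σ K, act g (p * q) = p * act g q + q * act g p := by
    intro p q
    simp only [act, Derivation.leibniz, smul_eq_mul, mul_add, Finset.sum_add_distrib,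
      Finset.mul_sum]
    congr 1 <;> exact Finset.sum_congr rfl fun v _ => by ring
  have hact_one : act g (1 : MvPolynomial σ K) = 0 := by simp [act]
  have hact_pow : ∀ (i : J) (n : ℕ), act g (f i ^ n) = f i ^ n * (C (n : K) * h i) := by
    intro i n
    induction n with
    | zero => simp [hact_one]
    | succ n ih =>
      rw [pow_succ, hact_mul, ih, hh]
      push_cast
      rw [map_add, map_one]
      ring
  induction s using Finset.induction_on with
  | empty => simp [hact_one]
  | insert a s ha ih =>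
    rw [Finset.prod_insert ha, Finset.sum_insert ha, hact_mul, ih, hact_pow]
    ring

/-- From the functional equation at `s₀` to a logarithmic vector field. -/
theorem isDiv_of_fe (D : SNData (MvPolynomial σ K) σ J) (m : J → ℕ) (hm : ∀ j, 0 < m j)
    (c : K) (hc : c ≠ 0) (β s₀ : K) (k : ℕ) (hs₀ : s₀ - k ≠ 0) (g : σ → MvPolynomial σ K)
    (h : C β * (C c * ∏ j, D.f j ^ m j) ^ (k + 1) = (C c * ∏ j, D.f j ^ m j) * dvg g +
      C (s₀ - k) * act g (C c * ∏ j, D.f j ^ m j)) :
    IsDiv D.f (fun j => - s₀ * m j) (β * c ^ k) (fun j => k * m j) := by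
  set F := ∏ j, D.f j ^ m j with hF
  have hF0 : F ≠ 0 := Finset.prod_ne_zero_iff.mpr fun j _ => pow_ne_zero _ (D.hf j)
  have hCc : (C c : MvPolynomial σ K) ≠ 0 := fun h0 => hc (C_injective _ _ (by rw [h0, map_zero]))
  have hactC : ∀ q : MvPolynomial σ K, act g (C c * q) = C c * act g q := by
    intro q
    simp only [act, Finset.mul_sum, pderiv_C_mul]
    exact Finset.sum_congr rfl fun v _ => by ring
  have h1 : C (β * c ^ k) * F ^ (k + 1) = F * dvg g + C (s₀ - k) * act g F := by
    refine mul_left_cancel₀ hCc ?_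
    rw [hactC] at h
    rw [map_mul, map_pow]
    linear_combination h
  have hdiv : ∀ i, D.f i ∣ act g (D.f i) := by
    intro i
    have hFi : F = D.f i ^ m i * ∏ j ∈ Finset.univ.erase i, D.f j ^ m j :=
      (Finset.mul_prod_erase _ _ (Finset.mem_univ i)).symm
    set H := ∏ j ∈ Finset.univ.erase i, D.f j ^ m j with hH
    have h2 : act g F = D.f i ^ m i * act g H +
        (m i : MvPolynomial σ K) * D.f i ^ (m i - 1) * act g (D.f i) * H := by
      rw [hFi]
      simp only [act, Derivation.leibniz, Derivation.leibniz_pow, smul_eq_mul, nsmul_eq_mul,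
        mul_add, Finset.sum_add_distrib, Finset.mul_sum, Finset.sum_mul]
      congr 1 <;> exact Finset.sum_congr rfl fun v _ => by ring
    have h3 : D.f i ^ m i ∣ C (s₀ - k) * (m i : MvPolynomial σ K) * D.f i ^ (m i - 1) *
        act g (D.f i) * H := by
      have h4 : C (s₀ - k) * (m i : MvPolynomial σ K) * D.f i ^ (m i - 1) *
          act g (D.f i) * H = C (β * c ^ k) * F ^ (k + 1) - F * dvg g -
            C (s₀ - k) * (D.f i ^ m i * act g H) := by
        rw [h1, h2]; ring
      have hFd : D.f i ^ m i ∣ F := ⟨H, hFi⟩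
      rw [h4]
      exact dvd_sub (dvd_sub ((dvd_pow hFd (by omega)).mul_left _) (hFd.mul_right _))
        ((dvd_mul_right _ _).mul_left _)
    have h5 : D.f i ^ (m i - 1) * D.f i ∣ D.f i ^ (m i - 1) *
        (H * (C (s₀ - k) * (m i : MvPolynomial σ K) * act g (D.f i))) := by
      rw [← pow_succ, Nat.sub_add_cancel (hm i)]
      refine h3.trans (dvd_of_eq ?_)
      ring
    have h6 := (mul_dvd_mul_iff_left (pow_ne_zero _ (D.hf i))).mp h5
    have h7 := dvd_of_prod D i m _ (Finset.notMem_erase i _) _ h6
    have h8 : (C (s₀ - k) * (m i : MvPolynomial σ K)) = C ((s₀ - k) * m i) := by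
      rw [map_mul, map_natCast]
    have h9 : (s₀ - k) * (m i : K) ≠ 0 :=
      mul_ne_zero hs₀ (by exact_mod_cast (hm i).ne')
    rw [h8] at h7
    have h10 := h7.mul_left (C (((s₀ - k) * (m i : K))⁻¹))
    rwa [← mul_assoc, ← map_mul, inv_mul_cancel₀ h9, map_one, one_mul] at h10
  choose a ha using hdiv
  refine ⟨g, a, fun i => by rw [ha, mul_comm], ?_⟩
  have h2 := act_prod D.f g a (fun i => by rw [ha, mul_comm]) m Finset.univ
  rw [← hF] at h2
  rw [h2] at h1
  refine mul_left_cancel₀ hF0 ?_
  have h3 : ∏ i, D.f i ^ (k * m i) = F ^ k := by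
    rw [hF, ← Finset.prod_pow]
    exact Finset.prod_congr rfl fun i _ => by rw [← pow_mul, mul_comm]
  have h4 : ∑ i, C (- s₀ * (m i : K) + ((k * m i : ℕ) : K)) * a i =
      - (C (s₀ - k) * ∑ i, C (m i : K) * a i) := by
    rw [Finset.mul_sum, ← Finset.sum_neg_distrib]
    refine Finset.sum_congr rfl fun i _ => ?_
    rw [← mul_assoc, ← map_mul, ← neg_mul, ← map_neg]
    congr 2
    push_cast
    ring
  rw [h3, h4]
  linear_combination - h1

end Root

end Pool.Agent.L0h21.SN
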